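import Pool.Agent.H89.Perc.Z2

/-!
# Topology, part 1: a left-right path and a bottom-top path of a rectangle meet
-/

namespace Pool.Agent.H89.Perc

/-- An open left-right crossing and a dual bottom-top crossing cannot coexist. -/
theorem not_hcross_and_dual_vcross {ω : Config} {a b c d : ℤ} (hab : a < b)
    (h : HCross ω a b c d) : ¬ VCross (dual ω) a (b - 1) (c - 1) d := by
  rintro ⟨φ, ψ, hφ, hψ, hd⟩
  obtain ⟨u, v, hu, hv, hc⟩ := h
  obtain ⟨D, hD1, hD2⟩ := hd.dual_chain
  have hφm := hd.mem_left
  have hψm := hd.mem_right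
  have hum := hc.mem_left
  have hvm := hc.mem_right
  simp only [rect, Set.mem_ofPred_eq] at hφm hψm hum hvm
  -- close up the dual path by vertical rays
  set D' : Edge → ZMod 2 := fun e => D e +
    (if e.2.2 = false ∧ e.1 = φ.1 ∧ e.2.1 ≤ φ.2 then 1 else 0) +
    (if e.2.2 = false ∧ e.1 = ψ.1 ∧ ψ.2 < e.2.1 then 1 else 0) with hD'
  have hface : ∀ F, fsum D' F = 0 := by
    rintro ⟨x, y⟩
    have h1 := hD2 (x, y)
    simp only [fsum] at h1
    simp only [fsum, hD', true_and, Bool.true_eq_false, false_and, if_false, add_zero]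
    have e1 : ((if x = φ.1 ∧ y ≤ φ.2 then (1 : ZMod 2) else 0) +
        (if x = φ.1 ∧ y + 1 ≤ φ.2 then 1 else 0)) = if (x, y) = φ then 1 else 0 := by
      have h2 : ((x, y) = φ) ↔ (x = φ.1 ∧ y = φ.2) := by
        rw [Prod.ext_iff]
      simp only [h2]
      by_cases k1 : x = φ.1
      · rcases lt_trichotomy y φ.2 with k2 | k2 | k2
        · rw [if_pos ⟨k1, by omega⟩, if_pos ⟨k1, by omega⟩, if_neg (by omega)]
          exact z2_add_self 1
        · rw [if_pos ⟨k1, by omega⟩, if_neg (by omega), if_pos ⟨k1, k2⟩, add_zero]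
        · rw [if_neg (by omega), if_neg (by omega), if_neg (by omega), add_zero]
      · rw [if_neg (by tauto), if_neg (by tauto), if_neg (by tauto), add_zero]
    have e2 : ((if x = ψ.1 ∧ ψ.2 < y then (1 : ZMod 2) else 0) +
        (if x = ψ.1 ∧ ψ.2 < y + 1 then 1 else 0)) = if (x, y) = ψ then 1 else 0 := by
      have h2 : ((x, y) = ψ) ↔ (x = ψ.1 ∧ y = ψ.2) := by
        rw [Prod.ext_iff]
      simp only [h2]
      by_cases k1 : x = ψ.1
      · rcases lt_trichotomy y ψ.2 with k2 | k2 | k2
        · rw [if_neg (by omega), if_neg (by omega), if_neg (by omega), add_zero]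
        · rw [if_neg (by omega), if_pos ⟨k1, by omega⟩, if_pos ⟨k1, k2⟩, zero_add]
        · rw [if_pos ⟨k1, by omega⟩, if_pos ⟨k1, by omega⟩, if_neg (by omega)]
          exact z2_add_self 1
      · rw [if_neg (by tauto), if_neg (by tauto), if_neg (by tauto), add_zero]
    linear_combination h1 + e1 + e2 + z2_add_self (if (x, y) = φ then (1 : ZMod 2) else 0) +
      z2_add_self (if (x, y) = ψ then (1 : ZMod 2) else 0)
  obtain ⟨W, hW⟩ := integRect (a := a) (b := b) (c := c - 1) (d := d) D' (fun F _ => hface F)
  -- the potential on the four sides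
  have hcol : ∀ x, (x = a ∨ x = b) → ∀ y, c - 1 ≤ y → y ≤ d → W (x, c - 1) = W (x, y) := by
    intro x hx y hy1 hy2
    refine const_col hy1 fun y' h1 h2 => ?_
    have h3 := hW (x, y', true)
    simp only [src, tgt, if_true, rect, Set.mem_ofPred_eq] at h3
    have h4 := h3 ⟨by omega, by omega, by omega, by omega⟩ ⟨by omega, by omega, by omega, by omega⟩
    rw [← z2_add_eq_zero, ← h4]
    have h5 : D (x, y', true) = 0 := by
      by_contra hne
      obtain ⟨_, h6, h7⟩ := hD1 _ hne
      simp only [lowFace, src, rect, Set.mem_ofPred_eq, if_true] at h6 h7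
      omega
    simp [hD', h5]
  have hbot : W (a, c - 1) + W (b, c - 1) = 1 := by
    have hrow : ∀ x, a ≤ x → x < b →
        W (x, c - 1) + W (x + 1, c - 1) = if x = φ.1 then 1 else 0 := by
      intro x h1 h2
      have h3 := hW (x, c - 1, false)
      simp only [src, tgt, Bool.false_eq_true, if_false, rect, Set.mem_ofPred_eq] at h3
      have h4 := h3 ⟨by omega, by omega, by omega, by omega⟩
        ⟨by omega, by omega, by omega, by omega⟩
      rw [← h4]
      have h5 : D (x, c - 1, false) = 0 := by
        by_contra hne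
        obtain ⟨_, h6, h7⟩ := hD1 _ hne
        simp only [lowFace, src, rect, Set.mem_ofPred_eq, Bool.false_eq_true, if_false] at h6 h7
        omega
      have h6 : ¬ (x = ψ.1 ∧ ψ.2 < c - 1) := by omega
      have h7 : (x = φ.1 ∧ c - 1 ≤ φ.2) ↔ x = φ.1 := by
        constructor
        · exact fun h => h.1
        · exact fun h => ⟨h, by omega⟩
      simp only [hD', h5, true_and, h6, if_false, h7]
      simp
    have h1 : W (a, c - 1) = W (φ.1, c - 1) := by
      refine const_row hφm.1 fun x h1 h2 => ?_
      rw [← z2_add_eq_zero, hrow x h1 (by omega), if_neg (by omega)]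
    have h2 : W (φ.1 + 1, c - 1) = W (b, c - 1) := by
      refine const_row (by omega) fun x h1 h2 => ?_
      rw [← z2_add_eq_zero, hrow x (by omega) (by omega), if_neg (by omega)]
    rw [h1, ← h2, hrow φ.1 (by omega) (by omega), if_pos rfl]
  -- the potential is constant along the open crossing
  have hpath : W u = W v := by
    refine hc.const ?_
    intro e h1 h2 h3
    have h4 := hW e ⟨h1.1, h1.2.1, by have := h1.2.2.1; omega, h1.2.2.2⟩
      ⟨h2.1, h2.2.1, by have := h2.2.2.1; omega, h2.2.2.2⟩
    rw [← z2_add_eq_zero, ← h4]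
    have h5 : D e = 0 := by
      by_contra hne
      rw [(hD1 _ hne).1] at h3
      exact absurd h3 (by decide)
    have h6 : ¬ (e.2.2 = false ∧ e.1 = φ.1 ∧ e.2.1 ≤ φ.2) := by
      rintro ⟨_, _, h7⟩
      have := h1.2.2.1
      simp only [src] at this
      omega
    have h7 : ¬ (e.2.2 = false ∧ e.1 = ψ.1 ∧ ψ.2 < e.2.1) := by
      rintro ⟨_, _, h7⟩
      have := h1.2.2.2
      simp only [src] at this
      omega
    simp only [hD', h5, if_neg h6, if_neg h7]
    simp
  have h1 : W (a, c - 1) = W u := by
    rw [hcol a (Or.inl rfl) u.2 (by omega) (by omega), ← hu]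
  have h2 : W (b, c - 1) = W v := by
    rw [hcol b (Or.inr rfl) v.2 (by omega) (by omega), ← hv]
  rw [h1, h2, hpath, z2_add_self] at hbot
  exact absurd hbot (by decide)

/-- An open bottom-top crossing and a dual left-right crossing cannot coexist. -/
theorem not_vcross_and_dual_hcross {ω : Config} {a b c d : ℤ} (hcd : c < d)
    (h : VCross ω a b c d) : ¬ HCross (dual ω) (a - 1) b c (d - 1) := by
  intro h'
  have h1 := h'.sw
  rw [sw_dual] at h1
  exact not_hcross_and_dual_vcross hcd h.sw h1

/-- A path from the left side to the right side and a path from the bottom side to the top side of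
a rectangle (for two arbitrary configurations, so arbitrary paths) have a common vertex. -/
theorem cross {ω ω' : Config} {a b c d : ℤ} {u v u' v' : Vert}
    (h : Conn ω (rect a b c d) u v) (hu : u.1 = a) (hv : v.1 = b)
    (h' : Conn ω' (rect a b c d) u' v') (hu' : u'.2 = c) (hv' : v'.2 = d) :
    ∃ w, Conn ω (rect a b c d) u w ∧ Conn ω' (rect a b c d) u' w := by
  classical
  by_contra hno
  push Not at hno
  set ω₁ : Config := fun e => decide (¬ Conn ω' (rect a b c d) u' (src e)) with hω₁
  have hvm := h.mem_right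
  have hum' := h'.mem_left
  have hab : a ≤ b := hvm.1.trans hvm.2.1
  -- the left-right path
  have h1 : Conn ω₁ (rect a (b + 1) c d) u v := by
    refine h.induction_right (P := fun x => Conn ω₁ (rect a (b + 1) c d) u x) (Conn.refl ?_) ?_
    · exact ⟨h.mem_left.1, h.mem_left.2.1.trans (by omega), h.mem_left.2.2⟩
    · intro x y hx hs ih
      have hy := hx.tail hs
      obtain ⟨k1, k2, e, k3, k4⟩ := hs
      refine ih.tail ⟨ih.mem_right, ⟨k2.1, k2.2.1.trans (by omega), k2.2.2⟩, e, k3, ?_⟩
      simp only [hω₁, decide_eq_true_eq]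
      rcases k3 with ⟨k5, _⟩ | ⟨_, k6⟩
      · rw [← k5]; exact hno _ hx
      · rw [← k6]; exact hno _ hy
  have h2 : HCross ω₁ a (b + 1) c d := by
    refine ⟨u, (v.1 + 1, v.2), hu, by simp [hv], h1.tail ⟨h1.mem_right, ?_, ?_⟩⟩
    · exact ⟨by have := hvm.1; simp only; omega, by have := hvm.2.1; simp only; omega, hvm.2.2⟩
    · refine ⟨(v.1, v.2, false), Or.inl ⟨rfl, rfl⟩, ?_⟩
      simp only [hω₁, decide_eq_true_eq]
      exact hno _ h
  -- the bottom-top path, seen as a dual path
  have key : ∀ e : Edge, Conn ω' (rect a b c d) u' (src e) → ω₁ e = false := by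
    intro e he
    simp [hω₁, he]
  have hsub : rect a b c d ⊆ rect a (b + 1 - 1) (c - 1) d := by
    rintro w ⟨k1, k2, k3, k4⟩
    exact ⟨k1, by omega, by omega, k4⟩
  have h3 : Conn (dual ω₁) (rect a (b + 1 - 1) (c - 1) d) u' v' := by
    refine h'.induction_right (P := fun x => Conn (dual ω₁) (rect a (b + 1 - 1) (c - 1) d) u' x)
      (Conn.refl (hsub hum')) ?_
    intro x y hx hs ih
    have hy := hx.tail hs
    refine ih.trans ?_
    have hx1 := hsub hx.mem_right
    have hy1 := hsub hy.mem_right
    obtain ⟨_, _, e, k3, _⟩ := hs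
    obtain ⟨ex, ey, t⟩ := e
    rcases k3 with ⟨k5, k6⟩ | ⟨k5, k6⟩
    · -- y = tgt e
      subst k5 k6
      cases t
      · have := dual_step (S := rect a (b + 1 - 1) (c - 1) d) (key (ex + 1, ey, true) hy)
          (by simpa [lowFace, src] using hx1) (by simpa [src, tgt] using hy1)
        simpa [lowFace, src, tgt] using this.conn
      · have := dual_step (S := rect a (b + 1 - 1) (c - 1) d) (key (ex, ey + 1, false) hy)
          (by simpa [lowFace, src] using hx1) (by simpa [src, tgt] using hy1)
        simpa [lowFace, src, tgt] using this.conn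
    · subst k5 k6
      cases t
      · have := dual_step (S := rect a (b + 1 - 1) (c - 1) d) (key (ex + 1, ey, true) hx)
          (by simpa [lowFace, src] using hy1) (by simpa [src, tgt] using hx1)
        simpa [lowFace, src, tgt] using this.symm.conn
      · have := dual_step (S := rect a (b + 1 - 1) (c - 1) d) (key (ex, ey + 1, false) hx)
          (by simpa [lowFace, src] using hy1) (by simpa [src, tgt] using hx1)
        simpa [lowFace, src, tgt] using this.symm.conn
  have h4 : VCross (dual ω₁) a (b + 1 - 1) (c - 1) d := by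
    refine ⟨(u'.1, u'.2 - 1), v', by simp [hu'], hv', ?_⟩
    have h5 := dual_step (S := rect a (b + 1 - 1) (c - 1) d) (key (u'.1, u'.2, false)
      (Conn.refl hum')) ?_ (by simpa [src] using hsub hum')
    · exact (by simpa [lowFace, src] using h5.conn : Conn (dual ω₁) (rect a (b + 1 - 1) (c - 1) d)
        (u'.1, u'.2 - 1) u').trans h3
    · obtain ⟨k1, k2, k3, k4⟩ := hum'
      exact ⟨by simpa [lowFace] using k1, by simpa [lowFace] using k2,
        by simp [lowFace]; omega, by simp [lowFace]; omega⟩
  exact not_hcross_and_dual_vcross (by omega) h2 h4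

end Pool.Agent.H89.Perc
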