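import Pool.Agent.H89.Perc.FKG

/-!
# Symmetries of crossing probabilities
-/

open MeasureTheory ProbabilityTheory unitInterval

namespace Pool.Agent.H89.Perc

variable {p : I} {ω : Config} {a b c d : ℤ}

lemma localOn_hcross (a b c d : ℤ) : LocalOn (eRect a b c d) {ω | HCross ω a b c d} := by
  rintro ω ω' h ⟨u, v, hu, hv, hc⟩
  exact ⟨u, v, hu, hv, Conn.congr (fun e he _ => h e (mem_eRect.2 he)) hc⟩

lemma localOn_vcross (a b c d : ℤ) : LocalOn (eRect a b c d) {ω | VCross ω a b c d} := by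
  rintro ω ω' h ⟨u, v, hu, hv, hc⟩
  exact ⟨u, v, hu, hv, Conn.congr (fun e he _ => h e (mem_eRect.2 he)) hc⟩

lemma incr_hcross (a b c d : ℤ) : Incr {ω | HCross ω a b c d} := by
  rintro ω ω' h ⟨u, v, hu, hv, hc⟩
  exact ⟨u, v, hu, hv, Conn.mono le_rfl h hc⟩

lemma incr_vcross (a b c d : ℤ) : Incr {ω | VCross ω a b c d} := by
  rintro ω ω' h ⟨u, v, hu, hv, hc⟩
  exact ⟨u, v, hu, hv, Conn.mono le_rfl h hc⟩

/-- A crossing of a long rectangle contains a crossing of a shorter and higher one. -/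
theorem HCross.mono {a' b' c' d' : ℤ} (h : HCross ω a b c d) (ha : a ≤ a') (hab : a' ≤ b')
    (hb : b' ≤ b) (hc : c' ≤ c) (hd : d ≤ d') : HCross ω a' b' c' d' := by
  obtain ⟨u, v, hu, hv, h⟩ := h
  obtain ⟨u', v', hu', hv', h1, -, -⟩ := h.cross_x (a := a') (b := b') (by omega) (by omega) hab
  refine ⟨u', v', hu', hv', h1.mono_set ?_⟩
  intro w hw
  simp only [rect, Set.mem_inter_iff, Set.mem_ofPred_eq] at hw ⊢
  omega

theorem VCross.mono {a' b' c' d' : ℤ} (h : VCross ω a b c d) (ha : a' ≤ a)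
    (hb : b ≤ b') (hc : c ≤ c') (hcd : c' ≤ d') (hd : d' ≤ d) : VCross ω a' b' c' d' := by
  obtain ⟨u, v, hu, hv, h⟩ := h
  obtain ⟨u', v', hu', hv', h1, -, -⟩ := h.cross_y (a := c') (b := d') (by omega) (by omega) hcd
  refine ⟨u', v', hu', hv', h1.mono_set ?_⟩
  intro w hw
  simp only [rect, Set.mem_inter_iff, Set.mem_ofPred_eq] at hw ⊢
  omega

theorem hcross_shift (x y : ℤ) : HCross (fun e => ω (shiftE (x, y) e)) a b c d ↔
    HCross ω (a + x) (b + x) (c + y) (d + y) := by
  have hb : {w : Vert | (w.1 - (x, y).1, w.2 - (x, y).2) ∈ rect a b c d}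
      = rect (a + x) (b + x) (c + y) (d + y) := by
    ext w
    simp only [Set.mem_ofPred_eq, rect]
    omega
  constructor
  · rintro ⟨u, v, hu, hv, h⟩
    rw [conn_shift, hb] at h
    exact ⟨_, _, by simp [hu], by simp [hv], h⟩
  · rintro ⟨u, v, hu, hv, h⟩
    refine ⟨(u.1 - x, u.2 - y), (v.1 - x, v.2 - y), by simp [hu], by simp [hv], ?_⟩
    rw [conn_shift, hb]
    simpa using h

theorem vcross_shift (x y : ℤ) : VCross (fun e => ω (shiftE (x, y) e)) a b c d ↔
    VCross ω (a + x) (b + x) (c + y) (d + y) := by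
  have hb : {w : Vert | (w.1 - (x, y).1, w.2 - (x, y).2) ∈ rect a b c d}
      = rect (a + x) (b + x) (c + y) (d + y) := by
    ext w
    simp only [Set.mem_ofPred_eq, rect]
    omega
  constructor
  · rintro ⟨u, v, hu, hv, h⟩
    rw [conn_shift, hb] at h
    exact ⟨_, _, by simp [hu], by simp [hv], h⟩
  · rintro ⟨u, v, hu, hv, h⟩
    refine ⟨(u.1 - x, u.2 - y), (v.1 - x, v.2 - y), by simp [hu], by simp [hv], ?_⟩
    rw [conn_shift, hb]
    simpa using h

theorem Pr_hcross_translate (x y : ℤ) :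
    Pr p {ω | HCross ω (a + x) (b + x) (c + y) (d + y)} = Pr p {ω | HCross ω a b c d} := by
  rw [← Pr_comp (localOn_hcross a b c d) (shiftE_injective (x, y)).injOn]
  congr 1
  ext ω
  exact (hcross_shift x y).symm

theorem Pr_vcross_translate (x y : ℤ) :
    Pr p {ω | VCross ω (a + x) (b + x) (c + y) (d + y)} = Pr p {ω | VCross ω a b c d} := by
  rw [← Pr_comp (localOn_vcross a b c d) (shiftE_injective (x, y)).injOn]
  congr 1
  ext ω
  exact (vcross_shift x y).symm

/-- Paths under an involutive symmetry of the lattice. -/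
theorem conn_invol {φ : Edge → Edge} {f : Vert → Vert} (hφ : ∀ e, φ (φ e) = e)
    (hf : ∀ w, f (f w) = w) (hj : ∀ e a b, Joins e a b → Joins (φ e) (f a) (f b))
    (S : Set Vert) (u v : Vert) :
    Conn (fun e => ω (φ e)) S u v ↔ Conn ω {w | f w ∈ S} (f u) (f v) := by
  constructor
  · intro h
    refine h.map f ?_ fun e a b he ho => ⟨φ e, hj e a b he, ho⟩
    intro w hw
    rw [Set.mem_ofPred_eq, hf]
    exact hw
  · intro h
    have := h.map (ω' := fun e => ω (φ e)) (T := S) f (fun w hw => hw)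
      (fun e a b he ho => ⟨φ e, hj e a b he, by rw [hφ]; exact ho⟩)
    rwa [hf, hf] at this

/-- Reflection in the diagonal. -/
def swapE (e : Edge) : Edge := (e.2.1, e.1, !e.2.2)

theorem swapE_swapE (e : Edge) : swapE (swapE e) = e := by
  obtain ⟨x, y, t⟩ := e
  simp [swapE]

theorem joins_swap (e : Edge) (a b : Vert) (h : Joins e a b) :
    Joins (swapE e) (a.2, a.1) (b.2, b.1) := by
  obtain ⟨x, y, t⟩ := e
  rcases h with ⟨h1, h2⟩ | ⟨h1, h2⟩
  · subst h1 h2
    left
    cases t <;> exact ⟨rfl, rfl⟩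
  · subst h1 h2
    right
    cases t <;> exact ⟨rfl, rfl⟩

theorem conn_swap (S : Set Vert) (u v : Vert) :
    Conn (fun e => ω (swapE e)) S u v ↔ Conn ω {w | (w.2, w.1) ∈ S} (u.2, u.1) (v.2, v.1) :=
  conn_invol (f := fun w => (w.2, w.1)) swapE_swapE (fun _ => rfl) joins_swap S u v

/-- Reflection in the diagonal. -/
theorem vcross_swap : VCross (fun e => ω (swapE e)) c d a b ↔ HCross ω a b c d := by
  have hb : {w : Vert | (w.2, w.1) ∈ rect c d a b} = rect a b c d := by
    ext w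
    simp only [Set.mem_ofPred_eq, rect]
    omega
  constructor
  · rintro ⟨u, v, hu, hv, h⟩
    rw [conn_swap, hb] at h
    exact ⟨_, _, hu, hv, h⟩
  · rintro ⟨u, v, hu, hv, h⟩
    refine ⟨(u.2, u.1), (v.2, v.1), hu, hv, ?_⟩
    rw [conn_swap, hb]
    exact h

theorem swapE_injective : Function.Injective swapE :=
  Function.LeftInverse.injective swapE_swapE

/-- Reflection in the diagonal. -/
theorem Pr_vcross_eq_hcross : Pr p {ω | VCross ω c d a b} = Pr p {ω | HCross ω a b c d} := by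
  rw [← Pr_comp (localOn_vcross c d a b) swapE_injective.injOn]
  congr 1
  ext ω
  exact vcross_swap

/-- Reflection `x ↦ z - x`. -/
def reflX (z : ℤ) (e : Edge) : Edge := if e.2.2 then (z - e.1, e.2.1, true) else (z - 1 - e.1, e.2.1, false)

theorem reflX_reflX (z : ℤ) (e : Edge) : reflX z (reflX z e) = e := by
  obtain ⟨x, y, t⟩ := e
  cases t <;> simp [reflX]

theorem reflX_injective (z : ℤ) : Function.Injective (reflX z) :=
  Function.LeftInverse.injective (reflX_reflX z)

theorem joins_reflX (z : ℤ) (e : Edge) (a b : Vert) (h : Joins e a b) :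
    Joins (reflX z e) (z - a.1, a.2) (z - b.1, b.2) := by
  obtain ⟨x, y, t⟩ := e
  rcases h with ⟨h1, h2⟩ | ⟨h1, h2⟩
  · subst h1 h2
    cases t
    · right
      refine ⟨?_, ?_⟩ <;> ext <;> simp [reflX, src, tgt] <;> ring
    · left
      refine ⟨?_, ?_⟩ <;> ext <;> simp [reflX, src, tgt]
  · subst h1 h2
    cases t
    · left
      refine ⟨?_, ?_⟩ <;> ext <;> simp [reflX, src, tgt] <;> ring
    · right
      refine ⟨?_, ?_⟩ <;> ext <;> simp [reflX, src, tgt]

theorem conn_reflX (z : ℤ) (S : Set Vert) (u v : Vert) :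
    Conn (fun e => ω (reflX z e)) S u v ↔
      Conn ω {w | (z - w.1, w.2) ∈ S} (z - u.1, u.2) (z - v.1, v.2) :=
  conn_invol (f := fun w => (z - w.1, w.2)) (reflX_reflX z) (fun _ => by simp) (joins_reflX z) S u v

/-- Reflection `y ↦ z - y`. -/
def reflY (z : ℤ) (e : Edge) : Edge := if e.2.2 then (e.1, z - 1 - e.2.1, true) else (e.1, z - e.2.1, false)

theorem reflY_reflY (z : ℤ) (e : Edge) : reflY z (reflY z e) = e := by
  obtain ⟨x, y, t⟩ := e
  cases t <;> simp [reflY]

theorem reflY_injective (z : ℤ) : Function.Injective (reflY z) :=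
  Function.LeftInverse.injective (reflY_reflY z)

theorem joins_reflY (z : ℤ) (e : Edge) (a b : Vert) (h : Joins e a b) :
    Joins (reflY z e) (a.1, z - a.2) (b.1, z - b.2) := by
  obtain ⟨x, y, t⟩ := e
  rcases h with ⟨h1, h2⟩ | ⟨h1, h2⟩
  · subst h1 h2
    cases t
    · left
      refine ⟨?_, ?_⟩ <;> ext <;> simp [reflY, src, tgt]
    · right
      refine ⟨?_, ?_⟩ <;> ext <;> simp [reflY, src, tgt] <;> ring
  · subst h1 h2
    cases t
    · right
      refine ⟨?_, ?_⟩ <;> ext <;> simp [reflY, src, tgt]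
    · left
      refine ⟨?_, ?_⟩ <;> ext <;> simp [reflY, src, tgt] <;> ring

theorem conn_reflY (z : ℤ) (S : Set Vert) (u v : Vert) :
    Conn (fun e => ω (reflY z e)) S u v ↔
      Conn ω {w | (w.1, z - w.2) ∈ S} (u.1, z - u.2) (v.1, z - v.2) :=
  conn_invol (f := fun w => (w.1, z - w.2)) (reflY_reflY z) (fun _ => by simp) (joins_reflY z) S u v

end Pool.Agent.H89.Perc
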