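import Pool.Agent.H89.Perc.Circuit

/-!
# Decay of the one-arm probability at the self-dual point
-/

open MeasureTheory ProbabilityTheory unitInterval

namespace Pool.Agent.H89.Perc

private lemma σ_half : σ half = half := by
  apply Subtype.ext
  simp only [half, unitInterval.coe_symm_eq]
  norm_num

/-- `DArm` is a local event. -/
theorem decay_localOn_DArm (s r : ℕ) :
    LocalOn (eRect (-r) (r - 1) (-r) (r - 1)) (DArm s r) := by
  rintro ω ω' h ⟨φ, φ', h1, h2, h3, hc⟩
  exact ⟨φ, φ', h1, h2, h3, Conn.congr (fun e he _ => h e (mem_eRect.2 he)) hc⟩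

/-- Annulus crossing event using only vertices of `ball 0 r` outside `ball 0 s`. -/
def Ann (s r : ℕ) : Set Config :=
  {ω | ∃ w ∈ ball 0 (s + 1), ∃ u ∈ sphere 0 r, Conn ω (ball 0 r \ ball 0 s) w u}

/-- Edges with first endpoint in `ball 0 r`. -/
noncomputable def eBall (r : ℕ) : Finset Edge := eRect (-r) r (-r) r

lemma mem_eBall {r : ℕ} {e : Edge} : e ∈ eBall r ↔ src e ∈ ball 0 r := by
  rw [eBall, mem_eRect]
  simp only [ball, rect, Set.mem_ofPred_eq, Prod.fst_zero, Prod.snd_zero, zero_sub, zero_add]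

lemma ball_subset_ball {r r' : ℕ} (h : r ≤ r') : ball 0 r ⊆ ball 0 r' := by
  intro v hv
  simp only [mem_ball, Prod.fst_zero, Prod.snd_zero] at hv ⊢
  omega

lemma eBall_subset {r r' : ℕ} (h : r ≤ r') : eBall r ⊆ eBall r' := fun _ he =>
  mem_eBall.2 (ball_subset_ball h (mem_eBall.1 he))

lemma localOn_ann [DecidableEq Edge] (s r : ℕ) : LocalOn (eBall r \ eBall s) (Ann s r) := by
  rintro ω ω' h ⟨w, hw, u, hu, hc⟩
  refine ⟨w, hw, u, hu, Conn.congr (fun e he _ => h e ?_) hc⟩
  rw [Finset.mem_sdiff, mem_eBall, mem_eBall]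
  exact he

lemma ann_subset_armBox (s r : ℕ) : Ann s r ⊆ ArmBox 0 (s + 1) r := by
  rintro ω ⟨w, hw, u, hu, hc⟩
  exact ⟨w, hw, u, hu, hc.mono_set Set.sdiff_subset⟩

lemma arm_subset_ann {s r R : ℕ} (hs : s < r) (hr : r ≤ R) : Arm 0 R ⊆ Ann s r := by
  rintro ω ⟨u, hu, hc⟩
  -- path to the sphere of radius `r`
  have h1 : ∃ x ∈ sphere 0 r, Conn ω (ball 0 R ∩ ball 0 r) 0 x := by
    refine hc.to_sphere self_mem_ball ?_
    obtain ⟨hb, h⟩ := hu
    by_cases h2 : u ∈ ball 0 r
    · refine Or.inr ⟨h2, ?_⟩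
      simp only [mem_ball, Prod.fst_zero, Prod.snd_zero] at hb h h2 ⊢
      omega
    · exact Or.inl h2
  obtain ⟨x, hx, hc'⟩ := h1
  have hxs : x ∉ ball 0 s := by
    intro hxs
    obtain ⟨_, h⟩ := hx
    simp only [mem_ball, Prod.fst_zero, Prod.snd_zero] at hxs h
    omega
  obtain ⟨w, w', hw, _, hst, hl⟩ := hc'.exists_last (T := ball 0 s) self_mem_ball hxs
  refine ⟨w', ?_, x, hx, hl.mono_set ?_⟩
  · have h2 := hst.fst_le
    have h3 := hst.snd_le
    simp only [mem_ball, Prod.fst_zero, Prod.snd_zero] at hw ⊢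
    push_cast
    omega
  · exact fun y hy => ⟨hy.1.2, hy.2⟩

/-- Intersections of the annulus events at scales `16 ^ j`. -/
def AnnInter : ℕ → Set Config
  | 0 => Set.univ
  | n + 1 => AnnInter n ∩ Ann (16 ^ n) (16 ^ (n + 1))

lemma localOn_annInter (n : ℕ) : LocalOn (eBall (16 ^ n)) (AnnInter n) := by
  classical
  induction n with
  | zero => exact fun _ _ _ _ => Set.mem_univ _
  | succ n ih =>
    have h1 : (16 : ℕ) ^ n ≤ 16 ^ (n + 1) := Nat.pow_le_pow_right (by norm_num) (Nat.le_succ n)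
    exact (ih.mono (eBall_subset h1)).inter ((localOn_ann _ _).mono Finset.sdiff_subset)

lemma arm_subset_annInter {R : ℕ} (n : ℕ) (h : 16 ^ n ≤ R) : Arm 0 R ⊆ AnnInter n := by
  induction n with
  | zero => exact Set.subset_univ _
  | succ n ih =>
    have h1 : (16 : ℕ) ^ n < 16 ^ (n + 1) := Nat.pow_lt_pow_right (by norm_num) (Nat.lt_succ_self n)
    exact Set.subset_inter (ih (h1.le.trans h)) (arm_subset_ann h1 h)

/-- Annulus crossings have probability bounded away from one. -/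
theorem armBox_le : ∃ c > (0 : ℝ), ∀ s r : ℕ, 1 ≤ s → 4 * (s + 1) ≤ r →
    Pr half (ArmBox 0 s r) ≤ 1 - c := by
  obtain ⟨c, hc, h⟩ := circuit
  refine ⟨c, hc, fun s r hs hr => ?_⟩
  have h1 := h s r hs hr half le_rfl
  have h2 := Pr_compl (p := half) (localOn_dual_DArm s r)
  have h3 : {ω : Config | dual ω ∉ DArm s r}ᶜ = {ω | dual ω ∈ DArm s r} := by
    ext ω
    simp only [Set.mem_compl_iff, Set.mem_ofPred_eq, not_not]
  rw [h3, Pr_dual (decay_localOn_DArm s r), σ_half] at h2
  have h4 : Pr half (ArmBox 0 s r) ≤ Pr half (DArm s r) :=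
    Pr_mono (armBox_subset_DArm (by omega))
  linarith

/-- Polynomial decay of the one-arm probability at `1 / 2`. -/
theorem arm_decay : ∃ C c : ℝ, 0 < C ∧ 0 < c ∧ ∀ r : ℕ, 1 ≤ r →
    arm half r ≤ C * (r : ℝ) ^ (-c) := by
  classical
  obtain ⟨c, hc, h⟩ := armBox_le
  have hc1 : c ≤ 1 := by
    have h1 := h 1 8 le_rfl (by norm_num)
    have h2 : 0 ≤ Pr half (ArmBox 0 1 8) := Pr_nonneg
    linarith
  set q : ℝ := 1 - c / 2 with hq
  have hq0 : 0 < q := by linarith
  have hq1 : q < 1 := by linarith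
  -- the probability of the intersection of the annulus events
  have key : ∀ n : ℕ, Pr half (AnnInter n) ≤ q ^ n := by
    intro n
    induction n with
    | zero => rw [pow_zero]; exact Pr_le_one
    | succ n ih =>
      have h1 : Pr half (AnnInter (n + 1)) =
          Pr half (AnnInter n) * Pr half (Ann (16 ^ n) (16 ^ (n + 1))) :=
        Pr_inter_of_disjoint (localOn_annInter n) (localOn_ann _ _) Finset.disjoint_sdiff
      have h2 : Pr half (Ann (16 ^ n) (16 ^ (n + 1))) ≤ q := by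
        have h3 : 4 * (16 ^ n + 1 + 1) ≤ 16 ^ (n + 1) := by
          have : 1 ≤ 16 ^ n := Nat.one_le_pow _ _ (by norm_num)
          rw [pow_succ]
          omega
        have h4 := h (16 ^ n + 1) (16 ^ (n + 1)) (by omega) h3
        have h5 : Pr half (Ann (16 ^ n) (16 ^ (n + 1))) ≤
            Pr half (ArmBox 0 (16 ^ n + 1) (16 ^ (n + 1))) := Pr_mono (ann_subset_armBox _ _)
        linarith
      rw [h1, pow_succ]
      exact mul_le_mul ih h2 Pr_nonneg (pow_nonneg hq0.le n)
  have hlog : Real.log q < 0 := Real.log_neg hq0 hq1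
  have hlog16 : 0 < Real.log 16 := Real.log_pos (by norm_num)
  refine ⟨1 / q, - Real.log q / Real.log 16, by positivity,
    div_pos (neg_pos.2 hlog) hlog16, fun r hr => ?_⟩
  set n := Nat.log 16 r with hn
  have hn1 : 16 ^ n ≤ r := Nat.pow_log_le_self 16 (by omega)
  have hn2 : r < 16 ^ (n + 1) := Nat.lt_pow_succ_log_self (by norm_num) r
  have h1 : arm half r ≤ q ^ n := (Pr_mono (arm_subset_annInter n hn1)).trans (key n)
  refine h1.trans ?_
  have hr0 : (0 : ℝ) < r := by exact_mod_cast hr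
  have h2 : q ^ (n + 1) ≤ (r : ℝ) ^ (-(-Real.log q / Real.log 16)) := by
    have h3 : ((16 : ℝ) ^ (n + 1)) ^ (-(-Real.log q / Real.log 16)) = q ^ (n + 1) := by
      rw [← Real.rpow_natCast (16 : ℝ) (n + 1), ← Real.rpow_mul (by norm_num), mul_comm,
        Real.rpow_mul (by norm_num), Real.rpow_natCast]
      congr 1
      rw [Real.rpow_def_of_pos (by norm_num)]
      have : Real.log 16 * -(-Real.log q / Real.log 16) = Real.log q := by
        field_simp
      rw [this, Real.exp_log hq0]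
    rw [← h3]
    refine Real.rpow_le_rpow_of_nonpos hr0 ?_ ?_
    · exact_mod_cast hn2.le
    · have := div_pos (neg_pos.2 hlog) hlog16
      linarith
  calc q ^ n = 1 / q * q ^ (n + 1) := by
        rw [pow_succ]; field_simp
    _ ≤ _ := mul_le_mul_of_nonneg_left h2 (by positivity)

end Pool.Agent.H89.Perc
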