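import Pool.Agent.H89.Perc.DualityA

/-!
# Topology, part 4: gluing and blocking
-/

namespace Pool.Agent.H89.Perc

variable {ω : Config}

/-- Faces inside `ball 0 r`: a path from a face near `ball 0 s` to a boundary face. -/
def DArm (s r : ℕ) : Set Config :=
  {η | ∃ φ φ' : Vert, φ ∈ rect (-s - 1) s (-s - 1) s ∧ φ' ∈ rect (-r) (r - 1) (-r) (r - 1) ∧
    (φ'.1 = -r ∨ φ'.1 = r - 1 ∨ φ'.2 = -r ∨ φ'.2 = r - 1) ∧
    Conn η (rect (-r) (r - 1) (-r) (r - 1)) φ φ'}

/-- Horizontal segments. -/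
private lemma dualB_seg_x {S : Set Vert} (x y : ℤ) (n : ℕ)
    (h : ∀ z : ℤ, x ≤ z → z ≤ x + n → ((z, y) : Vert) ∈ S) :
    Conn allOpen S (x, y) (x + n, y) := by
  induction n with
  | zero => simpa using Conn.refl (h x le_rfl (by simp))
  | succ n ih =>
    have h1 := ih fun z hz hz' => h z hz (by push_cast; omega)
    refine h1.tail ⟨h1.mem_right, h _ (by push_cast; omega) (by push_cast; omega),
      (x + n, y, false), Or.inl ⟨rfl, ?_⟩, rfl⟩
    simp [tgt, add_assoc]

/-- Vertical segments. -/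
private lemma dualB_seg_y {S : Set Vert} (x y : ℤ) (n : ℕ)
    (h : ∀ z : ℤ, y ≤ z → z ≤ y + n → ((x, z) : Vert) ∈ S) :
    Conn allOpen S (x, y) (x, y + n) := by
  induction n with
  | zero => simpa using Conn.refl (h y le_rfl (by simp))
  | succ n ih =>
    have h1 := ih fun z hz hz' => h z hz (by push_cast; omega)
    refine h1.tail ⟨h1.mem_right, h _ (by push_cast; omega) (by push_cast; omega),
      (x, y + n, true), Or.inl ⟨rfl, ?_⟩, rfl⟩
    simp [tgt, add_assoc]

private lemma dualB_seg_x' {S : Set Vert} (x x' y : ℤ) (hx : x ≤ x')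
    (h : ∀ z : ℤ, x ≤ z → z ≤ x' → ((z, y) : Vert) ∈ S) :
    Conn allOpen S (x, y) (x', y) := by
  obtain ⟨n, hn⟩ := Int.eq_ofNat_of_zero_le (sub_nonneg.2 hx)
  have h1 : x' = x + n := by omega
  subst h1
  exact dualB_seg_x x y n h

private lemma dualB_seg_y' {S : Set Vert} (x y y' : ℤ) (hy : y ≤ y')
    (h : ∀ z : ℤ, y ≤ z → z ≤ y' → ((x, z) : Vert) ∈ S) :
    Conn allOpen S (x, y) (x, y') := by
  obtain ⟨n, hn⟩ := Int.eq_ofNat_of_zero_le (sub_nonneg.2 hy)
  have h1 : y' = y + n := by omega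
  subst h1
  exact dualB_seg_y x y n h

/-- Squares are connected. -/
private lemma dualB_ball {s : ℕ} {w : Vert} (hw : w ∈ ball 0 s) : Conn allOpen (ball 0 s) 0 w := by
  obtain ⟨x, y⟩ := w
  simp only [mem_ball, Prod.fst_zero, Prod.snd_zero] at hw
  have h1 : Conn allOpen (ball 0 s) (0, 0) (x, 0) := by
    rcases le_total 0 x with h | h
    · exact dualB_seg_x' _ _ _ h fun z h1 h2 => by
        simp only [mem_ball, Prod.fst_zero, Prod.snd_zero]; omega
    · exact (dualB_seg_x' _ _ _ h fun z h1 h2 => by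
        simp only [mem_ball, Prod.fst_zero, Prod.snd_zero]; omega).symm
  have h2 : Conn allOpen (ball 0 s) (x, 0) (x, y) := by
    rcases le_total 0 y with h | h
    · exact dualB_seg_y' _ _ _ h fun z h1 h2 => by
        simp only [mem_ball, Prod.fst_zero, Prod.snd_zero]; omega
    · exact (dualB_seg_y' _ _ _ h fun z h1 h2 => by
        simp only [mem_ball, Prod.fst_zero, Prod.snd_zero]; omega).symm
  exact h1.trans h2

/-- Boundaries of squares are connected. -/
private lemma dualB_sphere {r : ℕ} {w : Vert} (hw : w ∈ sphere 0 r) :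
    Conn allOpen (sphere 0 r) (r, r) w := by
  obtain ⟨x, y⟩ := w
  simp only [sphere, mem_ball, Prod.fst_zero, Prod.snd_zero, Set.mem_ofPred_eq] at hw
  have top : ∀ x : ℤ, -r ≤ x → x ≤ r → Conn allOpen (sphere 0 r) (r, r) (x, r) := by
    intro x h1 h2
    exact (dualB_seg_x' _ _ _ h2 fun z h3 h4 => by
      simp only [sphere, mem_ball, Prod.fst_zero, Prod.snd_zero, Set.mem_ofPred_eq]; omega).symm
  have right : ∀ y : ℤ, -r ≤ y → y ≤ r → Conn allOpen (sphere 0 r) (r, r) (r, y) := by
    intro x h1 h2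
    exact (dualB_seg_y' _ _ _ h2 fun z h3 h4 => by
      simp only [sphere, mem_ball, Prod.fst_zero, Prod.snd_zero, Set.mem_ofPred_eq]; omega).symm
  obtain ⟨h1, h2 | h2 | h2 | h2⟩ := hw
  · have h3 : x = -r := by omega
    subst h3
    exact (top (-r) (by omega) (by omega)).trans
      (dualB_seg_y' _ _ _ (by omega) fun z h3 h4 => by
        simp only [sphere, mem_ball, Prod.fst_zero, Prod.snd_zero, Set.mem_ofPred_eq]; omega).symm
  · have h3 : x = r := by omega
    subst h3
    exact right y (by omega) (by omega)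
  · have h3 : y = -r := by omega
    subst h3
    exact (right (-r) (by omega) (by omega)).trans
      (dualB_seg_x' _ _ _ (by omega) fun z h3 h4 => by
        simp only [sphere, mem_ball, Prod.fst_zero, Prod.snd_zero, Set.mem_ofPred_eq]; omega).symm
  · have h3 : y = r := by omega
    subst h3
    exact top x (by omega) (by omega)

/-- A step out of a set `K` is along a cut edge. -/
private lemma dualB_cut {K S : Set Vert} {ω : Config} {u v : Vert} (h : Step ω S u v)
    (hu : u ∉ K) (hv : v ∈ K) :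
    ∃ e, Joins e u v ∧ cutConfig K e = false ∧ src e ∈ S ∧ tgt e ∈ S := by
  obtain ⟨h1, h2, e, h3, h4⟩ := h
  refine ⟨e, h3, ?_, ?_⟩
  · rcases h3 with ⟨h5, h6⟩ | ⟨h5, h6⟩
    · subst h5 h6; simp [cutConfig, hu, hv]
    · subst h5 h6; simp [cutConfig, hu, hv]
  · rcases h3 with ⟨h5, h6⟩ | ⟨h5, h6⟩
    · subst h5 h6; exact ⟨h1, h2⟩
    · subst h5 h6; exact ⟨h2, h1⟩

/-- A boundary face next to an edge of the sphere. -/
private lemma dualB_face {r : ℕ} (hr : 1 ≤ r) {e : Edge} (h1 : src e ∈ sphere 0 r)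
    (h2 : tgt e ∈ sphere 0 r) :
    ∃ φ : Vert, IsFace φ e ∧ φ ∈ rect (-r) (r - 1) (-r) (r - 1) ∧
      (φ.1 = -r ∨ φ.1 = r - 1 ∨ φ.2 = -r ∨ φ.2 = r - 1) := by
  obtain ⟨x, y, b⟩ := e
  cases b
  · simp only [sphere, mem_ball, Prod.fst_zero, Prod.snd_zero, Set.mem_ofPred_eq, src, tgt,
      Bool.false_eq_true, if_false] at h1 h2
    by_cases h : y = r
    · refine ⟨(x, y - 1), Or.inr (by simp), ?_, ?_⟩
      · simp only [rect, Set.mem_ofPred_eq]; omega
      · right; right; right; show y - 1 = r - 1; omega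
    · refine ⟨(x, y), Or.inl rfl, ?_, ?_⟩
      · simp only [rect, Set.mem_ofPred_eq]; omega
      · simp only; omega
  · simp only [sphere, mem_ball, Prod.fst_zero, Prod.snd_zero, Set.mem_ofPred_eq, src, tgt,
      if_true] at h1 h2
    by_cases h : x = r
    · refine ⟨(x - 1, y), Or.inr (by simp), ?_, ?_⟩
      · simp only [rect, Set.mem_ofPred_eq]; omega
      · right; left; show x - 1 = r - 1; omega
    · refine ⟨(x, y), Or.inl rfl, ?_, ?_⟩
      · simp only [rect, Set.mem_ofPred_eq]; omega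
      · simp only; omega

/-- Gluing: if no dual path crosses the annulus between `ball 0 s` and `ball 0 r`, then a path from
`0` to `sphere 0 r` and a path from `ball 0 s` to `sphere 0 R` are connected. -/
theorem glue {s r R : ℕ} (hs : s < r) (hr : r ≤ R) (h1 : ω ∈ Arm 0 r) (h2 : ω ∈ ArmBox 0 s R)
    (h3 : dual ω ∉ DArm s r) : ω ∈ Arm 0 R := by
  obtain ⟨y₀, hy₀, hc₀⟩ := h1
  obtain ⟨w, hw, u, hu, hwu⟩ := h2
  have hrR : ball 0 r ⊆ ball 0 R := by
    intro x hx
    simp only [mem_ball, Prod.fst_zero, Prod.snd_zero] at hx ⊢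
    omega
  have hwr : w ∈ ball 0 r := by
    simp only [mem_ball, Prod.fst_zero, Prod.snd_zero] at hw ⊢
    omega
  by_cases hw0 : Conn ω (ball 0 r) 0 w
  · exact ⟨u, hu, (hw0.mono_set hrR).trans hwu⟩
  exfalso
  obtain ⟨x, hx, hwx⟩ := hwu.to_sphere (v := 0) (r := r) hwr (by
    by_cases h : u ∈ ball 0 r
    · right
      refine ⟨h, ?_⟩
      have h4 := hu.2
      simp only [mem_ball, Prod.fst_zero, Prod.snd_zero] at h h4 ⊢
      omega
    · exact Or.inl h)
  have hwx' : Conn ω (ball 0 r) w x := hwx.mono_set Set.inter_subset_right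
  -- the open cluster of the origin in the ball
  set C : Set Vert := {z | Conn ω (ball 0 r) 0 z} with hCdef
  have hCsub : C ⊆ rect (-r) r (-r) r := by
    intro z hz
    have := Conn.mem_right hz
    simp only [mem_ball, Prod.fst_zero, Prod.snd_zero] at this
    simp only [rect, Set.mem_ofPred_eq]; omega
  have hball : ball 0 r = rect (-r) r (-r) r := by
    ext z
    simp only [mem_ball, Prod.fst_zero, Prod.snd_zero, rect, Set.mem_ofPred_eq]
    omega
  have h0C : (0 : Vert) ∈ C := Conn.refl self_mem_ball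
  have hC0 : ∀ z ∈ C, Conn allOpen C 0 z := by
    intro z hz
    refine Conn.induction_right (P := fun z => Conn allOpen C 0 z) hz (Conn.refl h0C) ?_
    intro a b ha hab h
    exact h.tail ⟨ha, ha.tail hab, by obtain ⟨_, _, e, he, _⟩ := hab; exact ⟨e, he, rfl⟩⟩
  have hCc : ∀ u ∈ C, ∀ w ∈ C, Conn allOpen C u w := fun u hu w hw =>
    (hC0 u hu).symm.trans (hC0 w hw)
  set D : Set Vert := rect (-(r : ℤ)) r (-r) r with hD
  set K : Set Vert := comp D C w with hKdef
  have hwK : w ∈ K := Conn.refl ⟨hball ▸ hwr, hw0⟩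
  have hxK : x ∈ K := by
    refine Conn.induction_right (P := fun z => z ∈ K) hwx' hwK ?_
    intro a b ha hab h
    refine Conn.tail (v := a) h ⟨Conn.mem_right h, ⟨hball ▸ hab.2.1, ?_⟩, ?_⟩
    · intro hb
      exact hw0 ((Conn.tail hb hab.symm).trans ha.symm)
    · obtain ⟨_, _, e, he, _⟩ := hab
      exact ⟨e, he, rfl⟩
  have hKC : ∀ z ∈ K, z ∈ D ∧ z ∉ C := fun z hz => Conn.mem_right hz
  have h0K : (0 : Vert) ∉ K := fun h => (hKC _ h).2 h0C
  have hyK : y₀ ∉ K := fun h => (hKC _ h).2 hc₀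
  -- first cut edge
  obtain ⟨a, b, h4, h5, h6, -⟩ := (dualB_ball hw).exists_hit (T := K) h0K hwK
  obtain ⟨e, -, he2, he3, he4⟩ := dualB_cut h5 h4.mem_right.2 h6
  -- second cut edge
  have hys : Conn allOpen (sphere 0 r) y₀ x := (dualB_sphere hy₀).symm.trans (dualB_sphere hx)
  obtain ⟨a', b', h4', h5', h6', -⟩ := hys.exists_hit (T := K) hyK hxK
  obtain ⟨e', -, he2', he3', he4'⟩ := dualB_cut h5' h4'.mem_right.2 h6'
  obtain ⟨φ', hφ', hφD', hφb'⟩ := dualB_face (by omega) he3' he4'
  have hse : ∀ z ∈ ball 0 s, z ∈ D := by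
    intro z hz
    simp only [mem_ball, Prod.fst_zero, Prod.snd_zero] at hz
    simp only [hD, rect, Set.mem_ofPred_eq]
    omega
  have hsphere : ∀ z ∈ sphere 0 r, z ∈ D := fun z hz => hball ▸ hz.1
  have hsep := sep (a := -r) (b := r) (c := -r) (d := r) (K := K) (fun z hz => (hKC z hz).1)
    (comp_connected (D := D) (C := C) (v := w))
    (compl_comp_connected (c₀ := 0) hCsub h0C hCc)
    (e := e) (e' := e') ⟨hse _ he3, hse _ he4⟩ ⟨hsphere _ he3', hsphere _ he4'⟩ he2 he2'
    (φ := src e) (φ' := φ') (Or.inl rfl) hφ'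
    (by
      simp only [mem_ball, Prod.fst_zero, Prod.snd_zero] at he3
      simp only [rect, Set.mem_ofPred_eq]
      omega) hφD'
  refine h3 ⟨src e, φ', ?_, hφD', hφb', ?_⟩
  · simp only [mem_ball, Prod.fst_zero, Prod.snd_zero] at he3
    simp only [rect, Set.mem_ofPred_eq]
    omega
  · -- cut edges are closed
    refine ⟨hsep.1, Relation.ReflTransGen.mono ?_ _ _ hsep.2⟩
    rintro p q ⟨hp, hq, f, hf, ho⟩
    refine ⟨hp, hq, f, hf, ?_⟩
    have hcr : src (crossed f) ∈ D ∧ tgt (crossed f) ∈ D := by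
      have key : ∀ p q : Vert, p ∈ rect (-(r : ℤ)) (r - 1) (-r) (r - 1) →
          q ∈ rect (-(r : ℤ)) (r - 1) (-r) (r - 1) → p = src f → q = tgt f →
          src (crossed f) ∈ D ∧ tgt (crossed f) ∈ D := by
        rintro p q hp hq rfl rfl
        obtain ⟨x, y, b⟩ := f
        cases b
        · simp only [rect, src, tgt, Bool.false_eq_true, if_false, Set.mem_ofPred_eq] at hp hq
          simp only [hD, rect, crossed, src, tgt, Bool.false_eq_true, if_false, if_true,
            Set.mem_ofPred_eq]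
          omega
        · simp only [rect, src, tgt, if_true, Set.mem_ofPred_eq] at hp hq
          simp only [hD, rect, crossed, src, tgt, Bool.false_eq_true, if_false, if_true,
            Set.mem_ofPred_eq]
          omega
      rcases hf with ⟨hf1, hf2⟩ | ⟨hf1, hf2⟩
      · exact key p q hp hq hf1 hf2
      · exact key q p hq hp hf2 hf1
    have hcut : cutConfig K (crossed f) = false := by
      simpa [dual] using ho
    simp only [dual, Bool.not_eq_true']
    by_contra hopen
    have hopen' : ω (crossed f) = true := by simpa using hopen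
    have hcD := hcr
    rw [← hball] at hcD
    rcases cut_comp hcr hcut with ⟨g1, g2⟩ | ⟨g1, g2⟩
    · exact (hKC _ g2).2 (Conn.tail g1 ⟨hcD.1, hcD.2, _, joins_src_tgt _, hopen'⟩)
    · exact (hKC _ g2).2 (Conn.tail g1 ⟨hcD.2, hcD.1, _, (joins_src_tgt _).symm, hopen'⟩)

/-- Four long crossings block the annulus. -/
theorem block {s r : ℕ} (hs : s + 1 < r)
    (h1 : VCross ω (s + 1) (r - 1) (-r) r) (h2 : VCross ω (-r + 1) (-s - 1) (-r) r)
    (h3 : HCross ω (-r) r (s + 1) (r - 1)) (h4 : HCross ω (-r) r (-r + 1) (-s - 1)) :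
    dual ω ∉ DArm s r := by
  rintro ⟨φ, φ', hφ, hφ', hb, hc⟩
  simp only [rect, Set.mem_ofPred_eq] at hφ hφ'
  rcases hb with hb | hb | hb | hb
  · -- left side
    obtain ⟨u, v, hu, hv, huv, -, -⟩ := hc.symm.cross_x (a := -r) (b := -s - 1) (by omega)
      (by omega) (by omega)
    have := not_vcross_and_dual_hcross (by omega) h2
    rw [add_sub_cancel_right] at this
    refine this ⟨u, v, hu, hv, huv.mono_set ?_⟩
    rintro z ⟨hz1, hz2⟩
    simp only [rect, Set.mem_ofPred_eq] at hz1 hz2 ⊢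
    omega
  · obtain ⟨u, v, hu, hv, huv, -, -⟩ := hc.cross_x (a := s) (b := r - 1) (by omega)
      (by omega) (by omega)
    have := not_vcross_and_dual_hcross (by omega) h1
    rw [add_sub_cancel_right] at this
    refine this ⟨u, v, hu, hv, huv.mono_set ?_⟩
    rintro z ⟨hz1, hz2⟩
    simp only [rect, Set.mem_ofPred_eq] at hz1 hz2 ⊢
    omega
  · obtain ⟨u, v, hu, hv, huv, -, -⟩ := hc.symm.cross_y (a := -r) (b := -s - 1) (by omega)
      (by omega) (by omega)
    have := not_hcross_and_dual_vcross (by omega) h4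
    rw [add_sub_cancel_right] at this
    refine this ⟨u, v, hu, hv, huv.mono_set ?_⟩
    rintro z ⟨hz1, hz2⟩
    simp only [rect, Set.mem_ofPred_eq] at hz1 hz2 ⊢
    omega
  · obtain ⟨u, v, hu, hv, huv, -, -⟩ := hc.cross_y (a := s) (b := r - 1) (by omega)
      (by omega) (by omega)
    have := not_hcross_and_dual_vcross (by omega) h3
    rw [add_sub_cancel_right] at this
    refine this ⟨u, v, hu, hv, huv.mono_set ?_⟩
    rintro z ⟨hz1, hz2⟩
    simp only [rect, Set.mem_ofPred_eq] at hz1 hz2 ⊢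
    omega

theorem armBox_subset_DArm {s r : ℕ} (hr : 1 ≤ r) : ArmBox 0 s r ⊆ DArm s r := by
  rintro ω ⟨w, hw, u, hu, hwu⟩
  have hu1 := hu.1
  have hu2 := hu.2
  have hwr := hwu.mem_left
  simp only [mem_ball, Prod.fst_zero, Prod.snd_zero] at hw hu1 hu2 hwr
  by_cases hwD : w ∈ rect (-(r : ℤ)) (r - 1) (-r) (r - 1)
  · by_cases huD : u ∈ rect (-(r : ℤ)) (r - 1) (-r) (r - 1) ∧
        Conn ω (rect (-(r : ℤ)) (r - 1) (-r) (r - 1)) w u
    · refine ⟨w, u, ?_, huD.1, ?_, huD.2⟩
      · simp only [rect, Set.mem_ofPred_eq]; omega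
      · have := huD.1
        simp only [rect, Set.mem_ofPred_eq] at this
        omega
    · -- some vertex on the path is a boundary face
      by_contra hno
      have key : Conn ω (rect (-(r : ℤ)) (r - 1) (-r) (r - 1)) w u := by
        refine hwu.induction_right
          (P := fun z => Conn ω (rect (-(r : ℤ)) (r - 1) (-r) (r - 1)) w z) (Conn.refl hwD) ?_
        intro a b _ hab ha
        refine ha.tail ⟨ha.mem_right, ?_, hab.2.2⟩
        have g1 := ha.mem_right
        have g2 : ¬ (a.1 = -r ∨ a.1 = r - 1 ∨ a.2 = -r ∨ a.2 = r - 1) := by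
          intro h
          refine hno ⟨w, a, ?_, g1, h, ha⟩
          simp only [rect, Set.mem_ofPred_eq]; omega
        have g3 := hab.fst_le
        have g4 := hab.snd_le
        simp only [rect, Set.mem_ofPred_eq] at g1 ⊢
        omega
      exact huD ⟨key.mem_right, key⟩
  · refine ⟨(-r, -r), (-r, -r), ?_, ?_, Or.inl rfl, Conn.refl ?_⟩
    · simp only [rect, Set.mem_ofPred_eq] at hwD ⊢; omega
    · simp only [rect, Set.mem_ofPred_eq]; omega
    · simp only [rect, Set.mem_ofPred_eq]; omega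

end Pool.Agent.H89.Perc
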