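import Pool.Agent.H89.Perc.TorusDefs

/-!
# Symmetries of the winding event
-/

open MeasureTheory ProbabilityTheory unitInterval

namespace Pool.Agent.H89.Perc

theorem localOn_wind {N : ℕ} (hN : 1 ≤ N) : LocalOn (tEdges N) (Wind N) := by
  intro ω ω' h hω
  have hper : per N ω = per N ω' := by
    funext e
    refine h _ ?_
    have hN' : (0 : ℤ) < N := by exact_mod_cast hN
    simp only [tEdges, Finset.mem_product, Finset.mem_Ico, Finset.mem_univ, and_true]
    exact ⟨⟨Int.emod_nonneg _ hN'.ne', Int.emod_lt_of_pos _ hN'⟩,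
      ⟨Int.emod_nonneg _ hN'.ne', Int.emod_lt_of_pos _ hN'⟩⟩
  obtain ⟨u, a, b, ha, hc⟩ := hω
  exact ⟨u, a, b, ha, hper ▸ hc⟩

theorem incr_wind (N : ℕ) : Incr (Wind N) := by
  rintro ω ω' h ⟨u, a, b, ha, hc⟩
  exact ⟨u, a, b, ha, hc.mono le_rfl fun e he => h _ he⟩

/-- Translation by `z` of the edges of the torus. -/
def torusSym_tau (N : ℕ) (z : Vert) (f : Edge) : Edge :=
  ((f.1 + z.1) % N, (f.2.1 + z.2) % N, f.2.2)

theorem torusSym_tau_injOn (N : ℕ) (z : Vert) : Set.InjOn (torusSym_tau N z) (tEdges N) := by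
  rintro ⟨x, y, d⟩ hf ⟨x', y', d'⟩ hf' h
  simp only [tEdges, Finset.coe_product, Set.mem_prod, Finset.coe_Ico, Set.mem_Ico,
    Finset.coe_univ, Set.mem_univ, and_true] at hf hf'
  simp only [torusSym_tau, Prod.mk.injEq] at h ⊢
  obtain ⟨h1, h2, h3⟩ := h
  refine ⟨?_, ?_, h3⟩
  · have h4 : x % N = x' % N := by
      have h5 : (x + z.1) ≡ (x' + z.1) [ZMOD N] := h1
      exact Int.ModEq.add_right_cancel' z.1 h5
    rwa [Int.emod_eq_of_lt hf.1.1 hf.1.2, Int.emod_eq_of_lt hf'.1.1 hf'.1.2] at h4
  · have h4 : y % N = y' % N := by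
      have h5 : (y + z.2) ≡ (y' + z.2) [ZMOD N] := h2
      exact Int.ModEq.add_right_cancel' z.2 h5
    rwa [Int.emod_eq_of_lt hf.2.1 hf.2.2, Int.emod_eq_of_lt hf'.2.1 hf'.2.2] at h4

theorem torusSym_per (N : ℕ) (z : Vert) (ω : Config) :
    per N (fun f => ω (torusSym_tau N z f)) = fun f => per N ω (shiftE z f) := by
  funext f
  simp only [per, torusSym_tau, shiftE, Int.emod_add_emod]

theorem torusSym_wind (N : ℕ) (z : Vert) (ω : Config) :
    (fun f => ω (torusSym_tau N z f)) ∈ Wind N ↔ ω ∈ Wind N := by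
  constructor
  · rintro ⟨u, a, b, ha, hc⟩
    rw [torusSym_per, conn_shift] at hc
    refine ⟨(u.1 + z.1, u.2 + z.2), a, b, ha, ?_⟩
    have h := hc.mono_set (Set.subset_univ _)
    convert h using 2
    · simp only; ring
    · simp only; ring
  · rintro ⟨u, a, b, ha, hc⟩
    refine ⟨(u.1 - z.1, u.2 - z.2), a, b, ha, ?_⟩
    rw [torusSym_per, conn_shift]
    have h1 : {w : Vert | (w.1 - z.1, w.2 - z.2) ∈ (Set.univ : Set Vert)} = Set.univ := by
      ext w; simp
    rw [h1]
    convert hc using 2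
    · simp
    · simp
    · simp only; ring
    · simp only; ring

theorem torusSym_update {N : ℕ} (hN : 1 ≤ N) (q : I) {e e' : Edge} (he : e ∈ tEdges N)
    (he' : e' ∈ tEdges N) (h : e.2.2 = e'.2.2) (b : Bool) :
    Pr q {ω | Function.update ω e' b ∈ Wind N} = Pr q {ω | Function.update ω e b ∈ Wind N} := by
  have hloc : LocalOn (tEdges N) {ω | Function.update ω e b ∈ Wind N} := by
    intro ω ω' hω h1
    refine localOn_wind hN _ _ (fun f hf => ?_) h1
    by_cases hfe : f = e
    · subst hfe; simp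
    · simp only [Function.update_of_ne hfe]; exact hω f hf
  set z : Vert := (e'.1 - e.1, e'.2.1 - e.2.1) with hz
  have hτ : torusSym_tau N z e = e' := by
    simp only [tEdges, Finset.mem_product, Finset.mem_Ico, Finset.mem_univ, and_true] at he he'
    obtain ⟨x, y, d⟩ := e
    obtain ⟨x', y', d'⟩ := e'
    simp only at h he he'
    simp only [torusSym_tau, hz, Prod.mk.injEq]
    refine ⟨?_, ?_, h⟩
    · rw [show x + (x' - x) = x' by ring, Int.emod_eq_of_lt he'.1.1 he'.1.2]
    · rw [show y + (y' - y) = y' by ring, Int.emod_eq_of_lt he'.2.1 he'.2.2]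
  rw [← Pr_comp hloc (torusSym_tau_injOn N z)]
  congr 1
  ext ω
  simp only [Set.mem_ofPred_eq]
  rw [← torusSym_wind N z (Function.update ω e' b)]
  have key : ∀ f ∈ tEdges N, Function.update ω e' b (torusSym_tau N z f) =
      Function.update (fun f => ω (torusSym_tau N z f)) e b f := by
    intro f hf
    by_cases hfe : f = e
    · subst hfe
      rw [hτ]; simp
    · have h2 : torusSym_tau N z f ≠ e' := by
        intro h3
        rw [← hτ] at h3
        exact hfe (torusSym_tau_injOn N z hf he h3)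
      rw [Function.update_of_ne h2, Function.update_of_ne hfe]
  exact ⟨fun h1 => localOn_wind hN _ _ key h1,
    fun h1 => localOn_wind hN _ _ (fun f hf => (key f hf).symm) h1⟩

/-- By translation invariance all edges of the same direction have the same influence. -/
theorem pivot_wind {N : ℕ} (hN : 1 ≤ N) (q : I) {e e' : Edge} (he : e ∈ tEdges N)
    (he' : e' ∈ tEdges N) (h : e.2.2 = e'.2.2) : pivot q (Wind N) e = pivot q (Wind N) e' := by
  unfold pivot
  rw [torusSym_update hN q he he' h true, torusSym_update hN q he he' h false]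

end Pool.Agent.H89.Perc
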