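import Pool.Agent.H89.Perc.TorusDefs

/-!
# An open horizontal winding path excludes a dual vertical winding path
-/

open MeasureTheory ProbabilityTheory unitInterval

namespace Pool.Agent.H89.Perc

/-- A configuration is invariant under the translation by `z`. -/
private def WindExclInv (η : Config) (z : Vert) : Prop :=
  ∀ e : Edge, η (e.1 + z.1, e.2.1 + z.2, e.2.2) = η e

private lemma windExcl_inv_neg {η : Config} {z : Vert} (h : WindExclInv η z) :
    WindExclInv η (-z.1, -z.2) := by
  intro e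
  have := h (e.1 + -z.1, e.2.1 + -z.2, e.2.2)
  simp only [neg_add_cancel_right] at this
  exact this.symm

private lemma windExcl_dual {η : Config} {z : Vert} (h : WindExclInv η z) :
    WindExclInv (dual η) z := by
  rintro ⟨x, y, b⟩
  cases b
  · simp only [dual, crossed, Bool.false_eq_true, if_false]
    have := h (x + 1, y, true)
    simp only at this
    rw [← this]
    congr 2
    simp only [Prod.mk.injEq, and_true]
    ring
  · simp only [dual, crossed, if_true]
    have := h (x, y + 1, false)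
    simp only at this
    rw [← this]
    congr 2
    simp only [Prod.mk.injEq, and_true, true_and]
    ring

private lemma windExcl_step {η : Config} {z : Vert} (h : WindExclInv η z) {S T : Set Vert}
    (hST : ∀ v ∈ S, (v.1 + z.1, v.2 + z.2) ∈ T) {u v : Vert} (hs : Step η S u v) :
    Step η T (u.1 + z.1, u.2 + z.2) (v.1 + z.1, v.2 + z.2) := by
  obtain ⟨h1, h2, ⟨x, y, b⟩, h3, h4⟩ := hs
  refine ⟨hST u h1, hST v h2, (x + z.1, y + z.2, b), ?_, ?_⟩
  · cases b
    · simp only [Joins, src, tgt, Bool.false_eq_true, if_false] at h3 ⊢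
      rcases h3 with ⟨h5, h6⟩ | ⟨h5, h6⟩ <;> subst h5 h6
      · left; exact ⟨rfl, by ext <;> simp; ring⟩
      · right; exact ⟨by ext <;> simp; ring, rfl⟩
    · simp only [Joins, src, tgt, if_true] at h3 ⊢
      rcases h3 with ⟨h5, h6⟩ | ⟨h5, h6⟩ <;> subst h5 h6
      · left; exact ⟨rfl, by ext <;> simp; ring⟩
      · right; exact ⟨by ext <;> simp; ring, rfl⟩
  · rw [← h4]
    exact h (x, y, b)

private lemma windExcl_conn {η : Config} {z : Vert} (h : WindExclInv η z) {S T : Set Vert}
    (hST : ∀ v ∈ S, (v.1 + z.1, v.2 + z.2) ∈ T) {u v : Vert} (hc : Conn η S u v) :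
    Conn η T (u.1 + z.1, u.2 + z.2) (v.1 + z.1, v.2 + z.2) := by
  refine hc.induction_right (P := fun v => Conn η T (u.1 + z.1, u.2 + z.2) (v.1 + z.1, v.2 + z.2))
    (Conn.refl (hST u hc.mem_left)) ?_
  intro a b _ hab ha
  exact ha.tail (windExcl_step h hST hab)

/-- Repeating a periodic path `K` times. -/
private lemma windExcl_repeat {η : Config} {z : Vert} (h : WindExclInv η z) {S : Set Vert}
    (hS : ∀ v ∈ S, (v.1 + z.1, v.2 + z.2) ∈ S) {u : Vert}
    (hc : Conn η S u (u.1 + z.1, u.2 + z.2)) (K : ℕ) :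
    Conn η S u (u.1 + K * z.1, u.2 + K * z.2) := by
  induction K with
  | zero => simpa using Conn.refl hc.mem_left
  | succ K ih =>
    have h1 := windExcl_conn h hS ih
    have h2 := hc.trans h1
    convert h2 using 1
    ext <;> simp <;> ring

/-- Repeating a periodic path in both directions. -/
private lemma windExcl_repeat2 {η : Config} {z : Vert} (h : WindExclInv η z) {S : Set Vert}
    (hS : ∀ v ∈ S, (v.1 + z.1, v.2 + z.2) ∈ S) (hS' : ∀ v ∈ S, (v.1 - z.1, v.2 - z.2) ∈ S)
    {u : Vert} (hc : Conn η S u (u.1 + z.1, u.2 + z.2)) (K : ℕ) :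
    Conn η S (u.1 - K * z.1, u.2 - K * z.2) (u.1 + K * z.1, u.2 + K * z.2) := by
  have h1 := windExcl_repeat h hS hc K
  have hneg := windExcl_inv_neg h
  have hSn : ∀ v ∈ S, (v.1 + (-z.1, -z.2).1, v.2 + (-z.1, -z.2).2) ∈ S := by
    intro v hv
    have := hS' v hv
    simpa [sub_eq_add_neg] using this
  have h2 : Conn η S u (u.1 + (-z.1, -z.2).1, u.2 + (-z.1, -z.2).2) := by
    have := windExcl_conn hneg hSn hc.symm
    convert this using 1
    ext <;> simp
  have h3 := windExcl_repeat hneg hSn h2 K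
  have h4 := h3.symm.trans h1
  convert h4 using 1
  ext <;> simp <;> ring

/-- A path is contained in a ball. -/
private lemma windExcl_bounded {η : Config} {S : Set Vert} {u v : Vert} (hc : Conn η S u v) :
    ∃ M : ℕ, Conn η (S ∩ ball 0 M) u v := by
  refine hc.induction_right (P := fun v => ∃ M : ℕ, Conn η (S ∩ ball 0 M) u v) ?_ ?_
  · refine ⟨(|u.1| + |u.2|).toNat, Conn.refl ⟨hc.mem_left, ?_⟩⟩
    rw [mem_ball]
    have h1 := abs_nonneg u.1
    have h2 := abs_nonneg u.2
    have h3 := le_abs_self u.1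
    have h4 := neg_abs_le u.1
    have h5 := le_abs_self u.2
    have h6 := neg_abs_le u.2
    simp only [Prod.fst_zero, Prod.snd_zero]
    omega
  · rintro a b _ hab ⟨M, hM⟩
    refine ⟨M + 1, ?_⟩
    have h1 : Conn η (S ∩ ball 0 (M + 1 : ℕ)) u a := hM.mono_set (by
      rintro x ⟨hx, hx'⟩
      refine ⟨hx, ?_⟩
      rw [mem_ball] at hx' ⊢
      push_cast
      omega)
    refine h1.tail ⟨h1.mem_right, ⟨hab.2.1, ?_⟩, hab.2.2⟩
    have h2 := hM.mem_right.2
    have h3 := hab.fst_le
    have h4 := hab.snd_le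
    rw [mem_ball] at h2 ⊢
    push_cast
    omega

private lemma windExcl_per (N : ℕ) (ω : Config) (i j : ℤ) :
    WindExclInv (per N ω) (i * N, j * N) := by
  intro e
  simp only [per]
  congr 2
  · exact Int.add_mul_emod_self_right _ _ _
  · congr 1
    exact Int.add_mul_emod_self_right _ _ _

private lemma wind_exclusion_pos {N : ℕ} (hN : 1 ≤ N) {ω : Config} {u : Vert} {a b : ℤ}
    (ha : 0 < a) (h : Conn (per N ω) Set.univ u (u.1 + a * N, u.2 + b * N)) (w : Vert) :
    ¬ Conn (dual (per N ω)) Set.univ w (w.1, w.2 + N) := by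
  intro hd
  set η := per N ω with hη
  have hN' : (1 : ℤ) ≤ N := by exact_mod_cast hN
  -- the dual path lies in a vertical strip
  obtain ⟨L, hL⟩ := windExcl_bounded hd
  set A : ℤ := -L with hA
  set B : ℤ := L + 1 with hB
  set S : Set Vert := {v | A ≤ v.1 ∧ v.1 ≤ B - 1} with hS
  have hd1 : Conn (dual η) S w (w.1 + ((0 : ℤ), (N : ℤ)).1, w.2 + ((0 : ℤ), (N : ℤ)).2) := by
    have : Conn (dual η) S w (w.1, w.2 + N) := hL.mono_set (by
      rintro x ⟨_, hx⟩
      rw [mem_ball] at hx
      simp only [Prod.fst_zero, Prod.snd_zero] at hx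
      simp only [hS, Set.mem_ofPred_eq, hA, hB]
      omega)
    simpa using this
  have hinv : WindExclInv (dual η) ((0 : ℤ), (N : ℤ)) := by
    have := windExcl_dual (windExcl_per N ω 0 1)
    simpa using this
  have hdK := windExcl_repeat2 hinv (S := S) (by
    intro v hv
    simpa [hS] using hv) (by
    intro v hv
    simpa [hS] using hv) hd1
  -- the primal path
  have hpK := windExcl_repeat2 (windExcl_per N ω a b) (S := Set.univ) (fun _ _ => trivial)
    (fun _ _ => trivial) h
  obtain ⟨K, hK1, hK2⟩ : ∃ K : ℕ, u.1 - K * (a * N) ≤ A ∧ B ≤ u.1 + K * (a * N) := by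
    refine ⟨(|u.1| + L + 1).toNat, ?_⟩
    have h1 := abs_nonneg u.1
    have h2 := le_abs_self u.1
    have h3 := neg_abs_le u.1
    have h4 : (((|u.1| + L + 1).toNat : ℕ) : ℤ) = |u.1| + L + 1 := by
      apply Int.toNat_of_nonneg
      omega
    rw [h4]
    have h5 : 1 ≤ a * N := by nlinarith
    have h6 : |u.1| + L + 1 ≤ (|u.1| + L + 1) * (a * N) := by nlinarith
    constructor <;> omega
  obtain ⟨M, hM⟩ := windExcl_bounded (hpK K)
  obtain ⟨u', v', hu', hv', hc, _, _⟩ := hM.cross_x (a := A) (b := B) hK1 hK2 (by omega)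
  have hH : HCross η A B (-M) M := by
    refine ⟨u', v', hu', hv', hc.mono_set ?_⟩
    rintro x ⟨⟨_, hx⟩, hx'⟩
    rw [mem_ball] at hx
    simp only [Prod.fst_zero, Prod.snd_zero] at hx
    simp only [Set.mem_ofPred_eq] at hx'
    simp only [rect, Set.mem_ofPred_eq]
    omega
  -- the dual crossing
  obtain ⟨K', hK1', hK2'⟩ : ∃ K' : ℕ, w.2 - K' * (N : ℤ) ≤ -M - 1 ∧ (M : ℤ) ≤ w.2 + K' * N := by
    refine ⟨(|w.2| + M + 1).toNat, ?_⟩
    have h1 := abs_nonneg w.2
    have h2 := le_abs_self w.2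
    have h3 := neg_abs_le w.2
    have h4 : (((|w.2| + M + 1).toNat : ℕ) : ℤ) = |w.2| + M + 1 := by
      apply Int.toNat_of_nonneg
      omega
    rw [h4]
    have h6 : |w.2| + M + 1 ≤ (|w.2| + M + 1) * (N : ℤ) := by nlinarith
    constructor <;> omega
  obtain ⟨u'', v'', hu'', hv'', hc', _, _⟩ := (hdK K').cross_y (a := -M - 1) (b := M)
    (by simpa using hK1') (by simpa using hK2') (by omega)
  have hV : VCross (dual η) A (B - 1) (-M - 1) M := by
    refine ⟨u'', v'', hu'', hv'', hc'.mono_set ?_⟩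
    rintro x ⟨hx, hx'⟩
    simp only [hS, Set.mem_ofPred_eq] at hx hx'
    simp only [rect, Set.mem_ofPred_eq]
    omega
  exact not_hcross_and_dual_vcross (by omega) hH hV

/-- An open horizontal winding path excludes a dual vertical winding path. -/
theorem wind_exclusion {N : ℕ} (hN : 1 ≤ N) {ω : Config} (h : ω ∈ Wind N) (w : Vert) :
    ¬ Conn (dual (per N ω)) Set.univ w (w.1, w.2 + N) := by
  obtain ⟨u, a, b, ha, hc⟩ := h
  rcases lt_or_gt_of_ne ha with ha | ha
  · refine wind_exclusion_pos hN (u := (u.1 + a * N, u.2 + b * N)) (a := -a) (b := -b) (by omega)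
      ?_ w
    have := hc.symm
    convert this using 1
    ext <;> simp
  · exact wind_exclusion_pos hN ha hc w

end Pool.Agent.H89.Perc
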