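import Pool.Agent.H89.Perc.Path

/-!
# Parity arguments in the plane

Edge functions with values in `ZMod 2`. `fsum c F` is the sum around the face `F` (with lower left
corner `F`), `vsum c V` is the sum over the edges at the vertex `V`. On a rectangle, an edge function
whose face sums vanish is the coboundary of a vertex function (`integRect`); the consequence
`cut_lemma` is the tool behind the duality statements.
-/

namespace Pool.Agent.H89.Perc

variable {ω ω' : Config} {S T : Set Vert} {u v w : Vert} {e : Edge}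

lemma z2_add_self (a : ZMod 2) : a + a = 0 := CharTwo.add_self_eq_zero a

lemma z2_one_of_ne {a : ZMod 2} (h : a ≠ 0) : a = 1 := by
  revert h; revert a; decide

lemma z2_add_eq_one {a b : ZMod 2} : a + b = 1 ↔ a ≠ b := by
  revert a b; decide

lemma z2_add_eq_zero {a b : ZMod 2} : a + b = 0 ↔ a = b := by
  revert a b; decide

/-- The sum around the face `F`. -/
def fsum (c : Edge → ZMod 2) (F : Vert) : ZMod 2 :=
  c (F.1, F.2, false) + c (F.1 + 1, F.2, true) + c (F.1, F.2 + 1, false) + c (F.1, F.2, true)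

/-- The sum over the edges at the vertex `V`. -/
def vsum (c : Edge → ZMod 2) (V : Vert) : ZMod 2 :=
  c (V.1, V.2, false) + c (V.1, V.2, true) + c (V.1 - 1, V.2, false) + c (V.1, V.2 - 1, true)

/-- The dual edge which crosses the edge `e`. -/
def uncross (e : Edge) : Edge := if e.2.2 then (e.1 - 1, e.2.1, false) else (e.1, e.2.1 - 1, true)

lemma crossed_uncross (e : Edge) : crossed (uncross e) = e := by
  obtain ⟨x, y, b⟩ := e
  cases b <;> simp [crossed, uncross]

lemma uncross_crossed (e : Edge) : uncross (crossed e) = e := by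
  obtain ⟨x, y, b⟩ := e
  cases b <;> simp [crossed, uncross]

lemma crossed_injective : Function.Injective crossed := fun e e' h => by
  rw [← uncross_crossed e, h, uncross_crossed]

/-- The face next to `e` which is different from `src e`. -/
def lowFace (e : Edge) : Vert := if e.2.2 then (e.1 - 1, e.2.1) else (e.1, e.2.1 - 1)

lemma src_uncross (e : Edge) : src (uncross e) = lowFace e := by
  obtain ⟨x, y, b⟩ := e
  cases b <;> simp [src, uncross, lowFace]

lemma tgt_uncross (e : Edge) : tgt (uncross e) = src e := by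
  obtain ⟨x, y, b⟩ := e
  cases b <;> simp [src, tgt, uncross]

lemma src_eq_lowFace_crossed (e : Edge) : src e = lowFace (crossed e) := by
  rw [← src_uncross, uncross_crossed]

lemma tgt_eq_src_crossed (e : Edge) : tgt e = src (crossed e) := by
  rw [← tgt_uncross, uncross_crossed]

lemma vsum_crossed (c : Edge → ZMod 2) (F : Vert) : vsum (fun e => c (crossed e)) F = fsum c F := by
  simp only [vsum, fsum, crossed]
  simp
  ring

/-- A dual step through a closed edge. -/
lemma dual_step (h : ω e = false) (h1 : lowFace e ∈ S) (h2 : src e ∈ S) :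
    Step (dual ω) S (lowFace e) (src e) := by
  refine ⟨h1, h2, uncross e, Or.inl ⟨(src_uncross e).symm, (tgt_uncross e).symm⟩, ?_⟩
  simp [dual, crossed_uncross, h]

lemma Step.of_dual (h : Step (dual ω) S u v) :
    u ∈ S ∧ v ∈ S ∧ ∃ e, ω e = false ∧
      ((u = lowFace e ∧ v = src e) ∨ (u = src e ∧ v = lowFace e)) := by
  obtain ⟨h1, h2, e, h3, h4⟩ := h
  refine ⟨h1, h2, crossed e, by simpa [dual] using h4, ?_⟩
  rw [← src_eq_lowFace_crossed, ← tgt_eq_src_crossed]
  exact h3

/-- A function which does not change along open edges is constant along open paths. -/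
lemma Conn.const {α : Type*} {f : Vert → α} (h : Conn ω S u v)
    (hf : ∀ e, src e ∈ S → tgt e ∈ S → ω e = true → f (src e) = f (tgt e)) : f u = f v := by
  refine h.induction_right (P := fun x => f u = f x) rfl ?_
  intro a b _ hs ih
  obtain ⟨h1, h2, e, h3, h4⟩ := hs
  rw [ih]
  rcases h3 with ⟨h5, h6⟩ | ⟨h5, h6⟩
  · subst h5 h6
    exact hf e h1 h2 h4
  · subst h5 h6
    exact (hf e h2 h1 h4).symm

lemma const_row {α : Type*} {f : Vert → α} {x₁ x₂ y : ℤ} (hx : x₁ ≤ x₂)
    (h : ∀ x, x₁ ≤ x → x < x₂ → f (x, y) = f (x + 1, y)) : f (x₁, y) = f (x₂, y) := by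
  have key : ∀ n : ℕ, x₁ + n ≤ x₂ → f (x₁, y) = f (x₁ + n, y) := by
    intro n
    induction n with
    | zero => intro _; simp
    | succ n ih =>
      intro hn
      push_cast at hn
      rw [ih (by omega), h (x₁ + n) (by omega) (by omega)]
      congr 2
      push_cast
      ring
  have := key (x₂ - x₁).toNat (by omega)
  rw [this]
  congr 2
  omega

lemma const_col {α : Type*} {f : Vert → α} {x y₁ y₂ : ℤ} (hy : y₁ ≤ y₂)
    (h : ∀ y, y₁ ≤ y → y < y₂ → f (x, y) = f (x, y + 1)) : f (x, y₁) = f (x, y₂) := by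
  have key : ∀ n : ℕ, y₁ + n ≤ y₂ → f (x, y₁) = f (x, y₁ + n) := by
    intro n
    induction n with
    | zero => intro _; simp
    | succ n ih =>
      intro hn
      push_cast at hn
      rw [ih (by omega), h (y₁ + n) (by omega) (by omega)]
      congr 2
      push_cast
      ring
  have := key (y₂ - y₁).toNat (by omega)
  rw [this]
  congr 2
  omega

/-- **Integration on a rectangle.** If the face sums of `κ` vanish on the faces of a rectangle, then
`κ` is the coboundary of a vertex function on the rectangle. -/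
theorem integRect {a b c d : ℤ} (κ : Edge → ZMod 2)
    (hf : ∀ F ∈ rect a (b - 1) c (d - 1), fsum κ F = 0) :
    ∃ W : Vert → ZMod 2, ∀ e : Edge, src e ∈ rect a b c d → tgt e ∈ rect a b c d →
      κ e = W (src e) + W (tgt e) := by
  set W : Vert → ZMod 2 := fun V => ∑ i ∈ Finset.range (V.1 - a).toNat, κ (a + i, c, false) +
    ∑ j ∈ Finset.range (V.2 - c).toNat, κ (V.1, c + j, true) with hW
  have hvert : ∀ x y, c ≤ y → W (x, y + 1) = W (x, y) + κ (x, y, true) := by
    intro x y hy
    have e1 : (y + 1 - c).toNat = (y - c).toNat + 1 := by omega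
    simp only [hW]
    have e2 : c + ((y - c).toNat : ℤ) = y := by omega
    rw [e1, Finset.sum_range_succ, e2, add_assoc]
  have hhor0 : ∀ x, a ≤ x → W (x + 1, c) = W (x, c) + κ (x, c, false) := by
    intro x hx
    have e1 : (x + 1 - a).toNat = (x - a).toNat + 1 := by omega
    simp only [hW]
    rw [e1, Finset.sum_range_succ]
    have e2 : a + ((x - a).toNat : ℤ) = x := by omega
    rw [e2]
    simp
  have hhor : ∀ (n : ℕ) (x : ℤ), a ≤ x → x + 1 ≤ b → c + n ≤ d →
      W (x + 1, c + n) = W (x, c + n) + κ (x, c + n, false) := by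
    intro n x hx hxb
    induction n with
    | zero => intro _; simpa using hhor0 x hx
    | succ n ih =>
      intro hn
      push_cast at hn
      have e1 : (c + ((n + 1 : ℕ) : ℤ)) = (c + (n : ℤ)) + 1 := by push_cast; ring
      rw [e1, hvert _ _ (by omega), hvert _ _ (by omega), ih (by omega)]
      have h1 := hf (x, c + n) ⟨hx, by simp only; omega, by simp only; omega, by simp only; omega⟩
      simp only [fsum] at h1
      have h2 := z2_add_self (κ (x, c + n, true))
      have h3 := z2_add_self (κ (x, c + n + 1, false))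
      linear_combination h1 - h2 - h3
  refine ⟨W, ?_⟩
  rintro ⟨x, y, t⟩ h1 h2
  cases t
  · simp only [src, tgt, rect, Set.mem_ofPred_eq, Bool.false_eq_true, if_false] at h1 h2 ⊢
    have e1 : c + ((y - c).toNat : ℤ) = y := by omega
    have := hhor (y - c).toNat x (by omega) (by omega) (by omega)
    rw [e1] at this
    rw [this, ← add_assoc, z2_add_self, zero_add]
  · simp only [src, tgt, rect, Set.mem_ofPred_eq, if_true] at h1 h2 ⊢
    rw [hvert x y (by omega), ← add_assoc, z2_add_self, zero_add]

/-- **Cut lemma.** Let `χ` be a vertex function and let `T` be a set of faces of a rectangle which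
is closed under crossing edges along which `χ` changes. Then there is a vertex function `W` on the
rectangle which changes exactly along those edges near `T` along which `χ` changes. -/
theorem cut_lemma {a b c d : ℤ} (χ : Vert → ZMod 2) (T : Set Vert)
    (hTs : T ⊆ rect a (b - 1) c (d - 1))
    (hT : ∀ e : Edge, src e ∈ rect a (b - 1) c (d - 1) → lowFace e ∈ rect a (b - 1) c (d - 1) →
      χ (src e) ≠ χ (tgt e) → (src e ∈ T ↔ lowFace e ∈ T)) :
    ∃ W : Vert → ZMod 2, ∀ e : Edge, src e ∈ rect a b c d → tgt e ∈ rect a b c d →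
      ((src e ∈ T ∨ lowFace e ∈ T) → W (src e) + W (tgt e) = χ (src e) + χ (tgt e)) ∧
      (src e ∉ T → lowFace e ∉ T → W (src e) = W (tgt e)) := by
  classical
  set κ : Edge → ZMod 2 := fun e =>
    if src e ∈ T ∨ lowFace e ∈ T then χ (src e) + χ (tgt e) else 0 with hκ
  have hout : ∀ e : Edge, ∀ F ∈ rect a (b - 1) c (d - 1), F ∉ T → (F = src e ∨ F = lowFace e) →
      κ e = 0 := by
    intro e F hF hFT hFe
    simp only [hκ]
    split_ifs with h
    · rw [z2_add_eq_zero]
      by_contra hne
      rcases hFe with h1 | h1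
      · subst h1
        rcases h with h | h
        · exact hFT h
        · exact hFT ((hT e hF (hTs h) hne).2 h)
      · subst h1
        rcases h with h | h
        · exact hFT ((hT e (hTs h) hF hne).1 h)
        · exact hFT h
    · rfl
  have hin : ∀ e : Edge, (src e ∈ T ∨ lowFace e ∈ T) → κ e = χ (src e) + χ (tgt e) := by
    intro e h
    simp only [hκ, if_pos h]
  obtain ⟨W, hW⟩ := integRect (a := a) (b := b) (c := c) (d := d) κ (by
    intro F hF
    have s1 : F = src (F.1, F.2, false) := rfl
    have s2 : F = lowFace (F.1 + 1, F.2, true) := by simp [lowFace]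
    have s3 : F = lowFace (F.1, F.2 + 1, false) := by simp [lowFace]
    have s4 : F = src (F.1, F.2, true) := rfl
    by_cases hFT : F ∈ T
    · unfold fsum
      rw [hin _ (Or.inl (s1 ▸ hFT)), hin _ (Or.inr (s2 ▸ hFT)), hin _ (Or.inr (s3 ▸ hFT)),
        hin _ (Or.inl (s4 ▸ hFT))]
      simp only [src, tgt, if_true, Bool.false_eq_true, if_false]
      linear_combination z2_add_self (χ (F.1, F.2)) + z2_add_self (χ (F.1 + 1, F.2)) +
        z2_add_self (χ (F.1, F.2 + 1)) + z2_add_self (χ (F.1 + 1, F.2 + 1))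
    · unfold fsum
      rw [hout _ F hF hFT (Or.inl s1), hout _ F hF hFT (Or.inr s2), hout _ F hF hFT (Or.inr s3),
        hout _ F hF hFT (Or.inl s4)]
      simp)
  refine ⟨W, fun e h1 h2 => ⟨fun h => ?_, fun h3 h4 => ?_⟩⟩
  · rw [← hW e h1 h2, hin e h]
  · have : κ e = 0 := by
      simp only [hκ]
      rw [if_neg (by tauto)]
    rw [← z2_add_eq_zero, ← hW e h1 h2, this]

/-! ### Chains of paths -/

/-- The indicator of an edge. -/
def one (e : Edge) : Edge → ZMod 2 := fun e' => if e' = e then 1 else 0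

lemma vsum_add (c c' : Edge → ZMod 2) (F : Vert) :
    vsum (fun e => c e + c' e) F = vsum c F + vsum c' F := by
  unfold vsum
  ring

lemma fsum_add (c c' : Edge → ZMod 2) (F : Vert) :
    fsum (fun e => c e + c' e) F = fsum c F + fsum c' F := by
  unfold fsum
  ring

lemma vsum_one (e : Edge) (V : Vert) :
    vsum (one e) V = (if V = src e then 1 else 0) + (if V = tgt e then 1 else 0) := by
  obtain ⟨x, y, b⟩ := e
  obtain ⟨a, d⟩ := V
  cases b
  · simp only [vsum, one, src, tgt, Prod.mk.injEq, Bool.false_eq_true, and_false, if_false,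
      and_true, Bool.true_eq_false]
    have h1 : (a - 1 = x ∧ d = y) ↔ (a = x + 1 ∧ d = y) := by
      constructor <;> rintro ⟨h, h'⟩ <;> exact ⟨by omega, h'⟩
    simp only [h1]
    ring
  · simp only [vsum, one, src, tgt, Prod.mk.injEq, Bool.false_eq_true, and_false, if_false,
      and_true, if_true]
    have h1 : (a = x ∧ d - 1 = y) ↔ (a = x ∧ d = y + 1) := by
      constructor <;> rintro ⟨h, h'⟩ <;> exact ⟨h, by omega⟩
    simp only [h1]
    ring

/-- A path gives a chain of edges whose odd vertices are its two endpoints. -/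
theorem Conn.chain (h : Conn ω S u v) :
    ∃ z : Edge → ZMod 2, (∀ e, z e ≠ 0 → ω e = true ∧ src e ∈ S ∧ tgt e ∈ S) ∧
      ∀ V, vsum z V = (if V = u then 1 else 0) + (if V = v then 1 else 0) := by
  refine h.induction_right (P := fun x => ∃ z : Edge → ZMod 2,
    (∀ e, z e ≠ 0 → ω e = true ∧ src e ∈ S ∧ tgt e ∈ S) ∧
      ∀ V, vsum z V = (if V = u then 1 else 0) + (if V = x then 1 else 0)) ?_ ?_
  · refine ⟨fun _ => 0, by simp, fun V => ?_⟩
    rw [z2_add_self]
    simp [vsum]
  · rintro a b _ ⟨h1, h2, e, h3, h4⟩ ⟨z, hz1, hz2⟩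
    refine ⟨fun e' => z e' + one e e', ?_, ?_⟩
    · intro e' he'
      by_cases hee : e' = e
      · subst hee
        rcases h3 with ⟨h5, h6⟩ | ⟨h5, h6⟩
        · subst h5 h6; exact ⟨h4, h1, h2⟩
        · subst h5 h6; exact ⟨h4, h2, h1⟩
      · apply hz1
        intro h0
        apply he'
        simp only [one]
        rw [h0, if_neg hee, add_zero]
    · intro V
      rw [vsum_add, hz2, vsum_one]
      have hz : (if V = a then (1 : ZMod 2) else 0) + (if V = a then 1 else 0) = 0 :=
        z2_add_self _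
      rcases h3 with ⟨h5, h6⟩ | ⟨h5, h6⟩
      · rw [← h5, ← h6]; linear_combination hz
      · rw [← h5, ← h6]; linear_combination hz

/-- A dual path gives a chain of closed edges whose odd faces are its two endpoints. -/
theorem Conn.dual_chain (h : Conn (dual ω) S u v) :
    ∃ D : Edge → ZMod 2, (∀ e, D e ≠ 0 → ω e = false ∧ lowFace e ∈ S ∧ src e ∈ S) ∧
      ∀ F, fsum D F = (if F = u then 1 else 0) + (if F = v then 1 else 0) := by
  obtain ⟨z, hz1, hz2⟩ := h.chain
  refine ⟨fun e => z (uncross e), ?_, ?_⟩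
  · intro e he
    obtain ⟨h1, h2, h3⟩ := hz1 _ he
    rw [src_uncross] at h2
    rw [tgt_uncross] at h3
    refine ⟨?_, h2, h3⟩
    simpa [dual, crossed_uncross] using h1
  · intro F
    rw [← vsum_crossed]
    simp only [uncross_crossed]
    exact hz2 F

/-! ### Reflection in the diagonal -/

/-- The reflected configuration. -/
def sw (ω : Config) : Config := fun e => ω (e.2.1, e.1, !e.2.2)

lemma Step.sw (h : Step ω S u v) : Step (sw ω) {w | (w.2, w.1) ∈ S} (u.2, u.1) (v.2, v.1) := by
  obtain ⟨h1, h2, e, h3, h4⟩ := h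
  refine ⟨h1, h2, (e.2.1, e.1, !e.2.2), ?_, ?_⟩
  · obtain ⟨x, y, b⟩ := e
    rcases h3 with ⟨h5, h6⟩ | ⟨h5, h6⟩ <;> subst h5 h6 <;> cases b <;> simp [Joins, src, tgt]
  · simpa [Perc.sw] using h4

lemma Conn.sw (h : Conn ω S u v) : Conn (sw ω) {w | (w.2, w.1) ∈ S} (u.2, u.1) (v.2, v.1) := by
  refine h.induction_right (P := fun x => Conn (Perc.sw ω) {w | (w.2, w.1) ∈ S} (u.2, u.1)
    (x.2, x.1)) (Conn.refl h.mem_left) ?_
  intro a b _ hs ih
  exact ih.tail hs.sw

lemma sw_dual (ω : Config) : sw (dual ω) = dual (sw ω) := by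
  funext ⟨x, y, b⟩
  cases b <;> simp [sw, dual, crossed]

lemma HCross.sw {a b c d : ℤ} (h : HCross ω a b c d) : VCross (sw ω) c d a b := by
  obtain ⟨u, v, h1, h2, h3⟩ := h
  refine ⟨(u.2, u.1), (v.2, v.1), h1, h2, h3.sw.mono_set ?_⟩
  rintro w ⟨k1, k2, k3, k4⟩
  exact ⟨k3, k4, k1, k2⟩

lemma VCross.sw {a b c d : ℤ} (h : VCross ω a b c d) : HCross (sw ω) c d a b := by
  obtain ⟨u, v, h1, h2, h3⟩ := h
  refine ⟨(u.2, u.1), (v.2, v.1), h1, h2, h3.sw.mono_set ?_⟩
  rintro w ⟨k1, k2, k3, k4⟩
  exact ⟨k3, k4, k1, k2⟩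

lemma sw_sw (ω : Config) : sw (sw ω) = ω := by
  funext ⟨x, y, b⟩
  simp [sw]

end Pool.Agent.H89.Perc
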