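import Pool.Agent.H89.Perc.RSWKey

/-!
# Russo-Seymour-Welsh at the self-dual point
-/

open MeasureTheory ProbabilityTheory unitInterval

namespace Pool.Agent.H89.Perc

/-! ### The mirror image of `XEvent` -/

/-- Mirror image of `XEvent m n` under `x ↦ n - x`. -/
def rsw_XEvent' (m n : ℕ) : Set Config :=
  {ω | ∃ u v w : Vert, u.2 = 0 ∧ v.2 = n ∧ w.1 = (n : ℤ) - m ∧
    Conn ω (rect 0 n 0 n) u v ∧ Conn ω (rect ((n : ℤ) - m) n 0 (2 * n)) u w}

lemma rsw_rect_subset {a b c d a' b' c' d' : ℤ} (h1 : a' ≤ a) (h2 : b ≤ b') (h3 : c' ≤ c)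
    (h4 : d ≤ d') : rect a b c d ⊆ rect a' b' c' d' := by
  rintro x ⟨hx1, hx2, hx3, hx4⟩
  exact ⟨h1.trans hx1, hx2.trans h2, h3.trans hx3, hx4.trans h4⟩

lemma rsw_localOn_XEvent {m n : ℕ} (hmn : n ≤ m) :
    LocalOn (eRect 0 m 0 (2 * n)) (XEvent m n) := by
  rintro ω ω' h ⟨u, v, w, hu, hv, hw, h1, h2⟩
  refine ⟨u, v, w, hu, hv, hw, Conn.congr (fun e he _ => h e (mem_eRect.2 ?_)) h1,
    Conn.congr (fun e he _ => h e (mem_eRect.2 he)) h2⟩
  exact rsw_rect_subset le_rfl (by exact_mod_cast hmn) le_rfl (by omega) he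

lemma rsw_incr_XEvent (m n : ℕ) : Incr (XEvent m n) := by
  rintro ω ω' h ⟨u, v, w, hu, hv, hw, h1, h2⟩
  exact ⟨u, v, w, hu, hv, hw, h1.mono le_rfl h, h2.mono le_rfl h⟩

lemma rsw_localOn_XEvent' {m n : ℕ} (hmn : n ≤ m) :
    LocalOn (eRect ((n : ℤ) - m) n 0 (2 * n)) (rsw_XEvent' m n) := by
  rintro ω ω' h ⟨u, v, w, hu, hv, hw, h1, h2⟩
  refine ⟨u, v, w, hu, hv, hw, Conn.congr (fun e he _ => h e (mem_eRect.2 ?_)) h1,
    Conn.congr (fun e he _ => h e (mem_eRect.2 he)) h2⟩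
  exact rsw_rect_subset (by omega) le_rfl le_rfl (by omega) he

lemma rsw_incr_XEvent' (m n : ℕ) : Incr (rsw_XEvent' m n) := by
  rintro ω ω' h ⟨u, v, w, hu, hv, hw, h1, h2⟩
  exact ⟨u, v, w, hu, hv, hw, h1.mono le_rfl h, h2.mono le_rfl h⟩

lemma rsw_reflX_reflX (z : ℤ) (e : Edge) : reflX z (reflX z e) = e := by
  obtain ⟨x, y, t⟩ := e
  cases t <;> simp [reflX]

lemma rsw_reflX_injective (z : ℤ) : Function.Injective (reflX z) := by
  intro e e' h
  rw [← rsw_reflX_reflX z e, h, rsw_reflX_reflX]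

lemma rsw_XEvent'_eq (m n : ℕ) :
    {ω : Config | (fun e => ω (reflX n e)) ∈ XEvent m n} = rsw_XEvent' m n := by
  ext ω
  constructor
  · rintro ⟨u, v, w, hu, hv, hw, h1, h2⟩
    rw [conn_reflX] at h1 h2
    refine ⟨((n : ℤ) - u.1, u.2), ((n : ℤ) - v.1, v.2), ((n : ℤ) - w.1, w.2), hu, hv, ?_,
      h1.mono_set ?_, h2.mono_set ?_⟩
    · simp [hw]
    · rintro x ⟨hx1, hx2, hx3, hx4⟩
      simp only at hx1 hx2 hx3 hx4
      exact ⟨by omega, by omega, hx3, hx4⟩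
    · rintro x ⟨hx1, hx2, hx3, hx4⟩
      simp only at hx1 hx2 hx3 hx4
      exact ⟨by omega, by omega, hx3, hx4⟩
  · rintro ⟨u, v, w, hu, hv, hw, h1, h2⟩
    refine ⟨((n : ℤ) - u.1, u.2), ((n : ℤ) - v.1, v.2), ((n : ℤ) - w.1, w.2), hu, hv, ?_, ?_, ?_⟩
    · simp [hw]
    · rw [conn_reflX]
      simp only [sub_sub_cancel]
      refine h1.mono_set ?_
      rintro x ⟨hx1, hx2, hx3, hx4⟩
      exact ⟨by simp only; omega, by simp only; omega, hx3, hx4⟩
    · rw [conn_reflX]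
      simp only [sub_sub_cancel]
      refine h2.mono_set ?_
      rintro x ⟨hx1, hx2, hx3, hx4⟩
      exact ⟨by simp only; omega, by simp only; omega, hx3, hx4⟩

lemma rsw_Pr_XEvent' {p : I} {m n : ℕ} (hmn : n ≤ m) :
    Pr p (rsw_XEvent' m n) = Pr p (XEvent m n) := by
  rw [← rsw_XEvent'_eq, Pr_comp (rsw_localOn_XEvent hmn) (rsw_reflX_injective _).injOn]

theorem rsw_glue {p : I} {m n : ℕ} (hn : 1 ≤ n) (hmn : n ≤ m) :
    Pr p (XEvent m n) ^ 2 * Pr p {ω | HCross ω 0 n 0 n} ≤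
      Pr p {ω | HCross ω (n - m) m 0 (2 * n)} := by
  classical
  have hsub : (XEvent m n ∩ rsw_XEvent' m n) ∩ {ω | HCross ω 0 n 0 n} ⊆
      {ω | HCross ω (n - m) m 0 (2 * n)} := by
    rintro ω ⟨⟨⟨u, v, w, hu, hv, hw, h1, h2⟩, ⟨u', v', w', hu', hv', hw', h1', h2'⟩⟩,
      ⟨x, y, hx, hy, h3⟩⟩
    obtain ⟨z, hz1, hz2⟩ := cross h3 hx hy h1 hu hv
    obtain ⟨z', hz1', hz2'⟩ := cross h3 hx hy h1' hu' hv'
    have h4 : Conn ω (rect 0 n 0 n) u' u :=
      (hz2'.trans hz1'.symm).trans (hz1.trans hz2.symm)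
    refine ⟨w', w, hw', hw, ?_⟩
    have h5 : Conn ω (rect ((n : ℤ) - m) m 0 (2 * n)) w' u' :=
      (h2'.mono_set (rsw_rect_subset le_rfl (by exact_mod_cast hmn) le_rfl le_rfl)).symm
    have h6 : Conn ω (rect ((n : ℤ) - m) m 0 (2 * n)) u' u :=
      h4.mono_set (rsw_rect_subset (by omega) (by exact_mod_cast hmn) le_rfl (by omega))
    have h7 : Conn ω (rect ((n : ℤ) - m) m 0 (2 * n)) u w :=
      h2.mono_set (rsw_rect_subset (by omega) le_rfl le_rfl le_rfl)
    exact (h5.trans h6).trans h7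
  have h1 := fkg (p := p) (rsw_localOn_XEvent hmn) (rsw_localOn_XEvent' hmn)
    (rsw_incr_XEvent m n) (rsw_incr_XEvent' m n)
  have h2 := fkg (p := p) ((rsw_localOn_XEvent hmn).inter' (rsw_localOn_XEvent' hmn))
    (localOn_hcross 0 (n : ℤ) 0 (n : ℤ))
    ((rsw_incr_XEvent m n).inter (rsw_incr_XEvent' m n)) (incr_hcross 0 (n : ℤ) 0 (n : ℤ))
  rw [rsw_Pr_XEvent' hmn] at h1
  calc Pr p (XEvent m n) ^ 2 * Pr p {ω | HCross ω 0 n 0 n}
      ≤ Pr p (XEvent m n ∩ rsw_XEvent' m n) * Pr p {ω | HCross ω 0 n 0 n} := by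
        apply mul_le_mul_of_nonneg_right _ Pr_nonneg
        rw [sq]
        exact h1
    _ ≤ _ := h2.trans (Pr_mono hsub)

lemma rsw_symm_half : σ half = half := by
  apply Subtype.ext
  simp only [unitInterval.coe_symm_eq, half]
  norm_num

theorem half_le_hcross (n : ℕ) : 1 / 2 ≤ Pr half {ω | HCross ω 0 n 0 n} := by
  have h1 : (Set.univ : Set Config) ⊆ {ω | HCross ω 0 ((n : ℤ) + 1) 0 n} ∪
      {ω | dual ω ∈ {η | VCross η 0 n (-1) n}} := by
    intro ω _
    have := hcross_or_dual_vcross (ω := ω) (a := 0) (b := (n : ℤ) + 1) (c := 0) (d := n)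
      (by omega) (by omega)
    rcases this with h | h
    · exact Or.inl h
    · right
      simpa using h
  have h2 : (1 : ℝ) ≤ Pr half {ω | HCross ω 0 ((n : ℤ) + 1) 0 n} +
      Pr half {ω | dual ω ∈ {η | VCross η 0 n (-1) n}} := by
    rw [← Pr_univ (p := half)]
    exact (Pr_mono h1).trans Pr_union_le
  rw [Pr_dual (localOn_vcross 0 (n : ℤ) (-1) n), rsw_symm_half, Pr_vcross_eq_hcross] at h2
  have h3 : Pr half {ω | HCross ω (-1) n 0 n} = Pr half {ω | HCross ω 0 ((n : ℤ) + 1) 0 n} := by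
    have := Pr_hcross_translate (p := half) (a := 0) (b := (n : ℤ) + 1) (c := 0) (d := n) (-1) 0
    simpa using this
  rw [h3] at h2
  have h4 : Pr half {ω | HCross ω 0 ((n : ℤ) + 1) 0 n} ≤ Pr half {ω | HCross ω 0 n 0 n} := by
    apply Pr_mono
    intro ω h
    exact HCross.mono h le_rfl (by omega) (by omega) le_rfl le_rfl
  linarith

theorem half_le_vcross (n : ℕ) : 1 / 2 ≤ Pr half {ω | VCross ω 0 n 0 n} := by
  rw [Pr_vcross_eq_hcross]
  exact half_le_hcross n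

/-- One step of the iteration: from width `m` to width `2 m - n`. -/
lemma rsw_step {m n : ℕ} (hn : 1 ≤ n) (hmn : n ≤ m) {x : ℝ} (hx : 0 ≤ x)
    (h : x ≤ Pr half {ω | HCross ω 0 m 0 (2 * n)}) :
    x ^ 2 / 32 ≤ Pr half {ω | HCross ω 0 (2 * m - n) 0 (2 * n)} := by
  have h1 := rsw_key (p := half) hn hmn
  have h2 := rsw_glue (p := half) hn hmn
  have h3 : Pr half {ω | HCross ω (n - m) m 0 (2 * n)} =
      Pr half {ω | HCross ω 0 (2 * m - n) 0 (2 * n)} := by
    have := Pr_hcross_translate (p := half) (a := 0) (b := 2 * (m : ℤ) - n) (c := 0)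
      (d := 2 * (n : ℤ)) ((n : ℤ) - m) 0
    rw [← this]
    congr 1
    ext ω
    simp only [zero_add, add_zero, Set.mem_ofPred_eq]
    rw [show 2 * (m : ℤ) - n + (n - m) = m by ring]
  rw [h3] at h2
  have h4 := half_le_hcross n
  have h5 := half_le_vcross n
  have h6 : x / 4 ≤ Pr half (XEvent m n) := by
    refine le_trans ?_ h1
    have h7 : 0 ≤ Pr half {ω | VCross ω 0 n 0 n} := Pr_nonneg
    have h8 : 0 ≤ Pr half {ω | HCross ω 0 m 0 (2 * n)} := Pr_nonneg
    nlinarith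
  have h9 : (x / 4) ^ 2 ≤ Pr half (XEvent m n) ^ 2 := by
    apply pow_le_pow_left₀ (by positivity) h6
  refine le_trans ?_ h2
  have h10 : 0 ≤ Pr half (XEvent m n) ^ 2 := by positivity
  nlinarith

lemma rsw_even {n : ℕ} (hn : 1 ≤ n) :
    (1 / 2 : ℝ) ^ 91 ≤ Pr half {ω | HCross ω 0 (17 * n) 0 (2 * n)} := by
  have h1 : (1 / 2 : ℝ) ≤ Pr half {ω | HCross ω 0 ((2 * n : ℕ) : ℤ) 0 (2 * n)} := by
    have := half_le_hcross (2 * n)
    simpa using this
  have h2 := rsw_step hn (by omega) (by norm_num) h1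
  have e2 : (2 : ℤ) * ((2 * n : ℕ) : ℤ) - n = ((3 * n : ℕ) : ℤ) := by push_cast; ring
  rw [e2] at h2
  have h3 := rsw_step hn (by omega) (by norm_num) h2
  have e3 : (2 : ℤ) * ((3 * n : ℕ) : ℤ) - n = ((5 * n : ℕ) : ℤ) := by push_cast; ring
  rw [e3] at h3
  have h4 := rsw_step hn (by omega) (by norm_num) h3
  have e4 : (2 : ℤ) * ((5 * n : ℕ) : ℤ) - n = ((9 * n : ℕ) : ℤ) := by push_cast; ring
  rw [e4] at h4
  have h5 := rsw_step hn (by omega) (by norm_num) h4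
  have e5 : (2 : ℤ) * ((9 * n : ℕ) : ℤ) - n = 17 * n := by push_cast; ring
  rw [e5] at h5
  refine le_trans ?_ h5
  norm_num

lemma rsw_edge (e : Edge) : (1 / 2 : ℝ) ≤ Pr half {ω | ω e = true} := by
  classical
  have hloc : LocalOn {e} {ω : Config | ω e = true} := by
    intro ω ω' h hA
    have : ω e = ω' e := h e (by simp)
    simp only [Set.mem_ofPred_eq] at hA ⊢
    rw [← this]
    exact hA
  rw [Pr_eq_update hloc e]
  have h1 : {ω : Config | Function.update ω e true ∈ {ω : Config | ω e = true}} = Set.univ := by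
    ext ω
    simp
  rw [h1, Pr_univ]
  have h2 : ((half : I) : ℝ) = 1 / 2 := rfl
  rw [h2]
  have h3 : 0 ≤ Pr half {ω : Config | Function.update ω e false ∈ {ω : Config | ω e = true}} :=
    Pr_nonneg
  linarith

lemma rsw_one : (1 / 16 : ℝ) ≤ Pr half {ω | HCross ω 0 4 0 1} := by
  classical
  have hloc : ∀ e : Edge, LocalOn {e} {ω : Config | ω e = true} := by
    intro e ω ω' h hA
    have : ω e = ω' e := h e (by simp)
    simp only [Set.mem_ofPred_eq] at hA ⊢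
    rw [← this]
    exact hA
  have hinc : ∀ e : Edge, Incr {ω : Config | ω e = true} := fun e ω ω' h hA => h e hA
  set A : ℤ → Set Config := fun i => {ω | ω (i, 0, false) = true} with hA
  have h01 := fkg (p := half) (hloc (0, 0, false)) (hloc (1, 0, false)) (hinc _) (hinc _)
  have h23 := fkg (p := half) (hloc (2, 0, false)) (hloc (3, 0, false)) (hinc _) (hinc _)
  have h := fkg (p := half) ((hloc (0, 0, false)).inter' (hloc (1, 0, false)))
    ((hloc (2, 0, false)).inter' (hloc (3, 0, false))) ((hinc _).inter (hinc _))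
    ((hinc _).inter (hinc _))
  have e0 := rsw_edge (0, 0, false)
  have e1 := rsw_edge (1, 0, false)
  have e2 := rsw_edge (2, 0, false)
  have e3 := rsw_edge (3, 0, false)
  have h01' : (1 / 4 : ℝ) ≤ Pr half ({ω : Config | ω (0, 0, false) = true} ∩
      {ω : Config | ω (1, 0, false) = true}) := by
    refine le_trans ?_ h01
    nlinarith
  have h23' : (1 / 4 : ℝ) ≤ Pr half ({ω : Config | ω (2, 0, false) = true} ∩
      {ω : Config | ω (3, 0, false) = true}) := by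
    refine le_trans ?_ h23
    nlinarith
  have h' : (1 / 16 : ℝ) ≤ Pr half (({ω : Config | ω (0, 0, false) = true} ∩
      {ω : Config | ω (1, 0, false) = true}) ∩ ({ω : Config | ω (2, 0, false) = true} ∩
      {ω : Config | ω (3, 0, false) = true})) := by
    refine le_trans ?_ h
    nlinarith
  refine h'.trans (Pr_mono ?_)
  rintro ω ⟨⟨w0, w1⟩, ⟨w2, w3⟩⟩
  have hstep : ∀ i : ℤ, 0 ≤ i → i ≤ 3 → ω (i, 0, false) = true →
      Step ω (rect 0 4 0 1) (i, 0) (i + 1, 0) := by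
    intro i hi hi' hw
    refine ⟨⟨hi, by simp only; omega, le_rfl, by norm_num⟩,
      ⟨by simp only; omega, by simp only; omega, le_rfl, by norm_num⟩,
      (i, 0, false), Or.inl ⟨rfl, rfl⟩, hw⟩
  refine ⟨(0, 0), (4, 0), rfl, rfl, ?_⟩
  have s0 := (hstep 0 (by norm_num) (by norm_num) w0).conn
  have s1 := hstep 1 (by norm_num) (by norm_num) w1
  have s2 := hstep 2 (by norm_num) (by norm_num) w2
  have s3 := hstep 3 (by norm_num) (by norm_num) w3
  norm_num at s0 s1 s2 s3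
  exact ((s0.tail s1).tail s2).tail s3

/-- Crossings of long rectangles. -/
theorem rsw : ∃ c > (0 : ℝ), ∀ m : ℕ, 1 ≤ m → c ≤ Pr half {ω | HCross ω 0 (4 * m) 0 m} := by
  refine ⟨(1 / 2 : ℝ) ^ 91, by positivity, fun m hm => ?_⟩
  by_cases h1 : m = 1
  · subst h1
    refine le_trans ?_ (le_trans rsw_one (le_of_eq ?_))
    · norm_num
    · norm_num
  · have hn : 1 ≤ m / 2 := by omega
    refine (rsw_even hn).trans (Pr_mono ?_)
    intro ω h
    refine HCross.mono h le_rfl (by omega) ?_ le_rfl ?_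
    · omega
    · omega

end Pool.Agent.H89.Perc
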