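import Pool.Agent.H89.Perc.Defs

/-!
# Basic lemmas on open paths
-/

open MeasureTheory ProbabilityTheory unitInterval

namespace Pool.Agent.H89.Perc

variable {ω ω' : Config} {S T : Set Vert} {u v w : Vert} {e : Edge}

lemma Joins.symm (h : Joins e u v) : Joins e v u := by
  rcases h with ⟨h1, h2⟩ | ⟨h1, h2⟩
  · exact Or.inr ⟨h2, h1⟩
  · exact Or.inl ⟨h2, h1⟩

lemma joins_src_tgt (e : Edge) : Joins e (src e) (tgt e) := Or.inl ⟨rfl, rfl⟩

lemma Step.symm (h : Step ω S u v) : Step ω S v u := by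
  obtain ⟨h1, h2, e, h3, h4⟩ := h
  exact ⟨h2, h1, e, h3.symm, h4⟩

lemma Step.mono (hST : S ⊆ T) (hω : ∀ e, ω e = true → ω' e = true) (h : Step ω S u v) :
    Step ω' T u v := by
  obtain ⟨h1, h2, e, h3, h4⟩ := h
  exact ⟨hST h1, hST h2, e, h3, hω e h4⟩

lemma Conn.refl (h : u ∈ S) : Conn ω S u u := ⟨h, Relation.ReflTransGen.refl⟩

lemma Conn.mem_left (h : Conn ω S u v) : u ∈ S := h.1

lemma Conn.mem_right (h : Conn ω S u v) : v ∈ S := by
  obtain ⟨h1, h2⟩ := h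
  induction h2 with
  | refl => exact h1
  | tail _ h _ => exact h.2.1

lemma Step.conn (h : Step ω S u v) : Conn ω S u v :=
  ⟨h.1, Relation.ReflTransGen.single h⟩

lemma Conn.trans (h1 : Conn ω S u v) (h2 : Conn ω S v w) : Conn ω S u w :=
  ⟨h1.1, h1.2.trans h2.2⟩

lemma Conn.tail (h1 : Conn ω S u v) (h2 : Step ω S v w) : Conn ω S u w := h1.trans h2.conn

lemma Conn.symm (h : Conn ω S u v) : Conn ω S v u := by
  refine ⟨h.mem_right, ?_⟩
  have := h.2
  clear h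
  induction this with
  | refl => exact Relation.ReflTransGen.refl
  | tail _ h ih => exact (Relation.ReflTransGen.single h.symm).trans ih

lemma conn_comm : Conn ω S u v ↔ Conn ω S v u := ⟨Conn.symm, Conn.symm⟩

lemma Conn.mono (hST : S ⊆ T) (hω : ∀ e, ω e = true → ω' e = true) (h : Conn ω S u v) :
    Conn ω' T u v :=
  ⟨hST h.1, Relation.ReflTransGen.mono (fun _ _ h' => Step.mono hST hω h') _ _ h.2⟩

lemma Conn.mono_set (hST : S ⊆ T) (h : Conn ω S u v) : Conn ω T u v := h.mono hST fun _ => id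

/-- `Conn ω S` only depends on the edges inside `S`. -/
lemma Conn.congr (h : ∀ e, src e ∈ S → tgt e ∈ S → ω e = ω' e) (hc : Conn ω S u v) :
    Conn ω' S u v := by
  refine ⟨hc.1, Relation.ReflTransGen.mono ?_ _ _ hc.2⟩
  rintro a b ⟨ha, hb, e, he, ho⟩
  refine ⟨ha, hb, e, he, ?_⟩
  rcases he with ⟨h1, h2⟩ | ⟨h1, h2⟩
  · rw [← h e (h1 ▸ ha) (h2 ▸ hb)]; exact ho
  · rw [← h e (h2 ▸ hb) (h1 ▸ ha)]; exact ho

/-- Induction along a path, with all vertices in `S`. -/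
lemma Conn.induction_right {P : Vert → Prop} (h : Conn ω S u v) (h0 : P u)
    (hs : ∀ a b, Conn ω S u a → Step ω S a b → P a → P b) : P v := by
  obtain ⟨h1, h2⟩ := h
  induction h2 with
  | refl => exact h0
  | @tail b c hab hbc ih => exact hs b c ⟨h1, hab⟩ hbc ih

/-- First exit from `T`. -/
lemma Conn.exists_exit (h : Conn ω S u v) (hu : u ∈ T) (hv : v ∉ T) :
    ∃ w w', Conn ω (S ∩ T) u w ∧ Step ω S w w' ∧ w' ∉ T ∧ Conn ω S w' v := by
  obtain ⟨h1, h2⟩ := h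
  induction h2 using Relation.ReflTransGen.head_induction_on with
  | refl => exact absurd hu hv
  | @head a c hac hcv ih =>
    by_cases hc : c ∈ T
    · obtain ⟨w, w', h3, h4, h5, h6⟩ := ih hc hac.2.1
      refine ⟨w, w', ?_, h4, h5, h6⟩
      have : Step ω (S ∩ T) a c := ⟨⟨hac.1, hu⟩, ⟨hac.2.1, hc⟩, hac.2.2⟩
      exact this.conn.trans h3
    · exact ⟨a, c, Conn.refl ⟨h1, hu⟩, hac, hc, ⟨hac.2.1, hcv⟩⟩

/-- Last visit of `T`. -/
lemma Conn.exists_last (h : Conn ω S u v) (hu : u ∈ T) (hv : v ∉ T) :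
    ∃ w w', w ∈ T ∧ Conn ω S u w ∧ Step ω S w w' ∧ Conn ω (S \ T) w' v := by
  obtain ⟨w, w', h1, h2, h3, h4⟩ :=
    h.symm.exists_exit (T := Tᶜ) (by simpa using hv) (by simpa using hu)
  refine ⟨w', w, by simpa using h3, h4.symm, h2.symm, ?_⟩
  have := h1.symm
  rwa [← Set.sdiff_eq] at this

/-- First hitting of `T`, when the path does not start in `T`. -/
lemma Conn.exists_hit (h : Conn ω S u v) (hu : u ∉ T) (hv : v ∈ T) :
    ∃ w w', Conn ω (S \ T) u w ∧ Step ω S w w' ∧ w' ∈ T ∧ Conn ω S w' v := by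
  obtain ⟨w, w', h1, h2, h3, h4⟩ :=
    h.exists_exit (T := Tᶜ) (by simpa using hu) (by simpa using hv)
  exact ⟨w, w', by rwa [Set.sdiff_eq], h2, by simpa using h3, h4⟩

lemma Step.fst_le (h : Step ω S u v) : v.1 ≤ u.1 + 1 ∧ u.1 ≤ v.1 + 1 := by
  obtain ⟨_, _, e, he, _⟩ := h
  rcases he with ⟨h1, h2⟩ | ⟨h1, h2⟩ <;>
  · subst h1 h2
    rcases he' : e.2.2 <;> simp [src, tgt, he']
    all_goals try omega

lemma Step.snd_le (h : Step ω S u v) : v.2 ≤ u.2 + 1 ∧ u.2 ≤ v.2 + 1 := by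
  obtain ⟨_, _, e, he, _⟩ := h
  rcases he with ⟨h1, h2⟩ | ⟨h1, h2⟩ <;>
  · subst h1 h2
    rcases he' : e.2.2 <;> simp [src, tgt, he']
    all_goals try omega

/-- A step changes exactly one coordinate by one. -/
lemma Step.cases (h : Step ω S u v) :
    (u.1 = v.1 ∧ (v.2 = u.2 + 1 ∨ u.2 = v.2 + 1)) ∨
      (u.2 = v.2 ∧ (v.1 = u.1 + 1 ∨ u.1 = v.1 + 1)) := by
  obtain ⟨_, _, e, he, _⟩ := h
  rcases he with ⟨h1, h2⟩ | ⟨h1, h2⟩ <;>
  · subst h1 h2
    rcases he' : e.2.2 <;> simp [src, tgt, he']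

/-- Extraction of a horizontal crossing of the strip `a ≤ x ≤ b`. -/
lemma Conn.cross_x {a b : ℤ} (h : Conn ω S u v) (hu : u.1 ≤ a) (hv : b ≤ v.1) (hab : a ≤ b) :
    ∃ u' v' : Vert, u'.1 = a ∧ v'.1 = b ∧ Conn ω (S ∩ {w | a ≤ w.1 ∧ w.1 ≤ b}) u' v' ∧
      Conn ω S u u' ∧ Conn ω S v' v := by
  -- first hitting of `x ≥ b`
  have h1 : ∃ v' : Vert, v'.1 = b ∧ Conn ω (S ∩ {w | w.1 ≤ b}) u v' ∧ Conn ω S v' v := by
    by_cases hub : u.1 = b
    · exact ⟨u, hub, Conn.refl ⟨h.mem_left, by simp [hub]⟩, h⟩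
    have hub' : u.1 < b := lt_of_le_of_ne (hu.trans hab) hub
    obtain ⟨w, w', h1, h2, h3, h4⟩ := h.exists_hit (T := {w | b ≤ w.1}) (by simpa using hub')
      (by simpa using hv)
    have h5 := h1.mem_right.2
    simp only [Set.mem_ofPred_eq, not_le] at h3 h5
    have h6 := h2.fst_le
    have h7 : w'.1 = b := by omega
    refine ⟨w', h7, ?_, h4⟩
    have h8 : Conn ω (S ∩ {w | w.1 ≤ b}) u w :=
      h1.mono_set fun x hx => ⟨hx.1, by have := hx.2; simp only [Set.mem_ofPred_eq, not_le] at this ⊢; omega⟩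
    exact h8.tail ⟨h8.mem_right, ⟨h2.2.1, by simp [h7]⟩, h2.2.2⟩
  obtain ⟨v', hv', hc, hv'v⟩ := h1
  -- last visit of `x ≤ a`
  by_cases hab' : a = b
  · subst hab'
    exact ⟨v', v', hv', hv', Conn.refl ⟨hc.mem_right.1, by simp [hv']⟩,
      hc.mono_set (fun x hx => hx.1), hv'v⟩
  have hlt : a < b := lt_of_le_of_ne hab hab'
  obtain ⟨w, w', h1, h2, h3, h4⟩ := hc.exists_last (T := {w | w.1 ≤ a}) (by simpa using hu)
    (by simp [hv']; omega)
  have h5 := h4.mem_left.2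
  simp only [Set.mem_ofPred_eq, not_le] at h1 h5
  have h6 := h3.fst_le
  have h7 : w.1 = a := by omega
  refine ⟨w, v', h7, hv', ?_, h2.mono_set (fun x hx => hx.1), hv'v⟩
  have h8 : Conn ω (S ∩ {w | a ≤ w.1 ∧ w.1 ≤ b}) w' v' :=
    h4.mono_set fun x hx => ⟨hx.1.1, by
      have := hx.2; have h9 := hx.1.2
      simp only [Set.mem_ofPred_eq, not_le] at this h9 ⊢; omega⟩
  have h9 : Step ω (S ∩ {w | a ≤ w.1 ∧ w.1 ≤ b}) w w' :=
    ⟨⟨h3.1.1, by simp only [Set.mem_ofPred_eq]; omega⟩, h8.mem_left, h3.2.2⟩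
  exact h9.conn.trans h8

/-- Extraction of a vertical crossing of the strip `a ≤ y ≤ b`. -/
lemma Conn.cross_y {a b : ℤ} (h : Conn ω S u v) (hu : u.2 ≤ a) (hv : b ≤ v.2) (hab : a ≤ b) :
    ∃ u' v' : Vert, u'.2 = a ∧ v'.2 = b ∧ Conn ω (S ∩ {w | a ≤ w.2 ∧ w.2 ≤ b}) u' v' ∧
      Conn ω S u u' ∧ Conn ω S v' v := by
  have h1 : ∃ v' : Vert, v'.2 = b ∧ Conn ω (S ∩ {w | w.2 ≤ b}) u v' ∧ Conn ω S v' v := by
    by_cases hub : u.2 = b
    · exact ⟨u, hub, Conn.refl ⟨h.mem_left, by simp [hub]⟩, h⟩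
    have hub' : u.2 < b := lt_of_le_of_ne (hu.trans hab) hub
    obtain ⟨w, w', h1, h2, h3, h4⟩ := h.exists_hit (T := {w | b ≤ w.2}) (by simpa using hub')
      (by simpa using hv)
    have h5 := h1.mem_right.2
    simp only [Set.mem_ofPred_eq, not_le] at h3 h5
    have h6 := h2.snd_le
    have h7 : w'.2 = b := by omega
    refine ⟨w', h7, ?_, h4⟩
    have h8 : Conn ω (S ∩ {w | w.2 ≤ b}) u w :=
      h1.mono_set fun x hx => ⟨hx.1, by have := hx.2; simp only [Set.mem_ofPred_eq, not_le] at this ⊢; omega⟩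
    exact h8.tail ⟨h8.mem_right, ⟨h2.2.1, by simp [h7]⟩, h2.2.2⟩
  obtain ⟨v', hv', hc, hv'v⟩ := h1
  by_cases hab' : a = b
  · subst hab'
    exact ⟨v', v', hv', hv', Conn.refl ⟨hc.mem_right.1, by simp [hv']⟩,
      hc.mono_set (fun x hx => hx.1), hv'v⟩
  have hlt : a < b := lt_of_le_of_ne hab hab'
  obtain ⟨w, w', h1, h2, h3, h4⟩ := hc.exists_last (T := {w | w.2 ≤ a}) (by simpa using hu)
    (by simp [hv']; omega)
  have h5 := h4.mem_left.2
  simp only [Set.mem_ofPred_eq, not_le] at h1 h5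
  have h6 := h3.snd_le
  have h7 : w.2 = a := by omega
  refine ⟨w, v', h7, hv', ?_, h2.mono_set (fun x hx => hx.1), hv'v⟩
  have h8 : Conn ω (S ∩ {w | a ≤ w.2 ∧ w.2 ≤ b}) w' v' :=
    h4.mono_set fun x hx => ⟨hx.1.1, by
      have := hx.2; have h9 := hx.1.2
      simp only [Set.mem_ofPred_eq, not_le] at this h9 ⊢; omega⟩
  have h9 : Step ω (S ∩ {w | a ≤ w.2 ∧ w.2 ≤ b}) w w' :=
    ⟨⟨h3.1.1, by simp only [Set.mem_ofPred_eq]; omega⟩, h8.mem_left, h3.2.2⟩
  exact h9.conn.trans h8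

lemma mem_ball {r : ℕ} : u ∈ ball v r ↔
    v.1 - r ≤ u.1 ∧ u.1 ≤ v.1 + r ∧ v.2 - r ≤ u.2 ∧ u.2 ≤ v.2 + r := Iff.rfl

lemma self_mem_ball {r : ℕ} : v ∈ ball v r := by
  simp only [mem_ball]; omega

lemma sphere_subset_ball {r : ℕ} : sphere v r ⊆ ball v r := fun _ h => h.1

/-- A path from `w ∈ ball v r` to a point outside the ball or on its sphere contains a path inside
the ball to the sphere. -/
lemma Conn.to_sphere {r : ℕ} (h : Conn ω S w u) (hw : w ∈ ball v r)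
    (hu : u ∉ ball v r ∨ u ∈ sphere v r) :
    ∃ x ∈ sphere v r, Conn ω (S ∩ ball v r) w x := by
  by_cases hub : u ∈ ball v r
  · -- `u` is on the sphere; look for the first exit, or the whole path is inside
    have hus : u ∈ sphere v r := by
      rcases hu with h | h
      · exact absurd hub h
      · exact h
    by_contra hno
    push Not at hno
    -- all vertices joined to `w` stay inside the ball and off the sphere
    have key : Conn ω (S ∩ ball v r) w u := by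
      refine h.induction_right (P := fun x => Conn ω (S ∩ ball v r) w x)
        (Conn.refl ⟨h.mem_left, hw⟩) ?_
      intro a b hwa hab ha
      refine ha.tail ⟨ha.mem_right, ⟨hab.2.1, ?_⟩, hab.2.2⟩
      have h1 : a ∈ ball v r := ha.mem_right.2
      have h2 : a ∉ sphere v r := fun h => hno a h ha
      have h3 : ¬ (a.1 = v.1 - r ∨ a.1 = v.1 + r ∨ a.2 = v.2 - r ∨ a.2 = v.2 + r) :=
        fun h => h2 ⟨h1, h⟩
      have h4 := hab.fst_le
      have h5 := hab.snd_le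
      simp only [mem_ball] at h1 ⊢
      omega
    exact hno u hus key
  · obtain ⟨x, x', h1, h2, h3, _⟩ := h.exists_exit hw hub
    refine ⟨x, ⟨h1.mem_right.2, ?_⟩, h1⟩
    have h4 := h1.mem_right.2
    have h5 := h2.fst_le
    have h6 := h2.snd_le
    simp only [mem_ball] at h3 h4
    omega

/-- Far connection gives a one-arm event. -/
lemma Conn.mem_arm {r : ℕ} (h : Conn ω S v u)
    (hu : (r : ℤ) ≤ |u.1 - v.1| ∨ (r : ℤ) ≤ |u.2 - v.2|) : ω ∈ Arm v r := by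
  obtain ⟨x, hx, hc⟩ := h.to_sphere (v := v) (r := r) self_mem_ball (by
    by_cases h1 : u ∈ ball v r
    · right
      refine ⟨h1, ?_⟩
      simp only [mem_ball] at h1
      rcases hu with h2 | h2 <;> rcases abs_cases (u.1 - v.1) with h3 | h3 <;>
        rcases abs_cases (u.2 - v.2) with h4 | h4 <;> omega
    · exact Or.inl h1)
  exact ⟨x, hx, hc.mono_set Set.inter_subset_right⟩

end Pool.Agent.H89.Perc
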