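import Pool.Agent.H89.Perc.RSW

/-!
# Lower bound for annulus crossing probabilities
-/

open MeasureTheory ProbabilityTheory unitInterval

namespace Pool.Agent.H89.Perc

namespace ArmBoxLower

lemma line_h (S : Set Vert) (y x : ℤ) (n : ℕ) (h : ∀ i : ℕ, i ≤ n → ((x + i, y) : Vert) ∈ S) :
    Conn allOpen S (x, y) (x + n, y) := by
  induction n with
  | zero => simpa using Conn.refl (by simpa using h 0 le_rfl)
  | succ n ih =>
    have h1 := ih (fun i hi => h i (by omega))
    refine h1.tail ⟨h1.mem_right, ?_, ((x + n, y, false) : Edge), Or.inl ⟨rfl, ?_⟩, rfl⟩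
    · have := h (n + 1) le_rfl
      exact_mod_cast this
    · simp [tgt]; ring

lemma line_v (S : Set Vert) (x y : ℤ) (n : ℕ) (h : ∀ i : ℕ, i ≤ n → ((x, y + i) : Vert) ∈ S) :
    Conn allOpen S (x, y) (x, y + n) := by
  induction n with
  | zero => simpa using Conn.refl (by simpa using h 0 le_rfl)
  | succ n ih =>
    have h1 := ih (fun i hi => h i (by omega))
    refine h1.tail ⟨h1.mem_right, ?_, ((x, y + n, true) : Edge), Or.inl ⟨rfl, ?_⟩, rfl⟩
    · have := h (n + 1) le_rfl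
      exact_mod_cast this
    · simp [tgt]; ring

lemma line_h' (S : Set Vert) (y x x' : ℤ) (hxx : x ≤ x')
    (h : ∀ t : ℤ, x ≤ t → t ≤ x' → ((t, y) : Vert) ∈ S) : Conn allOpen S (x, y) (x', y) := by
  obtain ⟨n, hn⟩ := Int.eq_ofNat_of_zero_le (sub_nonneg.2 hxx)
  have h1 : x' = x + n := by omega
  rw [h1]
  exact line_h S y x n (fun i hi => h _ (by omega) (by omega))

lemma line_v' (S : Set Vert) (x y y' : ℤ) (hyy : y ≤ y')
    (h : ∀ t : ℤ, y ≤ t → t ≤ y' → ((x, t) : Vert) ∈ S) : Conn allOpen S (x, y) (x, y') := by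
  obtain ⟨n, hn⟩ := Int.eq_ofNat_of_zero_le (sub_nonneg.2 hyy)
  have h1 : y' = y + n := by omega
  rw [h1]
  exact line_v S x y n (fun i hi => h _ (by omega) (by omega))

/-- the upper arc of the box `[-W, W] × [-3W, 3W]` -/
def arc (W : ℤ) : Set Vert :=
  {v | (v.2 = 3 * W ∧ -W ≤ v.1 ∧ v.1 ≤ W) ∨ (0 ≤ v.2 ∧ v.2 ≤ 3 * W ∧ (v.1 = -W ∨ v.1 = W))}

lemma arc_conn {W : ℤ} (hW : 0 ≤ W) {a : Vert} (ha : a ∈ arc W) :
    Conn allOpen (arc W) a (-W, 3 * W) := by
  obtain ⟨a1, a2⟩ := a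
  simp only [arc, Set.mem_ofPred_eq] at ha
  have htop : ∀ x : ℤ, -W ≤ x → x ≤ W → Conn allOpen (arc W) (x, 3 * W) (-W, 3 * W) := by
    intro x h1 h2
    refine (line_h' (arc W) (3 * W) (-W) x h1 (fun t h3 h4 => ?_)).symm
    simp only [arc, Set.mem_ofPred_eq]
    left; exact ⟨trivial, h3, by omega⟩
  rcases ha with ⟨h1, h2, h3⟩ | ⟨h1, h2, h3⟩
  · subst h1
    exact htop a1 h2 h3
  · have hv : Conn allOpen (arc W) (a1, a2) (a1, 3 * W) := by
      refine line_v' (arc W) a1 a2 (3 * W) h2 (fun t h4 h5 => ?_)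
      simp only [arc, Set.mem_ofPred_eq]
      right; exact ⟨by omega, h5, h3⟩
    refine hv.trans (htop a1 (by omega) (by omega))

/-- the vertices joined to the upper arc inside the box -/
def up (ω : Config) (W : ℤ) : Set Vert :=
  {v | ∃ a ∈ arc W, Conn ω (rect (-W) W (-3 * W) (3 * W)) v a}

lemma arc_subset {W : ℤ} (hW : 0 ≤ W) : arc W ⊆ rect (-W) W (-3 * W) (3 * W) := by
  rintro ⟨a1, a2⟩ ha
  simp only [arc, Set.mem_ofPred_eq] at ha
  simp only [rect, Set.mem_ofPred_eq]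
  omega

lemma up_subset {ω : Config} {W : ℤ} : up ω W ⊆ rect (-W) W (-3 * W) (3 * W) := by
  rintro v ⟨a, _, h⟩
  exact h.mem_left

lemma up_conn {ω : Config} {W : ℤ} (hW : 0 ≤ W) {v : Vert} (hv : v ∈ up ω W) :
    Conn allOpen (up ω W) v (-W, 3 * W) := by
  obtain ⟨a, ha, h⟩ := hv
  have h1 : Conn allOpen (up ω W) a v := by
    have h2 := h.symm
    refine h2.induction_right (P := fun x => Conn allOpen (up ω W) a x) ?_ ?_
    · exact Conn.refl ⟨a, ha, Conn.refl h2.mem_left⟩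
    · intro x y hx hxy hP
      refine hP.tail ⟨hP.mem_right, ⟨a, ha, (hx.tail hxy).symm⟩, ?_⟩
      obtain ⟨_, _, e, he, _⟩ := hxy
      exact ⟨e, he, rfl⟩
  refine h1.symm.trans ((arc_conn hW ha).mono_set ?_)
  intro b hb
  exact ⟨b, hb, Conn.refl (arc_subset hW hb)⟩

/-- crossed edge of a dual edge between two faces inside a rectangle -/
lemma crossed_mem {a b c d : ℤ} {e : Edge} {φ ψ : Vert} (hj : Joins e φ ψ)
    (h1 : φ ∈ rect a (b - 1) c (d - 1)) (h2 : ψ ∈ rect a (b - 1) c (d - 1)) :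
    src (crossed e) ∈ rect a b c d ∧ tgt (crossed e) ∈ rect a b c d := by
  obtain ⟨x, y, o⟩ := e
  have h3 : src (x, y, o) ∈ rect a (b - 1) c (d - 1) ∧ tgt (x, y, o) ∈ rect a (b - 1) c (d - 1) := by
    rcases hj with ⟨h3, h4⟩ | ⟨h3, h4⟩
    · exact ⟨h3 ▸ h1, h4 ▸ h2⟩
    · exact ⟨h4 ▸ h2, h3 ▸ h1⟩
  cases o <;> simp only [src, tgt, crossed, rect, Set.mem_ofPred_eq, if_true, if_false,
    Bool.false_eq_true] at h3 ⊢ <;> omega

theorem two_arms {ω : Config} {W : ℤ} (hW : 4 ≤ W) (h1 : HCross ω (-W) W 0 (2 * W))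
    (h2 : HCross (dual ω) (-W - 1) W (-2 * W - 3) (-2)) :
    ∃ h : ℤ, -2 * W - 2 ≤ h ∧ h ≤ 2 * W ∧
      (∃ a : Vert, (a.1 = -W ∨ a.1 = W ∨ a.2 = 3 * W) ∧
        Conn ω (rect (-W) W (-3 * W) (3 * W)) (0, h) a) ∧
      (∃ φ : Vert, φ.1 = -W ∧
        Conn (dual ω) (rect (-W) (W - 1) (-3 * W) (3 * W - 1)) (0, h - 1) φ) := by
  set B := rect (-W) W (-3 * W) (3 * W) with hB
  set C := up ω W with hC
  -- the cluster does not come below the dual crossing
  have hlow : ∀ v ∈ C, -2 * W - 2 ≤ v.2 := by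
    rintro v ⟨a, ha, hc⟩
    by_contra hlt
    push Not at hlt
    have ha2 : 0 ≤ a.2 := by
      simp only [arc, Set.mem_ofPred_eq] at ha
      omega
    obtain ⟨u', v', h3, h4, h5, _, _⟩ := hc.cross_y (a := -2 * W - 3) (b := -1) (by omega)
      (by omega) (by omega)
    have h6 : VCross ω (-W) W (-2 * W - 3) (-1) := by
      refine ⟨u', v', h3, h4, h5.mono_set ?_⟩
      rintro x ⟨hx1, hx2⟩
      simp only [rect, Set.mem_ofPred_eq] at hx1 hx2 ⊢
      omega
    have h7 := not_vcross_and_dual_hcross (by omega) h6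
    exact h7 h2
  -- the open crossing meets column 0
  obtain ⟨h0, h0a, h0b, h0c⟩ : ∃ h0 : ℤ, 0 ≤ h0 ∧ h0 ≤ 2 * W ∧ ((0, h0) : Vert) ∈ C := by
    obtain ⟨u, v, hu, hv, hc⟩ := h1
    obtain ⟨u', _, h3, _, _, h5, _⟩ := hc.cross_x (a := 0) (b := 0) (by omega) (by omega) le_rfl
    have h6 := h5.mem_right
    have h7 := h5.mem_left
    obtain ⟨x, y⟩ := u'
    simp only at h3
    subst h3
    simp only [rect, Set.mem_ofPred_eq] at h6 h7
    refine ⟨y, by omega, by omega, u, ?_, (h5.symm.mono_set ?_)⟩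
    · simp only [arc, Set.mem_ofPred_eq]
      right; exact ⟨by omega, by omega, Or.inl hu⟩
    · intro x hx
      simp only [hB, rect, Set.mem_ofPred_eq] at hx ⊢
      omega
  -- first visit of the cluster on the column, from below
  have hex : ∃ k : ℕ, ((0, -3 * W + k) : Vert) ∈ C := by
    refine ⟨(h0 + 3 * W).toNat, ?_⟩
    rw [Int.toNat_of_nonneg (by omega)]
    have : -3 * W + (h0 + 3 * W) = h0 := by ring
    rwa [this]
  classical
  obtain ⟨k, hk, hkmin⟩ : ∃ k : ℕ, ((0, -3 * W + k) : Vert) ∈ C ∧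
      ∀ j : ℕ, j < k → ((0, -3 * W + j) : Vert) ∉ C :=
    ⟨Nat.find hex, Nat.find_spec hex, fun j hj => Nat.find_min hex hj⟩
  have hk1 := hlow _ hk
  simp only at hk1
  have hk2 : -3 * W + (k : ℤ) ≤ h0 := by
    by_contra hlt
    push Not at hlt
    refine hkmin (h0 + 3 * W).toNat (by omega) ?_
    rw [Int.toNat_of_nonneg (by omega)]
    have : -3 * W + (h0 + 3 * W) = h0 := by ring
    rwa [this]
  have hkpos : 1 ≤ k := by omega
  set h : ℤ := -3 * W + k with hh
  set K := comp B C (0, -3 * W) with hK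
  have hKC : ∀ w ∈ K, w ∈ B ∧ w ∉ C := fun w hw => (Conn.mem_right hw)
  -- the column below `h` is in `K`
  have hcol : ((0, h - 1) : Vert) ∈ K := by
    refine line_v' (B \ C) 0 (-3 * W) (h - 1) (by omega) (fun t h3 h4 => ⟨?_, ?_⟩)
    · simp only [hB, rect, Set.mem_ofPred_eq]
      omega
    · have := hkmin (t + 3 * W).toNat (by omega)
      rw [Int.toNat_of_nonneg (by omega)] at this
      have h5 : -3 * W + (t + 3 * W) = t := by ring
      rwa [h5] at this
  -- the lower left corner is in `K`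
  have hcorner : ((-W, -3 * W) : Vert) ∈ K := by
    refine (line_h' (B \ C) (-3 * W) (-W) 0 (by omega) (fun t h3 h4 => ⟨?_, ?_⟩)).symm
    · simp only [hB, rect, Set.mem_ofPred_eq]
      omega
    · intro hc
      have := hlow _ hc
      simp only at this
      omega
  -- a cut edge on the left side
  obtain ⟨y, hy1, hy2, hy3, hy4⟩ : ∃ y : ℤ, -3 * W ≤ y ∧ y ≤ -1 ∧ ((-W, y) : Vert) ∈ K ∧
      ((-W, y + 1) : Vert) ∉ K := by
    have hex' : ∃ j : ℕ, ((-W, -3 * W + j) : Vert) ∉ K := by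
      refine ⟨(3 * W).toNat, fun hmem => ?_⟩
      rw [Int.toNat_of_nonneg (by omega)] at hmem
      refine (hKC _ hmem).2 ⟨(-W, -3 * W + 3 * W), ?_, Conn.refl ?_⟩
      · simp only [arc, Set.mem_ofPred_eq]
        right; exact ⟨by omega, by omega, Or.inl trivial⟩
      · simp only [rect, Set.mem_ofPred_eq]; omega
    obtain ⟨j, hj, hjmin⟩ : ∃ j : ℕ, ((-W, -3 * W + j) : Vert) ∉ K ∧
        ∀ i : ℕ, i < j → ((-W, -3 * W + i) : Vert) ∈ K :=
      ⟨Nat.find hex', Nat.find_spec hex', fun i hi => by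
        have := Nat.find_min hex' hi
        rwa [not_not] at this⟩
    have hj0 : j ≠ 0 := by
      rintro rfl
      apply hj
      simpa using hcorner
    have hjle : j ≤ (3 * W).toNat := by
      by_contra hlt
      push Not at hlt
      have hmem := hjmin _ hlt
      rw [Int.toNat_of_nonneg (by omega)] at hmem
      refine (hKC _ hmem).2 ⟨(-W, -3 * W + 3 * W), ?_, Conn.refl ?_⟩
      · simp only [arc, Set.mem_ofPred_eq]
        right; exact ⟨by omega, by omega, Or.inl trivial⟩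
      · simp only [rect, Set.mem_ofPred_eq]; omega
    have h3 := hjmin (j - 1) (by omega)
    refine ⟨-3 * W + j - 1, by omega, by omega, ?_, ?_⟩
    · have h4 : -3 * W + ((j - 1 : ℕ) : ℤ) = -3 * W + j - 1 := by omega
      rwa [h4] at h3
    · have h4 : -3 * W + (j : ℤ) - 1 + 1 = -3 * W + j := by omega
      rwa [h4]
  have hhC : ((0, h) : Vert) ∉ K := fun hmem => (hKC _ hmem).2 hk
  refine ⟨h, by omega, by omega, ?_, ?_⟩
  · obtain ⟨a, ha, hc⟩ := hk
    refine ⟨a, ?_, hc⟩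
    simp only [arc, Set.mem_ofPred_eq] at ha
    omega
  · refine ⟨(-W, y), rfl, ?_⟩
    have hcl : ∀ u ∈ C, ∀ w ∈ C, Conn allOpen C u w := fun u hu w hw =>
      (up_conn (by omega) hu).trans (up_conn (by omega) hw).symm
    have hsep := sep (K := K) (a := -W) (b := W) (c := -3 * W) (d := 3 * W)
      (fun w hw => (hKC w hw).1) comp_connected (compl_comp_connected up_subset hk hcl)
      (e := (0, h - 1, true)) (e' := (-W, y, true))
      (by
        simp only [src, tgt, rect, Set.mem_ofPred_eq, if_true]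
        omega)
      (by
        simp only [src, tgt, rect, Set.mem_ofPred_eq, if_true]
        omega)
      (by
        simp only [cutConfig, src, tgt, if_true, decide_eq_false_iff_not]
        intro hiff
        apply hhC
        have := hiff.1 hcol
        rwa [sub_add_cancel] at this)
      (by
        simp only [cutConfig, src, tgt, if_true, decide_eq_false_iff_not]
        intro hiff
        exact hy4 (hiff.1 hy3))
      (φ := (0, h - 1)) (φ' := (-W, y)) (Or.inl rfl) (Or.inl rfl)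
      (by
        simp only [rect, Set.mem_ofPred_eq]
        omega)
      (by
        simp only [rect, Set.mem_ofPred_eq]
        omega)
    refine ⟨hsep.1, Relation.ReflTransGen.mono ?_ _ _ hsep.2⟩
    rintro α β ⟨hα, hβ, e, hj, ho⟩
    refine ⟨hα, hβ, e, hj, ?_⟩
    have hin := crossed_mem hj hα hβ
    simp only [dual, Bool.not_eq_true'] at ho ⊢
    have hcut := cut_comp (D := B) (C := C) (v := (0, -3 * W)) hin ho
    by_contra hopen
    rw [Bool.not_eq_false] at hopen
    rcases hcut with ⟨h3, h4⟩ | ⟨h3, h4⟩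
    · refine (hKC _ h4).2 ?_
      obtain ⟨a, ha, hc⟩ := h3
      exact ⟨a, ha, Conn.trans (Step.conn ⟨hin.2, hin.1, _, (joins_src_tgt _).symm, hopen⟩) hc⟩
    · refine (hKC _ h4).2 ?_
      obtain ⟨a, ha, hc⟩ := h3
      exact ⟨a, ha, Conn.trans (Step.conn ⟨hin.1, hin.2, _, joins_src_tgt _, hopen⟩) hc⟩

lemma sigma_half : σ half = half := by
  apply Subtype.ext
  simp only [half, unitInterval.coe_symm_eq]
  norm_num

end ArmBoxLower

open ArmBoxLower in
/-- The annulus crossing probability at `1 / 2` decays at most like the square root of the ratio of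
the radii. -/
theorem armBox_lower : ∃ c > (0 : ℝ), ∀ s R : ℕ, 1 ≤ R → s ≤ R →
    c * Real.sqrt ((s + 1) / R) ≤ Pr half (ArmBox 0 s R) := by
  refine ⟨1 / 10, by norm_num, fun s R hR hs => ?_⟩
  set W : ℤ := 2 * R + 2 with hW
  set P := Pr half (ArmBox 0 s R) with hP
  -- the two crossings
  set E1 : Set Config := {ω | HCross ω (-W) W 0 (2 * W)} with hE1
  set F2 : Set Config := {η | HCross η (-W - 1) W (-2 * W - 3) (-2)} with hF2
  set E2 : Set Config := {ω | dual ω ∈ F2} with hE2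
  have hl1 : LocalOn (eRect (-W) W 0 (2 * W)) E1 := localOn_hcross _ _ _ _
  have hlF : LocalOn (eRect (-W - 1) W (-2 * W - 3) (-2)) F2 := localOn_hcross _ _ _ _
  have hl2 : LocalOn ((eRect (-W - 1) W (-2 * W - 3) (-2)).image crossed) E2 := hlF.dual'
  have hdis : Disjoint (eRect (-W) W 0 (2 * W)) ((eRect (-W - 1) W (-2 * W - 3) (-2)).image crossed) := by
    rw [Finset.disjoint_left]
    intro e he he'
    rw [Finset.mem_image] at he'
    obtain ⟨e', he', rfl⟩ := he'
    rw [mem_eRect] at he he'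
    obtain ⟨x, y, o⟩ := e'
    cases o <;> simp only [src, crossed, rect, Set.mem_ofPred_eq, if_true, if_false,
      Bool.false_eq_true] at he he' <;> omega
  have hp1 : 1 / 2 ≤ Pr half E1 := by
    have h1 := Pr_hcross_translate (p := half) (a := 0) (b := ((4 * R + 4 : ℕ) : ℤ)) (c := 0)
      (d := ((4 * R + 4 : ℕ) : ℤ)) (-W) 0
    have h2 := half_le_hcross (4 * R + 4)
    rw [← h1] at h2
    have e1 : (0 : ℤ) + -W = -W := by ring
    have e2 : ((4 * R + 4 : ℕ) : ℤ) + -W = W := by rw [hW]; push_cast; ring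
    have e3 : (0 : ℤ) + 0 = 0 := rfl
    have e4 : ((4 * R + 4 : ℕ) : ℤ) + 0 = 2 * W := by rw [hW]; push_cast; ring
    rw [e1, e2, e3, e4] at h2
    exact h2
  have hp2 : 1 / 2 ≤ Pr half E2 := by
    have h0 : Pr half E2 = Pr half F2 := by
      rw [hE2, Pr_dual hlF, sigma_half]
    rw [h0]
    have h1 := Pr_hcross_translate (p := half) (a := 0) (b := ((4 * R + 5 : ℕ) : ℤ)) (c := 0)
      (d := ((4 * R + 5 : ℕ) : ℤ)) (-W - 1) (-2 * W - 3)
    have h2 := half_le_hcross (4 * R + 5)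
    rw [← h1] at h2
    have e1 : (0 : ℤ) + (-W - 1) = -W - 1 := by ring
    have e2 : ((4 * R + 5 : ℕ) : ℤ) + (-W - 1) = W := by rw [hW]; push_cast; ring
    have e3 : (0 : ℤ) + (-2 * W - 3) = -2 * W - 3 := by ring
    have e4 : ((4 * R + 5 : ℕ) : ℤ) + (-2 * W - 3) = -2 := by rw [hW]; push_cast; ring
    rw [e1, e2, e3, e4] at h2
    exact h2
  have hp12 : 1 / 4 ≤ Pr half (E1 ∩ E2) := by
    rw [Pr_inter_of_disjoint hl1 hl2 hdis]
    nlinarith
  -- the blocks
  set m : ℤ := 2 * s + 1 with hm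
  set N : ℤ := (2 * W + 2 + s) / m with hN
  have hmpos : 0 < m := by omega
  let Ev : ℤ → Set Config := fun i =>
    ArmBox (0, m * i) s R ∩ {ω | dual ω ∈ ArmBox (0, m * i - 1) s R}
  have hsub : E1 ∩ E2 ⊆ ⋃ i ∈ Finset.Icc (-N) N, Ev i := by
    rintro ω ⟨hω1, hω2⟩
    obtain ⟨h, hh1, hh2, ⟨a, ha, hca⟩, ⟨φ, hφ, hcφ⟩⟩ := two_arms (by omega) hω1 hω2
    -- the index of the block
    set i : ℤ := (h + s) / m with hi
    have hi1 : m * i ≤ h + s := Int.mul_ediv_self_le hmpos.ne'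
    have hi2 : h + s < m * i + m := by
      have := Int.lt_mul_ediv_self_add (x := h + s) hmpos
      exact this
    have hiN : i ∈ Finset.Icc (-N) N := by
      rw [Finset.mem_Icc]
      constructor
      · rw [hi, Int.le_ediv_iff_mul_le hmpos]
        have h3 : 2 * W + 2 + s < m * N + m := Int.lt_mul_ediv_self_add hmpos
        have h4 : -N * m = -(m * N) := by ring
        rw [h4]
        have h5 : m * N ≤ 2 * W + 2 + s := Int.mul_ediv_self_le hmpos.ne'
        omega
      · rw [hi, hN]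
        exact Int.ediv_le_ediv hmpos (by omega)
    refine Set.mem_biUnion hiN ⟨?_, ?_⟩
    · obtain ⟨x, hx, hcx⟩ := hca.to_sphere (v := ((0, m * i) : Vert)) (r := R)
        (by simp only [mem_ball]; omega)
        (by left; simp only [mem_ball]; omega)
      refine ⟨(0, h), ?_, x, hx, hcx.mono_set Set.inter_subset_right⟩
      simp only [mem_ball]; omega
    · obtain ⟨x, hx, hcx⟩ := hcφ.to_sphere (v := ((0, m * i - 1) : Vert)) (r := R)
        (by simp only [mem_ball]; omega)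
        (by left; simp only [mem_ball]; omega)
      refine ⟨(0, h - 1), ?_, x, hx, hcx.mono_set Set.inter_subset_right⟩
      simp only [mem_ball]; omega
  have hEv : ∀ i, Pr half (Ev i) ≤ P ^ 2 := by
    intro i
    have h1 := fkg_mixed (p := half) (localOn_armBox (0, m * i) s R)
      (localOn_armBox (0, m * i - 1) s R).dual' (incr_armBox (0, m * i) s R)
      (incr_armBox (0, m * i - 1) s R).dual_compl
    have h2 : Pr half {ω | dual ω ∈ ArmBox (0, m * i - 1) s R} = P := by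
      rw [Pr_dual (localOn_armBox (0, m * i - 1) s R), sigma_half, Pr_armBox]
    rw [h2, Pr_armBox] at h1
    rw [sq]
    exact h1
  have hfin : 1 / 4 ≤ (2 * (N : ℝ) + 1) * P ^ 2 := by
    have hN0 : 0 ≤ N := Int.ediv_nonneg (by omega) hmpos.le
    calc 1 / 4 ≤ Pr half (E1 ∩ E2) := hp12
      _ ≤ Pr half (⋃ i ∈ Finset.Icc (-N) N, Ev i) := Pr_mono hsub
      _ ≤ ∑ i ∈ Finset.Icc (-N) N, Pr half (Ev i) := Pr_biUnion_le _ _
      _ ≤ ∑ _i ∈ Finset.Icc (-N) N, P ^ 2 := Finset.sum_le_sum (fun i _ => hEv i)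
      _ = (2 * (N : ℝ) + 1) * P ^ 2 := by
        rw [Finset.sum_const, Int.card_Icc, nsmul_eq_mul]
        congr 1
        have : ((N + 1 - -N).toNat : ℤ) = 2 * N + 1 := by
          rw [Int.toNat_of_nonneg (by omega)]; ring
        exact_mod_cast this
  have hP0 : 0 ≤ P := Pr_nonneg
  have hR' : (1 : ℝ) ≤ R := by exact_mod_cast hR
  have hs' : (s : ℝ) ≤ R := by exact_mod_cast hs
  have hs0 : (0 : ℝ) ≤ s := Nat.cast_nonneg s
  have hNb : (2 * (N : ℝ) + 1) * (s + 1) ≤ 24 * R := by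
    have h5 : m * N ≤ 2 * W + 2 + s := Int.mul_ediv_self_le hmpos.ne'
    have h6 : ((m : ℝ)) * N ≤ 2 * W + 2 + s := by exact_mod_cast h5
    have hN0 : 0 ≤ N := Int.ediv_nonneg (by omega) hmpos.le
    have hN0' : (0 : ℝ) ≤ N := by exact_mod_cast hN0
    have h7 : (m : ℝ) = 2 * s + 1 := by rw [hm]; push_cast; ring
    have h8 : (W : ℝ) = 2 * R + 2 := by rw [hW]; push_cast; ring
    rw [h7, h8] at h6
    nlinarith
  have hkey : (s + 1) / (R : ℝ) ≤ (10 * P) ^ 2 := by
    rw [div_le_iff₀ (by linarith)]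
    nlinarith [mul_nonneg (sq_nonneg P) hs0, mul_le_mul_of_nonneg_right hNb (sq_nonneg P)]
  have h9 : Real.sqrt ((s + 1) / R) ≤ 10 * P := Real.sqrt_le_iff.2 ⟨by linarith, hkey⟩
  linarith

end Pool.Agent.H89.Perc
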