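import Pool.Agent.H89.Perc.Circuit
import Pool.Agent.H89.Perc.ArmBoxLower

/-!
# Regularity of the one-arm probability
-/

open MeasureTheory ProbabilityTheory unitInterval

namespace Pool.Agent.H89.Perc

private lemma armExt_box_zero (R : ℕ) : ArmBox 0 0 R ⊆ Arm 0 R := by
  rintro ω ⟨w, hw, u, hu, hc⟩
  have hw0 : w = 0 := by
    have h0 : ((0 : Vert).1) = 0 := rfl
    have h1 : ((0 : Vert).2) = 0 := rfl
    simp only [mem_ball, h0, h1] at hw
    ext
    · rw [h0]; omega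
    · rw [h1]; omega
  subst hw0
  exact ⟨u, hu, hc⟩

/-- Regularity of the one-arm probability for `p ≥ 1 / 2`. -/
theorem arm_ext : ∃ c > (0 : ℝ), ∀ p : I, half ≤ p → ∀ k R : ℕ, 1 ≤ k → k ≤ R →
    c * Real.sqrt (k / R) * arm p k ≤ arm p R := by
  classical
  obtain ⟨c1, hc1, H1⟩ := circuit
  obtain ⟨c2, hc2, H2⟩ := armBox_lower
  refine ⟨min c1 1 * c2 / 4, by positivity, ?_⟩
  intro p hp k R hk hkR
  have hm0 : 0 < min c1 1 := lt_min hc1 one_pos
  have hR : (0 : ℝ) < R := by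
    have : 0 < R := by omega
    exact_mod_cast this
  have hk0 : (0 : ℝ) < k := by exact_mod_cast hk
  -- the annulus crossing probability, for every `s` with `k ≤ 16 (s + 1)`
  have hbox : ∀ s : ℕ, s ≤ R → k ≤ 16 * (s + 1) →
      c2 / 4 * Real.sqrt (k / R) ≤ Pr p (ArmBox 0 s R) := by
    intro s hs hks
    have h1 := H2 s R (by omega) hs
    have h2 : Pr half (ArmBox 0 s R) ≤ Pr p (ArmBox 0 s R) :=
      Pr_mono_param (localOn_armBox 0 s R) (incr_armBox 0 s R) hp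
    have h3 : Real.sqrt (k / R) ≤ 4 * Real.sqrt ((s + 1) / R) := by
      rw [show (4 : ℝ) = Real.sqrt 16 by
        rw [show (16 : ℝ) = 4 ^ 2 by norm_num, Real.sqrt_sq (by norm_num)]]
      rw [← Real.sqrt_mul (by norm_num)]
      apply Real.sqrt_le_sqrt
      rw [← mul_div_assoc]
      apply div_le_div_of_nonneg_right _ hR.le
      exact_mod_cast hks
    calc c2 / 4 * Real.sqrt (k / R) ≤ c2 / 4 * (4 * Real.sqrt ((s + 1) / R)) :=
          mul_le_mul_of_nonneg_left h3 (by positivity)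
      _ = c2 * Real.sqrt ((s + 1) / R) := by ring
      _ ≤ _ := h1.trans h2
  have ha0 : 0 ≤ arm p k := arm_nonneg
  have ha1 : arm p k ≤ 1 := arm_le_one
  have hs0 : 0 ≤ Real.sqrt (k / R) := Real.sqrt_nonneg _
  by_cases hk16 : k < 16
  · -- small radius
    have h1 := hbox 0 (Nat.zero_le _) (by omega)
    have h2 : Pr p (ArmBox 0 0 R) ≤ arm p R := Pr_mono (armExt_box_zero R)
    calc min c1 1 * c2 / 4 * Real.sqrt (k / R) * arm p k
        = (c2 / 4 * Real.sqrt (k / R)) * (min c1 1 * arm p k) := by ring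
      _ ≤ (c2 / 4 * Real.sqrt (k / R)) * 1 := by
          apply mul_le_mul_of_nonneg_left _ (by positivity)
          calc min c1 1 * arm p k ≤ 1 * 1 :=
                mul_le_mul (min_le_right _ _) ha1 ha0 zero_le_one
            _ = 1 := one_mul 1
      _ ≤ arm p R := by rw [mul_one]; exact h1.trans h2
  · -- large radius
    push Not at hk16
    have hs1 : 1 ≤ k / 8 := by omega
    have h1 := H1 (k / 8) k hs1 (by omega) p hp
    have h2 := hbox (k / 8) (by omega) (by omega)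
    have f1 : Pr p (Arm 0 k) * Pr p (ArmBox 0 (k / 8) R) ≤
        Pr p (Arm 0 k ∩ ArmBox 0 (k / 8) R) :=
      fkg (localOn_arm 0 k) (localOn_armBox 0 (k / 8) R) (incr_arm 0 k) (incr_armBox 0 (k / 8) R)
    have f2 : Pr p (Arm 0 k ∩ ArmBox 0 (k / 8) R) * Pr p {ω | dual ω ∉ DArm (k / 8) k} ≤
        Pr p ((Arm 0 k ∩ ArmBox 0 (k / 8) R) ∩ {ω | dual ω ∉ DArm (k / 8) k}) :=
      fkg ((localOn_arm 0 k).inter' (localOn_armBox 0 (k / 8) R)) (localOn_dual_DArm (k / 8) k)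
        ((incr_arm 0 k).inter (incr_armBox 0 (k / 8) R)) (incr_dual_DArm (k / 8) k)
    have f3 : Pr p ((Arm 0 k ∩ ArmBox 0 (k / 8) R) ∩ {ω | dual ω ∉ DArm (k / 8) k}) ≤
        arm p R := by
      refine Pr_mono ?_
      rintro ω ⟨⟨g1, g2⟩, g3⟩
      exact glue (by omega) hkR g1 g2 g3
    have g1 : arm p k * (c2 / 4 * Real.sqrt (k / R)) ≤ Pr p (Arm 0 k ∩ ArmBox 0 (k / 8) R) :=
      (mul_le_mul_of_nonneg_left h2 ha0).trans f1
    calc min c1 1 * c2 / 4 * Real.sqrt (k / R) * arm p k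
        = (arm p k * (c2 / 4 * Real.sqrt (k / R))) * min c1 1 := by ring
      _ ≤ Pr p (Arm 0 k ∩ ArmBox 0 (k / 8) R) * Pr p {ω | dual ω ∉ DArm (k / 8) k} :=
          mul_le_mul g1 ((min_le_left _ _).trans h1) hm0.le Pr_nonneg
      _ ≤ _ := f2.trans f3

end Pool.Agent.H89.Perc
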