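import Pool.Agent.H89.Perc.DualityA

/-!
# Pivotal edges and closed dual paths
-/

namespace Pool.Agent.H89.Perc

variable {ω : Config} {S : Set Vert} {e : Edge}

/-- The sphere is connected. -/
lemma conn_sphere {r : ℕ} {u : Vert} (hu : u ∈ sphere 0 r) :
    Conn allOpen (sphere 0 r) ((r : ℤ), 0) u := by
  have hmem : ∀ x y : ℤ, -(r : ℤ) ≤ x → x ≤ r → -(r : ℤ) ≤ y → y ≤ r →
      (x = -r ∨ x = r ∨ y = -r ∨ y = r) → ((x, y) : Vert) ∈ sphere 0 r := by
    intro x y h1 h2 h3 h4 h5
    refine ⟨⟨?_, ?_, ?_, ?_⟩, ?_⟩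
    · simpa using h1
    · simpa using h2
    · simpa using h3
    · simpa using h4
    · simpa using h5
  obtain ⟨x, y⟩ := u
  obtain ⟨⟨h1, h2, h3, h4⟩, h5⟩ := hu
  simp only [Prod.fst_zero, Prod.snd_zero, zero_sub, zero_add] at h1 h2 h3 h4 h5
  have right : ∀ y : ℤ, -(r : ℤ) ≤ y → y ≤ r →
      Conn allOpen (sphere 0 r) ((r : ℤ), 0) ((r : ℤ), y) := by
    intro y hy1 hy2
    rcases le_total 0 y with h | h
    · exact conn_line_y h fun z k1 k2 => hmem _ _ (by omega) (by omega) (by omega) (by omega)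
        (by omega)
    · exact (conn_line_y (S := sphere 0 r) h fun z k1 k2 =>
        hmem _ _ (by omega) (by omega) (by omega) (by omega) (by omega)).symm
  have top : ∀ x : ℤ, -(r : ℤ) ≤ x → x ≤ r →
      Conn allOpen (sphere 0 r) ((r : ℤ), 0) (x, (r : ℤ)) := by
    intro x hx1 hx2
    exact (right r (by omega) le_rfl).trans (conn_line_x (S := sphere 0 r) hx2 fun z k1 k2 =>
      hmem _ _ (by omega) (by omega) (by omega) (by omega) (by omega)).symm
  rcases h5 with h5 | h5 | h5 | h5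
  · subst h5
    exact (top (-r) (by omega) (by omega)).trans (conn_line_y (S := sphere 0 r) h4 fun z k1 k2 =>
      hmem _ _ (by omega) (by omega) (by omega) (by omega) (by omega)).symm
  · subst h5
    exact right y h3 h4
  · subst h5
    exact (right (-r) (by omega) (by omega)).trans (conn_line_x (S := sphere 0 r) h2 fun z k1 k2 =>
      hmem _ _ (by omega) (by omega) (by omega) (by omega) (by omega)).symm
  · subst h5
    exact top x h1 h2

lemma Joins.eq_or {u v u' v' : Vert} (h : Joins e u v) (h' : Joins e u' v') :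
    (u = u' ∧ v = v') ∨ (u = v' ∧ v = u') := by
  rcases h with ⟨h1, h2⟩ | ⟨h1, h2⟩ <;> rcases h' with ⟨h3, h4⟩ | ⟨h3, h4⟩
  · left; exact ⟨h1.trans h3.symm, h2.trans h4.symm⟩
  · right; exact ⟨h1.trans h4.symm, h2.trans h3.symm⟩
  · right; exact ⟨h1.trans h4.symm, h2.trans h3.symm⟩
  · left; exact ⟨h1.trans h3.symm, h2.trans h4.symm⟩

/-- A path in the configuration with `e` open avoids `e` or can be split at `e`. -/
theorem Conn.split_edge {a b : Vert} (h : Conn (Function.update ω e true) S a b) :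
    Conn (Function.update ω e false) S a b ∨ ∃ u v, Joins e u v ∧
      Conn (Function.update ω e false) S a u ∧ Conn (Function.update ω e false) S v b := by
  refine h.induction_right (P := fun x => Conn (Function.update ω e false) S a x ∨
    ∃ u v, Joins e u v ∧ Conn (Function.update ω e false) S a u ∧
      Conn (Function.update ω e false) S v x) (Or.inl (Conn.refl h.mem_left)) ?_
  rintro x y _ ⟨hx, hy, f, hf, hfo⟩ ih
  by_cases hfe : f = e
  · subst hfe
    rcases ih with ih | ⟨u, v, h1, h2, h3⟩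
    · exact Or.inr ⟨x, y, hf, ih, Conn.refl hy⟩
    · rcases hf.eq_or h1 with ⟨h4, h5⟩ | ⟨h4, h5⟩
      · subst h4 h5
        exact Or.inr ⟨x, y, hf, h2, Conn.refl hy⟩
      · subst h4 h5
        exact Or.inl h2
  · have hs : Step (Function.update ω e false) S x y := by
      refine ⟨hx, hy, f, hf, ?_⟩
      rw [Function.update_of_ne hfe] at hfo ⊢
      exact hfo
    rcases ih with ih | ⟨u, v, h1, h2, h3⟩
    · exact Or.inl (ih.tail hs)
    · exact Or.inr ⟨u, v, h1, h2, h3.tail hs⟩

/-- The two arms of an edge which is pivotal for the one-arm event. -/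
theorem pivot_primal {m : ℕ} (h1 : Function.update ω e true ∈ Arm 0 m)
    (h2 : Function.update ω e false ∉ Arm 0 m) :
    ∃ u v, Joins e u v ∧ Conn (Function.update ω e false) (ball 0 m) 0 u ∧
      ∃ x ∈ sphere 0 m, Conn (Function.update ω e false) (ball 0 m) v x := by
  obtain ⟨x, hx, hc⟩ := h1
  rcases hc.split_edge with h | ⟨u, v, h3, h4, h5⟩
  · exact absurd ⟨x, hx, h⟩ h2
  · exact ⟨u, v, h3, h4, x, hx, h5⟩

/-- A closed dual path, not using the dual edge of `e`, from a face next to a pivotal edge `e` to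
a face next to the horizontal axis. -/
theorem pivot_dual {m : ℕ} (h1 : Function.update ω e true ∈ Arm 0 m)
    (h2 : Function.update ω e false ∉ Arm 0 m) :
    ∃ F, (F = src e ∨ F = lowFace e) ∧ ∃ G : Vert, (G.2 = 0 ∨ G.2 = -1) ∧
      Conn (dual (Function.update ω e true)) (rect (-m) (m - 1) (-m) (m - 1)) F G := by
  classical
  obtain ⟨u, v, huv, h3, x, hx, h4⟩ := pivot_primal h1 h2
  by_contra hno
  set ω₀ := Function.update ω e false with hω₀
  have hball : ball 0 m = rect (-(m : ℤ)) m (-m) m := by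
    unfold ball
    simp
  set C : Set Vert := {z | Conn ω₀ (ball 0 m) 0 z} with hC
  have hCs : ∀ z ∈ sphere 0 m, z ∉ C := fun z hz hzC => h2 ⟨z, hz, hzC⟩
  set χ : Vert → ZMod 2 := fun z => if z ∈ C then 1 else 0 with hχ
  set T : Set Vert := {G | ∃ F, (F = src e ∨ F = lowFace e) ∧
    Conn (dual (Function.update ω e true)) (rect (-m) (m - 1) (-m) (m - 1)) F G} with hT
  have hopen : ∀ f : Edge, src f ∈ ball 0 m → tgt f ∈ ball 0 m → ω₀ f = true →
      (src f ∈ C ↔ tgt f ∈ C) := by
    intro f k1 k2 k3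
    constructor
    · exact fun h => Conn.tail h ⟨k1, k2, f, joins_src_tgt f, k3⟩
    · exact fun h => Conn.tail h ⟨k2, k1, f, (joins_src_tgt f).symm, k3⟩
  have hopenχ : ∀ f : Edge, src f ∈ ball 0 m → tgt f ∈ ball 0 m → ω₀ f = true →
      χ (src f) = χ (tgt f) := by
    intro f k1 k2 k3
    simp only [hχ, hopen f k1 k2 k3]
  have hinner : ∀ f : Edge, src f ∈ rect (-(m : ℤ)) (m - 1) (-m) (m - 1) →
      lowFace f ∈ rect (-(m : ℤ)) (m - 1) (-m) (m - 1) → src f ∈ ball 0 m ∧ tgt f ∈ ball 0 m := by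
    rintro ⟨a, b, t⟩ k1 k2
    rw [hball]
    cases t <;>
    · simp only [src, tgt, lowFace, rect, Set.mem_ofPred_eq, if_true, Bool.false_eq_true,
        if_false] at k1 k2 ⊢
      omega
  obtain ⟨W, hW⟩ := cut_lemma (a := -(m : ℤ)) (b := m) (c := -m) (d := m) χ T
    (fun G ⟨F, _, hG⟩ => hG.mem_right) (by
      intro f k1 k2 k3
      obtain ⟨k4, k5⟩ := hinner f k1 k2
      by_cases hfe : f = e
      · subst hfe
        exact ⟨fun _ => ⟨_, Or.inr rfl, Conn.refl k2⟩, fun _ => ⟨_, Or.inl rfl, Conn.refl k1⟩⟩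
      · have k6 : Function.update ω e true f = false := by
          have k7 : ω₀ f = false := by
            by_contra k8
            rw [Bool.not_eq_false] at k8
            exact k3 (hopenχ f k4 k5 k8)
          rw [hω₀, Function.update_of_ne hfe] at k7
          rw [Function.update_of_ne hfe]
          exact k7
        have k7 := dual_step k6 k2 k1
        constructor
        · rintro ⟨F, k8, k9⟩
          exact ⟨F, k8, k9.tail k7.symm⟩
        · rintro ⟨F, k8, k9⟩
          exact ⟨F, k8, k9.tail k7⟩)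
  rw [← hball] at hW
  have hWe : ∀ f, src f ∈ ball 0 m → tgt f ∈ ball 0 m → χ (src f) = χ (tgt f) →
      W (src f) = W (tgt f) := by
    intro f k1 k2 k3
    by_cases k4 : src f ∈ T ∨ lowFace f ∈ T
    · have := (hW f k1 k2).1 k4
      rwa [k3, z2_add_self, z2_add_eq_zero] at this
    · push Not at k4
      exact (hW f k1 k2).2 k4.1 k4.2
  have hWpath : ∀ a b, Conn ω₀ (ball 0 m) a b → W a = W b := by
    intro a b hab
    exact hab.const fun f k1 k2 k3 => hWe f k1 k2 (hopenχ f k1 k2 k3)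
  -- the sphere
  have hWs : ∀ z ∈ sphere 0 m, W ((m : ℤ), 0) = W z := by
    intro z hz
    refine (conn_sphere hz).const fun f k1 k2 _ => hWe f k1.1 k2.1 ?_
    simp only [hχ]
    rw [if_neg (hCs _ k1), if_neg (hCs _ k2)]
  -- the horizontal axis
  have hWa : W (0, 0) = W ((m : ℤ), 0) := by
    refine const_row (by omega) fun a k1 k2 => ?_
    refine (hW (a, 0, false) ?_ ?_).2 ?_ ?_
    · rw [hball]; simp only [src, rect, Set.mem_ofPred_eq]; omega
    · rw [hball]; simp only [tgt, rect, Set.mem_ofPred_eq, Bool.false_eq_true, if_false]; omega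
    · rintro ⟨F, k3, k4⟩
      exact hno ⟨F, k3, _, Or.inl rfl, k4⟩
    · rintro ⟨F, k3, k4⟩
      exact hno ⟨F, k3, _, Or.inr (by simp [lowFace]), k4⟩
  have hWu : W (0, 0) = W u := hWpath _ _ h3
  have hWv : W v = W x := hWpath _ _ h4
  have hsame : W u = W v := by
    rw [← hWu, hWa, hWs x hx, ← hWv]
  -- the edge `e`
  have huC : u ∈ C := h3
  have hvC : v ∉ C := fun h => hCs x hx (Conn.trans h h4)
  have hub := h3.mem_right
  have hvb := h4.mem_left
  have hends : src e ∈ ball 0 m ∧ tgt e ∈ ball 0 m ∧ χ (src e) ≠ χ (tgt e) ∧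
      W (src e) = W (tgt e) := by
    rcases huv with ⟨k1, k2⟩ | ⟨k1, k2⟩
    · rw [← k1, ← k2]
      exact ⟨hub, hvb, by simp [hχ, huC, hvC], hsame⟩
    · rw [← k1, ← k2]
      exact ⟨hvb, hub, by simp [hχ, huC, hvC], hsame.symm⟩
  -- one of the faces next to `e` is inside the ball
  have hface : src e ∈ rect (-(m : ℤ)) (m - 1) (-m) (m - 1) ∨
      lowFace e ∈ rect (-(m : ℤ)) (m - 1) (-m) (m - 1) := by
    obtain ⟨k1, k2, _, _⟩ := hends
    rw [hball] at k1 k2
    have hus : u ∉ sphere 0 m := fun h => hCs u h huC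
    have hint : -(m : ℤ) < u.1 ∧ u.1 < m ∧ -(m : ℤ) < u.2 ∧ u.2 < m := by
      have k3 : ¬ (u.1 = -(m : ℤ) ∨ u.1 = m ∨ u.2 = -(m : ℤ) ∨ u.2 = m) := by
        intro h
        refine hus ⟨hub, ?_⟩
        simpa using h
      have k4 := hub
      rw [hball] at k4
      simp only [rect, Set.mem_ofPred_eq] at k4
      omega
    left
    obtain ⟨a, b, t⟩ := e
    rcases huv with ⟨k5, _⟩ | ⟨k5, _⟩ <;> rw [k5] at hint <;> cases t <;>
    · simp only [src, tgt, rect, Set.mem_ofPred_eq, if_true, Bool.false_eq_true,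
        if_false] at hint ⊢
      omega
  have hT' : src e ∈ T ∨ lowFace e ∈ T := by
    rcases hface with h | h
    · exact Or.inl ⟨_, Or.inl rfl, Conn.refl h⟩
    · exact Or.inr ⟨_, Or.inr rfl, Conn.refl h⟩
  have hfin := (hW e hends.1 hends.2.1).1 hT'
  rw [hends.2.2.2, z2_add_self] at hfin
  exact hends.2.2.1 (z2_add_eq_zero.1 hfin.symm)

end Pool.Agent.H89.Perc
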