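import Pool.Agent.H89.Perc.Z2

/-!
# Topology, part 2: the boundary between two complementary connected sets is dual-connected
-/

namespace Pool.Agent.H89.Perc

/-- The configuration in which exactly the edges with exactly one endpoint in `K` are closed. -/
noncomputable def cutConfig (K : Set Vert) : Config :=
  fun e => by classical exact decide (src e ∈ K ↔ tgt e ∈ K)

/-- The two faces (dual vertices) adjacent to an edge. -/
def IsFace (φ : Vert) (e : Edge) : Prop :=
  φ = src e ∨ φ = (if e.2.2 then (e.1 - 1, e.2.1) else (e.1, e.2.1 - 1))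

lemma cutConfig_false {K : Set Vert} {e : Edge} :
    cutConfig K e = false ↔ ¬ (src e ∈ K ↔ tgt e ∈ K) := by
  unfold cutConfig
  rw [decide_eq_false_iff_not]

/-- Let `D` be the rectangle `[a, b] × [c, d]` and `K ⊆ D` such that `K` and `D \ K` are connected.
Then the faces inside `D` adjacent to edges between `K` and `D \ K` are joined to each other by
dual paths inside `D` crossing only edges between `K` and `D \ K`. -/
theorem sep {a b c d : ℤ} {K : Set Vert} (hK : K ⊆ rect a b c d)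
    (hKc : ∀ u ∈ K, ∀ v ∈ K, Conn allOpen K u v)
    (hKc' : ∀ u ∈ rect a b c d \ K, ∀ v ∈ rect a b c d \ K, Conn allOpen (rect a b c d \ K) u v)
    {e e' : Edge} (he : src e ∈ rect a b c d ∧ tgt e ∈ rect a b c d)
    (he' : src e' ∈ rect a b c d ∧ tgt e' ∈ rect a b c d)
    (hcut : cutConfig K e = false) (hcut' : cutConfig K e' = false)
    {φ φ' : Vert} (hφ : IsFace φ e) (hφ' : IsFace φ' e')
    (hφD : φ ∈ rect a (b - 1) c (d - 1)) (hφD' : φ' ∈ rect a (b - 1) c (d - 1)) :
    Conn (dual (cutConfig K)) (rect a (b - 1) c (d - 1)) φ φ' := by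
  classical
  set χ : Vert → ZMod 2 := fun v => if v ∈ K then 1 else 0 with hχ
  have hχ1 : ∀ e, cutConfig K e = false ↔ χ (src e) ≠ χ (tgt e) := by
    intro e
    rw [cutConfig_false]
    simp only [hχ]
    by_cases h1 : src e ∈ K <;> by_cases h2 : tgt e ∈ K <;> simp [h1, h2]
  by_contra hno
  set T : Set Vert := {F | Conn (dual (cutConfig K)) (rect a (b - 1) c (d - 1)) φ F} with hT
  have hTc : ∀ e : Edge, src e ∈ rect a (b - 1) c (d - 1) → lowFace e ∈ rect a (b - 1) c (d - 1) →
      χ (src e) ≠ χ (tgt e) → (src e ∈ T ↔ lowFace e ∈ T) := by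
    intro e h1 h2 h3
    have h4 := dual_step ((hχ1 e).2 h3) h2 h1
    exact ⟨fun h => Conn.tail h h4.symm, fun h => Conn.tail h h4⟩
  obtain ⟨W, hW⟩ := cut_lemma (a := a) (b := b) (c := c) (d := d) χ T
    (fun F hF => Conn.mem_right hF) hTc
  have hWe : ∀ e, src e ∈ rect a b c d → tgt e ∈ rect a b c d → χ (src e) = χ (tgt e) →
      W (src e) = W (tgt e) := by
    intro e h1 h2 h3
    by_cases h4 : src e ∈ T ∨ lowFace e ∈ T
    · have := (hW e h1 h2).1 h4
      rwa [h3, z2_add_self, z2_add_eq_zero] at this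
    · push Not at h4
      exact (hW e h1 h2).2 h4.1 h4.2
  have hWK : ∀ u ∈ K, ∀ v ∈ K, W u = W v := by
    intro u hu v hv
    refine (hKc u hu v hv).const fun e h1 h2 _ => hWe e (hK h1) (hK h2) ?_
    simp [hχ, h1, h2]
  have hWK' : ∀ u ∈ rect a b c d \ K, ∀ v ∈ rect a b c d \ K, W u = W v := by
    intro u hu v hv
    refine (hKc' u hu v hv).const fun e h1 h2 _ => hWe e h1.1 h2.1 ?_
    simp [hχ, h1.2, h2.2]
  -- the edge `e`
  have h1 : W (src e) ≠ W (tgt e) := by
    have hφT : φ ∈ T := Conn.refl hφD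
    have h2 : src e ∈ T ∨ lowFace e ∈ T := by
      rcases hφ with h | h
      · exact Or.inl (h ▸ hφT)
      · rw [h] at hφT
        exact Or.inr hφT
    have h3 := (hW e he.1 he.2).1 h2
    intro h4
    rw [h4, z2_add_self] at h3
    exact (hχ1 e).1 hcut (z2_add_eq_zero.1 h3.symm)
  -- the edge `e'`
  have h2 : W (src e') = W (tgt e') := by
    have hne := (hχ1 e').1 hcut'
    have hφT : φ' ∉ T := hno
    have h3 : src e' ∉ T ∧ lowFace e' ∉ T := by
      rcases hφ' with h | h
      · have h4 : src e' ∉ T := h ▸ hφT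
        refine ⟨h4, fun h5 => h4 ((hTc e' (h ▸ hφD') (Conn.mem_right h5) hne).2 h5)⟩
      · have h4 : lowFace e' ∉ T := by
          rw [h] at hφT; exact hφT
        have h6 : lowFace e' ∈ rect a (b - 1) c (d - 1) := by
          rw [h] at hφD'; exact hφD'
        exact ⟨fun h5 => h4 ((hTc e' (Conn.mem_right h5) h6 hne).1 h5), h4⟩
    exact (hW e' he'.1 he'.2).2 h3.1 h3.2
  have hc1 := cutConfig_false.1 hcut
  have hc2 := cutConfig_false.1 hcut'
  by_cases k1 : src e ∈ K
  · have k2 : tgt e ∉ K := fun h => hc1 (by simp [k1, h])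
    by_cases k3 : src e' ∈ K
    · have k4 : tgt e' ∉ K := fun h => hc2 (by simp [k3, h])
      exact h1 ((hWK _ k1 _ k3).trans (h2.trans (hWK' _ ⟨he'.2, k4⟩ _ ⟨he.2, k2⟩)))
    · have k4 : tgt e' ∈ K := by
        by_contra h; exact hc2 (by simp [k3, h])
      exact h1 ((hWK _ k1 _ k4).trans (h2.symm.trans (hWK' _ ⟨he'.1, k3⟩ _ ⟨he.2, k2⟩)))
  · have k2 : tgt e ∈ K := by
      by_contra h; exact hc1 (by simp [k1, h])
    by_cases k3 : src e' ∈ K
    · have k4 : tgt e' ∉ K := fun h => hc2 (by simp [k3, h])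
      exact h1 ((hWK' _ ⟨he.1, k1⟩ _ ⟨he'.2, k4⟩).trans (h2.symm.trans (hWK _ k3 _ k2)))
    · have k4 : tgt e' ∈ K := by
        by_contra h; exact hc2 (by simp [k3, h])
      exact h1 ((hWK' _ ⟨he.1, k1⟩ _ ⟨he'.1, k3⟩).trans (h2.trans (hWK _ k4 _ k2)))

/-- The component of `v` in `D \ C`. -/
def comp (D C : Set Vert) (v : Vert) : Set Vert := {w | Conn allOpen (D \ C) v w}

/-- If `C` is a connected nonempty subset of a rectangle `D` and `K` is a component of `D \ C`,
then `K` and `D \ K` are connected. -/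
theorem comp_connected {D C : Set Vert} {v : Vert} :
    ∀ u ∈ comp D C v, ∀ w ∈ comp D C v, Conn allOpen (comp D C v) u w := by
  have key : ∀ w ∈ comp D C v, Conn allOpen (comp D C v) v w := by
    intro w hw
    refine Conn.induction_right (P := fun x => Conn allOpen (comp D C v) v x) hw
      (Conn.refl (Conn.refl (Conn.mem_left hw))) ?_
    intro a b ha hab ih
    exact ih.tail ⟨ha, ha.tail hab, hab.2.2⟩
  intro u hu w hw
  exact (key u hu).symm.trans (key w hw)

/-- A straight horizontal path. -/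
lemma conn_line_x {S : Set Vert} {x₁ x₂ y : ℤ} (hx : x₁ ≤ x₂)
    (h : ∀ x, x₁ ≤ x → x ≤ x₂ → (x, y) ∈ S) : Conn allOpen S (x₁, y) (x₂, y) := by
  have key : ∀ n : ℕ, x₁ + n ≤ x₂ → Conn allOpen S (x₁, y) (x₁ + n, y) := by
    intro n
    induction n with
    | zero => intro _; simpa using Conn.refl (h x₁ le_rfl hx)
    | succ n ih =>
      intro hn
      push_cast at hn ⊢
      refine (ih (by omega)).tail ⟨h _ (by omega) (by omega), h _ (by omega) (by omega),
        (x₁ + n, y, false), Or.inl ⟨rfl, ?_⟩, rfl⟩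
      simp [tgt, add_assoc]
  have := key (x₂ - x₁).toNat (by omega)
  have e1 : x₁ + ((x₂ - x₁).toNat : ℤ) = x₂ := by omega
  rwa [e1] at this

/-- A straight vertical path. -/
lemma conn_line_y {S : Set Vert} {x y₁ y₂ : ℤ} (hy : y₁ ≤ y₂)
    (h : ∀ y, y₁ ≤ y → y ≤ y₂ → (x, y) ∈ S) : Conn allOpen S (x, y₁) (x, y₂) := by
  have key : ∀ n : ℕ, y₁ + n ≤ y₂ → Conn allOpen S (x, y₁) (x, y₁ + n) := by
    intro n
    induction n with
    | zero => intro _; simpa using Conn.refl (h y₁ le_rfl hy)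
    | succ n ih =>
      intro hn
      push_cast at hn ⊢
      refine (ih (by omega)).tail ⟨h _ (by omega) (by omega), h _ (by omega) (by omega),
        (x, y₁ + n, true), Or.inl ⟨rfl, ?_⟩, rfl⟩
      simp [tgt, add_assoc]
  have := key (y₂ - y₁).toNat (by omega)
  have e1 : y₁ + ((y₂ - y₁).toNat : ℤ) = y₂ := by omega
  rwa [e1] at this

/-- Rectangles are connected. -/
lemma conn_rect {a b c d : ℤ} {u v : Vert} (hu : u ∈ rect a b c d) (hv : v ∈ rect a b c d) :
    Conn allOpen (rect a b c d) u v := by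
  obtain ⟨x, y⟩ := u
  obtain ⟨x', y'⟩ := v
  have h1 : Conn allOpen (rect a b c d) (x, y) (x', y) := by
    rcases le_total x x' with h | h
    · exact conn_line_x h fun z h1 h2 => ⟨hu.1.trans h1, h2.trans hv.2.1, hu.2.2⟩
    · exact (conn_line_x (S := rect a b c d) h
        fun z h1 h2 => ⟨hv.1.trans h1, h2.trans hu.2.1, hu.2.2⟩).symm
  have h2 : Conn allOpen (rect a b c d) (x', y) (x', y') := by
    rcases le_total y y' with h | h
    · exact conn_line_y h fun z h1 h2 => ⟨hv.1, hv.2.1, hu.2.2.1.trans h1, h2.trans hv.2.2.2⟩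
    · exact (conn_line_y (S := rect a b c d) h fun z h1 h2 =>
        ⟨hv.1, hv.2.1, hv.2.2.1.trans h1, h2.trans hu.2.2.2⟩).symm
  exact h1.trans h2

theorem compl_comp_connected {a b c d : ℤ} {C : Set Vert} {v c₀ : Vert}
    (hC : C ⊆ rect a b c d) (hc₀ : c₀ ∈ C)
    (hCc : ∀ u ∈ C, ∀ w ∈ C, Conn allOpen C u w) :
    ∀ u ∈ rect a b c d \ comp (rect a b c d) C v, ∀ w ∈ rect a b c d \ comp (rect a b c d) C v,
      Conn allOpen (rect a b c d \ comp (rect a b c d) C v) u w := by
  set D := rect a b c d with hD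
  set K := comp D C v with hK
  have hCK : C ⊆ D \ K := by
    intro w hw
    refine ⟨hC hw, fun h => ?_⟩
    exact (Conn.mem_right h).2 hw
  have hCC : ∀ u ∈ C, ∀ w ∈ C, Conn allOpen (D \ K) u w :=
    fun u hu w hw => (hCc u hu w hw).mono_set hCK
  -- every vertex of `D \ K` is joined to `c₀` in `D \ K`
  have key : ∀ u ∈ D \ K, Conn allOpen (D \ K) c₀ u := by
    intro u hu
    by_cases huC : u ∈ C
    · exact hCC _ hc₀ _ huC
    have h1 : Conn allOpen D u c₀ := conn_rect hu.1 (hC hc₀)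
    obtain ⟨x, x', h2, h3, h4, _⟩ := h1.exists_hit (T := C) huC hc₀
    -- the path from `u` to `x` avoids `C`, so it stays out of `K`
    have h5 : Conn allOpen (D \ K) u x := by
      refine h2.induction_right (P := fun z => Conn allOpen (D \ K) u z) (Conn.refl hu) ?_
      intro z z' hz hzz' ih
      refine ih.tail ⟨ih.mem_right, ⟨hzz'.2.1.1, fun h => ?_⟩, hzz'.2.2⟩
      refine hu.2 ?_
      exact (Conn.tail h hzz'.symm).trans hz.symm
    have h6 : Conn allOpen (D \ K) u x' := h5.tail ⟨h5.mem_right, hCK h4, h3.2.2⟩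
    exact (hCC _ hc₀ _ h4).trans h6.symm
  intro u hu w hw
  exact (key u hu).symm.trans (key w hw)

/-- An edge of `D` between the component `K` of `D \ C` and `D \ K` joins `C` to `K`. -/
theorem cut_comp {D C : Set Vert} {v : Vert} {e : Edge} (he : src e ∈ D ∧ tgt e ∈ D)
    (hcut : cutConfig (comp D C v) e = false) :
    (src e ∈ C ∧ tgt e ∈ comp D C v) ∨ (tgt e ∈ C ∧ src e ∈ comp D C v) := by
  have h1 := cutConfig_false.1 hcut
  by_cases h2 : src e ∈ comp D C v
  · right
    refine ⟨?_, h2⟩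
    by_contra h3
    apply h1
    refine ⟨fun _ => ?_, fun _ => h2⟩
    exact Conn.tail h2 ⟨Conn.mem_right h2, ⟨he.2, h3⟩, e, joins_src_tgt e, rfl⟩
  · left
    have h3 : tgt e ∈ comp D C v := by
      by_contra h; exact h1 (by simp [h2, h])
    refine ⟨?_, h3⟩
    by_contra h4
    apply h2
    exact Conn.tail h3 ⟨Conn.mem_right h3, ⟨he.1, h4⟩, e, (joins_src_tgt e).symm, rfl⟩

end Pool.Agent.H89.Perc
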