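import Pool.Agent.H89.Perc.Cross
import Pool.Agent.H89.Perc.Sep

/-!
# Topology, part 3: rectangle duality
-/

namespace Pool.Agent.H89.Perc

variable {ω : Config}

/-- If there is no open left-right crossing, there is a dual bottom-top crossing. -/
theorem hcross_or_dual_vcross {a b c d : ℤ} (hab : a < b) (hcd : c ≤ d) :
    HCross ω a b c d ∨ VCross (dual ω) a (b - 1) (c - 1) d := by
  classical
  by_contra hno
  push Not at hno
  obtain ⟨hH, hV⟩ := hno
  have hd1 : d + 1 - 1 = d := by ring
  set C : Set Vert := {v | ∃ u : Vert, u.1 = a ∧ Conn ω (rect a b c d) u v} with hC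
  set χ : Vert → ZMod 2 := fun v => if (v.1, max c (min d v.2)) ∈ C then 1 else 0 with hχ
  set T : Set Vert := {F | ∃ φ : Vert, φ.2 = c - 1 ∧
    Conn (dual ω) (rect a (b - 1) (c - 1) (d + 1 - 1)) φ F} with hT
  have hopen : ∀ e : Edge, src e ∈ rect a b c d → tgt e ∈ rect a b c d → ω e = true →
      (src e ∈ C ↔ tgt e ∈ C) := by
    intro e h1 h2 h3
    constructor
    · rintro ⟨u, h4, h5⟩
      exact ⟨u, h4, h5.tail ⟨h1, h2, e, joins_src_tgt e, h3⟩⟩
    · rintro ⟨u, h4, h5⟩
      exact ⟨u, h4, h5.tail ⟨h2, h1, e, (joins_src_tgt e).symm, h3⟩⟩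
  have hclosed : ∀ e : Edge, src e ∈ rect a (b - 1) (c - 1) (d + 1 - 1) →
      lowFace e ∈ rect a (b - 1) (c - 1) (d + 1 - 1) → χ (src e) ≠ χ (tgt e) → ω e = false := by
    rintro ⟨x, y, t⟩ h1 h2 h3
    by_contra h4
    rw [Bool.not_eq_false] at h4
    cases t
    · simp only [src, lowFace, rect, Set.mem_ofPred_eq, Bool.false_eq_true, if_false] at h1 h2
      have e1 : max c (min d y) = y := by omega
      simp only [hχ, src, tgt, Bool.false_eq_true, if_false, e1] at h3
      have h5 := hopen (x, y, false) ⟨h1.1, by simp only [src]; omega, by simp only [src]; omega,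
        by simp only [src]; omega⟩ ⟨by simp [tgt]; omega, by simp [tgt]; omega,
        by simp [tgt]; omega, by simp [tgt]; omega⟩ h4
      simp only [src, tgt, Bool.false_eq_true, if_false] at h5
      simp only [h5, ne_eq, not_true_eq_false] at h3
    · simp only [src, lowFace, rect, Set.mem_ofPred_eq, if_true] at h1 h2
      simp only [hχ, src, tgt, if_true] at h3
      by_cases hy : y = c - 1
      · have e1 : max c (min d y) = max c (min d (y + 1)) := by omega
        rw [e1] at h3
        exact h3 rfl
      by_cases hy' : y = d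
      · have e1 : max c (min d y) = max c (min d (y + 1)) := by omega
        rw [e1] at h3
        exact h3 rfl
      have e1 : max c (min d y) = y := by omega
      have e2 : max c (min d (y + 1)) = y + 1 := by omega
      rw [e1, e2] at h3
      have h5 := hopen (x, y, true) ⟨h1.1, by simp only [src]; omega, by simp only [src]; omega,
        by simp only [src]; omega⟩ ⟨by simp [tgt]; omega, by simp [tgt]; omega,
        by simp [tgt]; omega, by simp [tgt]; omega⟩ h4
      simp only [src, tgt, if_true] at h5
      simp only [h5, ne_eq, not_true_eq_false] at h3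
  obtain ⟨W, hW⟩ := cut_lemma (a := a) (b := b) (c := c - 1) (d := d + 1) χ T
    (fun F ⟨φ, _, hF⟩ => hF.mem_right) (by
      intro e h1 h2 h3
      have h4 := dual_step (hclosed e h1 h2 h3) h2 h1
      constructor
      · rintro ⟨φ, h5, h6⟩
        exact ⟨φ, h5, h6.tail h4.symm⟩
      · rintro ⟨φ, h5, h6⟩
        exact ⟨φ, h5, h6.tail h4⟩)
  have hWe : ∀ e, src e ∈ rect a b (c - 1) (d + 1) → tgt e ∈ rect a b (c - 1) (d + 1) →
      χ (src e) = χ (tgt e) → W (src e) = W (tgt e) := by
    intro e h1 h2 h3
    by_cases h4 : src e ∈ T ∨ lowFace e ∈ T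
    · have := (hW e h1 h2).1 h4
      rwa [h3, z2_add_self, z2_add_eq_zero] at this
    · push Not at h4
      exact (hW e h1 h2).2 h4.1 h4.2
  have hχa : ∀ y, χ (a, y) = 1 := by
    intro y
    simp only [hχ]
    rw [if_pos]
    exact ⟨(a, max c (min d y)), rfl, Conn.refl ⟨le_rfl, hab.le, by simp only; omega,
      by simp only; omega⟩⟩
  have hχb : ∀ y, χ (b, y) = 0 := by
    intro y
    simp only [hχ]
    rw [if_neg]
    rintro ⟨u, h1, h2⟩
    exact hH ⟨u, _, h1, rfl, h2⟩
  have hcola : W (a, c - 1) = W (a, d + 1) := by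
    refine const_col (by omega) fun y h1 h2 => ?_
    refine hWe (a, y, true) ⟨by simp [src], by simp [src]; omega, by simp [src]; omega,
      by simp [src]; omega⟩ ⟨by simp [tgt], by simp [tgt]; omega, by simp [tgt]; omega,
      by simp [tgt]; omega⟩ ?_
    simp only [src, tgt, if_true]
    rw [hχa, hχa]
  have hcolb : W (b, c - 1) = W (b, d + 1) := by
    refine const_col (by omega) fun y h1 h2 => ?_
    refine hWe (b, y, true) ⟨by simp [src]; omega, by simp [src], by simp [src]; omega,
      by simp [src]; omega⟩ ⟨by simp [tgt]; omega, by simp [tgt], by simp [tgt]; omega,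
      by simp [tgt]; omega⟩ ?_
    simp only [src, tgt, if_true]
    rw [hχb, hχb]
  have htop : W (a, d + 1) = W (b, d + 1) := by
    refine const_row hab.le fun x h1 h2 => ?_
    refine (hW (x, d + 1, false) ⟨by simp [src]; omega, by simp [src]; omega,
      by simp [src]; omega, by simp [src]⟩ ⟨by simp [tgt]; omega, by simp [tgt]; omega,
      by simp [tgt]; omega, by simp [tgt]⟩).2 ?_ ?_
    · rintro ⟨φ, _, h3⟩
      have h4 := h3.mem_right
      simp only [src, rect, Set.mem_ofPred_eq] at h4
      omega
    · rintro ⟨φ, h4, h3⟩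
      rw [hd1] at h3
      exact hV ⟨φ, _, h4, by simp [lowFace], h3⟩
  have hbot : W (a, c - 1) + χ (a, c - 1) = W (b, c - 1) + χ (b, c - 1) := by
    refine const_row (f := fun v => W v + χ v) hab.le fun x h1 h2 => ?_
    have h3 := (hW (x, c - 1, false) ⟨by simp [src]; omega, by simp [src]; omega,
      by simp [src], by simp [src]; omega⟩ ⟨by simp [tgt]; omega, by simp [tgt]; omega,
      by simp [tgt], by simp [tgt]; omega⟩).1 (Or.inl ⟨(x, c - 1), rfl, Conn.refl
      ⟨by simp only; omega, by simp only; omega, by simp only; omega, by simp only; omega⟩⟩)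
    simp only [src, tgt, Bool.false_eq_true, if_false] at h3
    rw [← z2_add_eq_zero]
    linear_combination h3 + z2_add_self (χ (x, c - 1)) + z2_add_self (χ (x + 1, c - 1))
  rw [hχa, hχb, hcola, htop, ← hcolb, add_zero] at hbot
  exact absurd (left_eq_add.1 hbot.symm) (by decide)

/-- If there is no open bottom-top crossing, there is a dual left-right crossing. -/
theorem vcross_or_dual_hcross {a b c d : ℤ} (hab : a ≤ b) (hcd : c < d) :
    VCross ω a b c d ∨ HCross (dual ω) (a - 1) b c (d - 1) := by
  rcases hcross_or_dual_vcross (ω := sw ω) hcd hab with h | h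
  · left
    have := h.sw
    rwa [sw_sw] at this
  · right
    have := h.sw
    rwa [sw_dual, sw_sw] at this

end Pool.Agent.H89.Perc
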