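import Pool.Agent.H89.Perc.TorusDefs

/-!
# The exploration determines the winding event
-/

open MeasureTheory ProbabilityTheory unitInterval

namespace Pool.Agent.H89.Perc

/-! ### The exploration -/

private lemma expl_succ' (R : Rule) (ω : Config) (n : ℕ) :
    expl R ω (n + 1) = explStep R ω (expl R ω n) := by
  simp only [expl, Function.iterate_succ_apply']

private lemma expl_inv (R : Rule) (ω : Config) (n : ℕ) :
    (∀ e ∈ (expl R ω n).1, ω e = true) ∧ (∀ e ∈ (expl R ω n).2, ω e = false) := by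
  induction n with
  | zero => simp [expl]
  | succ n ih =>
    rw [expl_succ']
    unfold explStep
    cases h : R (expl R ω n).1 (expl R ω n).2 with
    | none => simpa using ih
    | some e =>
      by_cases hω : ω e = true
      · simp only [hω, if_true, Finset.mem_insert]
        exact ⟨fun e' he' => he'.elim (fun h => h ▸ hω) (ih.1 e'), ih.2⟩
      · simp only [if_neg hω, Finset.mem_insert]
        exact ⟨ih.1, fun e' he' => he'.elim (fun h => h ▸ by simpa using hω) (ih.2 e')⟩

private lemma expl_subset {R : Rule} {s : Finset Edge}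
    (hR : ∀ O C e, R O C = some e → e ∈ s ∧ e ∉ O ∧ e ∉ C) (ω : Config) (n : ℕ) :
    queried R ω n ⊆ s := by
  induction n with
  | zero => simp [queried, expl]
  | succ n ih =>
    rw [queried] at ih ⊢
    rw [expl_succ']
    unfold explStep
    cases h : R (expl R ω n).1 (expl R ω n).2 with
    | none => simpa using ih
    | some e =>
      have he := (hR _ _ _ h).1
      by_cases hω : ω e = true
      · simp only [hω, if_true]
        rw [Finset.insert_union]
        exact Finset.insert_subset he ih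
      · simp only [if_neg hω]
        rw [Finset.union_insert]
        exact Finset.insert_subset he ih

private lemma expl_card {R : Rule} {s : Finset Edge}
    (hR : ∀ O C e, R O C = some e → e ∈ s ∧ e ∉ O ∧ e ∉ C) (ω : Config) (n : ℕ) :
    (queried R ω n).card = n ∨ R (expl R ω n).1 (expl R ω n).2 = none := by
  induction n with
  | zero => left; simp [queried, expl]
  | succ n ih =>
    cases h : R (expl R ω n).1 (expl R ω n).2 with
    | none =>
      right
      have : expl R ω (n + 1) = expl R ω n := by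
        rw [expl_succ']; unfold explStep; rw [h]
      rw [this, h]
    | some e =>
      left
      have h1 := ih.resolve_right (by rw [h]; simp)
      obtain ⟨_, he1, he2⟩ := hR _ _ _ h
      have h2 : queried R ω (n + 1) = insert e (queried R ω n) := by
        rw [queried, expl_succ', queried]
        unfold explStep
        simp only [h]
        by_cases hω : ω e = true
        · simp only [hω, if_true]
          rw [Finset.insert_union]
        · simp only [if_neg hω]
          rw [Finset.union_insert]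
      rw [h2, Finset.card_insert_of_notMem, h1]
      rw [queried, Finset.mem_union]
      tauto

private lemma expl_stop {R : Rule} {s : Finset Edge}
    (hR : ∀ O C e, R O C = some e → e ∈ s ∧ e ∉ O ∧ e ∉ C) (ω : Config) :
    R (expl R ω s.card).1 (expl R ω s.card).2 = none := by
  rcases expl_card hR ω s.card with h | h
  · have h1 := Finset.eq_of_subset_of_card_le (expl_subset hR ω s.card) h.ge
    cases h2 : R (expl R ω s.card).1 (expl R ω s.card).2 with
    | none => rfl
    | some e =>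
      exfalso
      obtain ⟨h3, h4, h5⟩ := hR _ _ _ h2
      rw [← h1, queried, Finset.mem_union] at h3
      tauto
  · exact h

/-! ### The boundary of the fundamental square is connected -/

private lemma conn_vert {S : Set Vert} (x y : ℤ) (k : ℕ)
    (h : ∀ j : ℤ, 0 ≤ j → j ≤ k → ((x, y + j) : Vert) ∈ S) :
    Conn allOpen S (x, y) (x, y + k) := by
  induction k with
  | zero => simpa using Conn.refl (ω := allOpen) (by simpa using h 0 le_rfl (by simp))
  | succ k ih =>
    refine (ih fun j h0 hj => h j h0 (by push_cast; omega)).tail ⟨?_, ?_, (x, y + k, true), ?_, rfl⟩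
    · exact h k (by omega) (by push_cast; omega)
    · exact h ((k + 1 : ℕ) : ℤ) (by omega) le_rfl
    · left
      simp only [src, tgt, if_true, true_and]
      push_cast
      ring_nf

private lemma conn_horiz {S : Set Vert} (x y : ℤ) (k : ℕ)
    (h : ∀ j : ℤ, 0 ≤ j → j ≤ k → ((x + j, y) : Vert) ∈ S) :
    Conn allOpen S (x, y) (x + k, y) := by
  induction k with
  | zero => simpa using Conn.refl (ω := allOpen) (by simpa using h 0 le_rfl (by simp))
  | succ k ih =>
    refine (ih fun j h0 hj => h j h0 (by push_cast; omega)).tail ⟨?_, ?_, (x + k, y, false), ?_, rfl⟩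
    · exact h k (by omega) (by push_cast; omega)
    · exact h ((k + 1 : ℕ) : ℤ) (by omega) le_rfl
    · left
      simp only [src, tgt, true_and]
      push_cast
      ring_nf

private lemma conn_bdV {N : ℕ} {u : Vert} (hu : u ∈ bdV N) : Conn allOpen (bdV N) (0, 0) u := by
  obtain ⟨x, y⟩ := u
  obtain ⟨⟨h1, h2, h3, h4⟩, h5⟩ := hu
  simp only at h1 h2 h3 h4 h5
  have hxl : ∀ z : ℤ, 0 ≤ z → z ≤ N → ((0, z) : Vert) ∈ bdV N := fun z h0 hN =>
    ⟨⟨le_rfl, by simp, h0, hN⟩, Or.inl rfl⟩
  have hyb : ∀ z : ℤ, 0 ≤ z → z ≤ N → ((z, 0) : Vert) ∈ bdV N := fun z h0 hN =>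
    ⟨⟨h0, hN, le_rfl, by simp⟩, Or.inr (Or.inr (Or.inl rfl))⟩
  have hxr : ∀ z : ℤ, 0 ≤ z → z ≤ N → ((N, z) : Vert) ∈ bdV N := fun z h0 hN =>
    ⟨⟨by simp, le_rfl, h0, hN⟩, Or.inr (Or.inl rfl)⟩
  have hyt : ∀ z : ℤ, 0 ≤ z → z ≤ N → ((z, N) : Vert) ∈ bdV N := fun z h0 hN =>
    ⟨⟨h0, hN, by simp, le_rfl⟩, Or.inr (Or.inr (Or.inr rfl))⟩
  rcases h5 with h | h | h | h
  · subst h
    have := conn_vert (S := bdV N) 0 0 y.toNat (fun j h0 hj => by
      rw [zero_add]; exact hxl j h0 (by omega))
    rwa [zero_add, Int.toNat_of_nonneg h3] at this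
  · subst h
    have h6 := conn_horiz (S := bdV N) 0 0 N (fun j h0 hj => by
      rw [zero_add]; exact hyb j h0 hj)
    have h7 := conn_vert (S := bdV N) N 0 y.toNat (fun j h0 hj => by
      rw [zero_add]; exact hxr j h0 (by omega))
    rw [zero_add] at h6
    rw [zero_add, Int.toNat_of_nonneg h3] at h7
    exact h6.trans h7
  · subst h
    have := conn_horiz (S := bdV N) 0 0 x.toNat (fun j h0 hj => by
      rw [zero_add]; exact hyb j h0 (by omega))
    rwa [zero_add, Int.toNat_of_nonneg h1] at this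
  · subst h
    have h6 := conn_vert (S := bdV N) 0 0 N (fun j h0 hj => by
      rw [zero_add]; exact hxl j h0 hj)
    have h7 := conn_horiz (S := bdV N) 0 N x.toNat (fun j h0 hj => by
      rw [zero_add]; exact hyt j h0 (by omega))
    rw [zero_add] at h6
    rw [zero_add, Int.toNat_of_nonneg h1] at h7
    exact h6.trans h7

private lemma mem_tEdges {N : ℕ} {e : Edge} :
    e ∈ tEdges N ↔ 0 ≤ e.1 ∧ e.1 < N ∧ 0 ≤ e.2.1 ∧ e.2.1 < N := by
  simp only [tEdges, Finset.mem_product, Finset.mem_Ico, Finset.mem_univ, and_true]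
  tauto

private lemma mem_rect {a b c d : ℤ} {u : Vert} :
    u ∈ rect a b c d ↔ a ≤ u.1 ∧ u.1 ≤ b ∧ c ≤ u.2 ∧ u.2 ≤ d := Iff.rfl

/-- An edge between two boundary vertices has a face which is a boundary face. -/
private lemma bd_face {N : ℕ} (hN : 2 ≤ N) {e : Edge} (h1 : src e ∈ bdV N) (h2 : tgt e ∈ bdV N) :
    ∃ φ, IsFace φ e ∧ φ ∈ bdF N := by
  obtain ⟨x, y, b⟩ := e
  obtain ⟨h1, h1'⟩ := h1
  obtain ⟨h2, h2'⟩ := h2
  have hN' : (2 : ℤ) ≤ N := by exact_mod_cast hN
  cases b
  · simp only [src, tgt, mem_rect, Bool.false_eq_true, if_false] at h1 h1' h2 h2'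
    by_cases hy : y = N
    · refine ⟨(x, y - 1), Or.inr (by simp), ⟨?_, ?_⟩⟩
      · simp only [mem_rect]; omega
      · simp only; omega
    · refine ⟨(x, y), Or.inl rfl, ⟨?_, ?_⟩⟩
      · simp only [mem_rect]; omega
      · simp only; omega
  · simp only [src, tgt, mem_rect, if_true] at h1 h1' h2 h2'
    by_cases hx : x = N
    · refine ⟨(x - 1, y), Or.inr (by simp), ⟨?_, ?_⟩⟩
      · simp only [mem_rect]; omega
      · simp only; omega
    · refine ⟨(x, y), Or.inl rfl, ⟨?_, ?_⟩⟩
      · simp only [mem_rect]; omega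
      · simp only; omega

/-- A dual edge inside the faces of the fundamental square crosses an interior edge. -/
private lemma crossed_inner {N : ℕ} {d : Edge} {a b : Vert} (hd : Joins d a b)
    (ha : a ∈ rect 0 (N - 1) 0 (N - 1)) (hb : b ∈ rect 0 (N - 1) 0 (N - 1)) :
    crossed d ∈ tEdges N ∧ ¬ IsBd (crossed d) ∧ IsFace a (crossed d) ∧ IsFace b (crossed d) ∧
      src (crossed d) ∈ rect 0 N 0 N ∧ tgt (crossed d) ∈ rect 0 N 0 N := by
  obtain ⟨x, y, c⟩ := d
  cases c
  · have hc : crossed (x, y, false) = (x + 1, y, true) := by simp [crossed]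
    rw [hc]
    rcases hd with ⟨h1, h2⟩ | ⟨h1, h2⟩ <;>
    · simp only [src, tgt, Bool.false_eq_true, if_false] at h1 h2
      subst h1 h2
      simp only [mem_rect] at ha hb
      refine ⟨mem_tEdges.2 ⟨?_, ?_, ?_, ?_⟩, ?_, ?_, ?_, ?_, ?_⟩
      · simp only; omega
      · simp only; omega
      · simp only; omega
      · simp only; omega
      · rintro (⟨h, _⟩ | ⟨_, h⟩)
        · simp at h
        · simp only at h; omega
      · simp [IsFace, src]
      · simp [IsFace, src]
      · simp only [src, mem_rect]; omega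
      · simp only [tgt, mem_rect, if_true]; omega
  · have hc : crossed (x, y, true) = (x, y + 1, false) := by simp [crossed]
    rw [hc]
    rcases hd with ⟨h1, h2⟩ | ⟨h1, h2⟩ <;>
    · simp only [src, tgt, if_true] at h1 h2
      subst h1 h2
      simp only [mem_rect] at ha hb
      refine ⟨mem_tEdges.2 ⟨?_, ?_, ?_, ?_⟩, ?_, ?_, ?_, ?_, ?_⟩
      · simp only; omega
      · simp only; omega
      · simp only; omega
      · simp only; omega
      · rintro (⟨_, h⟩ | ⟨h, _⟩)
        · simp only at h; omega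
        · simp at h
      · simp [IsFace, src]
      · simp [IsFace, src]
      · simp only [src, mem_rect]; omega
      · simp only [tgt, mem_rect, Bool.false_eq_true, if_false]; omega

private lemma cutConfig_eq_false {K : Set Vert} {e : Edge} {w w' : Vert} (he : Joins e w w')
    (hw : w ∉ K) (hw' : w' ∈ K) : cutConfig K e = false := by
  unfold cutConfig
  rw [decide_eq_false_iff_not]
  rcases he with ⟨h1, h2⟩ | ⟨h1, h2⟩ <;> subst h1 h2 <;> tauto

/-- The open interior edges. -/
private noncomputable def intCfg (N : ℕ) (ω : Config) : Config :=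
  fun e => by classical exact decide (e ∈ tEdges N ∧ ¬ IsBd e ∧ ω e = true)

private lemma intCfg_eq_true {N : ℕ} {ω : Config} {e : Edge} :
    intCfg N ω e = true ↔ e ∈ tEdges N ∧ ¬ IsBd e ∧ ω e = true := by
  classical
  unfold intCfg
  simp only [decide_eq_true_eq]

/-- When the exploration has stopped, boundary vertices joined by open interior edges are joined by
queried open edges. -/
private lemma terminal {N : ℕ} (hN : 2 ≤ N) {ω : Config} {O C : Finset Edge}
    (hC : ∀ e ∈ C, ω e = false) (hcand : ∀ e, ¬ Cand N O C e) {u v : Vert} (hu : u ∈ bdV N)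
    (hv : v ∈ bdV N) (h : Conn (intCfg N ω) (rect 0 N 0 N) u v) :
    Conn (fun e => decide (e ∈ O)) (rect 0 N 0 N) u v := by
  by_contra hno
  set D : Set Vert := rect 0 N 0 N with hD
  set C₀ : Set Vert := {w | Conn (fun e => decide (e ∈ O)) D u w} with hC₀
  have hC₀D : C₀ ⊆ D := fun w hw => hw.mem_right
  have huC₀ : u ∈ C₀ := Conn.refl h.mem_left
  -- `C₀` is connected
  have hC₀c0 : ∀ w ∈ C₀, Conn allOpen C₀ u w := by
    intro w hw
    refine (hw : Conn _ D u w).induction_right (P := fun w => Conn allOpen C₀ u w)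
      (Conn.refl huC₀) ?_
    intro a b hua hab ih
    exact ih.tail ⟨ih.mem_right, hua.tail hab, by
      obtain ⟨e, he, _⟩ := hab.2.2
      exact ⟨e, he, rfl⟩⟩
  have hC₀c : ∀ w ∈ C₀, ∀ w' ∈ C₀, Conn allOpen C₀ w w' := fun w hw w' hw' =>
    (hC₀c0 w hw).symm.trans (hC₀c0 w' hw')
  set K : Set Vert := comp D C₀ v with hK
  have hvD : v ∈ D \ C₀ := ⟨h.mem_right, hno⟩
  have hKsub : K ⊆ D \ C₀ := fun w hw => (hw : Conn allOpen (D \ C₀) v w).mem_right
  have hvK : v ∈ K := Conn.refl hvD
  have huK : u ∉ K := fun hh => (hKsub hh).2 huC₀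
  have hreach : C₀ ⊆ reachV N O := fun w hw => ⟨u, hu, hw⟩
  -- a cut edge with a face in `reachF` is queried and closed
  have hkey : ∀ e : Edge, e ∈ tEdges N → src e ∈ D → tgt e ∈ D → cutConfig K e = false →
      (∃ φ, IsFace φ e ∧ φ ∈ reachF N C) → e ∈ C := by
    intro e het hes hte hcut hface
    have hcc := cut_comp (D := D) (C := C₀) (v := v) ⟨hes, hte⟩ hcut
    have hnotO : e ∉ O := by
      intro heO
      rcases hcc with ⟨h1, h2⟩ | ⟨h1, h2⟩
      · exact (hKsub h2).2 ((h1 : Conn _ D u (src e)).tail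
          ⟨hes, hte, e, joins_src_tgt e, by simpa using heO⟩)
      · exact (hKsub h2).2 ((h1 : Conn _ D u (tgt e)).tail
          ⟨hte, hes, e, (joins_src_tgt e).symm, by simpa using heO⟩)
    by_contra hnC
    refine hcand e ⟨het, hnotO, hnC, Or.inr ⟨?_, hface⟩⟩
    rcases hcc with ⟨h1, _⟩ | ⟨h1, _⟩
    · exact Or.inl (hreach h1)
    · exact Or.inr (hreach h1)
  -- a cut edge on the boundary
  obtain ⟨w, w', h1, h2, h3, _⟩ :=
    ((conn_bdV hu).symm.trans (conn_bdV hv)).exists_hit (T := K) huK hvK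
  have hwK : w ∉ K := h1.mem_right.2
  obtain ⟨hwb, hwb', e₀, he₀, -⟩ := h2
  have hcut₀ : cutConfig K e₀ = false := cutConfig_eq_false he₀ hwK h3
  have hb₀ : src e₀ ∈ bdV N ∧ tgt e₀ ∈ bdV N := by
    rcases he₀ with ⟨g1, g2⟩ | ⟨g1, g2⟩ <;> subst g1 g2
    · exact ⟨hwb, hwb'⟩
    · exact ⟨hwb', hwb⟩
  obtain ⟨φ₀, hφ₀, hφ₀b⟩ := bd_face hN hb₀.1 hb₀.2
  have hfaces : ∀ e' φ', src e' ∈ D → tgt e' ∈ D → cutConfig K e' = false → IsFace φ' e' →
      φ' ∈ rect 0 ((N : ℤ) - 1) 0 (N - 1) → φ' ∈ reachF N C := by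
    intro e' φ' hs' ht' hcut' hφ' hφD'
    have hsep := sep (a := 0) (b := N) (c := 0) (d := N) (K := K)
      (fun w hw => (hKsub hw).1)
      (comp_connected (D := D) (C := C₀) (v := v))
      (compl_comp_connected (v := v) hC₀D huC₀ hC₀c)
      ⟨hb₀.1.1, hb₀.2.1⟩ ⟨hs', ht'⟩ hcut₀ hcut' hφ₀ hφ' hφ₀b.1 hφD'
    refine hsep.induction_right (P := fun φ => φ ∈ reachF N C) ⟨φ₀, hφ₀b, Conn.refl hφ₀b.1⟩ ?_
    rintro a b - ⟨ha, hb, d, hd, hdo⟩ ⟨ψ, hψ, hψc⟩
    obtain ⟨g1, g2, g3, g4, g5, g6⟩ := crossed_inner hd ha hb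
    have hcutd : cutConfig K (crossed d) = false := by
      simpa [dual] using hdo
    have hdC := hkey (crossed d) g1 g5 g6 hcutd ⟨a, g3, ⟨ψ, hψ, hψc⟩⟩
    exact ⟨ψ, hψ, hψc.tail ⟨ha, hb, d, hd, by simpa using hdC⟩⟩
  -- conclusion
  obtain ⟨x, x', k1, k2, k3, _⟩ := h.exists_hit (T := K) huK hvK
  have hxK : x ∉ K := k1.mem_right.2
  obtain ⟨hxD, hxD', e, he, heo⟩ := k2
  obtain ⟨m1, m2, m3⟩ := intCfg_eq_true.1 heo
  have hcut : cutConfig K e = false := cutConfig_eq_false he hxK k3
  have hb : src e ∈ D ∧ tgt e ∈ D := by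
    rcases he with ⟨g1, g2⟩ | ⟨g1, g2⟩ <;> subst g1 g2
    · exact ⟨hxD, hxD'⟩
    · exact ⟨hxD', hxD⟩
  have hsf : src e ∈ rect 0 ((N : ℤ) - 1) 0 (N - 1) := by
    have := mem_tEdges.1 m1
    simp only [mem_rect, src]
    omega
  have hf := hfaces e (src e) hb.1 hb.2 hcut (Or.inl rfl) hsf
  have heC := hkey e m1 hb.1 hb.2 hcut ⟨_, Or.inl rfl, hf⟩
  rw [hC e heC] at m3
  exact absurd m3 (by decide)

/-! ### Periodicity -/

private lemma per_shift {N : ℕ} (η : Config) (a b : ℤ) {S : Set Vert} {u v : Vert}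
    (h : Conn (per N η) S u v) :
    Conn (per N η) {w | (w.1 - a * N, w.2 - b * N) ∈ S} (u.1 + a * N, u.2 + b * N)
      (v.1 + a * N, v.2 + b * N) := by
  have h1 := conn_shift (ω := per N η) (a * N, b * N) S u v
  have h2 : (fun e => per N η (shiftE (a * N, b * N) e)) = per N η := by
    funext e
    simp only [per, shiftE]
    rw [Int.add_mul_emod_self_right, Int.add_mul_emod_self_right]
  rw [h2] at h1
  exact h1.1 h

private def OnLine (N : ℕ) (u : Vert) : Prop := (N : ℤ) ∣ u.1 ∨ (N : ℤ) ∣ u.2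

private lemma onLine_shift {N : ℕ} {u : Vert} (a b : ℤ) (h : OnLine N u) :
    OnLine N (u.1 + a * N, u.2 + b * N) := by
  rcases h with h | h
  · exact Or.inl (dvd_add h (Dvd.intro_left _ rfl))
  · exact Or.inr (dvd_add h (Dvd.intro_left _ rfl))

private def sqr (N : ℕ) (i j : ℤ) : Set Vert := rect (i * N) (i * N + N) (j * N) (j * N + N)

private lemma aux_unique {N : ℕ} {i i' x : ℤ} (h1 : i * N ≤ x) (h2 : x ≤ i * N + N)
    (h1' : i' * N ≤ x) (h2' : x ≤ i' * N + N) (hx : ¬ (N : ℤ) ∣ x) : i = i' := by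
  have hN : (0 : ℤ) ≤ N := Int.natCast_nonneg N
  rcases lt_trichotomy i i' with h | h | h
  · exfalso
    have h3 : (i + 1) * N ≤ i' * N := mul_le_mul_of_nonneg_right (by omega) hN
    have h4 : x = i' * N := by linarith
    exact hx (h4 ▸ Dvd.intro_left _ rfl)
  · exact h
  · exfalso
    have h3 : (i' + 1) * N ≤ i * N := mul_le_mul_of_nonneg_right (by omega) hN
    have h4 : x = i * N := by linarith
    exact hx (h4 ▸ Dvd.intro_left _ rfl)

private lemma sqr_unique {N : ℕ} {i j i' j' : ℤ} {a : Vert} (h : a ∈ sqr N i j)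
    (h' : a ∈ sqr N i' j') (ha : ¬ OnLine N a) : i = i' ∧ j = j' := by
  unfold OnLine at ha
  push Not at ha
  obtain ⟨h1, h2, h3, h4⟩ := h
  obtain ⟨h1', h2', h3', h4'⟩ := h'
  exact ⟨aux_unique h1 h2 h1' h2' ha.1, aux_unique h3 h4 h3' h4' ha.2⟩

private lemma edge_sqr {N : ℕ} (hN : 0 < N) (e : Edge) :
    ∃ i j : ℤ, src e ∈ sqr N i j ∧ tgt e ∈ sqr N i j := by
  refine ⟨e.1 / N, e.2.1 / N, ?_⟩
  have hN' : (0 : ℤ) < N := by exact_mod_cast hN
  have h1 := Int.ediv_mul_le e.1 hN'.ne'
  have h2 := Int.lt_ediv_add_one_mul_self e.1 hN'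
  have h3 := Int.ediv_mul_le e.2.1 hN'.ne'
  have h4 := Int.lt_ediv_add_one_mul_self e.2.1 hN'
  rw [add_mul, one_mul] at h2 h4
  constructor
  · exact ⟨h1, h2.le, h3, h4.le⟩
  · unfold tgt sqr
    split_ifs
    · exact ⟨h1, h2.le, by simp only; omega, by simp only; omega⟩
    · exact ⟨by simp only; omega, by simp only; omega, h3, h4.le⟩

/-- Replacement of a path inside a closed square by interior open edges, between vertices on the
cutting lines. -/
private lemma replace_piece {N : ℕ} (hN : 2 ≤ N) {ω : Config} {O C : Finset Edge}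
    (hO : O ⊆ tEdges N) (hC : ∀ e ∈ C, ω e = false) (hcand : ∀ e, ¬ Cand N O C e) {i j : ℤ}
    {z b : Vert} (hz : OnLine N z) (hb : OnLine N b)
    (h : Conn (per N (intCfg N ω)) (sqr N i j) z b) :
    Conn (per N fun e => decide (e ∈ O)) Set.univ z b := by
  have hN' : (0 : ℤ) < N := by exact_mod_cast (by omega : 0 < N)
  -- translate to the fundamental square
  have h1 := per_shift (intCfg N ω) (-i) (-j) h
  have hset : {w : Vert | (w.1 - -i * N, w.2 - -j * N) ∈ sqr N i j} ⊆ rect 0 N 0 N := by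
    rintro w ⟨g1, g2, g3, g4⟩
    simp only at g1 g2 g3 g4
    exact ⟨by linarith, by linarith, by linarith, by linarith⟩
  have h2 := h1.mono_set hset
  have hbd : ∀ w : Vert, w ∈ sqr N i j → OnLine N w → ((w.1 + -i * N, w.2 + -j * N) : Vert) ∈ bdV N := by
    intro w hw hwl
    obtain ⟨g1, g2, g3, g4⟩ := hw
    refine ⟨⟨by simp only; linarith, by simp only; linarith, by simp only; linarith,
      by simp only; linarith⟩, ?_⟩
    rcases hwl with ⟨c, hc⟩ | ⟨c, hc⟩
    · have e1 : i ≤ c := by
        by_contra hlt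
        have : (c + 1) * N ≤ i * N := mul_le_mul_of_nonneg_right (by omega) hN'.le
        nlinarith
      have e2 : c ≤ i + 1 := by
        by_contra hlt
        have : (i + 2) * N ≤ c * N := mul_le_mul_of_nonneg_right (by omega) hN'.le
        nlinarith
      have e3 : c = i ∨ c = i + 1 := by omega
      rcases e3 with e3 | e3
      · left; simp only; rw [hc, e3]; ring
      · right; left; simp only; rw [hc, e3]; ring
    · have e1 : j ≤ c := by
        by_contra hlt
        have : (c + 1) * N ≤ j * N := mul_le_mul_of_nonneg_right (by omega) hN'.le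
        nlinarith
      have e2 : c ≤ j + 1 := by
        by_contra hlt
        have : (j + 2) * N ≤ c * N := mul_le_mul_of_nonneg_right (by omega) hN'.le
        nlinarith
      have e3 : c = j ∨ c = j + 1 := by omega
      rcases e3 with e3 | e3
      · right; right; left; simp only; rw [hc, e3]; ring
      · right; right; right; simp only; rw [hc, e3]; ring
  have h3 : Conn (intCfg N ω) (rect 0 N 0 N) (z.1 + -i * N, z.2 + -j * N)
      (b.1 + -i * N, b.2 + -j * N) := by
    refine h2.congr fun e he1 he2 => ?_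
    obtain ⟨x, y, c⟩ := e
    have key : ∀ e : Edge, e ∈ tEdges N → per N (intCfg N ω) e = intCfg N ω e := by
      rintro ⟨x, y, c⟩ he
      obtain ⟨g1, g2, g3, g4⟩ := mem_tEdges.1 he
      simp only at g1 g2 g3 g4
      simp only [per, Int.emod_eq_of_lt g1 g2, Int.emod_eq_of_lt g3 g4]
    by_cases ht : ((x, y, c) : Edge) ∈ tEdges N
    · exact key _ ht
    have hf : intCfg N ω (x, y, c) = false := by
      by_contra hh
      rw [Bool.not_eq_false] at hh
      exact ht (intCfg_eq_true.1 hh).1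
    rw [hf]
    by_contra hh
    rw [Bool.not_eq_false] at hh
    obtain ⟨-, hnb, -⟩ := intCfg_eq_true.1 hh
    rw [mem_tEdges] at ht
    simp only [src, mem_rect] at he1
    simp only at ht
    apply hnb
    cases c
    · simp only [tgt, Bool.false_eq_true, if_false, mem_rect] at he2
      have : y = N := by omega
      left
      simp [this]
    · simp only [tgt, if_true, mem_rect] at he2
      have : x = N := by omega
      right
      simp [this]
  have h4 := terminal hN hC hcand (hbd z h.mem_left hz) (hbd b h.mem_right hb) h3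
  have h5 : Conn (per N fun e => decide (e ∈ O)) (rect 0 N 0 N) (z.1 + -i * N, z.2 + -j * N)
      (b.1 + -i * N, b.2 + -j * N) := by
    refine h4.mono le_rfl fun e he => ?_
    simp only [decide_eq_true_eq] at he
    obtain ⟨x, y, c⟩ := e
    obtain ⟨g1, g2, g3, g4⟩ := mem_tEdges.1 (hO he)
    simp only at g1 g2 g3 g4
    simp only [per, Int.emod_eq_of_lt g1 g2, Int.emod_eq_of_lt g3 g4, decide_eq_true_eq]
    exact he
  have h6 := (per_shift _ i j h5).mono_set (Set.subset_univ _)
  have e1 : ∀ w : Vert, ((w.1 + -i * N + i * N, w.2 + -j * N + j * N) : Vert) = w := by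
    intro w
    ext <;> simp
  simp only at h6
  rw [e1, e1] at h6
  exact h6

/-- Main replacement lemma. -/
private lemma replace_path {N : ℕ} (hN : 2 ≤ N) {ω : Config} {O C : Finset Edge}
    (hO : O ⊆ tEdges N) (hC : ∀ e ∈ C, ω e = false) (hcand : ∀ e, ¬ Cand N O C e)
    {u v : Vert} (hu : OnLine N u) (hv : OnLine N v) (h : Conn (per N ω) Set.univ u v) :
    Conn (per N fun e => decide (e ∈ O)) Set.univ u v := by
  have hN' : (0 : ℤ) < N := by exact_mod_cast (by omega : 0 < N)
  have key : (OnLine N v ∧ Conn (per N fun e => decide (e ∈ O)) Set.univ u v) ∨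
      (¬ OnLine N v ∧ ∃ (i j : ℤ) (z : Vert), OnLine N z ∧
        Conn (per N fun e => decide (e ∈ O)) Set.univ u z ∧
        Conn (per N (intCfg N ω)) (sqr N i j) z v) := by
    refine h.induction_right (P := fun v =>
      (OnLine N v ∧ Conn (per N fun e => decide (e ∈ O)) Set.univ u v) ∨
      (¬ OnLine N v ∧ ∃ (i j : ℤ) (z : Vert), OnLine N z ∧
        Conn (per N fun e => decide (e ∈ O)) Set.univ u z ∧
        Conn (per N (intCfg N ω)) (sqr N i j) z v)) (Or.inl ⟨hu, Conn.refl (Set.mem_univ _)⟩) ?_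
    rintro a b - ⟨-, -, e, he, heo⟩ hP
    have hmem : ((e.1 % N, e.2.1 % N, e.2.2) : Edge) ∈ tEdges N :=
      mem_tEdges.2 ⟨Int.emod_nonneg _ hN'.ne', Int.emod_lt_of_pos _ hN',
        Int.emod_nonneg _ hN'.ne', Int.emod_lt_of_pos _ hN'⟩
    by_cases hbd : IsBd (e.1 % N, e.2.1 % N, e.2.2)
    · -- the edge is on a cutting line
      have hline : OnLine N a ∧ OnLine N b := by
        rcases hbd with ⟨g1, g2⟩ | ⟨g1, g2⟩
        · have hd : (N : ℤ) ∣ e.2.1 := Int.dvd_of_emod_eq_zero g2
          simp only at g1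
          rcases he with ⟨g3, g4⟩ | ⟨g3, g4⟩ <;> subst g3 g4 <;>
            exact ⟨Or.inr (by simpa [src, tgt, g1] using hd),
              Or.inr (by simpa [src, tgt, g1] using hd)⟩
        · have hd : (N : ℤ) ∣ e.1 := Int.dvd_of_emod_eq_zero g2
          simp only at g1
          rcases he with ⟨g3, g4⟩ | ⟨g3, g4⟩ <;> subst g3 g4 <;>
            exact ⟨Or.inl (by simpa [src, tgt, g1] using hd),
              Or.inl (by simpa [src, tgt, g1] using hd)⟩
      have heO : ((e.1 % N, e.2.1 % N, e.2.2) : Edge) ∈ O := by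
        by_contra hnO
        refine hcand _ ⟨hmem, hnO, fun hC' => ?_, Or.inl hbd⟩
        have := hC _ hC'
        rw [per] at heo
        rw [this] at heo
        exact absurd heo (by decide)
      rcases hP with ⟨-, hc⟩ | ⟨hn, -⟩
      · exact Or.inl ⟨hline.2, hc.tail ⟨Set.mem_univ _, Set.mem_univ _, e, he, by
          simpa [per] using heO⟩⟩
      · exact absurd hline.1 hn
    · -- the edge is interior
      have hint : per N (intCfg N ω) e = true := intCfg_eq_true.2 ⟨hmem, hbd, heo⟩
      obtain ⟨i, j, hs, ht⟩ := edge_sqr (N := N) (by omega) e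
      have hab : a ∈ sqr N i j ∧ b ∈ sqr N i j := by
        rcases he with ⟨g3, g4⟩ | ⟨g3, g4⟩ <;> subst g3 g4
        · exact ⟨hs, ht⟩
        · exact ⟨ht, hs⟩
      have hz : ∃ z : Vert, OnLine N z ∧
          Conn (per N fun e => decide (e ∈ O)) Set.univ u z ∧
          Conn (per N (intCfg N ω)) (sqr N i j) z b := by
        rcases hP with ⟨hl, hc⟩ | ⟨hn, i', j', z, hz, hc, hc'⟩
        · exact ⟨a, hl, hc, (Step.conn ⟨hab.1, hab.2, e, he, hint⟩)⟩
        · obtain ⟨e1, e2⟩ := sqr_unique hc'.mem_right hab.1 hn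
          subst e1 e2
          exact ⟨z, hz, hc, hc'.tail ⟨hab.1, hab.2, e, he, hint⟩⟩
      obtain ⟨z, hz, hc, hc'⟩ := hz
      by_cases hbl : OnLine N b
      · exact Or.inl ⟨hbl, hc.trans (replace_piece hN hO hC hcand hz hbl hc')⟩
      · exact Or.inr ⟨hbl, i, j, z, hz, hc, hc'⟩
  rcases key with ⟨-, hc⟩ | ⟨hn, -⟩
  · exact hc
  · exact absurd hv hn

/-- The exploration determines the winding event. -/
theorem torus_det {N : ℕ} (hN : 2 ≤ N) (ω ω' : Config)
    (h : ∀ e ∈ queried (torusRule N) ω (tEdges N).card, ω e = ω' e) (hω : ω ∈ Wind N) :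
    ω' ∈ Wind N := by
  have hN' : (0 : ℤ) < N := by exact_mod_cast (by omega : 0 < N)
  obtain ⟨u, a, b, ha, hc⟩ := hω
  have hR : ∀ O C e, torusRule N O C = some e → e ∈ tEdges N ∧ e ∉ O ∧ e ∉ C := by
    intro O C e he
    obtain ⟨h1, h2, h3, _⟩ := torusRule_spec he
    exact ⟨h1, h2, h3⟩
  set O := (expl (torusRule N) ω (tEdges N).card).1 with hOdef
  set C := (expl (torusRule N) ω (tEdges N).card).2 with hCdef
  have hstop := expl_stop hR ω
  have hcand : ∀ e, ¬ Cand N O C e := torusRule_none hstop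
  obtain ⟨hO, hC⟩ := expl_inv (torusRule N) ω (tEdges N).card
  have hOs : O ⊆ tEdges N := fun e he =>
    expl_subset hR ω (tEdges N).card (by rw [queried]; exact Finset.mem_union_left _ he)
  -- a vertex on the cutting lines
  obtain ⟨w, hw, hwl⟩ : ∃ w, Conn (per N ω) Set.univ u w ∧ OnLine N w := by
    by_contra hno
    push Not at hno
    have h0 : (u.1 / N) * N < u.1 ∧ u.1 < (u.1 / N) * N + N := by
      have h1 := Int.ediv_mul_le u.1 hN'.ne'
      have h2 := Int.lt_ediv_add_one_mul_self u.1 hN'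
      rw [add_mul, one_mul] at h2
      refine ⟨lt_of_le_of_ne h1 fun h3 => ?_, h2⟩
      exact hno u (Conn.refl (Set.mem_univ _)) (Or.inl ⟨u.1 / N, by rw [mul_comm]; exact h3.symm⟩)
    have h1 : (u.1 / N) * N < u.1 + a * N ∧ u.1 + a * N < (u.1 / N) * N + N := by
      refine hc.induction_right
        (P := fun w => (u.1 / N) * N < w.1 ∧ w.1 < (u.1 / N) * N + N) h0 ?_
      intro x y hx hxy hP
      have hy := hno y (hx.tail hxy)
      have h5 := hxy.fst_le
      unfold OnLine at hy
      push Not at hy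
      constructor
      · refine lt_of_le_of_ne (by omega) fun h6 => hy.1 ⟨u.1 / N, by rw [mul_comm]; exact h6.symm⟩
      · refine lt_of_le_of_ne (by omega) fun h6 => hy.1 ⟨u.1 / N + 1, ?_⟩
        rw [h6]; ring
    have h2 : a * N < 1 * N := by linarith [h0.1, h1.2]
    have h3 : (-1) * N < a * N := by linarith [h0.2, h1.1]
    have h4 : a < 1 := lt_of_mul_lt_mul_right h2 hN'.le
    have h5 : -1 < a := lt_of_mul_lt_mul_right h3 hN'.le
    omega
  have hc2 : Conn (per N ω) Set.univ w (w.1 + a * N, w.2 + b * N) :=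
    (hw.symm.trans hc).trans ((per_shift ω a b hw).mono_set (Set.subset_univ _))
  have hc3 := replace_path hN hOs hC hcand hwl (onLine_shift a b hwl) hc2
  refine ⟨w, a, b, ha, hc3.mono le_rfl fun e he => ?_⟩
  simp only [per, decide_eq_true_eq] at he ⊢
  rw [← h _ (by rw [queried]; exact Finset.mem_union_left _ he)]
  exact hO _ he

end Pool.Agent.H89.Perc
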