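import Pool.Agent.H89.Perc.OSSS
import Pool.Agent.H89.Perc.DualityA
import Pool.Agent.H89.Perc.Symm

/-!
# The torus: definitions of the winding event and of the exploration rule
-/

open MeasureTheory ProbabilityTheory unitInterval

namespace Pool.Agent.H89.Perc

/-- Periodic extension of the configuration on `[0, N)²`. -/
def per (N : ℕ) (ω : Config) : Config := fun e => ω (e.1 % N, e.2.1 % N, e.2.2)

/-- Edges of the torus. -/
noncomputable def tEdges (N : ℕ) : Finset Edge := Finset.Ico (0 : ℤ) N ×ˢ Finset.Ico (0 : ℤ) N ×ˢ Finset.univ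

/-- There is an open path on the torus which winds around it horizontally. -/
def Wind (N : ℕ) : Set Config :=
  {ω | ∃ (u : Vert) (a b : ℤ), a ≠ 0 ∧ Conn (per N ω) Set.univ u (u.1 + a * N, u.2 + b * N)}

/-- Edges of the torus on the two cutting lines. -/
def IsBd (e : Edge) : Prop := (e.2.2 = false ∧ e.2.1 = 0) ∨ (e.2.2 = true ∧ e.1 = 0)

/-- Boundary vertices of the fundamental square. -/
def bdV (N : ℕ) : Set Vert := {u | u ∈ rect 0 N 0 N ∧ (u.1 = 0 ∨ u.1 = N ∨ u.2 = 0 ∨ u.2 = N)}

/-- Boundary faces of the fundamental square. -/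
def bdF (N : ℕ) : Set Vert :=
  {φ | φ ∈ rect 0 (N - 1) 0 (N - 1) ∧ (φ.1 = 0 ∨ φ.1 = N - 1 ∨ φ.2 = 0 ∨ φ.2 = N - 1)}

/-- Vertices of the fundamental square joined to its boundary by edges in `O`. -/
def reachV (N : ℕ) (O : Finset Edge) : Set Vert :=
  {u | ∃ w ∈ bdV N, Conn (fun e => decide (e ∈ O)) (rect 0 N 0 N) w u}

/-- Faces of the fundamental square joined to the boundary faces by dual edges crossing edges in
`C`. -/
def reachF (N : ℕ) (C : Finset Edge) : Set Vert :=
  {φ | ∃ ψ ∈ bdF N, Conn (fun e => decide (crossed e ∈ C)) (rect 0 (N - 1) 0 (N - 1)) ψ φ}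

/-- Edges that may be queried next: first the edges on the cutting lines, then the edges which have
an endpoint joined to the boundary by queried open edges and an adjacent face joined to the
boundary by queried closed edges. -/
def Cand (N : ℕ) (O C : Finset Edge) (e : Edge) : Prop :=
  e ∈ tEdges N ∧ e ∉ O ∧ e ∉ C ∧
    (IsBd e ∨ ((src e ∈ reachV N O ∨ tgt e ∈ reachV N O) ∧ ∃ φ, IsFace φ e ∧ φ ∈ reachF N C))

/-- The exploration rule. -/
noncomputable def torusRule (N : ℕ) : Rule := fun O C => by
  classical exact if h : ∃ e, Cand N O C e then some h.choose else none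

theorem torusRule_spec {N : ℕ} {O C : Finset Edge} {e : Edge} (h : torusRule N O C = some e) :
    Cand N O C e := by
  unfold torusRule at h
  split_ifs at h with h'
  · rw [← Option.some.inj h]; exact h'.choose_spec

theorem torusRule_none {N : ℕ} {O C : Finset Edge} (h : torusRule N O C = none) (e : Edge) :
    ¬ Cand N O C e := by
  intro he
  unfold torusRule at h
  rw [dif_pos ⟨e, he⟩] at h
  exact absurd h (by simp)

/-- Distance of the edge `(x, y, ·)` to the boundary of the fundamental square. -/
def rho (N : ℕ) (x y : ℤ) : ℤ := min (min x (N - 1 - x)) (min y (N - 1 - y))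

end Pool.Agent.H89.Perc
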