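import Pool.Agent.H89.Perc.Path
import Pool.Agent.Perc.Bridge

/-!
# Probability: basic facts about the product measure on configurations
-/

open MeasureTheory ProbabilityTheory unitInterval

namespace Pool.Agent.H89.Perc

open Pool.Agent.Perc (Ex ind ind_of ind_of_not ind_congr)

variable {s t : Finset Edge} {A B : Set Config} {p q : I}

lemma LocalOn.mono (h : LocalOn s A) (hst : s ⊆ t) : LocalOn t A :=
  fun ω ω' hω hA => h ω ω' (fun e he => hω e (hst he)) hA

lemma LocalOn.compl (h : LocalOn s A) : LocalOn s Aᶜ :=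
  fun ω ω' hω hA hA' => hA (h ω' ω (fun e he => (hω e he).symm) hA')

lemma LocalOn.inter (hA : LocalOn s A) (hB : LocalOn s B) : LocalOn s (A ∩ B) :=
  fun ω ω' hω h => ⟨hA ω ω' hω h.1, hB ω ω' hω h.2⟩

lemma LocalOn.union (hA : LocalOn s A) (hB : LocalOn s B) : LocalOn s (A ∪ B) :=
  fun ω ω' hω h => h.imp (hA ω ω' hω) (hB ω ω' hω)

lemma LocalOn.inter' [DecidableEq Edge] (hA : LocalOn s A) (hB : LocalOn t B) :
    LocalOn (s ∪ t) (A ∩ B) :=
  (hA.mono Finset.subset_union_left).inter (hB.mono Finset.subset_union_right)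

lemma LocalOn.iUnion {ι : Sort*} {A : ι → Set Config} (h : ∀ i, LocalOn s (A i)) :
    LocalOn s (⋃ i, A i) := by
  intro ω ω' hω hA
  obtain ⟨i, hi⟩ := Set.mem_iUnion.1 hA
  exact Set.mem_iUnion.2 ⟨i, h i ω ω' hω hi⟩

lemma Incr.inter (hA : Incr A) (hB : Incr B) : Incr (A ∩ B) :=
  fun ω ω' hω h => ⟨hA ω ω' hω h.1, hB ω ω' hω h.2⟩

lemma Incr.union (hA : Incr A) (hB : Incr B) : Incr (A ∪ B) :=
  fun ω ω' hω h => h.imp (hA ω ω' hω) (hB ω ω' hω)

lemma Pr_nonneg : 0 ≤ Pr p A := measureReal_nonneg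

lemma Pr_le_one : Pr p A ≤ 1 := measureReal_le_one

lemma Pr_mono (h : A ⊆ B) : Pr p A ≤ Pr p B := measureReal_mono h

lemma Pr_union_le : Pr p (A ∪ B) ≤ Pr p A + Pr p B := measureReal_union_le A B

lemma Pr_univ : Pr p Set.univ = 1 := by simp [Pr]

theorem Pr_compl (h : LocalOn s A) : Pr p Aᶜ = 1 - Pr p A :=
  probReal_compl_eq_one_sub h.measurableSet

theorem LocalOn.ind_inter {t : Finset Edge} (h : LocalOn s A) {S : Finset Edge} (hst : s ⊆ t) :
    ind (fun S => ofS S ∈ A) S = ind (fun S => ofS S ∈ A) (S ∩ t) := by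
  refine ind_congr ⟨h _ _ fun e he => ?_, h _ _ fun e he => ?_⟩
  · rw [ofS_apply, ofS_apply, decide_eq_decide, Finset.mem_inter]
    exact ⟨fun x => ⟨x, hst he⟩, fun x => x.1⟩
  · rw [ofS_apply, ofS_apply, decide_eq_decide, Finset.mem_inter]
    exact ⟨fun x => x.1, fun x => ⟨x, hst he⟩⟩

lemma Pr_biUnion_le {ι : Type*} (F : Finset ι) (A : ι → Set Config) :
    Pr p (⋃ i ∈ F, A i) ≤ ∑ i ∈ F, Pr p (A i) := measureReal_biUnion_finset_le F A

/-- Events depending on disjoint sets of edges are independent. -/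
theorem Pr_inter_of_disjoint (hA : LocalOn s A) (hB : LocalOn t B) (hst : Disjoint s t) :
    Pr p (A ∩ B) = Pr p A * Pr p B := by
  rw [Pr_eq_Ex (LocalOn.inter' hA hB), Pr_eq_Ex (hA.mono (Finset.subset_union_left (s₂ := t))),
    Pr_eq_Ex (hB.mono (Finset.subset_union_right (s₁ := s))),
    ← Pool.Agent.Perc.Ex_mul_of_disjoint (Finset.subset_union_left) (Finset.subset_union_right) hst
      (fun S _ => hA.ind_inter Finset.Subset.rfl) (fun S _ => hB.ind_inter Finset.Subset.rfl)]
  refine Pool.Agent.Perc.Ex_congr fun S _ => ?_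
  rw [Pool.Agent.Perc.ind_mul]
  rfl

/-- Relabelling the edges does not change probabilities. -/
theorem Pr_comp (hA : LocalOn s A) {φ : Edge → Edge} (hφ : Set.InjOn φ s) :
    Pr p {ω | (fun e => ω (φ e)) ∈ A} = Pr p A := by
  have hl : LocalOn (s.image φ) {ω | (fun e => ω (φ e)) ∈ A} := by
    intro ω ω' h hA'
    exact hA _ _ (fun e he => h _ (Finset.mem_image_of_mem φ he)) hA'
  rw [Pr_eq_Ex hl, Pr_eq_Ex hA, Pool.Agent.Perc.Ex_image φ hφ]
  refine Pool.Agent.Perc.Ex_congr fun S hS => ind_congr ?_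
  have key : ∀ e ∈ s, ofS (S.image φ) (φ e) = ofS S e := by
    intro e he
    rw [ofS_apply, ofS_apply, decide_eq_decide, Finset.mem_image]
    constructor
    · rintro ⟨x, hx, hxe⟩
      rwa [← hφ (hS hx) he hxe]
    · intro h; exact ⟨e, h, rfl⟩
  exact ⟨hA _ _ key, hA _ _ fun e he => (key e he).symm⟩

/-- Relabelling the edges and exchanging open and closed turns `p` into `1 - p`. -/
theorem Pr_comp_not (hA : LocalOn s A) {φ : Edge → Edge} (hφ : Set.InjOn φ s) :
    Pr p {ω | (fun e => !ω (φ e)) ∈ A} = Pr (σ p) A := by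
  have hl : LocalOn (s.image φ) {ω | (fun e => !ω (φ e)) ∈ A} := by
    intro ω ω' h hA'
    exact hA _ _ (fun e he => by rw [h _ (Finset.mem_image_of_mem φ he)]) hA'
  rw [Pr_eq_Ex hl, Pr_eq_Ex hA, Pool.Agent.Perc.Ex_image φ hφ, Pool.Agent.Perc.Ex_compl]
  rw [show ((σ p : I) : ℝ) = 1 - (p : ℝ) from rfl]
  refine Pool.Agent.Perc.Ex_congr fun S hS => ind_congr ?_
  have key : ∀ e ∈ s, (!ofS ((s \ S).image φ) (φ e)) = ofS S e := by
    intro e he
    have : φ e ∈ (s \ S).image φ ↔ e ∉ S := by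
      rw [Finset.mem_image]
      constructor
      · rintro ⟨x, hx, hxe⟩
        rw [Finset.mem_sdiff] at hx
        rw [← hφ hx.1 he hxe]
        exact hx.2
      · intro h; exact ⟨e, Finset.mem_sdiff.2 ⟨he, h⟩, rfl⟩
    rw [ofS_apply, ofS_apply]
    by_cases h : e ∈ S <;> simp [this, h]
  exact ⟨hA _ _ key, hA _ _ fun e he => (key e he).symm⟩

/-- Duality. -/
theorem crossed_injective : Function.Injective crossed := by
  rintro ⟨x, y, b⟩ ⟨x', y', b'⟩ h
  cases b <;> cases b' <;> simp_all [crossed]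

theorem Pr_dual (hA : LocalOn s A) : Pr p {ω | dual ω ∈ A} = Pr (σ p) A :=
  Pr_comp_not hA (crossed_injective.injOn)

/-- Two-value formula: conditioning on one edge. -/
theorem LocalOn.update (hA : LocalOn s A) (e : Edge) (b : Bool) :
    LocalOn (s.erase e) {ω | Function.update ω e b ∈ A} := by
  intro ω ω' h hA'
  refine hA _ _ (fun x hx => ?_) hA'
  by_cases hxe : x = e
  · subst hxe; simp
  · rw [Function.update_of_ne hxe, Function.update_of_ne hxe]
    exact h x (Finset.mem_erase.2 ⟨hxe, hx⟩)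

theorem update_ofS_true (S : Finset Edge) (e : Edge) :
    Function.update (ofS S) e true = ofS (insert e S) := by
  funext x
  by_cases hxe : x = e
  · subst hxe; simp [ofS]
  · rw [Function.update_of_ne hxe]; simp [ofS, hxe]

theorem update_ofS_false (S : Finset Edge) (e : Edge) :
    Function.update (ofS S) e false = ofS (S.erase e) := by
  funext x
  by_cases hxe : x = e
  · subst hxe; simp [ofS]
  · rw [Function.update_of_ne hxe]; simp [ofS, hxe]

theorem Pr_update_true (hA : LocalOn s A) (e : Edge) :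
    Pr p {ω | Function.update ω e true ∈ A}
      = Ex (p : ℝ) (s.erase e) (fun S => ind (fun S => ofS S ∈ A) (insert e S)) := by
  rw [Pr_eq_Ex (hA.update e true)]
  refine Pool.Agent.Perc.Ex_congr fun S _ => ind_congr ?_
  rw [Set.mem_ofPred_eq, update_ofS_true]

theorem Pr_update_false (hA : LocalOn s A) (e : Edge) :
    Pr p {ω | Function.update ω e false ∈ A}
      = Ex (p : ℝ) (s.erase e) (ind (fun S => ofS S ∈ A)) := by
  rw [Pr_eq_Ex (hA.update e false)]
  refine Pool.Agent.Perc.Ex_congr fun S hS => ind_congr ?_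
  rw [Set.mem_ofPred_eq, update_ofS_false, Finset.erase_eq_of_notMem]
  intro h
  exact Finset.notMem_erase e s (hS h)

theorem Pr_eq_update (hA : LocalOn s A) (e : Edge) :
    Pr p A = p * Pr p {ω | Function.update ω e true ∈ A} +
      (1 - p) * Pr p {ω | Function.update ω e false ∈ A} := by
  have hA' : LocalOn (insert e s) A := hA.mono (Finset.subset_insert e s)
  rw [Pr_update_true hA', Pr_update_false hA', Pr_eq_Ex hA',
    Pool.Agent.Perc.Ex_erase (Finset.mem_insert_self e s)]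

/-- The influence of an edge as a finite expectation of a discrete derivative. -/
theorem pivot_eq_Ex (hA : LocalOn s A) {e : Edge} (he : e ∈ s) :
    pivot p A e = Ex (p : ℝ) s (Pool.Agent.Perc.DD e (ind (fun S => ofS S ∈ A))) := by
  rw [pivot, Pr_update_true hA, Pr_update_false hA, Pool.Agent.Perc.Ex_DD he]

/-- All edges with first endpoint in the rectangle `[a, b] × [c, d]`. -/
noncomputable def eRect (a b c d : ℤ) : Finset Edge := Finset.Icc a b ×ˢ Finset.Icc c d ×ˢ Finset.univ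

lemma mem_eRect {a b c d : ℤ} {e : Edge} :
    e ∈ eRect a b c d ↔ src e ∈ rect a b c d := by
  simp only [eRect, Finset.mem_product, Finset.mem_Icc, Finset.mem_univ, and_true, src, rect,
    Set.mem_ofPred_eq]
  tauto

lemma localOn_conn {a b c d : ℤ} (u v : Vert) :
    LocalOn (eRect a b c d) {ω | Conn ω (rect a b c d) u v} := by
  intro ω ω' h hc
  exact Conn.congr (fun e he _ => h e (mem_eRect.2 he)) hc

lemma incr_conn (S : Set Vert) (u v : Vert) : Incr {ω | Conn ω S u v} :=
  fun _ _ h hc => Conn.mono le_rfl h hc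

/-- The edges crossed by dual edges with first endpoint in a rectangle. -/
noncomputable def eRectDual (a b c d : ℤ) : Finset Edge := (eRect a b c d).image crossed

theorem LocalOn.dual' (hA : LocalOn s A) : LocalOn (s.image crossed) {ω | dual ω ∈ A} := by
  intro ω ω' h hA'
  refine hA _ _ (fun e he => ?_) hA'
  simp only [dual]
  rw [h _ (Finset.mem_image_of_mem _ he)]

/-- Decreasing in `ω` when increasing in the dual configuration. -/
lemma Incr.dual_compl (hA : Incr A) : Incr {ω | dual ω ∈ A}ᶜ := by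
  intro ω ω' h hA' hA''
  refine hA' (hA _ _ (fun e he => ?_) hA'')
  simp only [dual, Bool.not_eq_true'] at he ⊢
  by_contra hc
  rw [Bool.not_eq_false] at hc
  rw [h _ hc] at he
  exact absurd he (by decide)

theorem localOn_arm (v : Vert) (r : ℕ) :
    LocalOn (eRect (v.1 - r) (v.1 + r) (v.2 - r) (v.2 + r)) (Arm v r) := by
  intro ω ω' h ⟨u, hu, hc⟩
  exact ⟨u, hu, Conn.congr (fun e he _ => h e (mem_eRect.2 he)) hc⟩

theorem incr_arm (v : Vert) (r : ℕ) : Incr (Arm v r) := by
  rintro ω ω' h ⟨u, hu, hc⟩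
  exact ⟨u, hu, Conn.mono le_rfl h hc⟩

theorem localOn_armBox (v : Vert) (k r : ℕ) :
    LocalOn (eRect (v.1 - r) (v.1 + r) (v.2 - r) (v.2 + r)) (ArmBox v k r) := by
  intro ω ω' h ⟨w, hw, u, hu, hc⟩
  exact ⟨w, hw, u, hu, Conn.congr (fun e he _ => h e (mem_eRect.2 he)) hc⟩

theorem incr_armBox (v : Vert) (k r : ℕ) : Incr (ArmBox v k r) := by
  rintro ω ω' h ⟨w, hw, u, hu, hc⟩
  exact ⟨w, hw, u, hu, Conn.mono le_rfl h hc⟩

/-- Translation of vertices, edges. -/
def shiftE (z : Vert) (e : Edge) : Edge := (e.1 + z.1, e.2.1 + z.2, e.2.2)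

/-- Image of a path under a map of vertices. -/
theorem Conn.map {ω ω' : Config} {S T : Set Vert} {u v : Vert} (f : Vert → Vert)
    (hf : ∀ w ∈ S, f w ∈ T)
    (hstep : ∀ e a b, Joins e a b → ω e = true → ∃ e', Joins e' (f a) (f b) ∧ ω' e' = true)
    (h : Conn ω S u v) : Conn ω' T (f u) (f v) := by
  refine ⟨hf u h.1, ?_⟩
  obtain ⟨_, h2⟩ := h
  refine Relation.ReflTransGen.lift f ?_ _ _ h2
  rintro a b ⟨ha, hb, e, he, ho⟩
  exact ⟨hf a ha, hf b hb, hstep e a b he ho⟩

theorem joins_shift (z : Vert) {e : Edge} {a b : Vert} (h : Joins e a b) :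
    Joins (shiftE z e) (a.1 + z.1, a.2 + z.2) (b.1 + z.1, b.2 + z.2) := by
  obtain ⟨x, y, t⟩ := e
  rcases h with ⟨h1, h2⟩ | ⟨h1, h2⟩
  · left
    subst h1 h2
    cases t
    · refine ⟨rfl, ?_⟩
      simp only [tgt, shiftE]
      ext <;> (simp; try ring)
    · refine ⟨rfl, ?_⟩
      simp only [tgt, shiftE]
      ext <;> (simp; try ring)
  · right
    subst h1 h2
    cases t
    · refine ⟨?_, rfl⟩
      simp only [tgt, shiftE]
      ext <;> (simp; try ring)
    · refine ⟨?_, rfl⟩
      simp only [tgt, shiftE]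
      ext <;> (simp; try ring)

theorem shiftE_neg (z : Vert) (e : Edge) : shiftE z (shiftE (-z) e) = e := by
  obtain ⟨x, y, t⟩ := e
  simp [shiftE]

theorem shiftE_injective (z : Vert) : Function.Injective (shiftE z) := by
  rintro ⟨x, y, t⟩ ⟨x', y', t'⟩ h
  simpa [shiftE] using h

theorem conn_shift {ω : Config} (z : Vert) (S : Set Vert) (u v : Vert) :
    Conn (fun e => ω (shiftE z e)) S u v ↔
      Conn ω {w | (w.1 - z.1, w.2 - z.2) ∈ S} (u.1 + z.1, u.2 + z.2) (v.1 + z.1, v.2 + z.2) := by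
  constructor
  · intro h
    refine h.map (fun w => (w.1 + z.1, w.2 + z.2)) ?_ ?_
    · intro w hw
      simpa using hw
    · intro e a b he ho
      exact ⟨shiftE z e, joins_shift z he, ho⟩
  · intro h
    have := h.map (ω' := fun e => ω (shiftE z e)) (T := S) (fun w => (w.1 - z.1, w.2 - z.2))
      (fun w hw => hw) ?_
    · simpa using this
    · intro e a b he ho
      refine ⟨shiftE (-z) e, ?_, ?_⟩
      · have := joins_shift (-z) he
        simpa [sub_eq_add_neg] using this
      · rw [shiftE_neg]; exact ho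

theorem arm_shift (v : Vert) (r : ℕ) :
    {ω : Config | (fun e => ω (shiftE v e)) ∈ Arm 0 r} = Arm v r := by
  ext ω
  simp only [Arm, Set.mem_ofPred_eq]
  have hb : {w : Vert | (w.1 - v.1, w.2 - v.2) ∈ ball 0 r} = ball v r := by
    ext w
    simp only [Set.mem_ofPred_eq, mem_ball, Prod.fst_zero, Prod.snd_zero]
    omega
  constructor
  · rintro ⟨u, hu, hc⟩
    rw [conn_shift, hb] at hc
    refine ⟨(u.1 + v.1, u.2 + v.2), ⟨hc.mem_right, ?_⟩, by simpa using hc⟩
    have := hu.2
    simp only [Prod.fst_zero, Prod.snd_zero] at this ⊢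
    omega
  · rintro ⟨u, hu, hc⟩
    refine ⟨(u.1 - v.1, u.2 - v.2), ⟨?_, ?_⟩, ?_⟩
    · have := hu.1
      simp only [mem_ball, Prod.fst_zero, Prod.snd_zero] at this ⊢
      omega
    · have := hu.2
      simp only [Prod.fst_zero, Prod.snd_zero] at this ⊢
      omega
    · rw [conn_shift, hb]
      simpa using hc

/-- Translation invariance of one-arm probabilities. -/
theorem Pr_arm (v : Vert) (r : ℕ) : Pr p (Arm v r) = arm p r := by
  rw [← arm_shift v r, Pr_comp (localOn_arm 0 r) (shiftE_injective v).injOn, arm]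

theorem armBox_shift (v : Vert) (k r : ℕ) :
    {ω : Config | (fun e => ω (shiftE v e)) ∈ ArmBox 0 k r} = ArmBox v k r := by
  ext ω
  simp only [ArmBox, Set.mem_ofPred_eq]
  have hb : {w : Vert | (w.1 - v.1, w.2 - v.2) ∈ ball 0 r} = ball v r := by
    ext w
    simp only [Set.mem_ofPred_eq, mem_ball, Prod.fst_zero, Prod.snd_zero]
    omega
  constructor
  · rintro ⟨w, hw, u, hu, hc⟩
    rw [conn_shift, hb] at hc
    refine ⟨(w.1 + v.1, w.2 + v.2), ?_, (u.1 + v.1, u.2 + v.2), ⟨hc.mem_right, ?_⟩, hc⟩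
    · simp only [mem_ball, Prod.fst_zero, Prod.snd_zero] at hw ⊢
      omega
    · have := hu.2
      simp only [Prod.fst_zero, Prod.snd_zero] at this ⊢
      omega
  · rintro ⟨w, hw, u, hu, hc⟩
    refine ⟨(w.1 - v.1, w.2 - v.2), ?_, (u.1 - v.1, u.2 - v.2), ⟨?_, ?_⟩, ?_⟩
    · simp only [mem_ball, Prod.fst_zero, Prod.snd_zero] at hw ⊢
      omega
    · have := hu.1
      simp only [mem_ball, Prod.fst_zero, Prod.snd_zero] at this ⊢
      omega
    · have := hu.2
      simp only [Prod.fst_zero, Prod.snd_zero] at this ⊢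
      omega
    · rw [conn_shift, hb]
      simpa using hc

theorem Pr_armBox (v : Vert) (k r : ℕ) : Pr p (ArmBox v k r) = Pr p (ArmBox 0 k r) := by
  rw [← armBox_shift v k r, Pr_comp (localOn_armBox 0 k r) (shiftE_injective v).injOn]

theorem Pr_dual_arm (v : Vert) (r : ℕ) : Pr p {ω | dual ω ∈ Arm v r} = arm (σ p) r := by
  rw [Pr_dual (localOn_arm v r), Pr_arm]

/-- The one-arm probability is nonincreasing in the radius. -/
theorem arm_antitone {r r' : ℕ} (h : r ≤ r') : arm p r' ≤ arm p r := by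
  refine Pr_mono ?_
  rintro ω ⟨u, hu, hc⟩
  refine hc.mem_arm ?_
  have h0 : ((0 : Vert).1) = 0 := rfl
  have h1 : ((0 : Vert).2) = 0 := rfl
  obtain ⟨hb, hs⟩ := hu
  simp only [mem_ball, h0, h1] at hb hs
  rw [h0, h1]
  rcases abs_cases (u.1 - 0) with h3 | h3 <;> rcases abs_cases (u.2 - 0) with h4 | h4 <;> omega

theorem arm_zero : arm p 0 = 1 := by
  have : Arm 0 0 = Set.univ := by
    refine Set.eq_univ_of_forall fun ω => ⟨0, ⟨self_mem_ball, Or.inl (by simp)⟩,
      Conn.refl self_mem_ball⟩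
  rw [arm, this, Pr_univ]

lemma arm_nonneg {r : ℕ} : 0 ≤ arm p r := Pr_nonneg

lemma arm_le_one {r : ℕ} : arm p r ≤ 1 := Pr_le_one

end Pool.Agent.H89.Perc
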