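import Pool.Agent.H89.Perc.Prob

/-!
# Harris (FKG) inequality for local events
-/

open MeasureTheory ProbabilityTheory unitInterval

namespace Pool.Agent.H89.Perc

open Pool.Agent.Perc (Ex ind ind_of ind_of_not ind_congr ind_mul ind_le_ind MonoOnF AntiOnF)

variable {s t : Finset Edge} {A B : Set Config} {p q : I}

theorem Incr.monoOnF (iA : Incr A) (s : Finset Edge) :
    MonoOnF s (ind (fun S => ofS S ∈ A)) :=
  fun _ _ hST _ => ind_le_ind (iA _ _ (ofS_mono hST))

theorem Incr.antiOnF (iA : Incr Aᶜ) (s : Finset Edge) :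
    AntiOnF s (ind (fun S => ofS S ∈ A)) := by
  intro S T hST _
  refine ind_le_ind fun h => ?_
  by_contra hc
  exact iA (ofS S) (ofS T) (ofS_mono hST) hc h

theorem Pr_inter_eq_Ex (hA : LocalOn s A) (hB : LocalOn t B) :
    Pr p (A ∩ B) = Ex (p : ℝ) (s ∪ t)
      (fun S => ind (fun S => ofS S ∈ A) S * ind (fun S => ofS S ∈ B) S) := by
  rw [Pr_eq_Ex (LocalOn.inter' hA hB)]
  refine Pool.Agent.Perc.Ex_congr fun S _ => ?_
  rw [ind_mul]
  rfl

/-- Harris inequality for two increasing local events. -/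
theorem fkg (hA : LocalOn s A) (hB : LocalOn t B) (iA : Incr A) (iB : Incr B) :
    Pr p A * Pr p B ≤ Pr p (A ∩ B) := by
  rw [Pr_inter_eq_Ex hA hB, Pr_eq_Ex (hA.mono (Finset.subset_union_left (s₂ := t))),
    Pr_eq_Ex (hB.mono (Finset.subset_union_right (s₁ := s)))]
  exact Pool.Agent.Perc.harris p.2.1 p.2.2 (iA.monoOnF _) (iB.monoOnF _)

/-- Harris inequality for two decreasing local events. -/
theorem fkg_decr (hA : LocalOn s A) (hB : LocalOn t B) (iA : Incr Aᶜ) (iB : Incr Bᶜ) :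
    Pr p A * Pr p B ≤ Pr p (A ∩ B) := by
  rw [Pr_inter_eq_Ex hA hB, Pr_eq_Ex (hA.mono (Finset.subset_union_left (s₂ := t))),
    Pr_eq_Ex (hB.mono (Finset.subset_union_right (s₁ := s)))]
  exact Pool.Agent.Perc.harris_anti p.2.1 p.2.2 (iA.antiOnF _) (iB.antiOnF _)

/-- Harris inequality: an increasing and a decreasing local event are negatively correlated. -/
theorem fkg_mixed (hA : LocalOn s A) (hB : LocalOn t B) (iA : Incr A) (iB : Incr Bᶜ) :
    Pr p (A ∩ B) ≤ Pr p A * Pr p B := by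
  rw [Pr_inter_eq_Ex hA hB, Pr_eq_Ex (hA.mono (Finset.subset_union_left (s₂ := t))),
    Pr_eq_Ex (hB.mono (Finset.subset_union_right (s₁ := s)))]
  exact Pool.Agent.Perc.harris_mono_anti p.2.1 p.2.2 (iA.monoOnF _) (iB.antiOnF _)

/-- The probability of an increasing local event is nondecreasing in the density. -/
theorem Pr_mono_param (hA : LocalOn s A) (iA : Incr A) (hpq : p ≤ q) : Pr p A ≤ Pr q A := by
  rw [Pr_eq_Ex hA, Pr_eq_Ex hA]
  exact Pool.Agent.Perc.Ex_mono_p p.2.1 hpq q.2.2 (iA.monoOnF _)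

theorem arm_mono_param (r : ℕ) (hpq : p ≤ q) : arm p r ≤ arm q r :=
  Pr_mono_param (localOn_arm 0 r) (incr_arm 0 r) hpq

end Pool.Agent.H89.Perc
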