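import Pool.Agent.H89.Perc.RSW

/-!
# Blocking circuits
-/

open MeasureTheory ProbabilityTheory unitInterval

namespace Pool.Agent.H89.Perc

lemma circuit_localOn_DArm (s r : ℕ) :
    LocalOn (eRect (-r) (r - 1) (-r) (r - 1)) (DArm s r) := by
  rintro ω ω' h ⟨φ, φ', h1, h2, h3, h4⟩
  exact ⟨φ, φ', h1, h2, h3, Conn.congr (fun e he _ => h e (mem_eRect.2 he)) h4⟩

lemma circuit_incr_DArm (s r : ℕ) : Incr (DArm s r) := by
  rintro ω ω' h ⟨φ, φ', h1, h2, h3, h4⟩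
  exact ⟨φ, φ', h1, h2, h3, h4.mono le_rfl h⟩

theorem localOn_dual_DArm (s r : ℕ) :
    LocalOn ((eRect (-r) (r - 1) (-r) (r - 1)).image crossed) {ω | dual ω ∉ DArm s r} :=
  (circuit_localOn_DArm s r).dual'.compl

theorem incr_dual_DArm (s r : ℕ) : Incr {ω | dual ω ∉ DArm s r} :=
  (circuit_incr_DArm s r).dual_compl

/-- Blocking circuits exist with positive probability for `p ≥ 1 / 2`. -/
theorem circuit : ∃ c > (0 : ℝ), ∀ s r : ℕ, 1 ≤ s → 4 * (s + 1) ≤ r → ∀ p : I, half ≤ p →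
    c ≤ Pr p {ω | dual ω ∉ DArm s r} := by
  classical
  obtain ⟨c, hc, hrsw⟩ := rsw
  refine ⟨c ^ 4, by positivity, fun s r hs hr p hp => ?_⟩
  obtain ⟨m, hm⟩ : ∃ m : ℕ, r = m + s + 2 := ⟨r - s - 2, by omega⟩
  have hm1 : 1 ≤ m := by omega
  have h2r : 2 * r ≤ 4 * m := by omega
  -- the four crossings
  have key : ∀ t : ℤ, c ≤ Pr p {ω | HCross ω (-r) r t (t + m)} := by
    intro t
    have h1 : c ≤ Pr half {ω | HCross ω 0 (2 * r) 0 m} :=
      (hrsw m hm1).trans (Pr_mono fun ω h => HCross.mono h le_rfl (by omega) (by omega) le_rfl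
        le_rfl)
    have h2 := Pr_mono_param (localOn_hcross 0 (2 * (r : ℤ)) 0 m) (incr_hcross 0 (2 * (r : ℤ)) 0 m) hp
    have h3 := Pr_hcross_translate (p := p) (a := 0) (b := 2 * (r : ℤ)) (c := 0) (d := m) (-r) t
    have e1 : (0 : ℤ) + -r = -r := by ring
    have e2 : 2 * (r : ℤ) + -r = r := by ring
    have e3 : (0 : ℤ) + t = t := by ring
    have e4 : (m : ℤ) + t = t + m := by ring
    rw [e1, e2, e3, e4] at h3
    rw [h3]
    exact h1.trans h2
  have keyV : ∀ t : ℤ, c ≤ Pr p {ω | VCross ω t (t + m) (-r) r} := by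
    intro t
    rw [Pr_vcross_eq_hcross]
    exact key t
  have k1 := keyV (s + 1)
  have k2 := keyV (-r + 1)
  have k3 := key (s + 1)
  have k4 := key (-r + 1)
  have e1 : (s : ℤ) + 1 + m = r - 1 := by omega
  have e2 : -(r : ℤ) + 1 + m = -s - 1 := by omega
  rw [e1] at k1 k3
  rw [e2] at k2 k4
  have h12 := fkg (p := p) (localOn_vcross ((s : ℤ) + 1) (r - 1) (-r) r)
    (localOn_vcross (-(r : ℤ) + 1) (-s - 1) (-r) r) (incr_vcross _ _ _ _) (incr_vcross _ _ _ _)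
  have h34 := fkg (p := p) (localOn_hcross (-(r : ℤ)) r (s + 1) (r - 1))
    (localOn_hcross (-(r : ℤ)) r (-r + 1) (-s - 1)) (incr_hcross _ _ _ _) (incr_hcross _ _ _ _)
  have h1234 := fkg (p := p) ((localOn_vcross ((s : ℤ) + 1) (r - 1) (-r) r).inter'
      (localOn_vcross (-(r : ℤ) + 1) (-s - 1) (-r) r))
    ((localOn_hcross (-(r : ℤ)) r (s + 1) (r - 1)).inter'
      (localOn_hcross (-(r : ℤ)) r (-r + 1) (-s - 1)))
    ((incr_vcross _ _ _ _).inter (incr_vcross _ _ _ _))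
    ((incr_hcross _ _ _ _).inter (incr_hcross _ _ _ _))
  have h12' := (mul_le_mul k1 k2 hc.le Pr_nonneg).trans h12
  have h34' := (mul_le_mul k3 k4 hc.le Pr_nonneg).trans h34
  have h' := (mul_le_mul h12' h34' (by positivity) Pr_nonneg).trans h1234
  have e : c ^ 4 = c * c * (c * c) := by ring
  rw [e]
  refine h'.trans (Pr_mono ?_)
  rintro ω ⟨⟨w1, w2⟩, ⟨w3, w4⟩⟩
  exact block (by omega) w1 w2 w3 w4

end Pool.Agent.H89.Perc
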