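import Pool.Agent.H89.Perc.Duality
import Pool.Agent.H89.Perc.Symm
import Pool.Agent.H89.Perc.Sep

/-!
# Finite clusters are surrounded by dual paths
-/

open MeasureTheory ProbabilityTheory unitInterval

namespace Pool.Agent.H89.Perc

/-- Last index with a property. -/
private lemma surround_last (P : ℤ → Prop) {a b : ℤ} (hab : a ≤ b) (ha : P a) (hb : ¬ P b) :
    ∃ j, a ≤ j ∧ j < b ∧ P j ∧ ¬ P (j + 1) := by
  by_contra hno
  push Not at hno
  have key : ∀ j, a ≤ j → j ≤ b → P j := by
    intro j hj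
    induction j, hj using Int.leInduction with
    | base => exact fun _ => ha
    | succ k hk ih => exact fun hkb => hno k hk (by omega) (ih (by omega))
  exact hb (key b hab le_rfl)

/-- First index with a property, going down. -/
private lemma surround_last_down (P : ℤ → Prop) {a b : ℤ} (hab : b ≤ a) (ha : P a) (hb : ¬ P b) :
    ∃ j, b < j ∧ j ≤ a ∧ P j ∧ ¬ P (j - 1) := by
  obtain ⟨j, h1, h2, h3, h4⟩ := surround_last (fun t => P (-t)) (a := -a) (b := -b) (by omega)
    (by simpa using ha) (by simpa using hb)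
  refine ⟨-j, by omega, by omega, h3, ?_⟩
  have : -(j + 1) = -j - 1 := by ring
  rw [← this]
  exact h4

private lemma surround_mono_on {ω ω' : Config} {S : Set Vert} {u v : Vert}
    (h : ∀ e, src e ∈ S → tgt e ∈ S → ω e = true → ω' e = true) (hc : Conn ω S u v) :
    Conn ω' S u v := by
  refine ⟨hc.1, Relation.ReflTransGen.mono ?_ _ _ hc.2⟩
  rintro a b ⟨ha, hb, e, he, ho⟩
  refine ⟨ha, hb, e, he, ?_⟩
  rcases he with ⟨h1, h2⟩ | ⟨h1, h2⟩
  · exact h e (h1 ▸ ha) (h2 ▸ hb) ho
  · exact h e (h2 ▸ hb) (h1 ▸ ha) ho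

private lemma surround_vert {S : Set Vert} {x y₁ y₂ : ℤ} (hy : y₁ ≤ y₂)
    (hS : ∀ y, y₁ ≤ y → y ≤ y₂ → ((x, y) : Vert) ∈ S) :
    Conn allOpen S (x, y₁) (x, y₂) := by
  induction y₂, hy using Int.leInduction with
  | base => exact Conn.refl (hS y₁ le_rfl le_rfl)
  | succ k hk ih =>
    have h1 := ih fun y hy1 hy2 => hS y hy1 (by omega)
    refine h1.tail ⟨h1.mem_right, hS _ (by omega) le_rfl, (x, k, true), ?_, rfl⟩
    left
    simp [src, tgt]

private lemma surround_horiz {S : Set Vert} {x₁ x₂ y : ℤ} (hx : x₁ ≤ x₂)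
    (hS : ∀ x, x₁ ≤ x → x ≤ x₂ → ((x, y) : Vert) ∈ S) :
    Conn allOpen S (x₁, y) (x₂, y) := by
  induction x₂, hx using Int.leInduction with
  | base => exact Conn.refl (hS x₁ le_rfl le_rfl)
  | succ k hk ih =>
    have h1 := ih fun x hx1 hx2 => hS x hx1 (by omega)
    refine h1.tail ⟨h1.mem_right, hS _ (by omega) le_rfl, (k, y, false), ?_, rfl⟩
    left
    simp [src, tgt]

/-- The boundary of a square is connected. -/
private lemma surround_sphere {S : Set Vert} {M : ℕ}
    (hS : ∀ w ∈ sphere 0 M, w ∈ S) (w : Vert) (hw : w ∈ sphere 0 M) :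
    Conn allOpen S ((M : ℤ), 0) w := by
  have hmem : ∀ x y : ℤ, -(M : ℤ) ≤ x → x ≤ M → -(M : ℤ) ≤ y → y ≤ M →
      (x = -(M : ℤ) ∨ x = M ∨ y = -(M : ℤ) ∨ y = M) → ((x, y) : Vert) ∈ S := by
    intro x y h1 h2 h3 h4 h5
    refine hS _ ⟨?_, ?_⟩
    · simp only [mem_ball, Prod.fst_zero, Prod.snd_zero]
      omega
    · simp only [Prod.fst_zero, Prod.snd_zero]
      omega
  have hM : (0 : ℤ) ≤ M := by positivity
  -- corners
  have hru : Conn allOpen S ((M : ℤ), 0) (M, M) :=
    surround_vert hM fun y h1 h2 => hmem _ _ (by omega) (by omega) (by omega) (by omega) (by omega)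
  have hrd : Conn allOpen S ((M : ℤ), 0) (M, -M) :=
    (surround_vert (by omega) fun y h1 h2 =>
      hmem _ _ (by omega) (by omega) (by omega) (by omega) (by omega)).symm
  have hlu : Conn allOpen S ((M : ℤ), 0) (-M, M) :=
    hru.trans (surround_horiz (by omega) fun y h1 h2 =>
      hmem _ _ (by omega) (by omega) (by omega) (by omega) (by omega)).symm
  obtain ⟨x, y⟩ := w
  obtain ⟨hb, hs⟩ := hw
  simp only [mem_ball, Prod.fst_zero, Prod.snd_zero] at hb hs
  rcases hs with h | h | h | h
  · -- left side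
    have hx : x = -(M : ℤ) := by omega
    subst hx
    exact hlu.trans (surround_vert (by omega) fun t h1 h2 =>
      hmem _ _ (by omega) (by omega) (by omega) (by omega) (by omega)).symm
  · have hx : x = (M : ℤ) := by omega
    subst hx
    exact hru.trans (surround_vert (by omega) fun t h1 h2 =>
      hmem _ _ (by omega) (by omega) (by omega) (by omega) (by omega)).symm
  · have hy : y = -(M : ℤ) := by omega
    subst hy
    exact hrd.trans (surround_horiz (by omega) fun t h1 h2 =>
      hmem _ _ (by omega) (by omega) (by omega) (by omega) (by omega)).symm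
  · have hy : y = (M : ℤ) := by omega
    subst hy
    exact hru.trans (surround_horiz (by omega) fun t h1 h2 =>
      hmem _ _ (by omega) (by omega) (by omega) (by omega) (by omega)).symm

/-- A cluster which reaches distance `2 R` but not distance `M` is surrounded by a dual path. -/
theorem surround {ω : Config} {R M : ℕ} (hR : 1 ≤ R) (hM : 2 * R < M) (h1 : ω ∈ Arm 0 (2 * R))
    (h2 : ω ∉ Arm 0 M) : ∃ j : ℕ, j < M ∧ dual ω ∈ Arm ((j : ℤ), 0) (max j R) := by
  have hball : ball 0 M = rect (-(M : ℤ)) M (-(M : ℤ)) M := by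
    simp [ball]
  obtain ⟨u, hu, hcu⟩ := h1
  set D : Set Vert := rect (-(M : ℤ)) M (-(M : ℤ)) M with hD
  have hub : -(2 * R : ℤ) ≤ u.1 ∧ u.1 ≤ 2 * R ∧ -(2 * R : ℤ) ≤ u.2 ∧ u.2 ≤ 2 * R := by
    have := hu.1
    simp only [mem_ball, Prod.fst_zero, Prod.snd_zero] at this
    push_cast at this
    omega
  have hus : u.1 = -(2 * R : ℤ) ∨ u.1 = 2 * R ∨ u.2 = -(2 * R : ℤ) ∨ u.2 = 2 * R := by
    have := hu.2
    simp only [Prod.fst_zero, Prod.snd_zero] at this
    push_cast at this
    omega
  have h0D : (0 : Vert) ∈ D := by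
    refine ⟨?_, ?_, ?_, ?_⟩ <;> simp
  -- the cluster
  set C : Set Vert := {w | Conn ω D 0 w} with hC
  have hCD : C ⊆ D := fun w hw => hw.mem_right
  have h0C : (0 : Vert) ∈ C := Conn.refl h0D
  have huC : u ∈ C := by
    refine hcu.mono_set ?_
    intro w hw
    simp only [mem_ball, Prod.fst_zero, Prod.snd_zero] at hw
    push_cast at hw
    simp only [hD, rect, Set.mem_ofPred_eq]
    omega
  have hCconn : ∀ a ∈ C, ∀ b ∈ C, Conn allOpen C a b := by
    have h0 : ∀ a ∈ C, Conn allOpen C 0 a := by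
      intro a ha
      refine Conn.induction_right (P := fun x => Conn allOpen C 0 x) ha (Conn.refl h0C) ?_
      intro x y hx hxy hc
      obtain ⟨_, hy, e, he, _⟩ := id hxy
      exact hc.tail ⟨hc.mem_right, hx.tail hxy, e, he, rfl⟩
    intro a ha b hb
    exact (h0 a ha).symm.trans (h0 b hb)
  have hsC : ∀ w ∈ sphere 0 M, w ∈ D \ C := by
    intro w hw
    refine ⟨?_, fun hwC => h2 ⟨w, hw, ?_⟩⟩
    · rw [← hball]; exact hw.1
    · rw [hball]; exact hwC
  set K : Set Vert := comp D C ((M : ℤ), 0) with hK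
  have hsK : ∀ w ∈ sphere 0 M, w ∈ K := fun w hw => surround_sphere hsC w hw
  have hKD : K ⊆ D := fun w hw => (Conn.mem_right hw).1
  have hKC : ∀ w ∈ K, w ∉ C := fun w hw => (Conn.mem_right hw).2
  have hKc : ∀ a ∈ K, ∀ b ∈ K, Conn allOpen K a b := comp_connected
  have hKc' : ∀ a ∈ D \ K, ∀ b ∈ D \ K, Conn allOpen (D \ K) a b :=
    compl_comp_connected hCD h0C hCconn
  -- cut edges are closed
  have hclosed : ∀ e : Edge, src e ∈ D → tgt e ∈ D → cutConfig K e = false → ω e = false := by
    intro e hs ht hcut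
    by_contra ho
    rw [Bool.not_eq_false] at ho
    rcases cut_comp ⟨hs, ht⟩ hcut with ⟨h3, h4⟩ | ⟨h3, h4⟩
    · exact hKC _ h4 (Conn.tail h3 ⟨hs, ht, e, joins_src_tgt e, ho⟩)
    · exact hKC _ h4 (Conn.tail h3 ⟨ht, hs, e, (joins_src_tgt e).symm, ho⟩)
  have hcutiff : ∀ e : Edge, (src e ∈ K ↔ tgt e ∉ K) → cutConfig K e = false := by
    intro e he
    simp only [cutConfig, decide_eq_false_iff_not]
    tauto
  -- dual paths
  have hsep : ∀ e e' : Edge, src e ∈ D → tgt e ∈ D → src e' ∈ D → tgt e' ∈ D →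
      (src e ∈ K ↔ tgt e ∉ K) → (src e' ∈ K ↔ tgt e' ∉ K) → ∀ φ φ' : Vert, IsFace φ e →
      IsFace φ' e' → φ ∈ rect (-(M : ℤ)) (M - 1) (-(M : ℤ)) (M - 1) →
      φ' ∈ rect (-(M : ℤ)) (M - 1) (-(M : ℤ)) (M - 1) →
      Conn (dual ω) (rect (-(M : ℤ)) (M - 1) (-(M : ℤ)) (M - 1)) φ φ' := by
    intro e e' h3 h4 h5 h6 h7 h8 φ φ' h9 h10 h11 h12
    have h13 := sep (K := K) hKD hKc hKc' ⟨h3, h4⟩ ⟨h5, h6⟩ (hcutiff e h7) (hcutiff e' h8)
      h9 h10 h11 h12
    refine surround_mono_on ?_ h13
    intro f hf1 hf2 hf3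
    simp only [dual, Bool.not_eq_true'] at hf3 ⊢
    obtain ⟨x, y, b⟩ := f
    cases b
    · simp only [src, tgt, rect, Set.mem_ofPred_eq, Bool.false_eq_true, if_false] at hf1 hf2
      refine hclosed _ ?_ ?_ hf3
      · simp only [crossed, src, hD, rect, Set.mem_ofPred_eq, Bool.false_eq_true, if_false]
        omega
      · simp only [crossed, tgt, hD, rect, Set.mem_ofPred_eq, Bool.false_eq_true, if_false,
          if_true]
        omega
    · simp only [src, tgt, rect, Set.mem_ofPred_eq, if_true] at hf1 hf2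
      refine hclosed _ ?_ ?_ hf3
      · simp only [crossed, src, hD, rect, Set.mem_ofPred_eq, if_true]
        omega
      · simp only [crossed, tgt, hD, rect, Set.mem_ofPred_eq, if_true, Bool.false_eq_true,
          if_false]
        omega
  have hsph : ∀ x y : ℤ, -(M : ℤ) ≤ x → x ≤ M → -(M : ℤ) ≤ y → y ≤ M →
      (x = -(M : ℤ) ∨ x = M ∨ y = -(M : ℤ) ∨ y = M) → ((x, y) : Vert) ∈ K := by
    intro x y h3 h4 h5 h6 h7
    refine hsK _ ⟨?_, ?_⟩
    · simp only [mem_ball, Prod.fst_zero, Prod.snd_zero]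
      omega
    · simp only [Prod.fst_zero, Prod.snd_zero]
      omega
  have h0K : ((0 : ℤ), (0 : ℤ)) ∉ K := fun h => hKC _ h h0C
  have huK : (u.1, u.2) ∉ K := fun h => hKC _ h huC
  -- the cut edge on the positive axis
  obtain ⟨j, hj0, hjM, hjK, hjK'⟩ := surround_last (fun t => ((t, 0) : Vert) ∉ K)
    (a := 0) (b := M) (by omega) h0K (by
      simp only [not_not]
      exact hsph _ _ (by omega) le_rfl (by omega) (by omega) (by omega))
  simp only [not_not] at hjK'
  obtain ⟨n, rfl⟩ := Int.eq_ofNat_of_zero_le hj0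
  refine ⟨n, by omega, ?_⟩
  have main : ∀ (e' : Edge) (φ' : Vert), src e' ∈ D → tgt e' ∈ D → (src e' ∈ K ↔ tgt e' ∉ K) →
      IsFace φ' e' → φ' ∈ rect (-(M : ℤ)) (M - 1) (-(M : ℤ)) (M - 1) →
      (((max n R : ℕ) : ℤ) ≤ |φ'.1 - n| ∨ ((max n R : ℕ) : ℤ) ≤ |φ'.2 - 0|) →
      dual ω ∈ Arm ((n : ℤ), 0) (max n R) := by
    intro e' φ' h3 h4 h5 h6 h7 h8
    refine Conn.mem_arm (hsep ((n : ℤ), 0, false) e' ?_ ?_ h3 h4 ?_ h5 ((n : ℤ), 0) φ'
      (Or.inl rfl) h6 ?_ h7) h8
    · simp only [src, hD, rect, Set.mem_ofPred_eq]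
      omega
    · simp only [tgt, hD, rect, Set.mem_ofPred_eq, Bool.false_eq_true, if_false]
      omega
    · simp only [src, tgt, Bool.false_eq_true, if_false]
      exact iff_of_false hjK (not_not.mpr hjK')
    · simp only [rect, Set.mem_ofPred_eq]
      omega
  by_cases hnR : R ≤ n
  · -- use the negative axis
    obtain ⟨i, hi1, hi2, hi3, hi4⟩ := surround_last_down (fun t => ((t, 0) : Vert) ∉ K)
      (a := 0) (b := -(M : ℤ)) (by omega) h0K (by
        simp only [not_not]
        exact hsph _ _ le_rfl (by omega) (by omega) (by omega) (by omega))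
    simp only [not_not] at hi4
    refine main (i - 1, 0, false) (i - 1, 0) ?_ ?_ ?_ (Or.inl rfl) ?_ ?_
    · simp only [src, hD, rect, Set.mem_ofPred_eq]
      omega
    · simp only [tgt, hD, rect, Set.mem_ofPred_eq, Bool.false_eq_true, if_false]
      omega
    · simp only [src, tgt, Bool.false_eq_true, if_false, sub_add_cancel]
      exact iff_of_true hi4 hi3
    · simp only [rect, Set.mem_ofPred_eq]
      omega
    · left
      rw [max_eq_left hnR]
      rw [abs_of_nonpos (by simp only; omega)]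
      simp only
      omega
  · have hnR' : n < R := by omega
    rw [max_eq_right hnR'.le] at main ⊢
    rcases hus with h | h | h | h
    · -- go left
      obtain ⟨i, hi1, hi2, hi3, hi4⟩ := surround_last_down (fun t => ((t, u.2) : Vert) ∉ K)
        (a := u.1) (b := -(M : ℤ)) (by omega) huK (by
          simp only [not_not]
          exact hsph _ _ le_rfl (by omega) (by omega) (by omega) (by omega))
      simp only [not_not] at hi4
      refine main (i - 1, u.2, false) (i - 1, u.2) ?_ ?_ ?_ (Or.inl rfl) ?_ ?_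
      · simp only [src, hD, rect, Set.mem_ofPred_eq]
        omega
      · simp only [tgt, hD, rect, Set.mem_ofPred_eq, Bool.false_eq_true, if_false]
        omega
      · simp only [src, tgt, Bool.false_eq_true, if_false, sub_add_cancel]
        exact iff_of_true hi4 hi3
      · simp only [rect, Set.mem_ofPred_eq]
        omega
      · left
        rw [abs_of_nonpos (by simp only; omega)]
        simp only
        omega
    · -- go right
      obtain ⟨i, hi1, hi2, hi3, hi4⟩ := surround_last (fun t => ((t, u.2) : Vert) ∉ K)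
        (a := u.1) (b := (M : ℤ)) (by omega) huK (by
          simp only [not_not]
          exact hsph _ _ (by omega) le_rfl (by omega) (by omega) (by omega))
      simp only [not_not] at hi4
      refine main (i, u.2, false) (i, u.2) ?_ ?_ ?_ (Or.inl rfl) ?_ ?_
      · simp only [src, hD, rect, Set.mem_ofPred_eq]
        omega
      · simp only [tgt, hD, rect, Set.mem_ofPred_eq, Bool.false_eq_true, if_false]
        omega
      · simp only [src, tgt, Bool.false_eq_true, if_false]
        exact iff_of_false hi3 (not_not.mpr hi4)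
      · simp only [rect, Set.mem_ofPred_eq]
        omega
      · left
        rw [abs_of_nonneg (by simp only; omega)]
        simp only
        omega
    · -- go down
      obtain ⟨i, hi1, hi2, hi3, hi4⟩ := surround_last_down (fun t => ((u.1, t) : Vert) ∉ K)
        (a := u.2) (b := -(M : ℤ)) (by omega) huK (by
          simp only [not_not]
          exact hsph _ _ (by omega) (by omega) le_rfl (by omega) (by omega))
      simp only [not_not] at hi4
      refine main (u.1, i - 1, true) (u.1, i - 1) ?_ ?_ ?_ (Or.inl rfl) ?_ ?_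
      · simp only [src, hD, rect, Set.mem_ofPred_eq]
        omega
      · simp only [tgt, hD, rect, Set.mem_ofPred_eq, if_true]
        omega
      · simp only [src, tgt, if_true, sub_add_cancel]
        exact iff_of_true hi4 hi3
      · simp only [rect, Set.mem_ofPred_eq]
        omega
      · right
        rw [abs_of_nonpos (by simp only; omega)]
        simp only
        omega
    · -- go up
      obtain ⟨i, hi1, hi2, hi3, hi4⟩ := surround_last (fun t => ((u.1, t) : Vert) ∉ K)
        (a := u.2) (b := (M : ℤ)) (by omega) huK (by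
          simp only [not_not]
          exact hsph _ _ (by omega) (by omega) (by omega) le_rfl (by omega))
      simp only [not_not] at hi4
      refine main (u.1, i, true) (u.1, i) ?_ ?_ ?_ (Or.inl rfl) ?_ ?_
      · simp only [src, hD, rect, Set.mem_ofPred_eq]
        omega
      · simp only [tgt, hD, rect, Set.mem_ofPred_eq, if_true]
        omega
      · simp only [src, tgt, if_true]
        exact iff_of_false hi3 (not_not.mpr hi4)
      · simp only [rect, Set.mem_ofPred_eq]
        omega
      · right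
        rw [abs_of_nonneg (by simp only; omega)]
        simp only
        omega

theorem arm_sub_le {p : I} {R M : ℕ} (hR : 1 ≤ R) (hM : 2 * R < M) :
    arm p (2 * R) ≤ arm p M + ∑ j ∈ Finset.range M, arm (σ p) (max j R) := by
  have hsub : Arm 0 (2 * R) ⊆ Arm 0 M ∪
      ⋃ j ∈ Finset.range M, {ω | dual ω ∈ Arm (((j : ℕ) : ℤ), 0) (max j R)} := by
    intro ω hω
    by_cases h : ω ∈ Arm 0 M
    · exact Or.inl h
    · right
      obtain ⟨j, hj, hj'⟩ := surround hR hM hω h
      simp only [Set.mem_iUnion]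
      exact ⟨j, Finset.mem_range.2 hj, hj'⟩
  calc arm p (2 * R) ≤ _ := Pr_mono hsub
    _ ≤ _ := Pr_union_le
    _ ≤ arm p M + ∑ j ∈ Finset.range M, Pr p {ω | dual ω ∈ Arm (((j : ℕ) : ℤ), 0) (max j R)} := by
        gcongr
        · exact le_rfl
        · exact Pr_biUnion_le _ _
    _ = _ := by
        simp_rw [Pr_dual_arm]

end Pool.Agent.H89.Perc
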