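import Pool.Agent.H89.Perc.Prob

/-!
# The percolation probability is the limit of the one-arm probabilities
-/

open MeasureTheory ProbabilityTheory unitInterval Filter Topology

namespace Pool.Agent.H89.Perc

private lemma thetaLimit_ball_finite (r : ℕ) : (ball 0 r).Finite := by
  refine Set.Finite.subset
    ((Set.finite_Icc (-(r : ℤ)) r).prod (Set.finite_Icc (-(r : ℤ)) r)) ?_
  intro u hu
  simp only [mem_ball, Prod.fst_zero, Prod.snd_zero] at hu
  simp only [Set.mem_prod, Set.mem_Icc]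
  omega

private lemma thetaLimit_not_mem_ball {r : ℕ} {u : Vert} (hu : u ∉ ball 0 r) :
    (r : ℤ) ≤ |u.1 - (0 : Vert).1| ∨ (r : ℤ) ≤ |u.2 - (0 : Vert).2| := by
  simp only [mem_ball, Prod.fst_zero, Prod.snd_zero] at hu ⊢
  rcases abs_cases (u.1 - 0) with h3 | h3 <;> rcases abs_cases (u.2 - 0) with h4 | h4 <;> omega

private lemma thetaLimit_antitone : Antitone (fun r : ℕ => Arm 0 r) := by
  intro r r' h
  rintro ω ⟨u, hu, hc⟩
  refine hc.mem_arm ?_
  obtain ⟨hb, hs⟩ := hu
  simp only [mem_ball, Prod.fst_zero, Prod.snd_zero] at hb hs ⊢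
  rcases abs_cases (u.1 - 0) with h3 | h3 <;> rcases abs_cases (u.2 - 0) with h4 | h4 <;> omega

private lemma thetaLimit_set :
    {ω : Config | {v | Conn ω Set.univ 0 v}.Infinite} = ⋂ r : ℕ, Arm 0 r := by
  ext ω
  simp only [Set.mem_ofPred_eq, Set.mem_iInter]
  constructor
  · intro h r
    obtain ⟨v, hv, hvb⟩ := h.exists_notMem_finite (thetaLimit_ball_finite r)
    have hv' : Conn ω Set.univ 0 v := hv
    exact hv'.mem_arm (thetaLimit_not_mem_ball hvb)
  · intro h hfin
    -- a bound for the absolute values of the coordinates of a finite cluster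
    obtain ⟨M, hM⟩ : ∃ M : ℕ, ∀ v ∈ {v | Conn ω Set.univ 0 v}, (v.1.natAbs ≤ M ∧ v.2.natAbs ≤ M) := by
      obtain ⟨M, hM⟩ := (hfin.image (fun v : Vert => max v.1.natAbs v.2.natAbs)).bddAbove
      refine ⟨M, fun v hv => ?_⟩
      have := hM (Set.mem_image_of_mem _ hv)
      exact ⟨(le_max_left _ _).trans this, (le_max_right _ _).trans this⟩
    obtain ⟨u, hu, hc⟩ := h (M + 1)
    have h1 := hM u (hc.mono_set (Set.subset_univ _))
    obtain ⟨_, hs⟩ := hu
    simp only [Prod.fst_zero, Prod.snd_zero] at hs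
    omega

theorem tendsto_arm (p : I) : Tendsto (fun r => arm p r) atTop (𝓝 (theta p)) := by
  have h : Tendsto (fun r : ℕ => μ p (Arm 0 r)) atTop (𝓝 (μ p (⋂ r : ℕ, Arm 0 r))) :=
    tendsto_measure_iInter_atTop
      (fun r => ((localOn_arm 0 r).measurableSet).nullMeasurableSet) thetaLimit_antitone
      ⟨0, measure_ne_top _ _⟩
  have h2 := (ENNReal.tendsto_toReal (measure_ne_top (μ p) (⋂ r : ℕ, Arm 0 r))).comp h
  rw [theta, thetaLimit_set]
  exact h2

end Pool.Agent.H89.Perc
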