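import Pool.Agent.H89.Perc.FKG

/-!
# Russo's formula, integrated form of a sharp threshold inequality
-/

open MeasureTheory ProbabilityTheory unitInterval

namespace Pool.Agent.H89.Perc

open Pool.Agent.Perc (Ex ind)

variable {s : Finset Edge} {A : Set Config}

/-- The polynomial `q ↦ P_q(A)` on the whole real line. -/
noncomputable def PrR (s : Finset Edge) (A : Set Config) (q : ℝ) : ℝ :=
  Ex q s (ind (fun S => ofS S ∈ A))

theorem Pr_eq_PrR (hA : LocalOn s A) (p : I) : Pr p A = PrR s A (p : ℝ) := Pr_eq_Ex hA p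

/-- Russo's formula. -/
theorem hasDerivAt_PrR (hA : LocalOn s A) (q : I) :
    HasDerivAt (PrR s A) (∑ e ∈ s, pivot q A e) (q : ℝ) := by
  have h := Pool.Agent.Perc.hasDerivAt_Ex s (ind (fun S => ofS S ∈ A)) (q : ℝ)
  rw [Finset.sum_congr rfl fun e he => pivot_eq_Ex (p := q) hA he]
  exact h

/-- If the variance of the indicator of an increasing local event is bounded by `δ / 2` times the
sum of its influences (which by Russo's formula is the derivative of the probability) for all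
densities between `p₀` and `p₁`, then the probability passes from `p₀` to `p₁` rapidly from
small to large values. -/
theorem threshold (hA : LocalOn s A) (iA : Incr A) {p₀ p₁ : I} (h0 : 0 < (p₀ : ℝ))
    (h01 : p₀ ≤ p₁) (h1 : (p₁ : ℝ) < 1) {δ : ℝ} (hδ : 0 < δ)
    (hvar : ∀ q : I, p₀ ≤ q → q ≤ p₁ →
      Pr q A * (1 - Pr q A) ≤ δ / 2 * ∑ e ∈ s, pivot q A e) :
    Pr p₀ A * (1 - Pr p₁ A) ≤ Real.exp (-2 * ((p₁ : ℝ) - p₀) / δ) := by
  have h01' : (p₀ : ℝ) ≤ p₁ := h01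
  rcases (Pr_nonneg (p := p₀) (A := A)).eq_or_lt with hz | hpos
  · rw [← hz, zero_mul]; exact (Real.exp_pos _).le
  rcases (Pr_le_one (p := p₁) (A := A)).eq_or_lt with hz | hlt
  · rw [hz, sub_self, mul_zero]; exact (Real.exp_pos _).le
  -- on the interval the probability is in `(0, 1)`
  have hbd : ∀ x ∈ Set.Icc (p₀ : ℝ) p₁, 0 < PrR s A x ∧ PrR s A x < 1 := by
    intro x hx
    have hxI : x ∈ I := ⟨p₀.2.1.trans hx.1, hx.2.trans p₁.2.2⟩
    have e1 := Pr_mono_param (p := p₀) (q := ⟨x, hxI⟩) hA iA hx.1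
    have e2 := Pr_mono_param (p := ⟨x, hxI⟩) (q := p₁) hA iA hx.2
    rw [Pr_eq_PrR hA (⟨x, hxI⟩ : I)] at e1 e2
    exact ⟨hpos.trans_le e1, lt_of_le_of_lt e2 hlt⟩
  -- the logit
  set g : ℝ → ℝ := fun x => Real.log (PrR s A x) - Real.log (1 - PrR s A x) - 2 / δ * x with hg
  have hder : ∀ x ∈ Set.Icc (p₀ : ℝ) p₁, ∃ d, HasDerivAt g d x ∧ 0 ≤ d := by
    intro x hx
    have hxI : x ∈ I := ⟨p₀.2.1.trans hx.1, hx.2.trans p₁.2.2⟩
    obtain ⟨b1, b2⟩ := hbd x hx
    have hd := hasDerivAt_PrR hA ⟨x, hxI⟩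
    set D := ∑ e ∈ s, pivot ⟨x, hxI⟩ A e with hD
    have h3 : HasDerivAt (PrR s A) D x := hd
    have h4 := h3.log b1.ne'
    have h5 := (h3.const_sub 1).log (by linarith : (1 : ℝ) - PrR s A x ≠ 0)
    have h6 := ((hasDerivAt_id x).const_mul (2 / δ))
    refine ⟨_, (h4.sub h5).sub h6, ?_⟩
    have hv := hvar ⟨x, hxI⟩ hx.1 hx.2
    rw [Pr_eq_PrR hA] at hv
    have hv' : PrR s A x * (1 - PrR s A x) ≤ δ / 2 * D := hv
    have hpp : 0 < PrR s A x * (1 - PrR s A x) := mul_pos b1 (by linarith)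
    have e1 : D / PrR s A x - -D / (1 - PrR s A x)
        = D / (PrR s A x * (1 - PrR s A x)) := by
      have : (1 : ℝ) - PrR s A x ≠ 0 := by linarith
      field_simp
      ring
    simp only [mul_one]
    rw [e1, sub_nonneg, le_div_iff₀ hpp]
    calc 2 / δ * (PrR s A x * (1 - PrR s A x)) ≤ 2 / δ * (δ / 2 * D) :=
          mul_le_mul_of_nonneg_left hv' (by positivity)
      _ = D := by field_simp
  have hmono : MonotoneOn g (Set.Icc (p₀ : ℝ) p₁) := by
    refine monotoneOn_of_deriv_nonneg (convex_Icc _ _) ?_ ?_ ?_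
    · intro x hx
      obtain ⟨d, hd, _⟩ := hder x hx
      exact hd.continuousAt.continuousWithinAt
    · intro x hx
      rw [interior_Icc] at hx
      obtain ⟨d, hd, _⟩ := hder x ⟨hx.1.le, hx.2.le⟩
      exact hd.differentiableAt.differentiableWithinAt
    · intro x hx
      rw [interior_Icc] at hx
      obtain ⟨d, hd, h⟩ := hder x ⟨hx.1.le, hx.2.le⟩
      rw [hd.deriv]; exact h
  have key := hmono ⟨le_rfl, h01'⟩ ⟨h01', le_rfl⟩ h01'
  obtain ⟨a1, a2⟩ := hbd p₀ ⟨le_rfl, h01'⟩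
  obtain ⟨b1, b2⟩ := hbd p₁ ⟨h01', le_rfl⟩
  rw [Pr_eq_PrR hA, Pr_eq_PrR hA]
  set x := PrR s A p₀ with hx
  set y := PrR s A p₁ with hy
  have hk : Real.log x - Real.log (1 - x) - 2 / δ * p₀
      ≤ Real.log y - Real.log (1 - y) - 2 / δ * p₁ := key
  have hlx : Real.log (1 - x) ≤ 0 := Real.log_nonpos (by linarith) (by linarith)
  have hly : Real.log y ≤ 0 := Real.log_nonpos b1.le b2.le
  have h7 : Real.log (x * (1 - y)) ≤ -2 * ((p₁ : ℝ) - p₀) / δ := by
    rw [Real.log_mul a1.ne' (by linarith : (1 : ℝ) - y ≠ 0)]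
    have : -2 * ((p₁ : ℝ) - p₀) / δ = 2 / δ * p₀ - 2 / δ * p₁ := by ring
    rw [this]
    linarith
  have h8 : 0 < x * (1 - y) := mul_pos a1 (by linarith)
  calc x * (1 - y) = Real.exp (Real.log (x * (1 - y))) := (Real.exp_log h8).symm
    _ ≤ _ := Real.exp_le_exp.2 h7

end Pool.Agent.H89.Perc
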