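import Mathlib

/-!
# Bond percolation on the square lattice: basic definitions

Vertices are `ℤ × ℤ`.  The edge `(x, y, false)` joins `(x, y)` and `(x + 1, y)`, the edge
`(x, y, true)` joins `(x, y)` and `(x, y + 1)`.  A configuration is a function `Edge → Bool`
(`true` means open).  The dual vertex `(x, y)` is the unit square with lower left corner `(x, y)`,
and `dual ω` is the dual configuration, in which a dual edge is open if and only if the primal edge
which it crosses is closed.
-/

open MeasureTheory ProbabilityTheory unitInterval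

namespace Pool.Agent.H89.Perc

/-- Vertices of the square lattice. -/
abbrev Vert := ℤ × ℤ

/-- Edges of the square lattice. -/
abbrev Edge := ℤ × ℤ × Bool

/-- Configurations. -/
abbrev Config := Edge → Bool

/-- First endpoint. -/
def src (e : Edge) : Vert := (e.1, e.2.1)

/-- Second endpoint. -/
def tgt (e : Edge) : Vert := if e.2.2 then (e.1, e.2.1 + 1) else (e.1 + 1, e.2.1)

/-- The edge `e` joins `u` and `v`. -/
def Joins (e : Edge) (u v : Vert) : Prop := (u = src e ∧ v = tgt e) ∨ (u = tgt e ∧ v = src e)

/-- One step along an open edge inside the vertex set `S`. -/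
def Step (ω : Config) (S : Set Vert) (u v : Vert) : Prop :=
  u ∈ S ∧ v ∈ S ∧ ∃ e, Joins e u v ∧ ω e = true

/-- `u` and `v` are joined by an open path inside `S`. -/
def Conn (ω : Config) (S : Set Vert) (u v : Vert) : Prop :=
  u ∈ S ∧ Relation.ReflTransGen (Step ω S) u v

/-- The primal edge crossed by the dual edge `e`. -/
def crossed (e : Edge) : Edge := if e.2.2 then (e.1, e.2.1 + 1, false) else (e.1 + 1, e.2.1, true)

/-- The dual configuration. -/
def dual (ω : Config) : Config := fun e => !ω (crossed e)

/-- The configuration with all edges open. -/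
def allOpen : Config := fun _ => true

/-- The rectangle `[a, b] × [c, d]`. -/
def rect (a b c d : ℤ) : Set Vert := {v | a ≤ v.1 ∧ v.1 ≤ b ∧ c ≤ v.2 ∧ v.2 ≤ d}

/-- Open crossing of `[a, b] × [c, d]` from left to right. -/
def HCross (ω : Config) (a b c d : ℤ) : Prop :=
  ∃ u v : Vert, u.1 = a ∧ v.1 = b ∧ Conn ω (rect a b c d) u v

/-- Open crossing of `[a, b] × [c, d]` from bottom to top. -/
def VCross (ω : Config) (a b c d : ℤ) : Prop :=
  ∃ u v : Vert, u.2 = c ∧ v.2 = d ∧ Conn ω (rect a b c d) u v

/-- The square `[-r, r]²` around `v`. -/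
def ball (v : Vert) (r : ℕ) : Set Vert := rect (v.1 - r) (v.1 + r) (v.2 - r) (v.2 + r)

/-- The boundary of `ball v r`. -/
def sphere (v : Vert) (r : ℕ) : Set Vert :=
  {u | u ∈ ball v r ∧ (u.1 = v.1 - r ∨ u.1 = v.1 + r ∨ u.2 = v.2 - r ∨ u.2 = v.2 + r)}

/-- One-arm event: `v` is joined to `sphere v r` inside `ball v r`. -/
def Arm (v : Vert) (r : ℕ) : Set Config := {ω | ∃ u ∈ sphere v r, Conn ω (ball v r) v u}

/-- Annulus event: `ball v s` is joined to `sphere v r` inside `ball v r`. -/
def ArmBox (v : Vert) (s r : ℕ) : Set Config :=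
  {ω | ∃ w ∈ ball v s, ∃ u ∈ sphere v r, Conn ω (ball v r) w u}

/-- The product measure with density `p` of open edges. -/
noncomputable def μ (p : I) : Measure Config :=
  Measure.infinitePi (fun _ : Edge => bernoulliMeasure true false p)

/-- The probability of `A` at density `p`. -/
noncomputable def Pr (p : I) (A : Set Config) : ℝ := (μ p).real A

/-- The event `A` depends only on the edges of the finite set `s`. -/
def LocalOn (s : Finset Edge) (A : Set Config) : Prop :=
  ∀ ω ω' : Config, (∀ e ∈ s, ω e = ω' e) → ω ∈ A → ω' ∈ A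

/-- Increasing event. -/
def Incr (A : Set Config) : Prop :=
  ∀ ω ω' : Config, (∀ e, ω e = true → ω' e = true) → ω ∈ A → ω' ∈ A

/-- One-arm probability at the origin. -/
noncomputable def arm (p : I) (r : ℕ) : ℝ := Pr p (Arm 0 r)

/-- Percolation probability. -/
noncomputable def theta (p : I) : ℝ := Pr p {ω | {v | Conn ω Set.univ 0 v}.Infinite}

/-- The critical density `1/2` as an element of the unit interval. -/
noncomputable def half : I := ⟨1 / 2, by norm_num, by norm_num⟩

/-- Influence of the edge `e` on the event `A` (discrete derivative). -/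
noncomputable def pivot (p : I) (A : Set Config) (e : Edge) : ℝ :=
  Pr p {ω | Function.update ω e true ∈ A} - Pr p {ω | Function.update ω e false ∈ A}

end Pool.Agent.H89.Perc
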