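import Mathlib

/-!
# The real analysis behind the lower bound for the percolation probability
-/

open Filter Topology

namespace Pool.Agent.H89.Perc

/-- The inputs: `a = ` one-arm probabilities at `1/2 + h`, `b = ` at `1/2`, `d = ` at `1/2 - h`. -/
structure FinalHyp (ce Cd cd h θ : ℝ) (a b d : ℕ → ℝ) : Prop where
  ce0 : 0 < ce
  Cd0 : 0 < Cd
  cd0 : 0 < cd
  h0 : 0 < h
  h1 : h ≤ 1 / 4
  a_anti : Antitone a
  a_le_one : ∀ k, a k ≤ 1
  b_nonneg : ∀ k, 0 ≤ b k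
  b_le_a : ∀ k, b k ≤ a k
  d_nonneg : ∀ k, 0 ≤ d k
  d_le_one : ∀ k, d k ≤ 1
  b_low : ∀ r : ℕ, 1 ≤ r → ce * Real.sqrt (1 / r) ≤ b r
  a_ext : ∀ k R : ℕ, 1 ≤ k → k ≤ R → ce * Real.sqrt (k / R) * a k ≤ a R
  b_ext : ∀ k R : ℕ, 1 ≤ k → k ≤ R → ce * Real.sqrt (k / R) * b k ≤ b R
  b_dec : ∀ r : ℕ, 1 ≤ r → b r ≤ Cd * (r : ℝ) ^ (-cd)
  thr : ∀ r : ℕ, 1 ≤ r → (b r / (8 * r)) ^ 4 * (d r / (8 * r)) ^ 4 ≤
    Real.exp (-2 * h * r / (5 * ∑ k ∈ Finset.range (4 * r), a k * b k))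
  sl : ∀ s n : ℕ, s < n → d n ≤ (8 * s + 4) * d s * d (n - s - 1)
  sub : ∀ R M : ℕ, 1 ≤ R → 2 * R < M → a (2 * R) ≤ a M + ∑ j ∈ Finset.range M, d (max j R)
  lim : Tendsto a atTop (𝓝 θ)

namespace FinalHyp

variable {ce Cd cd h θ : ℝ} {a b d : ℕ → ℝ}

lemma ce_le_one (H : FinalHyp ce Cd cd h θ a b d) : ce ≤ 1 := by
  have h1 := H.b_low 1 le_rfl
  have h2 := H.b_le_a 1
  have h3 := H.a_le_one 1
  simp at h1
  linarith

lemma a_nonneg (H : FinalHyp ce Cd cd h θ a b d) (k : ℕ) : 0 ≤ a k :=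
  (H.b_nonneg k).trans (H.b_le_a k)

lemma θ_le (H : FinalHyp ce Cd cd h θ a b d) (k : ℕ) : θ ≤ a k :=
  H.a_anti.le_of_tendsto H.lim k

lemma sqrt_low {N : ℕ} (hN : 1 ≤ N) : 1 / (N : ℝ) ≤ Real.sqrt (1 / N) := by
  have hN' : (1 : ℝ) ≤ N := by exact_mod_cast hN
  apply Real.le_sqrt_of_sq_le
  have : 1 / (N : ℝ) ≤ 1 := by
    rw [div_le_one (by linarith)]; exact hN'
  have h0 : 0 ≤ 1 / (N : ℝ) := by positivity
  nlinarith

lemma b_low' (H : FinalHyp ce Cd cd h θ a b d) {N : ℕ} (hN : 1 ≤ N) : ce / N ≤ b N := by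
  refine le_trans ?_ (H.b_low N hN)
  have := sqrt_low hN
  have h2 := mul_le_mul_of_nonneg_left this H.ce0.le
  calc ce / N = ce * (1 / N) := by ring
    _ ≤ _ := h2

/-- Upper bound for the sum in terms of the one-arm probability. -/
lemma S_upper (H : FinalHyp ce Cd cd h θ a b d) {N : ℕ} (hN : 1 ≤ N) :
    ∑ k ∈ Finset.range N, a k * b k ≤ N * a N ^ 2 / ce ^ 2 * (2 + Real.log N) := by
  have hN' : (1 : ℝ) ≤ N := by exact_mod_cast hN
  have hce := H.ce0
  set Q : ℝ := N * a N ^ 2 / ce ^ 2 with hQ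
  have hQ1 : 1 ≤ Q := by
    rw [hQ, le_div_iff₀ (by positivity)]
    have h1 : ce * Real.sqrt (1 / N) ≤ a N := (H.b_low N hN).trans (H.b_le_a N)
    have h2 : (ce * Real.sqrt (1 / N)) ^ 2 ≤ a N ^ 2 := by
      apply pow_le_pow_left₀ (by positivity) h1
    rw [mul_pow, Real.sq_sqrt (by positivity)] at h2
    have h3 : (N : ℝ) * (ce ^ 2 * (1 / N)) = ce ^ 2 := by field_simp
    nlinarith [mul_le_mul_of_nonneg_left h2 (by linarith : (0 : ℝ) ≤ N)]
  have hterm : ∀ k ∈ Finset.range N, k ≠ 0 → a k * b k ≤ Q * (1 / (k : ℝ)) := by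
    intro k hk hk0
    have hk1 : 1 ≤ k := Nat.one_le_iff_ne_zero.2 hk0
    have hkN : k ≤ N := (Finset.mem_range.1 hk).le
    have hk' : (1 : ℝ) ≤ k := by exact_mod_cast hk1
    have h1 := H.a_ext k N hk1 hkN
    have h2 := (H.b_ext k N hk1 hkN).trans (H.b_le_a N)
    have hs : 0 < ce * Real.sqrt (k / N) := by positivity
    have h3 : (ce * Real.sqrt (k / N) * a k) * (ce * Real.sqrt (k / N) * b k) ≤ a N * a N :=
      mul_le_mul h1 h2 (mul_nonneg hs.le (H.b_nonneg k)) (H.a_nonneg N)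
    have h4 : (ce * Real.sqrt (k / N) * a k) * (ce * Real.sqrt (k / N) * b k) =
        ce ^ 2 * (k / N) * (a k * b k) := by
      have : Real.sqrt (k / N) * Real.sqrt (k / N) = k / N := Real.mul_self_sqrt (by positivity)
      calc _ = ce ^ 2 * (Real.sqrt (k / N) * Real.sqrt (k / N)) * (a k * b k) := by ring
        _ = _ := by rw [this]
    rw [h4] at h3
    rw [hQ]
    have h5 : a k * b k ≤ a N * a N / (ce ^ 2 * (k / N)) := by
      rw [le_div_iff₀ (by positivity)]; linarith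
    refine h5.trans (le_of_eq ?_)
    field_simp
  have hsplit : ∑ k ∈ Finset.range N, a k * b k ≤
      Q + ∑ k ∈ Finset.range N, Q * (1 / (k : ℝ)) := by
    obtain ⟨n, rfl⟩ : ∃ n, N = n + 1 := ⟨N - 1, by omega⟩
    rw [Finset.sum_range_succ', Finset.sum_range_succ']
    have h0 : a 0 * b 0 ≤ 1 := by
      have := H.a_le_one 0
      have h2 := (H.b_le_a 0).trans this
      have h3 := H.b_nonneg 0
      have h4 := H.a_nonneg 0
      nlinarith
    have h1 : ∑ k ∈ Finset.range n, a (k + 1) * b (k + 1) ≤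
        ∑ k ∈ Finset.range n, Q * (1 / ((k + 1 : ℕ) : ℝ)) := by
      apply Finset.sum_le_sum
      intro k hk
      exact hterm (k + 1) (Finset.mem_range.2 (by have := Finset.mem_range.1 hk; omega)) (by omega)
    simp only [Nat.cast_zero, div_zero, mul_zero, add_zero]
    linarith
  have hharm : ∑ k ∈ Finset.range N, (1 / (k : ℝ)) ≤ 1 + Real.log N := by
    obtain ⟨n, rfl⟩ : ∃ n, N = n + 1 := ⟨N - 1, by omega⟩
    rw [Finset.sum_range_succ']
    simp only [Nat.cast_zero, div_zero, add_zero]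
    rcases Nat.eq_zero_or_pos n with rfl | hn
    · simp
    have h1 := harmonic_le_one_add_log n
    have h2 : ((harmonic n : ℚ) : ℝ) = ∑ k ∈ Finset.range n, (1 / ((k + 1 : ℕ) : ℝ)) := by
      simp [harmonic]
    rw [← h2]
    refine h1.trans ?_
    have hn' : (0 : ℝ) < n := by exact_mod_cast hn
    have := Real.log_le_log hn' (show (n : ℝ) ≤ ((n + 1 : ℕ) : ℝ) by push_cast; linarith)
    linarith
  rw [← Finset.mul_sum] at hsplit
  have := mul_le_mul_of_nonneg_left hharm (by linarith : (0 : ℝ) ≤ Q)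
  nlinarith

lemma S_pos (H : FinalHyp ce Cd cd h θ a b d) {r : ℕ} (hr : 1 ≤ r) :
    0 < ∑ k ∈ Finset.range (4 * r), a k * b k := by
  have h1 : a 1 * b 1 ≤ ∑ k ∈ Finset.range (4 * r), a k * b k :=
    Finset.single_le_sum (f := fun k => a k * b k)
      (fun k _ => mul_nonneg (H.a_nonneg k) (H.b_nonneg k)) (Finset.mem_range.2 (by omega))
  have h2 := H.b_low' (N := 1) le_rfl
  have h3 := H.b_le_a 1
  have h4 := H.ce0
  have : 0 < a 1 * b 1 := by
    simp at h2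
    have : 0 < b 1 := by linarith
    have : 0 < a 1 := by linarith
    positivity
  linarith

/-- Polynomially small upper bound for the sum. -/
lemma S_upper2 (H : FinalHyp ce Cd cd h θ a b d) {m : ℕ} (hm : 1 ≤ m) :
    ∑ k ∈ Finset.range (4 * m ^ 2), a k * b k ≤ m + 4 * m ^ 2 * (Cd * (m : ℝ) ^ (-cd)) := by
  have hm' : (1 : ℝ) ≤ m := by exact_mod_cast hm
  have hle : ∀ k, a k * b k ≤ b k := by
    intro k
    have := H.a_le_one k
    have h3 := H.b_nonneg k
    nlinarith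
  have hone : ∀ k, b k ≤ 1 := fun k => (H.b_le_a k).trans (H.a_le_one k)
  have h1 : ∑ k ∈ Finset.range (4 * m ^ 2), a k * b k ≤
      ∑ k ∈ Finset.range (4 * m ^ 2), ((if k < m then (1 : ℝ) else 0) + Cd * (m : ℝ) ^ (-cd)) := by
    apply Finset.sum_le_sum
    intro k _
    have hpos : 0 ≤ Cd * (m : ℝ) ^ (-cd) := mul_nonneg H.Cd0.le (by positivity)
    split_ifs with hk
    · have := (hle k).trans (hone k)
      linarith
    · push Not at hk
      have hk1 : 1 ≤ k := hm.trans hk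
      have h2 := H.b_dec k hk1
      have h3 : (k : ℝ) ^ (-cd) ≤ (m : ℝ) ^ (-cd) := by
        apply Real.rpow_le_rpow_of_nonpos (by linarith) (by exact_mod_cast hk)
        linarith [H.cd0]
      have h4 := mul_le_mul_of_nonneg_left h3 H.Cd0.le
      linarith [hle k]
  refine h1.trans ?_
  rw [Finset.sum_add_distrib]
  simp only [Finset.sum_const, Finset.card_range, nsmul_eq_mul]
  have h2 : ∑ k ∈ Finset.range (4 * m ^ 2), (if k < m then (1 : ℝ) else 0) ≤ m := by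
    rw [← Finset.sum_filter]
    simp only [Finset.sum_const, nsmul_eq_mul, mul_one]
    have : (Finset.filter (fun k => k < m) (Finset.range (4 * m ^ 2))).card ≤ (Finset.range m).card := by
      apply Finset.card_le_card
      intro k hk
      simp only [Finset.mem_filter, Finset.mem_range] at hk ⊢
      exact hk.2
    rw [Finset.card_range] at this
    exact_mod_cast this
  push_cast
  linarith

/-- Decay of `d` from the smallness at one scale. -/
lemma d_decay (H : FinalHyp ce Cd cd h θ a b d) {r : ℕ} {ε : ℝ}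
    (hε : (8 * r + 4) * d r ≤ ε) (m : ℕ) : ∀ n : ℕ, m * (r + 1) ≤ n → d n ≤ ε ^ m := by
  have hε0 : 0 ≤ ε := le_trans (mul_nonneg (by positivity) (H.d_nonneg r)) hε
  induction m with
  | zero => intro n _; simpa using H.d_le_one n
  | succ m ih =>
    intro n hn
    have hrn : r < n := by
      have : (m + 1) * (r + 1) = m * (r + 1) + (r + 1) := by ring
      have h2 : 0 ≤ m * (r + 1) := Nat.zero_le _
      omega
    have h1 := H.sl r n hrn
    have h2 : d (n - r - 1) ≤ ε ^ m := by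
      apply ih
      have : (m + 1) * (r + 1) = m * (r + 1) + (r + 1) := by ring
      omega
    calc d n ≤ (8 * r + 4) * d r * d (n - r - 1) := h1
      _ ≤ ε * ε ^ m := mul_le_mul hε h2 (H.d_nonneg _) hε0
      _ = ε ^ (m + 1) := by ring

/-- Sum of the decaying sequence. -/
lemma d_sum (H : FinalHyp ce Cd cd h θ a b d) {r : ℕ} {ε : ℝ}
    (hε : (8 * r + 4) * d r ≤ ε) (hε2 : ε ≤ 1 / 2) {m : ℕ} (hm : 1 ≤ m) :
    ∑ j ∈ Finset.range ((r + 1) * m), d (max j (r + 1)) ≤ (r + 1) * (3 * ε - 2 * ε ^ m) := by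
  have hε0 : 0 ≤ ε := le_trans (mul_nonneg (by positivity) (H.d_nonneg r)) hε
  induction m, hm using Nat.le_induction with
  | base =>
    have : ∀ j ∈ Finset.range ((r + 1) * 1), d (max j (r + 1)) ≤ ε := by
      intro j _
      have := H.d_decay hε 1 (max j (r + 1)) (by rw [one_mul]; exact le_max_right _ _)
      simpa using this
    have h2 := Finset.sum_le_card_nsmul _ _ _ this
    simp only [Finset.card_range, nsmul_eq_mul] at h2
    push_cast at h2
    refine h2.trans (le_of_eq ?_)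
    ring
  | succ m hm ih =>
    rw [Nat.mul_succ, Finset.sum_range_add]
    have h1 : ∑ x ∈ Finset.range (r + 1), d (max ((r + 1) * m + x) (r + 1)) ≤ (r + 1) * ε ^ m := by
      have : ∀ x ∈ Finset.range (r + 1), d (max ((r + 1) * m + x) (r + 1)) ≤ ε ^ m := by
        intro x _
        apply H.d_decay hε m
        have : m * (r + 1) = (r + 1) * m := by ring
        exact le_trans (by omega) (le_max_left _ _)
      have h2 := Finset.sum_le_card_nsmul _ _ _ this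
      simp only [Finset.card_range, nsmul_eq_mul] at h2
      push_cast at h2
      exact h2
    have h3 : ε ^ (m + 1) ≤ ε ^ m * (1 / 2) := by
      rw [pow_succ]
      exact mul_le_mul_of_nonneg_left hε2 (by positivity)
    have hr0 : (0 : ℝ) ≤ r + 1 := by positivity
    have h4 := mul_le_mul_of_nonneg_left h3 hr0
    nlinarith

/-- Lower bound for `θ` once `d` is small at scale `r`. -/
lemma θ_ge (H : FinalHyp ce Cd cd h θ a b d) {r : ℕ} {ε : ℝ} 
    (hε : (8 * r + 4) * d r ≤ ε) (hε2 : ε ≤ 1 / 2) :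
    a (2 * (r + 1)) ≤ θ + (r + 1) * (3 * ε) := by
  have hε0 : 0 ≤ ε := le_trans (mul_nonneg (by positivity) (H.d_nonneg r)) hε
  have hlim : Tendsto (fun m : ℕ => a ((r + 1) * m)) atTop (𝓝 θ) :=
    H.lim.comp (tendsto_id.const_mul_atTop' (Nat.succ_pos r))
  have : a (2 * (r + 1)) - (r + 1) * (3 * ε) ≤ θ := by
    apply ge_of_tendsto hlim
    filter_upwards [eventually_ge_atTop 3] with m hm
    have h1 := H.sub (r + 1) ((r + 1) * m) (by omega) (by nlinarith)
    have h2 := H.d_sum hε hε2 (m := m) (by omega)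
    have h3 : 0 ≤ ε ^ m := by positivity
    have hr0 : (0 : ℝ) ≤ r + 1 := by positivity
    have h4 := mul_nonneg hr0 h3
    nlinarith
  linarith

/-- Smallness of `d` from the threshold inequality. -/
lemma d_small (H : FinalHyp ce Cd cd h θ a b d) {r K : ℕ} (hr : 1 ≤ r)
    (hP : 10 * K * Real.log (r + 1) * ∑ k ∈ Finset.range (4 * r), a k * b k ≤ h * r) :
    d r ≤ 64 / ce * (r + 1) ^ 3 / (r + 1) ^ K := by
  have hS := H.S_pos hr
  set S := ∑ k ∈ Finset.range (4 * r), a k * b k with hSdef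
  have hr' : (1 : ℝ) ≤ r := by exact_mod_cast hr
  have h1 := H.thr r hr
  rw [← hSdef] at h1
  have h2 : Real.exp (-2 * h * r / (5 * S)) ≤ (1 / ((r : ℝ) + 1) ^ K) ^ 4 := by
    have h3 : (1 / ((r : ℝ) + 1) ^ K) ^ 4 = Real.exp (-(4 * K * Real.log (r + 1))) := by
      rw [Real.exp_neg, one_div, inv_pow, ← pow_mul, ← Real.rpow_natCast, Real.rpow_def_of_pos (by positivity)]
      congr 2
      push_cast
      ring
    rw [h3, Real.exp_le_exp, div_le_iff₀ (by positivity)]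
    nlinarith
  have h3 : (b r / (8 * r) * (d r / (8 * r))) ^ 4 ≤ (1 / ((r : ℝ) + 1) ^ K) ^ 4 := by
    rw [mul_pow]; exact h1.trans h2
  have hb := H.b_nonneg r
  have hd := H.d_nonneg r
  have h4 : b r / (8 * r) * (d r / (8 * r)) ≤ 1 / ((r : ℝ) + 1) ^ K :=
    le_of_pow_le_pow_left₀ (by norm_num) (by positivity) h3
  have h5 := H.b_low' hr
  have hce := H.ce0
  have h6 : ce / r / (8 * r) * (d r / (8 * r)) ≤ 1 / ((r : ℝ) + 1) ^ K := by
    refine le_trans ?_ h4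
    gcongr
  have h7 : d r = 64 * r ^ 3 / ce * (ce / r / (8 * r) * (d r / (8 * r))) := by
    field_simp
    norm_num
  rw [h7]
  calc 64 * (r : ℝ) ^ 3 / ce * (ce / r / (8 * r) * (d r / (8 * r)))
      ≤ 64 * (r : ℝ) ^ 3 / ce * (1 / ((r : ℝ) + 1) ^ K) := by gcongr
    _ ≤ 64 * ((r : ℝ) + 1) ^ 3 / ce * (1 / ((r : ℝ) + 1) ^ K) := by gcongr; linarith
    _ = _ := by ring

lemma a_le_two_θ (H : FinalHyp ce Cd cd h θ a b d) {r K : ℕ} (hr : 1 ≤ r)
    (hK : 8192 / ce ^ 2 ≤ 2 ^ K)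
    (hP : 10 * ((K + 6 : ℕ) : ℝ) * Real.log (r + 1) * ∑ k ∈ Finset.range (4 * r), a k * b k ≤ h * r) :
    a (2 * (r + 1)) ≤ 2 * θ := by
  have hr' : (1 : ℝ) ≤ r := by exact_mod_cast hr
  have hce := H.ce0
  have hce1 := H.ce_le_one
  have h1 := H.d_small hr hP
  set ε : ℝ := ce / (16 * ((r : ℝ) + 1) ^ 2) with hεdef
  have hε : (8 * r + 4) * d r ≤ ε := by
    have h2 : (2 : ℝ) ^ K ≤ ((r : ℝ) + 1) ^ K := by gcongr; linarith
    have h3 : 8192 / ce ^ 2 ≤ ((r : ℝ) + 1) ^ K := hK.trans h2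
    have h4 : 64 / ce * ((r : ℝ) + 1) ^ 3 / (r + 1) ^ (K + 6) =
        64 / ce / (((r : ℝ) + 1) ^ 3 * (r + 1) ^ K) := by
      rw [pow_add]
      field_simp
    rw [h4] at h1
    have h5 : 64 / ce / (((r : ℝ) + 1) ^ 3 * (r + 1) ^ K) ≤
        64 / ce / (((r : ℝ) + 1) ^ 3 * (8192 / ce ^ 2)) := by gcongr
    have h6 : d r ≤ ce / (128 * ((r : ℝ) + 1) ^ 3) := by
      refine (h1.trans h5).trans (le_of_eq ?_)
      field_simp
      norm_num
    calc (8 * (r : ℝ) + 4) * d r ≤ (8 * ((r : ℝ) + 1)) * (ce / (128 * ((r : ℝ) + 1) ^ 3)) := by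
          apply mul_le_mul (by linarith) h6 (H.d_nonneg r) (by positivity)
      _ = ε := by
          rw [hεdef]
          field_simp
          norm_num
  have hε2 : ε ≤ 1 / 2 := by
    rw [hεdef, div_le_iff₀ (by positivity)]
    nlinarith
  have h2 := H.θ_ge hε hε2
  have h3 := (H.b_low' (N := 2 * (r + 1)) (by omega)).trans (H.b_le_a _)
  have h4 : ((r : ℝ) + 1) * (3 * ε) ≤ 1 / 2 * (ce / ((2 * (r + 1) : ℕ) : ℝ)) := by
    rw [hεdef]
    have : ((r : ℝ) + 1) * (3 * (ce / (16 * ((r : ℝ) + 1) ^ 2))) = 3 / 8 * (ce / (2 * ((r : ℝ) + 1))) := by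
      field_simp
      norm_num
    rw [this]
    push_cast
    have : 0 ≤ ce / (2 * ((r : ℝ) + 1)) := by positivity
    linarith
  linarith

lemma exists_scale (hCd : 0 < Cd) (hcd : 0 < cd) {A : ℝ} (hA : 1 ≤ A) :
    ∃ C2 > (0 : ℝ), ∀ (ce h θ : ℝ) (a b d : ℕ → ℝ), FinalHyp ce Cd cd h θ a b d →
      ∃ m : ℕ, 1 ≤ m ∧
        A * Real.log ((m ^ 2 : ℕ) + 1) * ∑ k ∈ Finset.range (4 * m ^ 2), a k * b k ≤
          h * (m ^ 2 : ℕ) ∧
        Real.log ((m ^ 2 : ℕ) + 1) ≤ C2 * Real.log (2 + 1 / h) := by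
  set c1 : ℝ := min 1 cd with hc1def
  have hc1 : 0 < c1 := lt_min one_pos hcd
  have hc11 : c1 ≤ 1 := min_le_left _ _
  have hc1d : c1 ≤ cd := min_le_right _ _
  set K2 : ℝ := A * (8 / c1) * (1 + 4 * Cd) with hK2
  have h8 : 8 ≤ 8 / c1 := by rw [le_div_iff₀ hc1]; linarith
  have hK21 : 1 ≤ K2 := by
    rw [hK2]
    have : 1 ≤ A * (8 / c1) := by nlinarith
    nlinarith
  refine ⟨Real.log 8 + 4 / c1 * Real.log K2 + 4 / c1, ?_, ?_⟩
  · have h1 : 0 < Real.log 8 := Real.log_pos (by norm_num)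
    have h2 : 0 ≤ Real.log K2 := Real.log_nonneg hK21
    positivity
  intro ce h θ a b d H
  have hh := H.h0
  have hh1 := H.h1
  have hx1 : 1 ≤ K2 / h := by rw [le_div_iff₀ hh]; linarith
  set X : ℝ := (K2 / h) ^ (2 / c1) with hX
  have hX1 : 1 ≤ X := Real.one_le_rpow hx1 (by positivity)
  have hmX : X ≤ ⌈X⌉₊ := Nat.le_ceil X
  have hmX2 : (⌈X⌉₊ : ℝ) < X + 1 := Nat.ceil_lt_add_one (by linarith)
  set m := ⌈X⌉₊ with hm
  have hm1' : (1 : ℝ) ≤ m := hX1.trans hmX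
  have hm1 : 1 ≤ m := by exact_mod_cast hm1'
  have hm0 : (0 : ℝ) < m := by linarith
  refine ⟨m, hm1, ?_, ?_⟩
  · have hS := H.S_upper2 hm1
    have hS2 : (m : ℝ) + 4 * m ^ 2 * (Cd * (m : ℝ) ^ (-cd)) ≤ (1 + 4 * Cd) * (m ^ 2 * (m : ℝ) ^ (-c1)) := by
      have h1 : (m : ℝ) ^ (-cd) ≤ (m : ℝ) ^ (-c1) :=
        Real.rpow_le_rpow_of_exponent_le hm1' (by linarith)
      have h2 : (m : ℝ) ≤ m ^ 2 * (m : ℝ) ^ (-c1) := by
        have h3 : (m : ℝ) ^ (-1 : ℝ) ≤ (m : ℝ) ^ (-c1) :=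
          Real.rpow_le_rpow_of_exponent_le hm1' (by linarith)
        rw [Real.rpow_neg_one] at h3
        have h4 : (m : ℝ) = m ^ 2 * (m : ℝ)⁻¹ := by field_simp
        calc (m : ℝ) = m ^ 2 * (m : ℝ)⁻¹ := h4
          _ ≤ _ := by gcongr
      have h5 : 4 * (m : ℝ) ^ 2 * (Cd * (m : ℝ) ^ (-cd)) ≤ 4 * (m : ℝ) ^ 2 * (Cd * (m : ℝ) ^ (-c1)) := by
        gcongr
      calc (m : ℝ) + 4 * m ^ 2 * (Cd * (m : ℝ) ^ (-cd))
          ≤ m ^ 2 * (m : ℝ) ^ (-c1) + 4 * (m : ℝ) ^ 2 * (Cd * (m : ℝ) ^ (-c1)) := add_le_add h2 h5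
        _ = _ := by ring
    have hlog : Real.log ((m ^ 2 : ℕ) + 1) ≤ 8 / c1 * (m : ℝ) ^ (c1 / 2) := by
      have h1 := Real.log_le_rpow_div (x := ((m ^ 2 : ℕ) : ℝ) + 1) (by positivity) (show 0 < c1 / 4 by positivity)
      refine h1.trans ?_
      have h2 : (((m ^ 2 : ℕ) : ℝ) + 1) ^ (c1 / 4) ≤ (2 * (m : ℝ) ^ (2 : ℝ)) ^ (c1 / 4) := by
        apply Real.rpow_le_rpow (by positivity) _ (by positivity)
        rw [Real.rpow_two]
        push_cast
        nlinarith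
      have h3 : (2 * (m : ℝ) ^ (2 : ℝ)) ^ (c1 / 4) = 2 ^ (c1 / 4) * (m : ℝ) ^ (c1 / 2) := by
        rw [Real.mul_rpow (by norm_num) (by positivity), ← Real.rpow_mul hm0.le]
        congr 2
        ring
      have h4 : (2 : ℝ) ^ (c1 / 4) ≤ 2 := by
        calc (2 : ℝ) ^ (c1 / 4) ≤ 2 ^ (1 : ℝ) :=
              Real.rpow_le_rpow_of_exponent_le (by norm_num) (by linarith)
          _ = 2 := by norm_num
      rw [h3] at h2
      have h5 : (2 : ℝ) ^ (c1 / 4) * (m : ℝ) ^ (c1 / 2) ≤ 2 * (m : ℝ) ^ (c1 / 2) := by gcongr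
      calc (((m ^ 2 : ℕ) : ℝ) + 1) ^ (c1 / 4) / (c1 / 4)
          ≤ (2 * (m : ℝ) ^ (c1 / 2)) / (c1 / 4) := by
            apply div_le_div_of_nonneg_right (h2.trans h5) (by positivity)
        _ = _ := by field_simp; norm_num
    have hlog0 : 0 ≤ Real.log ((m ^ 2 : ℕ) + 1) := Real.log_nonneg (by
      have : (0 : ℝ) ≤ (m ^ 2 : ℕ) := by positivity
      linarith)
    have hSS := hS.trans hS2
    have hSn : 0 ≤ ∑ k ∈ Finset.range (4 * m ^ 2), a k * b k :=
      Finset.sum_nonneg fun k _ => mul_nonneg (H.a_nonneg k) (H.b_nonneg k)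
    have hmain : A * Real.log ((m ^ 2 : ℕ) + 1) * ∑ k ∈ Finset.range (4 * m ^ 2), a k * b k ≤
        A * (8 / c1 * (m : ℝ) ^ (c1 / 2)) * ((1 + 4 * Cd) * (m ^ 2 * (m : ℝ) ^ (-c1))) := by
      gcongr
    refine hmain.trans ?_
    have h6 : A * (8 / c1 * (m : ℝ) ^ (c1 / 2)) * ((1 + 4 * Cd) * (m ^ 2 * (m : ℝ) ^ (-c1))) =
        K2 * ((m : ℝ) ^ (c1 / 2) * (m : ℝ) ^ (-c1)) * m ^ 2 := by
      rw [hK2]; ring
    rw [h6, ← Real.rpow_add hm0]
    have h7 : c1 / 2 + -c1 = -(c1 / 2) := by ring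
    rw [h7]
    have h9 : K2 / h ≤ (m : ℝ) ^ (c1 / 2) := by
      have : K2 / h = X ^ (c1 / 2) := by
        rw [hX, ← Real.rpow_mul (by positivity)]
        have : 2 / c1 * (c1 / 2) = 1 := by field_simp
        rw [this, Real.rpow_one]
      rw [this]
      exact Real.rpow_le_rpow (by positivity) hmX (by positivity)
    have h10 : K2 * (m : ℝ) ^ (-(c1 / 2)) ≤ h := by
      rw [Real.rpow_neg hm0.le, ← div_eq_mul_inv, div_le_iff₀ (by positivity)]
      rw [div_le_iff₀ hh] at h9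
      linarith
    push_cast
    exact mul_le_mul_of_nonneg_right h10 (by positivity)
  · have hL : 1 ≤ Real.log (2 + 1 / h) := by
      rw [Real.le_log_iff_exp_le (by positivity)]
      have : 4 ≤ 1 / h := by rw [le_div_iff₀ hh]; linarith
      have := Real.exp_one_lt_d9
      linarith
    have h1 : (((m ^ 2 : ℕ) : ℝ) + 1) ≤ 8 * (K2 / h) ^ (4 / c1) := by
      have h2 : (K2 / h) ^ (4 / c1) = X ^ 2 := by
        rw [hX, ← Real.rpow_natCast, ← Real.rpow_mul (by positivity)]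
        congr 1
        push_cast
        ring
      rw [h2]
      push_cast
      nlinarith
    have h2 : Real.log (((m ^ 2 : ℕ) : ℝ) + 1) ≤ Real.log (8 * (K2 / h) ^ (4 / c1)) :=
      Real.log_le_log (by positivity) h1
    rw [Real.log_mul (by norm_num) (by positivity), Real.log_rpow (by positivity),
      Real.log_div (by positivity) (by positivity)] at h2
    have h3 : -Real.log h ≤ Real.log (2 + 1 / h) := by
      rw [← Real.log_inv]
      apply Real.log_le_log (by positivity)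
      rw [one_div]; linarith
    have h4 : 0 ≤ Real.log K2 := Real.log_nonneg hK21
    have h5 : 0 ≤ Real.log 8 := Real.log_nonneg (by norm_num)
    have h6 : 0 < 4 / c1 := by positivity
    calc Real.log (((m ^ 2 : ℕ) : ℝ) + 1) ≤ Real.log 8 + 4 / c1 * (Real.log K2 - Real.log h) := h2
      _ ≤ Real.log 8 + 4 / c1 * (Real.log K2 + Real.log (2 + 1 / h)) := by gcongr; linarith
      _ = (Real.log 8 + 4 / c1 * Real.log K2) * 1 + 4 / c1 * Real.log (2 + 1 / h) := by ring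
      _ ≤ (Real.log 8 + 4 / c1 * Real.log K2) * Real.log (2 + 1 / h) + 4 / c1 * Real.log (2 + 1 / h) := by
          gcongr
      _ = _ := by ring

theorem final_core (hce : 0 < ce) (hCd : 0 < Cd) (hcd : 0 < cd) :
    ∃ c > (0 : ℝ), ∀ (h θ : ℝ) (a b d : ℕ → ℝ), FinalHyp ce Cd cd h θ a b d →
      c * Real.sqrt h / Real.log (2 + 1 / h) ≤ θ := by
  obtain ⟨K, hK⟩ := pow_unbounded_of_one_lt (8192 / ce ^ 2) (one_lt_two : (1 : ℝ) < 2)
  set A : ℝ := 10 * ((K + 6 : ℕ) : ℝ) with hA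
  have hA1 : 1 ≤ A := by
    rw [hA]; push_cast
    have : (0 : ℝ) ≤ K := by positivity
    linarith
  obtain ⟨C2, hC2, hsc⟩ := exists_scale hCd hcd hA1
  refine ⟨min (ce / 12) (ce / (80 * A * C2)), lt_min (by positivity) (by positivity), ?_⟩
  intro h θ a b d H
  have hh := H.h0
  have hh1 := H.h1
  obtain ⟨m, hm1, hm2, hm3⟩ := hsc ce h θ a b d H
  have hex : ∃ r : ℕ, 1 ≤ r ∧
      A * Real.log (r + 1) * ∑ k ∈ Finset.range (4 * r), a k * b k ≤ h * r :=
    ⟨m ^ 2, Nat.one_le_pow _ _ hm1, hm2⟩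
  classical
  obtain ⟨hr1, hr2⟩ := Nat.find_spec hex
  have hrm : Nat.find hex ≤ m ^ 2 := Nat.find_min' hex ⟨Nat.one_le_pow _ _ hm1, hm2⟩
  have hmin : ∀ n, n < Nat.find hex → ¬ (1 ≤ n ∧
      A * Real.log (n + 1) * ∑ k ∈ Finset.range (4 * n), a k * b k ≤ h * n) :=
    fun n hn => Nat.find_min hex hn
  set r := Nat.find hex with hr
  have hθ := H.a_le_two_θ hr1 hK.le hr2
  have hL : 1 ≤ Real.log (2 + 1 / h) := by
    rw [Real.le_log_iff_exp_le (by positivity)]
    have : 4 ≤ 1 / h := by rw [le_div_iff₀ hh]; linarith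
    have := Real.exp_one_lt_d9
    linarith
  set L := Real.log (2 + 1 / h) with hLdef
  have hsq : Real.sqrt h ≤ 1 := Real.sqrt_le_iff.2 ⟨by norm_num, by linarith⟩
  have hsq0 : 0 ≤ Real.sqrt h := Real.sqrt_nonneg h
  have hθ0 : 0 ≤ θ := by
    have := H.a_nonneg (2 * (r + 1))
    linarith
  rw [div_le_iff₀ (by linarith)]
  by_cases hr3 : r ≤ 2
  · have h1 : ce / 6 ≤ 2 * θ := by
      have h2 := (H.b_low' (N := 6) (by norm_num)).trans (H.b_le_a 6)
      have h3 : a 6 ≤ a (2 * (r + 1)) := H.a_anti (by omega)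
      push_cast at h2
      linarith
    calc min (ce / 12) (ce / (80 * A * C2)) * Real.sqrt h ≤ ce / 12 * 1 := by
          apply mul_le_mul (min_le_left _ _) hsq hsq0 (by positivity)
      _ ≤ θ * 1 := by linarith
      _ ≤ θ * L := by gcongr
  · push Not at hr3
    obtain ⟨n, hn⟩ : ∃ n, r = n + 1 := ⟨r - 1, by omega⟩
    have hn2 : 2 ≤ n := by omega
    have h1 := hmin n (by omega)
    push Not at h1
    have h2 := h1 (by omega)
    have h3 := H.S_upper (N := 4 * n) (by omega)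
    have hn' : (2 : ℝ) ≤ n := by exact_mod_cast hn2
    have hlog1 : 0 < Real.log ((n : ℝ) + 1) := Real.log_pos (by linarith)
    have h4 : a (4 * n) ≤ 2 * θ := (H.a_anti (by omega)).trans hθ
    have h5 := H.a_nonneg (4 * n)
    set ℓ := Real.log ((n : ℝ) + 2) with hℓ
    have hℓ1 : 1 ≤ ℓ := by
      rw [hℓ, Real.le_log_iff_exp_le (by linarith)]
      have := Real.exp_one_lt_d9
      linarith
    have hℓ2 : Real.log ((n : ℝ) + 1) ≤ ℓ := Real.log_le_log (by linarith) (by linarith)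
    have hℓ3 : 2 + Real.log ((4 * n : ℕ) : ℝ) ≤ 5 * ℓ := by
      push_cast
      rw [Real.log_mul (by norm_num) (by linarith)]
      have h6 : Real.log 4 ≤ 2 := by
        have : Real.log 4 = 2 * Real.log 2 := by
          rw [show (4 : ℝ) = 2 ^ 2 by norm_num, Real.log_pow]; push_cast; ring
        rw [this]
        have := Real.log_two_lt_d9
        linarith
      have h7 : Real.log (n : ℝ) ≤ ℓ := Real.log_le_log (by linarith) (by linarith)
      linarith
    have hℓ4 : ℓ ≤ C2 * L := by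
      refine le_trans ?_ hm3
      apply Real.log_le_log (by linarith)
      have : n + 1 ≤ m ^ 2 := by omega
      have : ((n : ℝ) + 1) ≤ ((m ^ 2 : ℕ) : ℝ) := by exact_mod_cast this
      linarith
    have h6 : h * n < A * ℓ * ((4 * n : ℕ) * (2 * θ) ^ 2 / ce ^ 2 * (5 * ℓ)) := by
      refine lt_of_lt_of_le h2 ?_
      have hlogn : 0 ≤ 2 + Real.log ((4 * n : ℕ) : ℝ) := by
        have : 0 ≤ Real.log ((4 * n : ℕ) : ℝ) := Real.log_nonneg (by push_cast; linarith)
        linarith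
      have h31 : ∑ k ∈ Finset.range (4 * n), a k * b k ≤
          (4 * n : ℕ) * (2 * θ) ^ 2 / ce ^ 2 * (5 * ℓ) := by
        refine h3.trans ?_
        gcongr
      have h32 : 0 ≤ ∑ k ∈ Finset.range (4 * n), a k * b k :=
        Finset.sum_nonneg fun k _ => mul_nonneg (H.a_nonneg k) (H.b_nonneg k)
      gcongr
    have h7 : h < 80 * A / ce ^ 2 * (ℓ * θ) ^ 2 := by
      have h8 : A * ℓ * ((4 * n : ℕ) * (2 * θ) ^ 2 / ce ^ 2 * (5 * ℓ)) =
          80 * A / ce ^ 2 * (ℓ * θ) ^ 2 * n := by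
        push_cast
        field_simp
        ring
      rw [h8] at h6
      exact lt_of_mul_lt_mul_right h6 (by linarith)
    have h9 : Real.sqrt h ≤ 80 * A / ce * (ℓ * θ) := by
      apply Real.sqrt_le_iff.2 ⟨by positivity, ?_⟩
      refine h7.le.trans ?_
      have h10 : (80 * A / ce * (ℓ * θ)) ^ 2 = (80 * A) * (80 * A / ce ^ 2 * (ℓ * θ) ^ 2) := by
        field_simp
      rw [h10]
      have h11 : 0 ≤ 80 * A / ce ^ 2 * (ℓ * θ) ^ 2 := by positivity
      nlinarith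
    calc min (ce / 12) (ce / (80 * A * C2)) * Real.sqrt h
        ≤ ce / (80 * A * C2) * (80 * A / ce * (ℓ * θ)) := by
          apply mul_le_mul (min_le_right _ _) h9 hsq0 (by positivity)
      _ = ℓ / C2 * θ := by field_simp
      _ ≤ (C2 * L) / C2 * θ := by gcongr
      _ = θ * L := by field_simp

end FinalHyp

end Pool.Agent.H89.Perc
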