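import Pool.Agent.H89.Perc.Symm

/-!
# The Simon-Lieb inequality for one-arm probabilities
-/

open MeasureTheory ProbabilityTheory unitInterval

namespace Pool.Agent.H89.Perc

/-- The vertices of the ball as a finset. -/
private noncomputable def slB (s : ℕ) : Finset Vert :=
  Finset.Icc (-(s : ℤ)) s ×ˢ Finset.Icc (-(s : ℤ)) s

private lemma sl_fst : ((0 : Vert).1) = 0 := rfl
private lemma sl_snd : ((0 : Vert).2) = 0 := rfl

private lemma mem_slB {s : ℕ} {v : Vert} : v ∈ slB s ↔ v ∈ ball 0 s := by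
  simp only [slB, Finset.mem_product, Finset.mem_Icc, mem_ball, sl_fst, sl_snd]
  omega

/-- The cluster of the origin in the ball of radius `s` is `C0`. -/
private def slE (s : ℕ) (C0 : Finset Vert) : Set Config :=
  {ω | ∀ v, Conn ω (ball 0 s) 0 v ↔ v ∈ C0}

/-- One-arm event off the set `C0`. -/
private def slOff (m : ℕ) (w : Vert) (C0 : Finset Vert) : Set Config :=
  {ω | ∃ u ∈ sphere w m, Conn ω (ball w m \ ↑C0) w u}

private noncomputable def slEs (s : ℕ) (C0 : Finset Vert) : Finset Edge :=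
  (eRect ((0 : Vert).1 - s) ((0 : Vert).1 + s) ((0 : Vert).2 - s) ((0 : Vert).2 + s)).filter
    (fun e => src e ∈ C0 ∨ tgt e ∈ C0)

private noncomputable def slOs (m : ℕ) (w : Vert) (C0 : Finset Vert) : Finset Edge :=
  (eRect (w.1 - m) (w.1 + m) (w.2 - m) (w.2 + m)).filter
    (fun e => src e ∉ C0 ∧ tgt e ∉ C0)

private lemma slE_local (s : ℕ) (C0 : Finset Vert) : LocalOn (slEs s C0) (slE s C0) := by
  intro ω ω' hω hE
  have h00 : Conn ω (ball 0 s) 0 0 := Conn.refl self_mem_ball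
  have h0 : (0 : Vert) ∈ C0 := (hE 0).1 h00
  have hedge : ∀ (a b : Vert) (e : Edge), a ∈ ball 0 s → b ∈ ball 0 s → Joins e a b →
      a ∈ C0 → ω e = ω' e := by
    intro a b e ha hb he haC
    apply hω
    rw [slEs, Finset.mem_filter, mem_eRect]
    rcases he with ⟨h1, h2⟩ | ⟨h1, h2⟩
    · subst h1 h2
      exact ⟨ha, Or.inl haC⟩
    · subst h1 h2
      exact ⟨hb, Or.inr haC⟩
  intro v
  constructor
  · intro hv
    refine hv.induction_right (P := fun x => x ∈ C0) h0 ?_
    intro a b _ hab haC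
    obtain ⟨ha, hb, e, he, ho⟩ := hab
    rw [← hE b]
    refine ((hE a).2 haC).tail ⟨ha, hb, e, he, ?_⟩
    rw [hedge a b e ha hb he haC]
    exact ho
  · intro hv
    have hc := (hE v).2 hv
    refine hc.induction_right (P := fun x => Conn ω' (ball 0 s) 0 x)
      (Conn.refl self_mem_ball) ?_
    intro a b h0a hab ha'
    obtain ⟨ha, hb, e, he, ho⟩ := hab
    refine ha'.tail ⟨ha, hb, e, he, ?_⟩
    rw [← hedge a b e ha hb he ((hE a).1 h0a)]
    exact ho

private lemma slOff_local (m : ℕ) (w : Vert) (C0 : Finset Vert) :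
    LocalOn (slOs m w C0) (slOff m w C0) := by
  rintro ω ω' hω ⟨u, hu, hc⟩
  refine ⟨u, hu, hc.congr ?_⟩
  intro e h1 h2
  apply hω
  rw [slOs, Finset.mem_filter, mem_eRect]
  exact ⟨h1.1, by simpa using h1.2, by simpa using h2.2⟩

private lemma sl_disj (s m : ℕ) (w : Vert) (C0 : Finset Vert) :
    Disjoint (slEs s C0) (slOs m w C0) := by
  rw [Finset.disjoint_left]
  intro e h1 h2
  rw [slEs, Finset.mem_filter] at h1
  rw [slOs, Finset.mem_filter] at h2
  rcases h1.2 with h | h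
  · exact h2.2.1 h
  · exact h2.2.2 h

private lemma sl_key (q : I) (s m : ℕ) (w w' : Vert) (hw : w ∈ sphere 0 s) :
    Pr q {ω | Conn ω (ball 0 s) 0 w ∧ ∃ C0 : Finset Vert, ω ∈ slE s C0 ∧ ω ∈ slOff m w' C0}
      ≤ arm q s * arm q m := by
  classical
  set F : Finset (Finset Vert) := (slB s).powerset.filter (fun C0 => w ∈ C0) with hF
  have hsub : {ω | Conn ω (ball 0 s) 0 w ∧ ∃ C0 : Finset Vert, ω ∈ slE s C0 ∧ ω ∈ slOff m w' C0}
      ⊆ ⋃ C0 ∈ F, slE s C0 ∩ slOff m w' C0 := by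
    rintro ω ⟨hcw, C0, hE, hO⟩
    simp only [Set.mem_iUnion]
    refine ⟨C0, ?_, hE, hO⟩
    rw [hF, Finset.mem_filter, Finset.mem_powerset]
    refine ⟨?_, (hE w).1 hcw⟩
    intro v hv
    exact mem_slB.2 ((hE v).2 hv).mem_right
  have h1 : ∑ C0 ∈ F, Pr q (slE s C0) ≤ arm q s := by
    have hd : Set.PairwiseDisjoint (↑F) (fun C0 : Finset Vert => slE s C0) := by
      intro C1 _ C2 _ hne
      rw [Function.onFun, Set.disjoint_left]
      intro ω h1 h2
      apply hne
      ext v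
      rw [← h1 v, ← h2 v]
    have hm : ∀ C0 ∈ F, MeasurableSet (slE s C0) := fun C0 _ => (slE_local s C0).measurableSet
    have := measureReal_biUnion_finset (μ := μ q) hd hm
    unfold Pr
    rw [← this]
    refine measureReal_mono ?_
    intro ω hω
    simp only [Set.mem_iUnion] at hω
    obtain ⟨C0, hC0, hE⟩ := hω
    rw [hF, Finset.mem_filter] at hC0
    exact ⟨w, hw, (hE w).2 hC0.2⟩
  calc Pr q {ω | Conn ω (ball 0 s) 0 w ∧
          ∃ C0 : Finset Vert, ω ∈ slE s C0 ∧ ω ∈ slOff m w' C0}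
      ≤ Pr q (⋃ C0 ∈ F, slE s C0 ∩ slOff m w' C0) := Pr_mono hsub
    _ ≤ ∑ C0 ∈ F, Pr q (slE s C0 ∩ slOff m w' C0) := Pr_biUnion_le F _
    _ ≤ ∑ C0 ∈ F, Pr q (slE s C0) * arm q m := by
        apply Finset.sum_le_sum
        intro C0 _
        rw [Pr_inter_of_disjoint (slE_local s C0) (slOff_local m w' C0) (sl_disj s m w' C0)]
        apply mul_le_mul_of_nonneg_left _ Pr_nonneg
        rw [← Pr_arm w' m]
        refine Pr_mono ?_
        rintro ω ⟨u, hu, hc⟩
        exact ⟨u, hu, hc.mono_set Set.sdiff_subset⟩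
    _ = (∑ C0 ∈ F, Pr q (slE s C0)) * arm q m := by rw [Finset.sum_mul]
    _ ≤ arm q s * arm q m := mul_le_mul_of_nonneg_right h1 arm_nonneg

private def slW (s : ℕ) (i : Fin 4 × ℤ) : Vert :=
  if i.1 = 0 then (s, i.2) else if i.1 = 1 then (-s, i.2) else if i.1 = 2 then (i.2, s)
    else (i.2, -s)

private def slW' (s : ℕ) (i : Fin 4 × ℤ) : Vert :=
  if i.1 = 0 then (s + 1, i.2) else if i.1 = 1 then (-s - 1, i.2) else if i.1 = 2 then
    (i.2, s + 1) else (i.2, -s - 1)

private lemma slW_zero (s : ℕ) (t : ℤ) : slW s (0, t) = ((s : ℤ), t) := rfl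
private lemma slW_one (s : ℕ) (t : ℤ) : slW s (1, t) = (-(s : ℤ), t) := rfl
private lemma slW_two (s : ℕ) (t : ℤ) : slW s (2, t) = (t, (s : ℤ)) := rfl
private lemma slW_three (s : ℕ) (t : ℤ) : slW s (3, t) = (t, -(s : ℤ)) := rfl
private lemma slW'_zero (s : ℕ) (t : ℤ) : slW' s (0, t) = ((s : ℤ) + 1, t) := rfl
private lemma slW'_one (s : ℕ) (t : ℤ) : slW' s (1, t) = (-(s : ℤ) - 1, t) := rfl
private lemma slW'_two (s : ℕ) (t : ℤ) : slW' s (2, t) = (t, (s : ℤ) + 1) := rfl
private lemma slW'_three (s : ℕ) (t : ℤ) : slW' s (3, t) = (t, -(s : ℤ) - 1) := rfl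

private lemma slW_sphere (s : ℕ) (i : Fin 4 × ℤ) (hi : i.2 ∈ Finset.Icc (-(s : ℤ)) s) :
    slW s i ∈ sphere 0 s := by
  rw [Finset.mem_Icc] at hi
  unfold slW
  split_ifs <;>
    refine ⟨?_, ?_⟩ <;> simp only [mem_ball, sl_fst, sl_snd] <;> omega

private lemma sl_incl {s n : ℕ} (h : s < n) {ω : Config} (hω : ω ∈ Arm 0 n) :
    ∃ i ∈ (Finset.univ : Finset (Fin 4)) ×ˢ Finset.Icc (-(s : ℤ)) s,
      Conn ω (ball 0 s) 0 (slW s i) ∧
        ∃ C0 : Finset Vert, ω ∈ slE s C0 ∧ ω ∈ slOff (n - s - 1) (slW' s i) C0 := by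
  classical
  obtain ⟨u, hu, hc⟩ := hω
  obtain ⟨hub, hus⟩ := hu
  have huT : u ∉ {v | Conn ω (ball 0 s) 0 v} := by
    intro hcu
    have := Conn.mem_right hcu
    simp only [mem_ball, sl_fst, sl_snd] at this hub hus
    omega
  obtain ⟨w, w', hwT, _, hstep, hlast⟩ := hc.exists_last (T := {v | Conn ω (ball 0 s) 0 v})
    (Conn.refl self_mem_ball) huT
  have hwb : w ∈ ball 0 s := Conn.mem_right hwT
  have hw'T := hlast.mem_left.2
  have hw'b : w' ∉ ball 0 s := by
    intro hw'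
    exact hw'T (Conn.tail hwT ⟨hwb, hw', hstep.2.2⟩)
  -- the event off the cluster
  have hE : ω ∈ slE s ((slB s).filter (fun v => Conn ω (ball 0 s) 0 v)) := by
    intro v
    rw [Finset.mem_filter]
    constructor
    · intro hv
      exact ⟨mem_slB.2 hv.mem_right, hv⟩
    · intro hv
      exact hv.2
  have hcases := hstep.cases
  have hO : ω ∈ slOff (n - s - 1) w' ((slB s).filter (fun v => Conn ω (ball 0 s) 0 v)) := by
    obtain ⟨x, hx, hcx⟩ := hlast.to_sphere (v := w') (r := n - s - 1) self_mem_ball (by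
      by_cases hu' : u ∈ ball w' (n - s - 1)
      · right
        refine ⟨hu', ?_⟩
        simp only [mem_ball, sl_fst, sl_snd] at hu' hwb hw'b hub hus
        omega
      · exact Or.inl hu')
    refine ⟨x, hx, hcx.mono_set ?_⟩
    rintro v ⟨⟨_, hv1⟩, hv2⟩
    refine ⟨hv2, ?_⟩
    intro hv3
    rw [Finset.mem_coe, Finset.mem_filter] at hv3
    exact hv1 hv3.2
  simp only [mem_ball, sl_fst, sl_snd] at hwb hw'b
  obtain ⟨w1, w2⟩ := w
  obtain ⟨v1, v2⟩ := w'
  simp only at hwb hw'b hcases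
  rcases hcases with ⟨h1, h2 | h2⟩ | ⟨h1, h2 | h2⟩
  · refine ⟨(2, w1), ?_, ?_, _, hE, ?_⟩
    · simp only [Finset.mem_product, Finset.mem_univ, true_and, Finset.mem_Icc]; omega
    · have : slW s (2, w1) = (w1, w2) := by
        rw [slW_two, Prod.mk.injEq]; omega
      rw [this]; exact hwT
    · have : slW' s (2, w1) = (v1, v2) := by
        rw [slW'_two, Prod.mk.injEq]; omega
      rw [this]; exact hO
  · refine ⟨(3, w1), ?_, ?_, _, hE, ?_⟩
    · simp only [Finset.mem_product, Finset.mem_univ, true_and, Finset.mem_Icc]; omega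
    · have : slW s (3, w1) = (w1, w2) := by
        rw [slW_three, Prod.mk.injEq]; omega
      rw [this]; exact hwT
    · have : slW' s (3, w1) = (v1, v2) := by
        rw [slW'_three, Prod.mk.injEq]; omega
      rw [this]; exact hO
  · refine ⟨(0, w2), ?_, ?_, _, hE, ?_⟩
    · simp only [Finset.mem_product, Finset.mem_univ, true_and, Finset.mem_Icc]; omega
    · have : slW s (0, w2) = (w1, w2) := by
        rw [slW_zero, Prod.mk.injEq]; omega
      rw [this]; exact hwT
    · have : slW' s (0, w2) = (v1, v2) := by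
        rw [slW'_zero, Prod.mk.injEq]; omega
      rw [this]; exact hO
  · refine ⟨(1, w2), ?_, ?_, _, hE, ?_⟩
    · simp only [Finset.mem_product, Finset.mem_univ, true_and, Finset.mem_Icc]; omega
    · have : slW s (1, w2) = (w1, w2) := by
        rw [slW_one, Prod.mk.injEq]; omega
      rw [this]; exact hwT
    · have : slW' s (1, w2) = (v1, v2) := by
        rw [slW'_one, Prod.mk.injEq]; omega
      rw [this]; exact hO

theorem simon_lieb (q : I) {s n : ℕ} (h : s < n) :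
    arm q n ≤ (8 * s + 4) * arm q s * arm q (n - s - 1) := by
  set F : Finset (Fin 4 × ℤ) := (Finset.univ : Finset (Fin 4)) ×ˢ Finset.Icc (-(s : ℤ)) s with hF
  have hcard : (F.card : ℝ) = 8 * s + 4 := by
    rw [hF, Finset.card_product, Int.card_Icc]
    have : ((s : ℤ) + 1 - -(s : ℤ)).toNat = 2 * s + 1 := by omega
    rw [this]
    simp
    ring
  calc arm q n = Pr q (Arm 0 n) := rfl
    _ ≤ Pr q (⋃ i ∈ F, {ω | Conn ω (ball 0 s) 0 (slW s i) ∧
        ∃ C0 : Finset Vert, ω ∈ slE s C0 ∧ ω ∈ slOff (n - s - 1) (slW' s i) C0}) := by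
        refine Pr_mono ?_
        intro ω hω
        obtain ⟨i, hi, h1⟩ := sl_incl h hω
        simp only [Set.mem_iUnion]
        exact ⟨i, hi, h1⟩
    _ ≤ ∑ i ∈ F, Pr q {ω | Conn ω (ball 0 s) 0 (slW s i) ∧
        ∃ C0 : Finset Vert, ω ∈ slE s C0 ∧ ω ∈ slOff (n - s - 1) (slW' s i) C0} :=
        Pr_biUnion_le F _
    _ ≤ ∑ _i ∈ F, arm q s * arm q (n - s - 1) := by
        apply Finset.sum_le_sum
        intro i hi
        apply sl_key
        apply slW_sphere
        rw [hF, Finset.mem_product] at hi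
        exact hi.2
    _ = (8 * s + 4) * arm q s * arm q (n - s - 1) := by
        rw [Finset.sum_const, nsmul_eq_mul, hcard]
        ring

end Pool.Agent.H89.Perc
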