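import Pool.Agent.H89.Perc.TorusThreshold
import Pool.Agent.H89.Perc.ArmExt
import Pool.Agent.H89.Perc.Decay
import Pool.Agent.H89.Perc.SimonLieb
import Pool.Agent.H89.Perc.Surround
import Pool.Agent.H89.Perc.ThetaLimit
import Pool.Agent.H89.Perc.FinalAnalysis

/-!
# Lower bound for the percolation probability
-/

open MeasureTheory ProbabilityTheory unitInterval Filter Topology

namespace Pool.Agent.H89.Perc

theorem theta_mono {p q : I} (h : p ≤ q) : theta p ≤ theta q :=
  le_of_tendsto_of_tendsto' (tendsto_arm p) (tendsto_arm q) fun r => arm_mono_param r h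

theorem theta_nonneg (p : I) : 0 ≤ theta p := Pr_nonneg

theorem theta_half : theta half = 0 := by
  obtain ⟨C, c, hC, hc, h⟩ := arm_decay
  refine le_antisymm ?_ (theta_nonneg _)
  have h1 : Tendsto (fun r : ℕ => C * (r : ℝ) ^ (-c)) atTop (𝓝 (C * 0)) :=
    ((tendsto_rpow_neg_atTop hc).comp tendsto_natCast_atTop_atTop).const_mul C
  rw [mul_zero] at h1
  refine le_of_tendsto_of_tendsto (tendsto_arm half) h1 ?_
  filter_upwards [eventually_ge_atTop 1] with r hr
  exact h r hr

theorem theta_of_le_half {p : I} (h : (p : ℝ) ≤ 1 / 2) : theta p = 0 := by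
  refine le_antisymm ?_ (theta_nonneg _)
  rw [← theta_half]
  exact theta_mono h

lemma ArmBox_zero (r : ℕ) : ArmBox 0 0 r = Arm 0 r := by
  ext ω
  constructor
  · rintro ⟨w, hw, u, hu, hc⟩
    have : w = 0 := by
      rw [mem_ball] at hw
      obtain ⟨h1, h2, h3, h4⟩ := hw
      have h0 : ((0 : Vert).1) = 0 := rfl
      have h0' : ((0 : Vert).2) = 0 := rfl
      apply Prod.ext <;> simp only [h0, h0'] at * <;> push_cast at * <;> omega
    subst this
    exact ⟨u, hu, hc⟩
  · rintro ⟨u, hu, hc⟩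
    exact ⟨0, self_mem_ball, u, hu, hc⟩

lemma coe_σ_half : σ half = half := by
  apply Subtype.ext
  rw [unitInterval.coe_symm_eq]
  norm_num [half]

theorem finalHyp : ∃ ce Cd cd : ℝ, 0 < ce ∧ 0 < Cd ∧ 0 < cd ∧ ∀ p : I, (1 / 2 : ℝ) < p →
    (p : ℝ) ≤ 3 / 4 → FinalHyp ce Cd cd ((p : ℝ) - 1 / 2) (theta p) (fun k => arm p k)
      (fun k => arm half k) (fun k => arm (σ p) k) := by
  obtain ⟨c1, hc1, h1⟩ := armBox_lower
  obtain ⟨c2, hc2, h2⟩ := arm_ext
  obtain ⟨Cd, cd, hCd, hcd, h3⟩ := arm_decay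
  refine ⟨min c1 c2, Cd, cd, lt_min hc1 hc2, hCd, hcd, ?_⟩
  intro p hp hp'
  have hhp : half ≤ p := Subtype.coe_le_coe.1 hp.le
  refine
    { ce0 := lt_min hc1 hc2
      Cd0 := hCd
      cd0 := hcd
      h0 := by linarith
      h1 := by linarith
      a_anti := fun i j hij => arm_antitone hij
      a_le_one := fun _ => arm_le_one
      b_nonneg := fun _ => arm_nonneg
      b_le_a := fun r => arm_mono_param r hhp
      d_nonneg := fun _ => arm_nonneg
      d_le_one := fun _ => arm_le_one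
      b_low := ?_
      a_ext := ?_
      b_ext := ?_
      b_dec := h3
      thr := ?_
      sl := fun s n hsn => simon_lieb (σ p) hsn
      sub := fun R M hR hM => arm_sub_le hR hM
      lim := tendsto_arm p }
  · intro r hr
    have := h1 0 r hr (Nat.zero_le r)
    rw [ArmBox_zero] at this
    refine le_trans ?_ this
    have h0 : Real.sqrt (1 / r) = Real.sqrt (((0 : ℕ) + 1) / r) := by norm_num
    rw [← h0]
    exact mul_le_mul_of_nonneg_right (min_le_left _ _) (Real.sqrt_nonneg _)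
  · intro k R hk hkR
    refine le_trans ?_ (h2 p hhp k R hk hkR)
    have : 0 ≤ Real.sqrt (k / R) * arm p k := mul_nonneg (Real.sqrt_nonneg _) arm_nonneg
    have h4 : min c1 c2 ≤ c2 := min_le_right _ _
    nlinarith
  · intro k R hk hkR
    refine le_trans ?_ (h2 half le_rfl k R hk hkR)
    have : 0 ≤ Real.sqrt (k / R) * arm half k := mul_nonneg (Real.sqrt_nonneg _) arm_nonneg
    have h4 : min c1 c2 ≤ c2 := min_le_right _ _
    nlinarith
  · intro r hr
    exact torus_threshold hr hhp (by linarith)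

/-- Main estimate: `θ(p) ≥ c (p - 1/2)^{1/2} / log (2 + 1 / (p - 1/2))`. -/
theorem theta_lower : ∃ c > (0 : ℝ), ∀ p : I, (1 / 2 : ℝ) < p →
    c * Real.sqrt ((p : ℝ) - 1 / 2) / Real.log (2 + 1 / ((p : ℝ) - 1 / 2)) ≤ theta p := by
  obtain ⟨ce, Cd, cd, hce, hCd, hcd, H⟩ := finalHyp
  obtain ⟨c, hc, h⟩ := FinalHyp.final_core hce hCd hcd
  refine ⟨c / 8, by positivity, ?_⟩
  intro p hp
  set x : ℝ := (p : ℝ) - 1 / 2 with hx
  have hx0 : 0 < x := by rw [hx]; linarith
  have hxh : x ≤ 1 / 2 := by have := p.2.2; rw [hx]; linarith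
  have hL : 1 ≤ Real.log (2 + 1 / x) := by
    rw [Real.le_log_iff_exp_le (by positivity)]
    have : 2 ≤ 1 / x := by rw [le_div_iff₀ hx0]; linarith
    have := Real.exp_one_lt_d9
    linarith
  have hs : 0 ≤ Real.sqrt x := Real.sqrt_nonneg x
  by_cases hp' : (p : ℝ) ≤ 3 / 4
  · have h1 := h _ _ _ _ _ (H p hp hp')
    refine le_trans ?_ h1
    rw [← hx]
    gcongr
    linarith
  · push Not at hp'
    set q : I := ⟨3 / 4, by norm_num, by norm_num⟩ with hq
    have hqv : (q : ℝ) = 3 / 4 := rfl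
    have h1 := h _ _ _ _ _ (H q (by rw [hqv]; norm_num) hqv.le)
    have h2 : theta q ≤ theta p := theta_mono (Subtype.coe_le_coe.1 (by rw [hqv]; exact hp'.le))
    refine le_trans ?_ (h1.trans h2)
    rw [hqv]
    have h3 : Real.sqrt (3 / 4 - 1 / 2) = 1 / 2 := by
      rw [show (3 / 4 - 1 / 2 : ℝ) = (1 / 2) ^ 2 by norm_num]
      exact Real.sqrt_sq (by norm_num)
    have h4 : Real.log (2 + 1 / (3 / 4 - 1 / 2)) ≤ 2 := by
      rw [Real.log_le_iff_le_exp (by norm_num)]
      have := Real.add_one_le_exp (1 : ℝ)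
      have h5 : Real.exp 2 = Real.exp 1 * Real.exp 1 := by
        rw [← Real.exp_add]; norm_num
      rw [h5]
      have := Real.exp_one_gt_d9
      norm_num
      nlinarith
    have h5 : 0 < Real.log (2 + 1 / (3 / 4 - 1 / 2)) := Real.log_pos (by norm_num)
    rw [h3]
    have h6 : Real.sqrt x ≤ 1 := Real.sqrt_le_iff.2 ⟨by norm_num, by linarith⟩
    calc c / 8 * Real.sqrt x / Real.log (2 + 1 / x) ≤ c / 8 * 1 / 1 := by gcongr
      _ ≤ c * (1 / 2) / 2 := by linarith
      _ ≤ c * (1 / 2) / Real.log (2 + 1 / (3 / 4 - 1 / 2)) := by gcongr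

end Pool.Agent.H89.Perc
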