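import Pool.Agent.H89.Perc.Prob

/-!
# The O'Donnell-Saks-Schramm-Servedio inequality for exploration algorithms
-/

open MeasureTheory ProbabilityTheory unitInterval

namespace Pool.Agent.H89.Perc

/-- An exploration rule: given the set of queried open edges and the set of queried closed edges it
says which edge to query next (or stops). -/
abbrev Rule := Finset Edge → Finset Edge → Option Edge

/-- One step of the exploration of `ω`. -/
def explStep (N : Rule) (ω : Config) (x : Finset Edge × Finset Edge) : Finset Edge × Finset Edge :=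
  match N x.1 x.2 with
  | none => x
  | some e => if ω e then (insert e x.1, x.2) else (x.1, insert e x.2)

/-- State of the exploration after `n` steps. -/
def expl (N : Rule) (ω : Config) (n : ℕ) : Finset Edge × Finset Edge :=
  (explStep N ω)^[n] (∅, ∅)

/-- The set of edges queried during the first `n` steps. -/
def queried (N : Rule) (ω : Config) (n : ℕ) : Finset Edge :=
  (expl N ω n).1 ∪ (expl N ω n).2

variable {s : Finset Edge} {A : Set Config} {p : I}

open Pool.Agent.Perc (Ex ind ind_of ind_of_not DD)

/-- The queried edges when the exploration starts from a given state. -/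
def qFrom (N : Rule) (ω : Config) (n : ℕ) (x : Finset Edge × Finset Edge) : Finset Edge :=
  ((explStep N ω)^[n] x).1 ∪ ((explStep N ω)^[n] x).2

lemma explStep_subset (N : Rule) (ω : Config) (x : Finset Edge × Finset Edge) :
    x.1 ⊆ (explStep N ω x).1 ∧ x.2 ⊆ (explStep N ω x).2 := by
  unfold explStep
  split
  · exact ⟨le_rfl, le_rfl⟩
  · split_ifs
    · exact ⟨Finset.subset_insert _ _, le_rfl⟩
    · exact ⟨le_rfl, Finset.subset_insert _ _⟩

lemma iterate_subset (N : Rule) (ω : Config) (n : ℕ) (x : Finset Edge × Finset Edge) :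
    x.1 ⊆ ((explStep N ω)^[n] x).1 ∧ x.2 ⊆ ((explStep N ω)^[n] x).2 := by
  induction n generalizing x with
  | zero => exact ⟨le_rfl, le_rfl⟩
  | succ n ih =>
    rw [Function.iterate_succ_apply]
    exact ⟨(explStep_subset N ω x).1.trans (ih _).1, (explStep_subset N ω x).2.trans (ih _).2⟩

lemma qFrom_succ (N : Rule) (ω : Config) (n : ℕ) (x : Finset Edge × Finset Edge) :
    qFrom N ω (n + 1) x = qFrom N ω n (explStep N ω x) := by
  unfold qFrom
  rw [Function.iterate_succ_apply]

lemma explStep_some_true {N : Rule} {ω : Config} {x : Finset Edge × Finset Edge} {e : Edge}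
    (h : N x.1 x.2 = some e) (ho : ω e = true) : explStep N ω x = (insert e x.1, x.2) := by
  unfold explStep
  rw [h]
  simp [ho]

lemma explStep_some_false {N : Rule} {ω : Config} {x : Finset Edge × Finset Edge} {e : Edge}
    (h : N x.1 x.2 = some e) (ho : ω e = false) : explStep N ω x = (x.1, insert e x.2) := by
  unfold explStep
  rw [h]
  simp [ho]

lemma explStep_none {N : Rule} {ω : Config} {x : Finset Edge × Finset Edge}
    (h : N x.1 x.2 = none) : explStep N ω x = x := by
  unfold explStep
  rw [h]

lemma qFrom_none {N : Rule} {ω : Config} {x : Finset Edge × Finset Edge}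
    (h : N x.1 x.2 = none) (n : ℕ) : qFrom N ω n x = x.1 ∪ x.2 := by
  induction n with
  | zero => rfl
  | succ n ih => rw [qFrom_succ, explStep_none h, ih]

/-- The covariance inequality behind OSSS, by induction on the number of steps. -/
theorem osss_cov (hp0 : 0 ≤ (p : ℝ)) (hp1 : (p : ℝ) ≤ 1) {N : Rule}
    (hN : ∀ O C e, N O C = some e → e ∈ s ∧ e ∉ O ∧ e ∉ C) (n : ℕ) :
    ∀ (O C F : Finset Edge), F.card ≤ n → (∀ e ∈ F, e ∉ O ∧ e ∉ C) → s ⊆ O ∪ C ∪ F →
    ∀ f g : Finset Edge → ℝ, (∀ S, S ⊆ F → 0 ≤ f S ∧ f S ≤ 1) →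
    (∀ S S', S ⊆ F → S' ⊆ F →
      (∀ e ∈ qFrom N (ofS (O ∪ S)) n (O, C), e ∈ F → (e ∈ S ↔ e ∈ S')) → f S = f S') →
    |Ex (p : ℝ) F (fun S => f S * g S) - Ex (p : ℝ) F f * Ex (p : ℝ) F g| ≤
      ∑ e ∈ F, Ex (p : ℝ) F (ind fun S => e ∈ qFrom N (ofS (O ∪ S)) n (O, C)) *
        ((p : ℝ) * (1 - p)) * Ex (p : ℝ) F (fun S => |DD e g S|) := by
  have hq0 : 0 ≤ 1 - (p : ℝ) := by linarith
  have hpq : 0 ≤ (p : ℝ) * (1 - p) := mul_nonneg hp0 hq0
  have hRHS : ∀ (F : Finset Edge) (A : Edge → Finset Edge → Prop) (g : Finset Edge → ℝ),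
      0 ≤ ∑ e ∈ F, Ex (p : ℝ) F (ind (A e)) * ((p : ℝ) * (1 - p)) * Ex (p : ℝ) F (fun S => |DD e g S|) := by
    intro F A g
    refine Finset.sum_nonneg fun e _ => mul_nonneg (mul_nonneg ?_ hpq) ?_
    · exact Pool.Agent.Perc.Ex_nonneg hp0 hp1 fun S _ => Pool.Agent.Perc.ind_nonneg _ _
    · exact Pool.Agent.Perc.Ex_nonneg hp0 hp1 fun S _ => abs_nonneg _
  induction n with
  | zero =>
    intro O C F hF _ _ f g _ _
    have : F = ∅ := Finset.card_eq_zero.1 (Nat.le_zero.1 hF)
    subst this
    simp
  | succ n ih =>
    intro O C F hF hFO hs f g hf hdet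
    rcases hNe : N O C with _ | e
    · -- the exploration has stopped: `f` is constant
      have hconst : ∀ S, S ⊆ F → f S = f ∅ := by
        intro S hS
        refine hdet S ∅ hS (Finset.empty_subset _) fun e he heF => ?_
        rw [qFrom_none (x := (O, C)) hNe] at he
        rcases Finset.mem_union.1 he with h | h
        · exact absurd h (hFO e heF).1
        · exact absurd h (hFO e heF).2
      have h1 : Ex (p : ℝ) F (fun S => f S * g S) = f ∅ * Ex (p : ℝ) F g := by
        rw [← Pool.Agent.Perc.Ex_const_mul]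
        exact Pool.Agent.Perc.Ex_congr fun S hS => by rw [hconst S hS]
      have h2 : Ex (p : ℝ) F f = f ∅ := by
        rw [Pool.Agent.Perc.Ex_congr hconst, Pool.Agent.Perc.Ex_const]
      rw [h1, h2, sub_self, abs_zero]
      exact hRHS F _ g
    · obtain ⟨hes, heO, heC⟩ := hN O C e hNe
      have heF : e ∈ F := by
        have := hs hes
        simp only [Finset.mem_union] at this
        tauto
      set F' := F.erase e with hF'
      have heF' : e ∉ F' := Finset.notMem_erase e F
      have hcard : F'.card ≤ n := by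
        rw [hF', Finset.card_erase_of_mem heF]; omega
      have hsub : F' ⊆ F := Finset.erase_subset e F
      have hins : ∀ S, S ⊆ F' → insert e S ⊆ F := by
        intro S hS x hx
        rcases Finset.mem_insert.1 hx with rfl | h
        · exact heF
        · exact hsub (hS h)
      -- the two next states
      have hst1 : ∀ S, S ⊆ F' → qFrom N (ofS (O ∪ insert e S)) (n + 1) (O, C) =
          qFrom N (ofS (insert e O ∪ S)) n (insert e O, C) := by
        intro S _
        rw [qFrom_succ, explStep_some_true (x := (O, C)) hNe (by rw [ofS_eq_true]; simp)]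
        congr 2
        ext x; simp only [Finset.mem_union, Finset.mem_insert]; tauto
      have hst0 : ∀ S, S ⊆ F' → qFrom N (ofS (O ∪ S)) (n + 1) (O, C) =
          qFrom N (ofS (O ∪ S)) n (O, insert e C) := by
        intro S hS
        rw [qFrom_succ, explStep_some_false (x := (O, C)) hNe]
        rw [ofS_apply, decide_eq_false_iff_not, Finset.mem_union]
        rintro (h | h)
        · exact heO h
        · exact heF' (hS h)
      set gb : Finset Edge → ℝ := fun S => p * g (insert e S) + (1 - p) * g S with hgb
      set f1 : Finset Edge → ℝ := fun S => f (insert e S) with hf1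
      -- induction hypotheses
      have I1 := ih (insert e O) C F' hcard
        (by
          intro x hx
          have hx' := Finset.mem_erase.1 hx
          refine ⟨?_, (hFO x hx'.2).2⟩
          rw [Finset.mem_insert, not_or]
          exact ⟨hx'.1, (hFO x hx'.2).1⟩)
        (by
          intro x hx
          have := hs hx
          simp only [Finset.mem_union, Finset.mem_insert, hF', Finset.mem_erase] at this ⊢
          tauto)
        f1 gb (fun S hS => hf _ (hins S hS))
        (by
          intro S S' hS hS' h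
          refine hdet _ _ (hins S hS) (hins S' hS') fun x hx hxF => ?_
          rw [hst1 S hS] at hx
          simp only [Finset.mem_insert]
          by_cases hxe : x = e
          · simp [hxe]
          · have := h x hx (Finset.mem_erase.2 ⟨hxe, hxF⟩)
            tauto)
      have I0 := ih O (insert e C) F' hcard
        (by
          intro x hx
          have hx' := Finset.mem_erase.1 hx
          refine ⟨(hFO x hx'.2).1, ?_⟩
          rw [Finset.mem_insert, not_or]
          exact ⟨hx'.1, (hFO x hx'.2).2⟩)
        (by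
          intro x hx
          have := hs hx
          simp only [Finset.mem_union, Finset.mem_insert, hF', Finset.mem_erase] at this ⊢
          tauto)
        f gb (fun S hS => hf _ (hS.trans hsub))
        (by
          intro S S' hS hS' h
          refine hdet _ _ (hS.trans hsub) (hS'.trans hsub) fun x hx hxF => ?_
          rw [hst0 S hS] at hx
          by_cases hxe : x = e
          · subst hxe
            exact ⟨fun h => absurd (hS h) heF', fun h => absurd (hS' h) heF'⟩
          · exact h x hx (Finset.mem_erase.2 ⟨hxe, hxF⟩))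
      -- expansions
      have E1 : Ex (p : ℝ) F' (fun S => f1 S * gb S) =
          p * Ex (p : ℝ) F' (fun S => f1 S * g (insert e S)) +
            (1 - p) * Ex (p : ℝ) F' (fun S => f1 S * g S) := by
        rw [← Pool.Agent.Perc.Ex_const_mul, ← Pool.Agent.Perc.Ex_const_mul, ← Pool.Agent.Perc.Ex_add]
        exact Pool.Agent.Perc.Ex_congr fun S _ => by rw [hgb]; ring
      have E0 : Ex (p : ℝ) F' (fun S => f S * gb S) =
          p * Ex (p : ℝ) F' (fun S => f S * g (insert e S)) +
            (1 - p) * Ex (p : ℝ) F' (fun S => f S * g S) := by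
        rw [← Pool.Agent.Perc.Ex_const_mul, ← Pool.Agent.Perc.Ex_const_mul, ← Pool.Agent.Perc.Ex_add]
        exact Pool.Agent.Perc.Ex_congr fun S _ => by rw [hgb]; ring
      have Eg : Ex (p : ℝ) F' gb =
          p * Ex (p : ℝ) F' (fun S => g (insert e S)) + (1 - p) * Ex (p : ℝ) F' g := by
        rw [← Pool.Agent.Perc.Ex_const_mul, ← Pool.Agent.Perc.Ex_const_mul, ← Pool.Agent.Perc.Ex_add]
      have D1 : Ex (p : ℝ) F (fun S => f S * g S) =
          p * Ex (p : ℝ) F' (fun S => f1 S * g (insert e S)) +
            (1 - p) * Ex (p : ℝ) F' (fun S => f S * g S) := Pool.Agent.Perc.Ex_erase heF _ _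
      have D2 : Ex (p : ℝ) F f = p * Ex (p : ℝ) F' f1 + (1 - p) * Ex (p : ℝ) F' f :=
        Pool.Agent.Perc.Ex_erase heF _ _
      have D3 : Ex (p : ℝ) F g = p * Ex (p : ℝ) F' (fun S => g (insert e S)) +
          (1 - p) * Ex (p : ℝ) F' g := Pool.Agent.Perc.Ex_erase heF _ _
      -- the remainder
      set R : ℝ := Ex (p : ℝ) F' (fun S => (f1 S - f S) * (g (insert e S) - g S)) with hR
      have ER : R = Ex (p : ℝ) F' (fun S => f1 S * g (insert e S)) -
          Ex (p : ℝ) F' (fun S => f1 S * g S) - Ex (p : ℝ) F' (fun S => f S * g (insert e S)) +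
          Ex (p : ℝ) F' (fun S => f S * g S) := by
        rw [← Pool.Agent.Perc.Ex_sub, ← Pool.Agent.Perc.Ex_sub, ← Pool.Agent.Perc.Ex_add, hR]
        exact Pool.Agent.Perc.Ex_congr fun S _ => by ring
      have hRle : |R| ≤ Ex (p : ℝ) F (fun S => |DD e g S|) := by
        have h1 : |R| ≤ Ex (p : ℝ) F' (fun S => |(f1 S - f S) * (g (insert e S) - g S)|) :=
          Pool.Agent.Perc.abs_Ex_le hp0 hp1 _
        have h2 : Ex (p : ℝ) F' (fun S => |(f1 S - f S) * (g (insert e S) - g S)|) ≤
            Ex (p : ℝ) F' (fun S => |g (insert e S) - g S|) := by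
          refine Pool.Agent.Perc.Ex_mono hp0 hp1 fun S hS => ?_
          rw [abs_mul]
          have h3 := hf _ (hins S hS)
          have h4 := hf S (hS.trans hsub)
          have h5 : |f1 S - f S| ≤ 1 := by
            rw [abs_le]
            constructor
            · have : f1 S = f (insert e S) := rfl
              rw [this]; linarith [h3.1, h4.2]
            · have : f1 S = f (insert e S) := rfl
              rw [this]; linarith [h3.2, h4.1]
          calc |f1 S - f S| * |g (insert e S) - g S| ≤ 1 * |g (insert e S) - g S| := by gcongr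
            _ = _ := one_mul _
        have h3 : Ex (p : ℝ) F (fun S => |DD e g S|) = Ex (p : ℝ) F' (fun S => |g (insert e S) - g S|) := by
          rw [Pool.Agent.Perc.Ex_erase heF]
          simp only [Pool.Agent.Perc.DD_insert_self]
          rw [← add_mul, add_sub_cancel, one_mul]
          refine Pool.Agent.Perc.Ex_congr fun S hS => ?_
          rw [Pool.Agent.Perc.DD_of_notMem fun h => heF' (hS h)]
        rw [h3]
        exact h1.trans h2
      -- the covariance
      have hcov : Ex (p : ℝ) F (fun S => f S * g S) - Ex (p : ℝ) F f * Ex (p : ℝ) F g =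
          p * (Ex (p : ℝ) F' (fun S => f1 S * gb S) - Ex (p : ℝ) F' f1 * Ex (p : ℝ) F' gb) +
          (1 - p) * (Ex (p : ℝ) F' (fun S => f S * gb S) - Ex (p : ℝ) F' f * Ex (p : ℝ) F' gb) +
          (p : ℝ) * (1 - p) * R := by
        rw [D1, D2, D3, E1, E0, Eg, ER]
        ring
      have habs : |Ex (p : ℝ) F (fun S => f S * g S) - Ex (p : ℝ) F f * Ex (p : ℝ) F g| ≤
          p * |Ex (p : ℝ) F' (fun S => f1 S * gb S) - Ex (p : ℝ) F' f1 * Ex (p : ℝ) F' gb| +
          (1 - p) * |Ex (p : ℝ) F' (fun S => f S * gb S) - Ex (p : ℝ) F' f * Ex (p : ℝ) F' gb| +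
          (p : ℝ) * (1 - p) * |R| := by
        rw [hcov]
        refine (abs_add_le _ _).trans (add_le_add ((abs_add_le _ _).trans (add_le_add ?_ ?_)) ?_)
        · rw [abs_mul, abs_of_nonneg hp0]
        · rw [abs_mul, abs_of_nonneg hq0]
        · rw [abs_mul, abs_of_nonneg hpq]
      refine habs.trans ?_
      -- influences of the averaged function
      have hK : ∀ x ∈ F', Ex (p : ℝ) F' (fun S => |DD x gb S|) ≤ Ex (p : ℝ) F (fun S => |DD x g S|) := by
        intro x hx
        have hxe : x ≠ e := (Finset.mem_erase.1 hx).1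
        rw [Pool.Agent.Perc.Ex_erase heF]
        rw [← Pool.Agent.Perc.Ex_const_mul, ← Pool.Agent.Perc.Ex_const_mul, ← Pool.Agent.Perc.Ex_add]
        refine Pool.Agent.Perc.Ex_mono hp0 hp1 fun S hS => ?_
        have h1 : DD x gb S = p * DD x g (insert e S) + (1 - p) * DD x g S := by
          unfold DD
          rw [Finset.erase_insert_of_ne (Ne.symm hxe), Finset.insert_comm x e S, hgb]
          ring
        rw [h1]
        refine (abs_add_le _ _).trans (add_le_add ?_ ?_)
        · rw [abs_mul, abs_of_nonneg hp0]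
        · rw [abs_mul, abs_of_nonneg hq0]
      -- probabilities of being queried
      have hQ : ∀ x, Ex (p : ℝ) F (ind fun S => x ∈ qFrom N (ofS (O ∪ S)) (n + 1) (O, C)) =
          p * Ex (p : ℝ) F' (ind fun S => x ∈ qFrom N (ofS (insert e O ∪ S)) n (insert e O, C)) +
          (1 - p) * Ex (p : ℝ) F' (ind fun S => x ∈ qFrom N (ofS (O ∪ S)) n (O, insert e C)) := by
        intro x
        rw [Pool.Agent.Perc.Ex_erase heF]
        congr 2
        · refine Pool.Agent.Perc.Ex_congr fun S hS => ?_
          refine Pool.Agent.Perc.ind_congr ?_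
          rw [hst1 S hS]
        · refine Pool.Agent.Perc.Ex_congr fun S hS => ?_
          refine Pool.Agent.Perc.ind_congr ?_
          rw [hst0 S hS]
      have hQe : Ex (p : ℝ) F (ind fun S => e ∈ qFrom N (ofS (O ∪ S)) (n + 1) (O, C)) = 1 := by
        have : ∀ S, S ⊆ F → ind (fun S => e ∈ qFrom N (ofS (O ∪ S)) (n + 1) (O, C)) S = 1 := by
          intro S _
          refine Pool.Agent.Perc.ind_of (A := fun S => e ∈ qFrom N (ofS (O ∪ S)) (n + 1) (O, C)) ?_
          rw [qFrom_succ]
          unfold qFrom
          rw [Finset.mem_union]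
          rcases ho : ofS (O ∪ S) e with _ | _
          · rw [explStep_some_false (x := (O, C)) hNe ho]
            exact Or.inr ((iterate_subset N _ n _).2 (Finset.mem_insert_self _ _))
          · rw [explStep_some_true (x := (O, C)) hNe ho]
            exact Or.inl ((iterate_subset N _ n _).1 (Finset.mem_insert_self _ _))
        rw [Pool.Agent.Perc.Ex_congr this, Pool.Agent.Perc.Ex_const]
      have hsum : ∑ x ∈ F, Ex (p : ℝ) F (ind fun S => x ∈ qFrom N (ofS (O ∪ S)) (n + 1) (O, C)) *
            ((p : ℝ) * (1 - p)) * Ex (p : ℝ) F (fun S => |DD x g S|) =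
          ((p : ℝ) * (1 - p)) * Ex (p : ℝ) F (fun S => |DD e g S|) +
          ∑ x ∈ F', Ex (p : ℝ) F (ind fun S => x ∈ qFrom N (ofS (O ∪ S)) (n + 1) (O, C)) *
            ((p : ℝ) * (1 - p)) * Ex (p : ℝ) F (fun S => |DD x g S|) := by
        rw [← Finset.add_sum_erase F _ heF, hQe, one_mul]
      rw [hsum]
      have hpart : p * |Ex (p : ℝ) F' (fun S => f1 S * gb S) - Ex (p : ℝ) F' f1 * Ex (p : ℝ) F' gb| +
          (1 - p) * |Ex (p : ℝ) F' (fun S => f S * gb S) - Ex (p : ℝ) F' f * Ex (p : ℝ) F' gb| ≤
          ∑ x ∈ F', Ex (p : ℝ) F (ind fun S => x ∈ qFrom N (ofS (O ∪ S)) (n + 1) (O, C)) *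
            ((p : ℝ) * (1 - p)) * Ex (p : ℝ) F (fun S => |DD x g S|) := by
        refine (add_le_add (mul_le_mul_of_nonneg_left I1 hp0) (mul_le_mul_of_nonneg_left I0 hq0)).trans ?_
        rw [Finset.mul_sum, Finset.mul_sum, ← Finset.sum_add_distrib]
        refine Finset.sum_le_sum fun x hx => ?_
        rw [hQ x]
        have hKx := hK x hx
        set P1 := Ex (p : ℝ) F' (ind fun S => x ∈ qFrom N (ofS (insert e O ∪ S)) n (insert e O, C))
        set P0 := Ex (p : ℝ) F' (ind fun S => x ∈ qFrom N (ofS (O ∪ S)) n (O, insert e C))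
        have hP1 : 0 ≤ P1 := Pool.Agent.Perc.Ex_nonneg hp0 hp1 fun S _ => Pool.Agent.Perc.ind_nonneg _ _
        have hP0 : 0 ≤ P0 := Pool.Agent.Perc.Ex_nonneg hp0 hp1 fun S _ => Pool.Agent.Perc.ind_nonneg _ _
        have h5 : 0 ≤ (p * P1 + (1 - p) * P0) * ((p : ℝ) * (1 - p)) :=
          mul_nonneg (add_nonneg (mul_nonneg hp0 hP1) (mul_nonneg hq0 hP0)) hpq
        have h6 := mul_le_mul_of_nonneg_left hKx h5
        refine le_trans (le_of_eq ?_) h6
        ring
      have hlast := mul_le_mul_of_nonneg_left hRle hpq
      linarith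

lemma explStep_congr {N : Rule} (hN : ∀ O C e, N O C = some e → e ∈ s ∧ e ∉ O ∧ e ∉ C)
    {ω ω' : Config} (h : ∀ e ∈ s, ω e = ω' e) (x : Finset Edge × Finset Edge) :
    explStep N ω x = explStep N ω' x := by
  rcases hNe : N x.1 x.2 with _ | e
  · rw [explStep_none hNe, explStep_none hNe]
  · have he := h e (hN _ _ _ hNe).1
    rcases ho : ω e with _ | _
    · rw [explStep_some_false hNe ho, explStep_some_false hNe (he ▸ ho)]
    · rw [explStep_some_true hNe ho, explStep_some_true hNe (he ▸ ho)]

lemma localOn_queried {N : Rule} (hN : ∀ O C e, N O C = some e → e ∈ s ∧ e ∉ O ∧ e ∉ C)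
    (n : ℕ) (e : Edge) : LocalOn s {ω | e ∈ queried N ω n} := by
  intro ω ω' h hω
  have : explStep N ω = explStep N ω' := funext (explStep_congr hN h)
  simp only [Set.mem_ofPred_eq, queried, expl] at hω ⊢
  rwa [← this]

/-- OSSS inequality for an increasing event determined by an exploration. -/
theorem osss (hA : LocalOn s A) (iA : Incr A) (N : Rule)
    (hN : ∀ O C e, N O C = some e → e ∈ s ∧ e ∉ O ∧ e ∉ C)
    (hdet : ∀ ω ω' : Config, (∀ e ∈ queried N ω s.card, ω e = ω' e) → ω ∈ A → ω' ∈ A) :
    Pr p A * (1 - Pr p A) ≤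
      1 / 2 * ∑ e ∈ s, Pr p {ω | e ∈ queried N ω s.card} * pivot p A e := by
  have hp0 : 0 ≤ (p : ℝ) := p.2.1
  have hp1 : (p : ℝ) ≤ 1 := p.2.2
  have hqs : ∀ S, qFrom N (ofS (∅ ∪ S)) s.card (∅, ∅) = queried N (ofS S) s.card := by
    intro S
    rw [Finset.empty_union]
    rfl
  have hq : ∀ (ω : Config) (n : ℕ), ∀ e ∈ queried N ω n, e ∈ s := by
    intro ω n
    have : ∀ (n : ℕ) (x : Finset Edge × Finset Edge), x.1 ⊆ s → x.2 ⊆ s →
        ((explStep N ω)^[n] x).1 ⊆ s ∧ ((explStep N ω)^[n] x).2 ⊆ s := by
      intro n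
      induction n with
      | zero => intro x h1 h2; exact ⟨h1, h2⟩
      | succ n ih =>
        intro x h1 h2
        rw [Function.iterate_succ_apply]
        apply ih
        · rcases hNe : N x.1 x.2 with _ | e
          · rw [explStep_none hNe]; exact h1
          · rcases ho : ω e with _ | _
            · rw [explStep_some_false hNe ho]; exact h1
            · rw [explStep_some_true hNe ho]
              exact Finset.insert_subset (hN _ _ _ hNe).1 h1
        · rcases hNe : N x.1 x.2 with _ | e
          · rw [explStep_none hNe]; exact h2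
          · rcases ho : ω e with _ | _
            · rw [explStep_some_false hNe ho]
              exact Finset.insert_subset (hN _ _ _ hNe).1 h2
            · rw [explStep_some_true hNe ho]; exact h2
    intro e he
    have h := this n (∅, ∅) (Finset.empty_subset _) (Finset.empty_subset _)
    rcases Finset.mem_union.1 he with h1 | h1
    · exact h.1 h1
    · exact h.2 h1
  have key := osss_cov (s := s) hp0 hp1 hN s.card ∅ ∅ s le_rfl (by simp) (by simp)
    (ind fun S => ofS S ∈ A) (ind fun S => ofS S ∈ A)
    (fun S _ => ⟨Pool.Agent.Perc.ind_nonneg _ _, Pool.Agent.Perc.ind_le_one _ _⟩)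
    (by
      intro S S' _ _ h
      refine Pool.Agent.Perc.ind_congr ?_
      have h1 : ∀ e ∈ queried N (ofS S) s.card, ofS S e = ofS S' e := by
        intro e he
        rw [ofS_apply, ofS_apply, decide_eq_decide]
        exact h e (by rw [hqs]; exact he) (hq _ _ e he)
      constructor
      · exact hdet _ _ h1
      · intro h2
        by_contra h3
        -- the queried sets agree
        have h4 : queried N (ofS S') s.card = queried N (ofS S) s.card := by
          have : ∀ (n : ℕ) (x : Finset Edge × Finset Edge),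
              (∀ e ∈ qFrom N (ofS S) n x, e ∉ x.1 → e ∉ x.2 → ofS S e = ofS S' e) →
              (explStep N (ofS S'))^[n] x = (explStep N (ofS S))^[n] x := by
            intro n
            induction n with
            | zero => intro x _; rfl
            | succ n ih =>
              intro x hx
              rw [Function.iterate_succ_apply, Function.iterate_succ_apply]
              rw [qFrom_succ] at hx
              have hstep : explStep N (ofS S') x = explStep N (ofS S) x := by
                rcases hNe : N x.1 x.2 with _ | e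
                · rw [explStep_none hNe, explStep_none hNe]
                · obtain ⟨_, h5, h6⟩ := hN _ _ _ hNe
                  have hmem : e ∈ qFrom N (ofS S) n (explStep N (ofS S) x) := by
                    unfold qFrom
                    rw [Finset.mem_union]
                    rcases ho : ofS S e with _ | _
                    · rw [explStep_some_false hNe ho]
                      exact Or.inr ((iterate_subset N _ n _).2 (Finset.mem_insert_self _ _))
                    · rw [explStep_some_true hNe ho]
                      exact Or.inl ((iterate_subset N _ n _).1 (Finset.mem_insert_self _ _))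
                  have h7 := hx e hmem h5 h6
                  rcases ho : ofS S e with _ | _
                  · rw [explStep_some_false hNe ho, explStep_some_false hNe (h7 ▸ ho)]
                  · rw [explStep_some_true hNe ho, explStep_some_true hNe (h7 ▸ ho)]
              rw [hstep]
              apply ih
              intro e he h5 h6
              have h7 := explStep_subset N (ofS S) x
              exact hx e he (fun h => h5 (h7.1 h)) (fun h => h6 (h7.2 h))
          unfold queried expl
          rw [this s.card (∅, ∅) (fun e he _ _ => h1 e he)]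
        exact h3 (hdet _ _ (fun e he => (h1 e (h4 ▸ he)).symm) h2))
  have hcov : Ex (p : ℝ) s (fun S => ind (fun S => ofS S ∈ A) S * ind (fun S => ofS S ∈ A) S) -
      Ex (p : ℝ) s (ind fun S => ofS S ∈ A) * Ex (p : ℝ) s (ind fun S => ofS S ∈ A) =
      Pr p A * (1 - Pr p A) := by
    rw [Pr_eq_Ex hA p]
    have : Ex (p : ℝ) s (fun S => ind (fun S => ofS S ∈ A) S * ind (fun S => ofS S ∈ A) S) =
        Ex (p : ℝ) s (ind fun S => ofS S ∈ A) := by
      refine Pool.Agent.Perc.Ex_congr fun S _ => ?_
      rw [← pow_two, Pool.Agent.Perc.ind_sq]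
    rw [this]
    ring
  rw [hcov] at key
  refine (le_abs_self _).trans (key.trans ?_)
  rw [Finset.mul_sum]
  refine Finset.sum_le_sum fun e he => ?_
  have h1 : Ex (p : ℝ) s (ind fun S => e ∈ qFrom N (ofS (∅ ∪ S)) s.card (∅, ∅)) =
      Pr p {ω | e ∈ queried N ω s.card} := by
    rw [Pr_eq_Ex (localOn_queried hN s.card e) p]
    refine Pool.Agent.Perc.Ex_congr fun S _ => ?_
    refine Pool.Agent.Perc.ind_congr ?_
    rw [hqs]
    rfl
  have h2 : Ex (p : ℝ) s (fun S => |DD e (ind fun S => ofS S ∈ A) S|) = pivot p A e := by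
    rw [pivot_eq_Ex hA he]
    refine Pool.Agent.Perc.Ex_congr fun S _ => ?_
    rw [abs_of_nonneg]
    unfold DD
    rw [sub_nonneg]
    refine Pool.Agent.Perc.ind_le_ind ?_
    intro h
    refine iA _ _ (ofS_mono ?_) h
    exact (Finset.erase_subset _ _).trans (Finset.subset_insert _ _)
  rw [h1, h2]
  have h3 : 0 ≤ Pr p {ω | e ∈ queried N ω s.card} := Pr_nonneg
  have h4 : 0 ≤ pivot p A e := by
    rw [← h2]
    exact Pool.Agent.Perc.Ex_nonneg hp0 hp1 fun S _ => abs_nonneg _
  have h5 : (p : ℝ) * (1 - p) ≤ 1 / 2 := by nlinarith [sq_nonneg ((p : ℝ) - 1 / 2)]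
  calc Pr p {ω | e ∈ queried N ω s.card} * ((p : ℝ) * (1 - p)) * pivot p A e
      = ((p : ℝ) * (1 - p)) * (Pr p {ω | e ∈ queried N ω s.card} * pivot p A e) := by ring
    _ ≤ 1 / 2 * (Pr p {ω | e ∈ queried N ω s.card} * pivot p A e) := by
        apply mul_le_mul_of_nonneg_right h5 (mul_nonneg h3 h4)

end Pool.Agent.H89.Perc
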