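import Pool.Agent.H89.Perc.Symm
import Pool.Agent.H89.Perc.Duality

/-!
# The Russo-Seymour-Welsh lemma (version of Bollobas and Riordan)
-/

open MeasureTheory ProbabilityTheory unitInterval

namespace Pool.Agent.H89.Perc

/-- There is an open bottom-top crossing of the square `[0, n]²` which is joined inside
`[0, m] × [0, 2 n]` to the right side of the latter rectangle. -/
def XEvent (m n : ℕ) : Set Config :=
  {ω | ∃ u v w : Vert, u.2 = 0 ∧ v.2 = n ∧ w.1 = m ∧
    Conn ω (rect 0 n 0 n) u v ∧ Conn ω (rect 0 m 0 (2 * n)) u w}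

/-- Image of a path under a map of vertices (local version). -/
theorem Conn.map_mem {ω ω' : Config} {S T : Set Vert} {u v : Vert} (f : Vert → Vert)
    (hf : ∀ w ∈ S, f w ∈ T)
    (hstep : ∀ e a b, a ∈ S → b ∈ S → Joins e a b → ω e = true →
      ∃ e', Joins e' (f a) (f b) ∧ ω' e' = true)
    (h : Conn ω S u v) : Conn ω' T (f u) (f v) := by
  refine ⟨hf u h.1, ?_⟩
  obtain ⟨_, h2⟩ := h
  refine Relation.ReflTransGen.lift f ?_ _ _ h2
  rintro a b ⟨ha, hb, e, he, ho⟩
  exact ⟨hf a ha, hf b hb, hstep e a b ha hb he ho⟩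

/-! ### The exploration from the left side of the square -/

/-- Edges of the square that the exploration may examine. -/
def rkInner (n : ℕ) (e : Edge) : Prop :=
  (e.2.2 = true ∧ 0 ≤ e.1 ∧ e.1 ≤ n ∧ 0 ≤ e.2.1 ∧ e.2.1 ≤ (n : ℤ) - 1) ∨
  (e.2.2 = false ∧ 0 ≤ e.1 ∧ e.1 ≤ (n : ℤ) - 1 ∧ 1 ≤ e.2.1 ∧ e.2.1 ≤ (n : ℤ) - 1)

/-- Boundary conditions: outside the examined edges all horizontal edges are closed and all
vertical edges are open. -/
noncomputable def rkBc (n : ℕ) (ω : Config) : Config := fun e => by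
  classical exact if rkInner n e then ω e else e.2.2

theorem rkBc_inner {n : ℕ} {ω : Config} {e : Edge} (h : rkInner n e) : rkBc n ω e = ω e := by
  unfold rkBc; simp [h]

theorem rkBc_not_inner {n : ℕ} {ω : Config} {e : Edge} (h : ¬ rkInner n e) :
    rkBc n ω e = e.2.2 := by
  unfold rkBc; simp [h]

/-- The faces considered. -/
def rkD (n : ℕ) : Set Vert := rect (-1) n (-1) n

/-- The explored faces. -/
def rkZ (n : ℕ) (ω : Config) : Set Vert := {φ | Conn (dual (rkBc n ω)) (rkD n) (-1, 0) φ}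

theorem mem_rkD {n : ℕ} {φ : Vert} :
    φ ∈ rkD n ↔ -1 ≤ φ.1 ∧ φ.1 ≤ n ∧ -1 ≤ φ.2 ∧ φ.2 ≤ n := Iff.rfl

theorem rkZ_subset (n : ℕ) (ω : Config) : rkZ n ω ⊆ rkD n := fun _ h => Conn.mem_right h

theorem rk_source_mem (n : ℕ) (ω : Config) : ((-1, 0) : Vert) ∈ rkZ n ω :=
  Conn.refl (by rw [mem_rkD]; simp)

theorem rkZ_step {n : ℕ} {ω : Config} {e : Edge} {φ ψ : Vert} (hφ : φ ∈ rkZ n ω) (hψ : ψ ∈ rkD n)
    (he : Joins e φ ψ) (hc : rkBc n ω (crossed e) = false) : ψ ∈ rkZ n ω := by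
  refine Conn.tail hφ ⟨Conn.mem_right hφ, hψ, e, he, ?_⟩
  simp [dual, hc]

/-- Vertical neighbours separated by a non examined edge. -/
theorem rkZ_vert {n : ℕ} {ω : Config} {i j : ℤ} (hi : -1 ≤ i) (hi' : i ≤ n) (hj : -1 ≤ j)
    (hj' : j + 1 ≤ n) (h : ¬ rkInner n (i, j + 1, false)) :
    (i, j) ∈ rkZ n ω ↔ (i, j + 1) ∈ rkZ n ω := by
  have hc : rkBc n ω (crossed (i, j, true)) = false := by
    have : crossed (i, j, true) = (i, j + 1, false) := by simp [crossed]
    rw [this, rkBc_not_inner h]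
  have hJ : Joins (i, j, true) (i, j) (i, j + 1) := Or.inl ⟨rfl, by simp [tgt]⟩
  constructor
  · intro hm
    exact rkZ_step hm (by rw [mem_rkD]; simp only; omega) hJ hc
  · intro hm
    exact rkZ_step hm (by rw [mem_rkD]; simp only; omega) hJ.symm hc

theorem rkZ_left {n : ℕ} {ω : Config} {j : ℤ} (hj : -1 ≤ j) (hj' : j ≤ n) :
    ((-1, j) : Vert) ∈ rkZ n ω := by
  have hno : ∀ y, ¬ rkInner n (-1, y, false) := by
    intro y h
    rcases h with h | h
    · simp at h
    · have := h.2.1; simp at this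
  have key : ∀ k : ℕ, (k : ℤ) ≤ n → ((-1, (k : ℤ)) : Vert) ∈ rkZ n ω := by
    intro k
    induction k with
    | zero => intro _; exact rk_source_mem n ω
    | succ k ih =>
      intro hk
      have h1 := ih (by push_cast at hk; omega)
      have := (rkZ_vert (ω := ω) (i := -1) (j := k) (by omega) (by omega) (by omega)
        (by push_cast at hk; omega) (hno _)).1 h1
      simpa using this
  by_cases h : j = -1
  · subst h
    have h0 := rk_source_mem n ω
    by_cases hn : (0 : ℤ) ≤ n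
    · exact (rkZ_vert (ω := ω) (i := -1) (j := -1) (by omega) (by omega) (by omega)
        (by omega) (hno _)).2 (by simpa using h0)
    · omega
  · have := key j.toNat (by omega)
    rwa [show ((j.toNat : ℕ) : ℤ) = j by omega] at this

theorem rkZ_row0 {n : ℕ} {ω : Config} {i : ℤ} (hi : -1 ≤ i) (hi' : i ≤ n) :
    (i, -1) ∈ rkZ n ω ↔ (i, 0) ∈ rkZ n ω := by
  have := rkZ_vert (n := n) (ω := ω) (i := i) (j := -1) hi hi' (by omega) (by omega)
    (by rintro (h | h)
        · simp at h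
        · have := h.2.2.2.1; simp at this)
  simpa using this

theorem rkZ_rown {n : ℕ} {ω : Config} {i : ℤ} (hn : 1 ≤ n) (hi : -1 ≤ i) (hi' : i ≤ n) :
    (i, (n : ℤ) - 1) ∈ rkZ n ω ↔ (i, (n : ℤ)) ∈ rkZ n ω := by
  have := rkZ_vert (n := n) (ω := ω) (i := i) (j := (n : ℤ) - 1) hi hi' (by omega) (by omega)
    (by rintro (h | h)
        · simp at h
        · have := h.2.2.2.2; simp at this)
  simpa using this

/-- If there is a vertical crossing, the exploration does not reach the right column. -/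
theorem rkZ_right {n : ℕ} {ω : Config} (hn : 1 ≤ n) (hV : VCross ω 0 n 0 n) (j : ℤ) :
    ((n : ℤ), j) ∉ rkZ n ω := by
  intro hj
  have hno := not_vcross_and_dual_hcross (ω := ω) (a := 0) (b := n) (c := 0) (d := n)
    (by exact_mod_cast hn) hV
  apply hno
  obtain ⟨w, w', h1, h2, h3, -⟩ := Conn.exists_exit (T := {φ : Vert | φ.1 < n}) hj
    (by simp only [Set.mem_ofPred_eq]; omega) (by simp)
  set cl : ℤ → ℤ := fun y => max 0 (min y ((n : ℤ) - 1)) with hcl
  have hcl1 : ∀ y, 0 ≤ cl y ∧ cl y ≤ (n : ℤ) - 1 := by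
    intro y; simp only [hcl]; omega
  have hcl2 : ∀ y, 0 ≤ y → y ≤ (n : ℤ) - 1 → cl y = y := by
    intro y _ _; simp only [hcl]; omega
  -- horizontal steps
  have hor : ∀ (e : Edge) (a b : Vert), a ∈ rkD n → b ∈ rkD n → Joins e a b → e.2.2 = false →
      dual (rkBc n ω) e = true →
      dual ω e = true ∧ a.2 = b.2 ∧ 0 ≤ a.2 ∧ a.2 ≤ (n : ℤ) - 1 := by
    rintro ⟨x, y, t⟩ a b ha hb hJ ht ho
    simp only at ht
    subst ht
    have hcr : crossed (x, y, false) = (x + 1, y, true) := by simp [crossed]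
    simp only [dual, hcr, Bool.not_eq_true'] at ho ⊢
    have hin : rkInner n (x + 1, y, true) := by
      by_contra h
      rw [rkBc_not_inner h] at ho
      exact absurd ho (by simp)
    rw [rkBc_inner hin] at ho
    have hy : a.2 = y ∧ b.2 = y := by
      rcases hJ with ⟨h1, h2⟩ | ⟨h1, h2⟩ <;> simp [h1, h2, src, tgt]
    refine ⟨ho, by rw [hy.1, hy.2], ?_⟩
    rcases hin with h | h
    · rw [hy.1]; exact ⟨h.2.2.2.1, h.2.2.2.2⟩
    · simp at h
  -- every explored face is joined to the left column in the original dual configuration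
  have key : ∃ ψ : Vert, ψ.1 = 0 - 1 ∧
      Conn (dual ω) (rect (0 - 1) n 0 ((n : ℤ) - 1)) ψ (w.1, cl w.2) := by
    refine h1.induction_right
      (P := fun φ => ∃ ψ : Vert, ψ.1 = 0 - 1 ∧
        Conn (dual ω) (rect (0 - 1) n 0 ((n : ℤ) - 1)) ψ (φ.1, cl φ.2)) ?_ ?_
    · refine ⟨(-1, cl 0), by simp, Conn.refl ?_⟩
      have := hcl1 0
      simp only [rect, Set.mem_ofPred_eq]
      omega
    · rintro a b hwa ⟨ha, hb, e, hJ, ho⟩ ⟨ψ, hψ, hc⟩
      have haD := ha.1
      have hbD := hb.1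
      have hbT := hb.2
      rw [mem_rkD] at haD hbD
      simp only [Set.mem_ofPred_eq] at hbT
      by_cases hb1 : b.1 = -1
      · refine ⟨(b.1, cl b.2), by simp [hb1], Conn.refl ?_⟩
        have := hcl1 b.2
        simp only [rect, Set.mem_ofPred_eq]
        omega
      refine ⟨ψ, hψ, ?_⟩
      cases ht : e.2.2
      · obtain ⟨h5, h6, h7, h8⟩ := hor e a b ha.1 hb.1 hJ ht ho
        rw [hcl2 a.2 h7 h8] at hc
        rw [← h6, hcl2 a.2 h7 h8]
        refine hc.tail ⟨hc.mem_right, ?_, e, ?_, h5⟩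
        · simp only [rect, Set.mem_ofPred_eq]
          omega
        · have : ((b.1, a.2) : Vert) = b := by rw [h6]
          rw [this]
          exact hJ
      · -- vertical step
        obtain ⟨x, y, t⟩ := e
        simp only at ht
        subst ht
        have hcr : crossed (x, y, true) = (x, y + 1, false) := by simp [crossed]
        simp only [dual, hcr, Bool.not_eq_true'] at ho
        have hab : (a = (x, y) ∧ b = (x, y + 1)) ∨ (a = (x, y + 1) ∧ b = (x, y)) := by
          rcases hJ with ⟨h1, h2⟩ | ⟨h1, h2⟩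
          · left; exact ⟨by simpa [src] using h1, by simpa [tgt] using h2⟩
          · right; exact ⟨by simpa [tgt] using h1, by simpa [src] using h2⟩
        have hbx : b.1 = x := by rcases hab with ⟨h1, h2⟩ | ⟨h1, h2⟩ <;> rw [h2]
        have hby : (a.2 = y ∧ b.2 = y + 1) ∨ (a.2 = y + 1 ∧ b.2 = y) := by
          rcases hab with ⟨h1, h2⟩ | ⟨h1, h2⟩ <;> simp [h1, h2]
        by_cases hin : rkInner n (x, y + 1, false)
        · rw [rkBc_inner hin] at ho
          have hy : 1 ≤ y + 1 ∧ y + 1 ≤ (n : ℤ) - 1 := by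
            rcases hin with h | h
            · simp at h
            · exact ⟨h.2.2.2.1, h.2.2.2.2⟩
          have hS : Step (dual ω) (rect (0 - 1) n 0 ((n : ℤ) - 1)) (x, y) (x, y + 1) := by
            refine ⟨?_, ?_, (x, y, true), Or.inl ⟨rfl, by simp [tgt]⟩, ?_⟩
            · simp only [rect, Set.mem_ofPred_eq]
              omega
            · simp only [rect, Set.mem_ofPred_eq]
              omega
            · simp [dual, hcr, ho]
          have e1 : cl y = y := hcl2 y (by omega) (by omega)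
          have e2 : cl (y + 1) = y + 1 := hcl2 (y + 1) (by omega) (by omega)
          rcases hab with ⟨h1, h2⟩ | ⟨h1, h2⟩
          · rw [h2]; rw [h1] at hc
            simp only [e1, e2] at hc ⊢
            exact hc.tail hS
          · rw [h2]; rw [h1] at hc
            simp only [e1, e2] at hc ⊢
            exact hc.tail hS.symm
        · -- the projected faces coincide
          have hxn : 0 ≤ x ∧ x ≤ (n : ℤ) - 1 := by omega
          have hy : y + 1 ≤ 0 ∨ (n : ℤ) ≤ y + 1 := by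
            by_contra hc'
            push Not at hc'
            refine hin (Or.inr ⟨rfl, hxn.1, hxn.2, ?_, ?_⟩)
            · show (1 : ℤ) ≤ y + 1
              omega
            · show y + 1 ≤ (n : ℤ) - 1
              omega
          have e1 : cl y = cl (y + 1) := by
            simp only [hcl]
            omega
          rcases hab with ⟨h1, h2⟩ | ⟨h1, h2⟩
          · rw [h2]; rw [h1] at hc
            simp only [e1] at hc ⊢
            exact hc
          · rw [h2]; rw [h1] at hc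
            simp only [e1] at hc ⊢
            exact hc
  obtain ⟨ψ, hψ, hc⟩ := key
  obtain ⟨hw, hw', e, hJ, ho⟩ := h2
  have hwT := h1.mem_right.2
  simp only [Set.mem_ofPred_eq, not_lt] at hwT h3
  have hw'D := hw'
  have hwD := hw
  rw [mem_rkD] at hw'D hwD
  have ht : e.2.2 = false := by
    by_contra ht
    rw [Bool.not_eq_false] at ht
    obtain ⟨x, y, t⟩ := e
    simp only at ht
    subst ht
    rcases hJ with ⟨h1, h2⟩ | ⟨h1, h2⟩ <;> rw [h1] at hwT <;> rw [h2] at h3 <;>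
      simp [src, tgt] at hwT h3 <;> omega
  obtain ⟨h5, h6, h7, h8⟩ := hor e w w' hw hw' hJ ht ho
  rw [hcl2 w.2 h7 h8] at hc
  refine ⟨ψ, w', hψ, by omega, hc.tail ⟨hc.mem_right, ?_, e, hJ, h5⟩⟩
  simp only [rect, Set.mem_ofPred_eq]
  omega

theorem isFace_crossed {e : Edge} {φ ψ : Vert} (h : Joins e φ ψ) :
    IsFace φ (crossed e) ∧ IsFace ψ (crossed e) := by
  obtain ⟨x, y, t⟩ := e
  rcases h with ⟨h1, h2⟩ | ⟨h1, h2⟩ <;> subst h1 h2 <;> cases t <;>
    simp [IsFace, crossed, src, tgt]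

/-- The examined edges when the explored set of faces is `Z`. -/
noncomputable def rkExpl (n : ℕ) (Z : Set Vert) : Finset Edge := by
  classical exact (eRect 0 n 0 n).filter (fun e => rkInner n e ∧ ∃ φ ∈ Z, IsFace φ e)

theorem mem_rkExpl {n : ℕ} {Z : Set Vert} {e : Edge} :
    e ∈ rkExpl n Z ↔ rkInner n e ∧ ∃ φ ∈ Z, IsFace φ e := by
  classical
  unfold rkExpl
  rw [Finset.mem_filter]
  constructor
  · exact fun h => h.2
  · intro h
    refine ⟨?_, h⟩
    rw [mem_eRect]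
    simp only [src, rect, Set.mem_ofPred_eq]
    rcases h.1 with h | h <;> omega

/-- The event that the explored set is `Z` depends only on the examined edges. -/
theorem localOn_rkE (n : ℕ) (Z : Set Vert) : LocalOn (rkExpl n Z) {ω | rkZ n ω = Z} := by
  intro ω ω' h hω
  rw [Set.mem_ofPred_eq] at hω ⊢
  have hagree : ∀ (e : Edge) (φ ψ : Vert), φ ∈ Z → Joins e φ ψ →
      rkBc n ω (crossed e) = rkBc n ω' (crossed e) := by
    intro e φ ψ hφ hJ
    by_cases hin : rkInner n (crossed e)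
    · rw [rkBc_inner hin, rkBc_inner hin]
      exact h _ (mem_rkExpl.2 ⟨hin, φ, hφ, (isFace_crossed hJ).1⟩)
    · rw [rkBc_not_inner hin, rkBc_not_inner hin]
  apply Set.Subset.antisymm
  · intro φ hφ
    refine Conn.induction_right (P := fun φ => φ ∈ Z) hφ (by rw [← hω]; exact rk_source_mem n ω) ?_
    rintro a b _ ⟨_, hb, e, hJ, ho⟩ ha
    have : rkBc n ω (crossed e) = false := by
      rw [hagree e a b ha hJ]
      simpa [dual] using ho
    rw [← hω] at ha ⊢
    exact rkZ_step ha hb hJ this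
  · intro φ hφ
    rw [← hω] at hφ
    refine Conn.induction_right (P := fun φ => φ ∈ rkZ n ω') hφ (rk_source_mem n ω') ?_
    rintro a b hca ⟨_, hb, e, hJ, ho⟩ ha
    have haZ : a ∈ Z := by rw [← hω]; exact hca
    have : rkBc n ω' (crossed e) = false := by
      rw [← hagree e a b haZ hJ]
      simpa [dual] using ho
    exact rkZ_step ha hb hJ this

/-- The properties of the explored set used below. -/
structure RkGood (n : ℕ) (Z : Set Vert) : Prop where
  sub : Z ⊆ rkD n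
  conn : ∀ u ∈ Z, ∀ v ∈ Z, Conn allOpen Z u v
  left : ∀ j : ℤ, -1 ≤ j → j ≤ n → ((-1, j) : Vert) ∈ Z
  right : ∀ j : ℤ, ((n : ℤ), j) ∉ Z
  row0 : ∀ i : ℤ, -1 ≤ i → i ≤ n → ((i, -1) ∈ Z ↔ (i, 0) ∈ Z)
  rown : ∀ i : ℤ, -1 ≤ i → i ≤ n → ((i, (n : ℤ) - 1) ∈ Z ↔ (i, (n : ℤ)) ∈ Z)

theorem rkGood_of_vcross {n : ℕ} {ω : Config} (hn : 1 ≤ n) (hV : VCross ω 0 n 0 n) :
    RkGood n (rkZ n ω) where
  sub := rkZ_subset n ω
  conn := by
    have key : ∀ u ∈ rkZ n ω, Conn allOpen (rkZ n ω) (-1, 0) u := by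
      intro u hu
      refine Conn.induction_right (P := fun u => Conn allOpen (rkZ n ω) (-1, 0) u) hu
        (Conn.refl (rk_source_mem n ω)) ?_
      rintro a b hca hs ha
      refine ha.tail ⟨hca, Conn.tail hca hs, ?_⟩
      obtain ⟨_, _, e, hJ, _⟩ := hs
      exact ⟨e, hJ, rfl⟩
    intro u hu v hv
    exact (key u hu).symm.trans (key v hv)
  left := fun j h h' => rkZ_left h h'
  right := rkZ_right hn hV
  row0 := fun i h h' => rkZ_row0 h h'
  rown := fun i h h' => rkZ_rown hn h h'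

/-- The side of the right column. -/
def rkK (n : ℕ) (Z : Set Vert) : Set Vert := comp (rkD n) Z ((n : ℤ), 0)

section good

variable {n : ℕ} {Z : Set Vert}

theorem rkK_sub (n : ℕ) (Z : Set Vert) : rkK n Z ⊆ rkD n \ Z := fun _ h => Conn.mem_right h

theorem rkK_step {e : Edge} {φ ψ : Vert} (hφ : φ ∈ rkK n Z) (hψ : ψ ∈ rkD n) (hψ' : ψ ∉ Z)
    (hJ : Joins e φ ψ) : ψ ∈ rkK n Z :=
  Conn.tail hφ ⟨Conn.mem_right hφ, ⟨hψ, hψ'⟩, e, hJ, rfl⟩

theorem rkK_vert {i j : ℤ} (hi : -1 ≤ i) (hi' : i ≤ n) (hj : -1 ≤ j) (hj' : j + 1 ≤ n)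
    (h : (i, j) ∈ Z ↔ (i, j + 1) ∈ Z) : (i, j) ∈ rkK n Z ↔ (i, j + 1) ∈ rkK n Z := by
  have hJ : Joins (i, j, true) (i, j) (i, j + 1) := Or.inl ⟨rfl, by simp [tgt]⟩
  constructor
  · intro hm
    exact rkK_step hm (by rw [mem_rkD]; simp only; omega)
      (fun h' => (rkK_sub n Z hm).2 (h.2 h')) hJ
  · intro hm
    exact rkK_step hm (by rw [mem_rkD]; simp only; omega)
      (fun h' => (rkK_sub n Z hm).2 (h.1 h')) hJ.symm

theorem RkGood.k_row0 (hZ : RkGood n Z) {i : ℤ} (hi : -1 ≤ i) (hi' : i ≤ n) :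
    (i, -1) ∈ rkK n Z ↔ (i, 0) ∈ rkK n Z := by
  have := rkK_vert (n := n) (Z := Z) (i := i) (j := -1) hi hi' (by omega) (by omega)
    (by simpa using hZ.row0 i hi hi')
  simpa using this

theorem RkGood.k_rown (hn : 1 ≤ n) (hZ : RkGood n Z) {i : ℤ} (hi : -1 ≤ i) (hi' : i ≤ n) :
    (i, (n : ℤ) - 1) ∈ rkK n Z ↔ (i, (n : ℤ)) ∈ rkK n Z := by
  have := rkK_vert (n := n) (Z := Z) (i := i) (j := (n : ℤ) - 1) hi hi' (by omega) (by omega)
    (by simpa using hZ.rown i hi hi')
  simpa using this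

theorem RkGood.k_right (hZ : RkGood n Z) {j : ℤ} (hj : -1 ≤ j) (hj' : j ≤ n) :
    ((n : ℤ), j) ∈ rkK n Z := by
  have h0 : ((n : ℤ), (0 : ℤ)) ∈ rkK n Z :=
    Conn.refl ⟨by rw [mem_rkD]; simp only; omega, hZ.right 0⟩
  have key : ∀ k : ℕ, (k : ℤ) ≤ n → ((n : ℤ), (k : ℤ)) ∈ rkK n Z := by
    intro k
    induction k with
    | zero => intro _; simpa using h0
    | succ k ih =>
      intro hk
      push_cast at hk
      have h1 := ih (by omega)
      have := (rkK_vert (n := n) (Z := Z) (i := n) (j := k) (by omega) (by omega) (by omega)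
        (by omega) (by simp [hZ.right])).1 h1
      simpa using this
  by_cases h : j = -1
  · subst h
    exact (hZ.k_row0 (by omega) le_rfl).2 h0
  · have := key j.toNat (by omega)
    rwa [show ((j.toNat : ℕ) : ℤ) = j by omega] at this

theorem RkGood.k_left (hZ : RkGood n Z) (j : ℤ) : ((-1, j) : Vert) ∉ rkK n Z := by
  intro h
  have h1 := rkK_sub n Z h
  have h2 := h1.1
  rw [mem_rkD] at h2
  exact h1.2 (hZ.left j h2.2.2.1 h2.2.2.2)

/-- Reflected classification of faces: the side of the right column. -/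
def rkKK (n : ℕ) (Z : Set Vert) : Set Vert :=
  {φ | (n : ℤ) < φ.1 ∨ φ ∈ rkK n Z ∨ (φ.1, 2 * (n : ℤ) - 1 - φ.2) ∈ rkK n Z}

theorem rkKK_refl {φ : Vert} : (φ.1, 2 * (n : ℤ) - 1 - φ.2) ∈ rkKK n Z ↔ φ ∈ rkKK n Z := by
  simp only [rkKK, Set.mem_ofPred_eq, sub_sub_cancel, Prod.mk.eta]
  tauto

theorem RkGood.kk_low (hn : 1 ≤ n) (hZ : RkGood n Z) {φ : Vert} (h1 : φ.1 ≤ n)
    (h2 : φ.2 ≤ n) : φ ∈ rkKK n Z ↔ φ ∈ rkK n Z := by
  constructor
  · rintro (h | h | h)
    · omega
    · exact h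
    · have h3 := (rkK_sub n Z h).1
      rw [mem_rkD] at h3
      simp only at h3
      by_cases h4 : φ.2 = n
      · rw [h4, show 2 * (n : ℤ) - 1 - n = (n : ℤ) - 1 by ring, hZ.k_rown hn h3.1 h3.2.1,
          ← h4] at h
        exact h
      · have h5 : φ.2 = (n : ℤ) - 1 := by omega
        rw [h5, show 2 * (n : ℤ) - 1 - ((n : ℤ) - 1) = n by ring, ← hZ.k_rown hn h3.1 h3.2.1,
          ← h5] at h
        exact h
  · intro h; exact Or.inr (Or.inl h)

theorem RkGood.kk_right (hZ : RkGood n Z) {φ : Vert} (h1 : (n : ℤ) ≤ φ.1)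
    (h2 : -1 ≤ φ.2) (h3 : φ.2 ≤ 2 * n) : φ ∈ rkKK n Z := by
  rcases h1.eq_or_lt with h | h
  · by_cases h4 : φ.2 ≤ n
    · right; left
      have := hZ.k_right h2 h4
      rwa [h, Prod.mk.eta] at this
    · right; right
      have := hZ.k_right (j := 2 * (n : ℤ) - 1 - φ.2) (by omega) (by omega)
      show (φ.1, 2 * (n : ℤ) - 1 - φ.2) ∈ rkK n Z
      rw [← h]
      exact this
  · exact Or.inl h

theorem RkGood.kk_left (hZ : RkGood n Z) {φ : Vert} (h1 : φ.1 = -1) : φ ∉ rkKK n Z := by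
  obtain ⟨i, j⟩ := φ
  simp only at h1
  subst h1
  rintro (h | h | h)
  · simp only at h; omega
  · exact hZ.k_left j h
  · exact hZ.k_left _ h

/-- The four faces around a vertex. -/
def Around (φ v : Vert) : Prop := (φ.1 = v.1 - 1 ∨ φ.1 = v.1) ∧ (φ.2 = v.2 - 1 ∨ φ.2 = v.2)

/-- Vertices all of whose faces are on the right side. -/
def rkG (n : ℕ) (Z : Set Vert) : Set Vert := {v | ∀ φ, Around φ v → φ ∈ rkKK n Z}

theorem rkG_refl {v : Vert} : (v.1, 2 * (n : ℤ) - v.2) ∈ rkG n Z ↔ v ∈ rkG n Z := by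
  simp only [rkG, Set.mem_ofPred_eq]
  constructor
  · intro h φ hφ
    rw [← rkKK_refl]
    apply h
    simp only [Around] at hφ ⊢
    omega
  · intro h φ hφ
    rw [← rkKK_refl]
    apply h
    simp only [Around] at hφ ⊢
    omega

theorem isFace_around {φ u v : Vert} {e : Edge} (hJ : Joins e u v) (h : IsFace φ e) :
    Around φ u ∧ Around φ v := by
  obtain ⟨x, y, t⟩ := e
  rcases hJ with ⟨h1, h2⟩ | ⟨h1, h2⟩ <;> subst h1 h2 <;> rcases h with h | h <;> subst h <;>
    cases t <;> simp [Around, src, tgt]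

/-- The boundary vertices. -/
def rkT (n : ℕ) (Z : Set Vert) : Set Vert :=
  {t | t ∈ rect 0 n 0 n ∧ ∃ e, src e ∈ rkD n ∧ tgt e ∈ rkD n ∧
    cutConfig (rkK n Z) e = false ∧ IsFace (t.1 - 1, t.2 - 1) e}

theorem rswkey_cutConfig_false {K : Set Vert} {e : Edge} :
    cutConfig K e = false ↔ ¬ (src e ∈ K ↔ tgt e ∈ K) := by
  classical
  simp [cutConfig]

/-- A vertex of the square with faces of both kinds is a boundary vertex. -/
theorem rkT_of_mixed {v : Vert} (hv : v ∈ rect 0 n 0 n) (h1 : ∃ φ, Around φ v ∧ φ ∈ rkK n Z)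
    (h2 : ∃ φ, Around φ v ∧ φ ∉ rkK n Z) : v ∈ rkT n Z := by
  by_contra hno
  have hv' := hv
  simp only [rect, Set.mem_ofPred_eq] at hv'
  have key : ∀ e : Edge, src e ∈ rkD n → tgt e ∈ rkD n → IsFace (v.1 - 1, v.2 - 1) e →
      (src e ∈ rkK n Z ↔ tgt e ∈ rkK n Z) := by
    intro e ha hb hf
    by_contra hc
    exact hno ⟨hv, e, ha, hb, rswkey_cutConfig_false.2 hc, hf⟩
  have k1 := key (v.1 - 1, v.2 - 1, false) (by rw [mem_rkD]; simp only [src]; omega)
    (by rw [mem_rkD]; simp only [tgt]; simp; omega) (by simp [IsFace, src])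
  have k2 := key (v.1 - 1, v.2 - 1, true) (by rw [mem_rkD]; simp only [src]; omega)
    (by rw [mem_rkD]; simp only [tgt]; simp; omega) (by simp [IsFace, src])
  have k3 := key (v.1 - 1, v.2, false) (by rw [mem_rkD]; simp only [src]; omega)
    (by rw [mem_rkD]; simp only [tgt]; simp; omega) (by simp [IsFace, src])
  simp only [src, tgt, sub_add_cancel, if_true, Bool.false_eq_true, if_false] at k1 k2 k3
  have all : ∀ φ, Around φ v → (φ ∈ rkK n Z ↔ (v.1 - 1, v.2 - 1) ∈ rkK n Z) := by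
    rintro ⟨i, j⟩ ⟨h3 | h3, h4 | h4⟩ <;> simp only at h3 h4 <;> subst h3 h4 <;> tauto
  obtain ⟨φ, hφ, hφ'⟩ := h1
  obtain ⟨ψ, hψ, hψ'⟩ := h2
  exact hψ' ((all ψ hψ).2 ((all φ hφ).1 hφ'))

/-- Connectivity of the boundary (application of `sep`). -/
theorem RkGood.conn_T (hZ : RkGood n Z) {ω : Config} (hω : rkZ n ω = Z) {t t' : Vert}
    (ht : t ∈ rkT n Z) (ht' : t' ∈ rkT n Z) : Conn ω (rect 0 n 0 n) t t' := by
  obtain ⟨hts, e, he1, he2, hec, hef⟩ := ht
  obtain ⟨hts', e', he1', he2', hec', hef'⟩ := ht'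
  have hD : rkK n Z ⊆ rect (-1) n (-1) n := fun _ h => (rkK_sub n Z h).1
  have hsep := sep (a := -1) (b := n) (c := -1) (d := n) (K := rkK n Z) hD
    (comp_connected) (compl_comp_connected hZ.sub (hZ.left 0 (by omega) (by omega)) hZ.conn)
    ⟨he1, he2⟩ ⟨he1', he2'⟩ hec hec' hef hef'
    (by simp only [rect, Set.mem_ofPred_eq] at hts ⊢; omega)
    (by simp only [rect, Set.mem_ofPred_eq] at hts' ⊢; omega)
  have hmap := hsep.map_mem (ω' := ω) (T := rect 0 n 0 n) (fun φ => (φ.1 + 1, φ.2 + 1)) ?_ ?_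
  · simpa using hmap
  · intro w hw
    simp only [rect, Set.mem_ofPred_eq] at hw ⊢
    omega
  · rintro ⟨x, y, b⟩ u v hu hv hJ ho
    refine ⟨(x + 1, y + 1, b), ?_, ?_⟩
    · have := joins_shift (1, 1) hJ
      simpa [shiftE] using this
    · -- the crossed dual edge is a cut edge inside `D`
      have hxy : (x, y) ∈ rect (-1) ((n : ℤ) - 1) (-1) ((n : ℤ) - 1) ∧
          tgt (x, y, b) ∈ rect (-1) ((n : ℤ) - 1) (-1) ((n : ℤ) - 1) := by
        rcases hJ with ⟨h1, h2⟩ | ⟨h1, h2⟩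
        · subst h1 h2; exact ⟨hu, hv⟩
        · subst h1 h2; exact ⟨hv, hu⟩
      have hcut : cutConfig (rkK n Z) (crossed (x, y, b)) = false := by
        simpa [dual] using ho
      have hin : src (crossed (x, y, b)) ∈ rkD n ∧ tgt (crossed (x, y, b)) ∈ rkD n := by
        obtain ⟨h1, h2⟩ := hxy
        simp only [rect, Set.mem_ofPred_eq, tgt] at h1 h2
        cases b <;> simp [crossed, src, tgt, mem_rkD] at h1 h2 ⊢ <;> omega
      -- a cut edge is open in the modified configuration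
      have hopen : rkBc n ω (crossed (crossed (x, y, b))) = true := by
        by_contra hcl
        rw [Bool.not_eq_true] at hcl
        rcases cut_comp hin hcut with ⟨h1, h2⟩ | ⟨h1, h2⟩
        · have h3 : tgt (crossed (x, y, b)) ∈ rkZ n ω :=
            rkZ_step (by rw [hω]; exact h1) hin.2 (joins_src_tgt _) hcl
          rw [hω] at h3
          exact (rkK_sub n Z h2).2 h3
        · have h3 : src (crossed (x, y, b)) ∈ rkZ n ω :=
            rkZ_step (by rw [hω]; exact h1) hin.1 (joins_src_tgt _).symm hcl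
          rw [hω] at h3
          exact (rkK_sub n Z h2).2 h3
      have hcc : crossed (crossed (x, y, b)) = (x + 1, y + 1, b) := by
        cases b <;> simp [crossed]
      rw [hcc] at hopen
      by_cases hi : rkInner n (x + 1, y + 1, b)
      · rwa [rkBc_inner hi] at hopen
      · rw [rkBc_not_inner hi] at hopen
        simp only at hopen
        subst hopen
        exfalso
        apply hi
        left
        obtain ⟨h1, h2⟩ := hxy
        simp only [rect, Set.mem_ofPred_eq, tgt, if_true] at h1 h2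
        exact ⟨rfl, by simp only; omega, by simp only; omega, by simp only; omega,
          by simp only; omega⟩

theorem rk_switch {P : ℤ → Prop} (n : ℕ) (h0 : ¬ P (-1)) (h1 : P n) :
    ∃ i : ℤ, 0 ≤ i ∧ i ≤ n ∧ ¬ P (i - 1) ∧ P i := by
  by_contra hno
  push Not at hno
  have key : ∀ k : ℕ, k ≤ n → ¬ P k := by
    intro k
    induction k with
    | zero =>
      intro _ h
      exact h0 (by by_contra hc; exact hno 0 le_rfl (by omega) (by simpa using hc) (by simpa using h))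
    | succ k ih =>
      intro hk h
      have h2 := ih (by omega)
      exact hno ((k + 1 : ℕ) : ℤ) (by omega) (by exact_mod_cast hk) (by simpa using h2) h
  exact key n le_rfl h1

theorem RkGood.bottom (hn : 1 ≤ n) (hZ : RkGood n Z) : ∃ u ∈ rkT n Z, u.2 = 0 := by
  obtain ⟨i, h1, h2, h3, h4⟩ := rk_switch (P := fun i => ((i, (0 : ℤ)) : Vert) ∈ rkK n Z) n
    (hZ.k_left 0) (hZ.k_right (by omega) (by omega))
  refine ⟨(i, 0), rkT_of_mixed ?_ ⟨(i, 0), ?_, h4⟩ ⟨(i - 1, 0), ?_, h3⟩, rfl⟩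
  · simp only [rect, Set.mem_ofPred_eq]; omega
  · simp [Around]
  · simp [Around]

theorem RkGood.top (hn : 1 ≤ n) (hZ : RkGood n Z) : ∃ v ∈ rkT n Z, v.2 = n := by
  obtain ⟨i, h1, h2, h3, h4⟩ := rk_switch (P := fun i => ((i, (n : ℤ)) : Vert) ∈ rkK n Z) n
    (hZ.k_left n) (hZ.k_right (by omega) (by omega))
  refine ⟨(i, n), rkT_of_mixed ?_ ⟨(i, n), ?_, h4⟩ ⟨(i - 1, n), ?_, h3⟩, rfl⟩
  · simp only [rect, Set.mem_ofPred_eq]; omega
  · simp [Around]
  · simp [Around]

/-- Vertices of the tall rectangle with faces of both kinds. -/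
theorem RkGood.mixed (hn : 1 ≤ n) (hZ : RkGood n Z) {m : ℕ} {v : Vert}
    (hv : v ∈ rect 0 m 0 (2 * n)) (h1 : ∃ φ, Around φ v ∧ φ ∈ rkKK n Z)
    (h2 : ∃ φ, Around φ v ∧ φ ∉ rkKK n Z) :
    v ∈ rkT n Z ∨ (v.1, 2 * (n : ℤ) - v.2) ∈ rkT n Z := by
  -- the lower half
  have low : ∀ v : Vert, v ∈ rect 0 m 0 (2 * n) → v.2 ≤ n → (∃ φ, Around φ v ∧ φ ∈ rkKK n Z) →
      (∃ φ, Around φ v ∧ φ ∉ rkKK n Z) → v ∈ rkT n Z := by
    rintro v hv hv2 ⟨φ, hφ, hφ'⟩ ⟨ψ, hψ, hψ'⟩
    simp only [rect, Set.mem_ofPred_eq] at hv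
    have hψ1 : ψ.1 < n := by
      by_contra hc
      push Not at hc
      refine hψ' (hZ.kk_right hc ?_ ?_) <;> simp only [Around] at hψ <;> omega
    have hvn : v.1 ≤ n := by simp only [Around] at hψ; omega
    refine rkT_of_mixed ?_ ⟨φ, hφ, ?_⟩ ⟨ψ, hψ, ?_⟩
    · simp only [rect, Set.mem_ofPred_eq]; omega
    · refine (hZ.kk_low hn ?_ ?_).1 hφ' <;> simp only [Around] at hφ <;> omega
    · intro hc
      refine hψ' ((hZ.kk_low hn ?_ ?_).2 hc) <;> simp only [Around] at hψ <;> omega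
  by_cases hv2 : v.2 ≤ n
  · exact Or.inl (low v hv hv2 h1 h2)
  · right
    refine low _ ?_ ?_ ?_ ?_
    · simp only [rect, Set.mem_ofPred_eq] at hv ⊢; omega
    · simp only; omega
    · obtain ⟨φ, hφ, hφ'⟩ := h1
      refine ⟨(φ.1, 2 * (n : ℤ) - 1 - φ.2), ?_, rkKK_refl.2 hφ'⟩
      simp only [Around] at hφ ⊢
      omega
    · obtain ⟨φ, hφ, hφ'⟩ := h2
      refine ⟨(φ.1, 2 * (n : ℤ) - 1 - φ.2), ?_, fun h => hφ' (rkKK_refl.1 h)⟩
      simp only [Around] at hφ ⊢
      omega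

/-- The examined edges together with their mirror images. -/
noncomputable def rkB (n : ℕ) (Z : Set Vert) : Finset Edge :=
  rkExpl n Z ∪ (rkExpl n Z).image (reflY (2 * n))

/-- Close the edges of a finite set. -/
def mask (B : Finset Edge) (ω : Config) : Config := fun e => ω e && !decide (e ∈ B)

theorem mask_of_notMem {B : Finset Edge} {ω : Config} {e : Edge} (h : e ∉ B) :
    mask B ω e = ω e := by simp [mask, h]

theorem mask_le {B : Finset Edge} {ω : Config} {e : Edge} (h : mask B ω e = true) :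
    ω e = true := by
  simp only [mask, Bool.and_eq_true] at h
  exact h.1

theorem RkGood.notMem_expl (hn : 1 ≤ n) (hZ : RkGood n Z) {e : Edge} {u v : Vert}
    (hJ : Joins e u v) (hu : u ∈ rkG n Z) : e ∉ rkExpl n Z := by
  intro he
  obtain ⟨-, φ, hφ, hf⟩ := mem_rkExpl.1 he
  have h1 := hu φ (isFace_around hJ hf).1
  have h2 := hZ.sub hφ
  rw [mem_rkD] at h2
  exact (rkK_sub n Z ((hZ.kk_low hn h2.2.1 h2.2.2.2).1 h1)).2 hφ

theorem RkGood.notMem_B (hn : 1 ≤ n) (hZ : RkGood n Z) {e : Edge} {u v : Vert}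
    (hJ : Joins e u v) (hu : u ∈ rkG n Z) : e ∉ rkB n Z := by
  unfold rkB
  rw [Finset.mem_union, not_or]
  refine ⟨hZ.notMem_expl hn hJ hu, ?_⟩
  rw [Finset.mem_image]
  rintro ⟨e', he', rfl⟩
  have h1 := joins_reflY (2 * (n : ℤ)) _ _ _ hJ
  rw [reflY_reflY] at h1
  exact hZ.notMem_expl hn h1 (rkG_refl.2 hu) he'

/-- Main geometric step: a horizontal crossing of the tall rectangle contains a path from the
right side to the boundary vertices or their mirror images that avoids the examined edges. -/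
theorem RkGood.path (hn : 1 ≤ n) (hZ : RkGood n Z) {m : ℕ} (hmn : n ≤ m) {ω : Config}
    (hH : HCross ω 0 m 0 (2 * n)) :
    ∃ w t : Vert, w.1 = m ∧ (t ∈ rkT n Z ∨ (t.1, 2 * (n : ℤ) - t.2) ∈ rkT n Z) ∧
      Conn (mask (rkB n Z) ω) (rect 0 m 0 (2 * n)) w t := by
  obtain ⟨l, w, hl, hw, hc⟩ := hH
  have hwR := hc.mem_right
  have hlR := hc.mem_left
  by_cases hwG : w ∈ rkG n Z
  · have hlG : l ∉ rkG n Z := by
      intro h
      exact hZ.kk_left (φ := (-1, l.2)) rfl (h _ (by simp [Around, hl]))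
    obtain ⟨a, b, h1, h2, h3, -⟩ := hc.symm.exists_exit (T := rkG n Z) hwG hlG
    have haG : a ∈ rkG n Z := h1.mem_right.2
    have hstep : Step (mask (rkB n Z) ω) (rect 0 m 0 (2 * n)) a b := by
      obtain ⟨ha, hb, e, hJ, ho⟩ := h2
      exact ⟨ha, hb, e, hJ, by rw [mask_of_notMem (hZ.notMem_B hn hJ haG)]; exact ho⟩
    refine ⟨w, b, hw, ?_, ?_⟩
    · obtain ⟨ha, hb, e, hJ, ho⟩ := h2
      apply hZ.mixed hn hb
      · refine ⟨src e, ?_, ?_⟩
        · exact (isFace_around hJ (Or.inl rfl)).2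
        · exact haG _ (isFace_around hJ (Or.inl rfl)).1
      · by_contra hno
        push Not at hno
        exact h3 hno
    · have h4 : Conn (mask (rkB n Z) ω) (rect 0 m 0 (2 * n) ∩ rkG n Z) w a := by
        refine Conn.congr ?_ h1
        intro e he _
        rw [mask_of_notMem (hZ.notMem_B hn (joins_src_tgt e) he.2)]
      exact (h4.mono_set Set.inter_subset_left).tail hstep
  · refine ⟨w, w, hw, hZ.mixed hn hwR ?_ ?_, Conn.refl hwR⟩
    · refine ⟨(w.1, w.2), by simp [Around], hZ.kk_right ?_ ?_ ?_⟩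
      · simp only [hw]; exact_mod_cast hmn
      · simp only [rect, Set.mem_ofPred_eq] at hwR ⊢; omega
      · simp only [rect, Set.mem_ofPred_eq] at hwR ⊢; omega
    · by_contra hno
      push Not at hno
      exact hwG hno

end good

/-! ### The probability estimate -/

/-- A path from the right side of the tall rectangle to `T` off the edges of `B`. -/
def rkY (n m : ℕ) (B : Finset Edge) (T : Set Vert) : Set Config :=
  {ω | ∃ w t : Vert, w.1 = m ∧ t ∈ T ∧ Conn (mask B ω) (rect 0 m 0 (2 * n)) w t}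

theorem localOn_rkY (n m : ℕ) (B : Finset Edge) (T : Set Vert) :
    LocalOn (eRect 0 m 0 (2 * n) \ B) (rkY n m B T) := by
  rintro ω ω' h ⟨w, t, hw, ht, hc⟩
  refine ⟨w, t, hw, ht, Conn.congr ?_ hc⟩
  intro e he _
  by_cases heB : e ∈ B
  · simp [mask, heB]
  · rw [mask_of_notMem heB, mask_of_notMem heB]
    exact h e (Finset.mem_sdiff.2 ⟨mem_eRect.2 he, heB⟩)

theorem Pr_rkY_refl {p : I} {n m : ℕ} {B : Finset Edge} (hB : ∀ e, reflY (2 * n) e ∈ B ↔ e ∈ B)
    (T : Set Vert) :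
    Pr p (rkY n m B {t | (t.1, 2 * (n : ℤ) - t.2) ∈ T}) = Pr p (rkY n m B T) := by
  rw [← Pr_comp (localOn_rkY n m B T) (reflY_injective (2 * (n : ℤ))).injOn]
  congr 1
  ext ω
  have hm : mask B (fun e => ω (reflY (2 * n) e)) = fun e => mask B ω (reflY (2 * n) e) := by
    funext e
    simp only [mask, hB]
  have hR : {w : Vert | (w.1, 2 * (n : ℤ) - w.2) ∈ rect 0 m 0 (2 * n)} = rect 0 m 0 (2 * n) := by
    ext w
    simp only [rect, Set.mem_ofPred_eq]
    omega
  simp only [rkY, Set.mem_ofPred_eq, hm, conn_reflY, hR]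
  constructor
  · rintro ⟨w, t, hw, ht, hc⟩
    exact ⟨(w.1, 2 * (n : ℤ) - w.2), (t.1, 2 * (n : ℤ) - t.2), hw, ht, by simpa using hc⟩
  · rintro ⟨w, t, hw, ht, hc⟩
    exact ⟨(w.1, 2 * (n : ℤ) - w.2), (t.1, 2 * (n : ℤ) - t.2), hw, by simpa using ht, hc⟩

theorem rkB_refl {n : ℕ} {Z : Set Vert} (e : Edge) :
    reflY (2 * n) e ∈ rkB n Z ↔ e ∈ rkB n Z := by
  have key : ∀ e, e ∈ rkB n Z → reflY (2 * n) e ∈ rkB n Z := by
    intro e he
    unfold rkB at he ⊢
    rw [Finset.mem_union] at he ⊢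
    rcases he with he | he
    · exact Or.inr (Finset.mem_image_of_mem _ he)
    · obtain ⟨e', he', rfl⟩ := Finset.mem_image.1 he
      rw [reflY_reflY]
      exact Or.inl he'
  constructor
  · intro h
    have := key _ h
    rwa [reflY_reflY] at this
  · exact key e

theorem rsw_key {p : I} {m n : ℕ} (hn : 1 ≤ n) (hmn : n ≤ m) :
    1 / 2 * Pr p {ω | VCross ω 0 n 0 n} * Pr p {ω | HCross ω 0 m 0 (2 * n)} ≤
      Pr p (XEvent m n) := by
  classical
  set DF : Finset Vert := Finset.Icc (-1 : ℤ) n ×ˢ Finset.Icc (-1 : ℤ) n with hDF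
  set good : Finset (Finset Vert) := DF.powerset.filter (fun S => RkGood n (↑S : Set Vert))
    with hgood
  set E : Finset Vert → Set Config := fun S => {ω | rkZ n ω = (↑S : Set Vert)} with hE
  set Y : Finset Vert → Set Config := fun S => rkY n m (rkB n ↑S) (rkT n ↑S) with hY
  have hlE : ∀ S : Finset Vert, LocalOn (rkExpl n (↑S : Set Vert)) (E S) := fun S => localOn_rkE n ↑S
  have hlY : ∀ S : Finset Vert, LocalOn (eRect 0 m 0 (2 * n) \ rkB n (↑S : Set Vert)) (Y S) := fun S => localOn_rkY _ _ _ _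
  have hdisj : ∀ S : Finset Vert, Disjoint (rkExpl n (↑S : Set Vert))
      (eRect 0 m 0 (2 * n) \ rkB n (↑S : Set Vert)) := by
    intro S
    rw [Finset.disjoint_left]
    intro e he he'
    exact (Finset.mem_sdiff.1 he').2 (Finset.mem_union_left _ he)
  -- independence
  have hind : ∀ S : Finset Vert, Pr p (E S ∩ Y S) = Pr p (E S) * Pr p (Y S) := fun S =>
    Pr_inter_of_disjoint (hlE S) (hlY S) (hdisj S)
  -- the lower bound for `Y`
  have hYlow : ∀ S ∈ good, 1 / 2 * Pr p {ω | HCross ω 0 m 0 (2 * n)} ≤ Pr p (Y S) := by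
    intro S hS
    have hZ : RkGood n (↑S : Set Vert) := (Finset.mem_filter.1 hS).2
    have hsub : {ω | HCross ω 0 m 0 (2 * n)} ⊆ Y S ∪
        rkY n m (rkB n ↑S) {t | (t.1, 2 * (n : ℤ) - t.2) ∈ rkT n ↑S} := by
      intro ω hω
      obtain ⟨w, t, hw, ht, hc⟩ := hZ.path hn hmn hω
      rcases ht with ht | ht
      · exact Or.inl ⟨w, t, hw, ht, hc⟩
      · exact Or.inr ⟨w, t, hw, ht, hc⟩
    have h1 := (Pr_mono (p := p) hsub).trans Pr_union_le
    rw [Pr_rkY_refl rkB_refl] at h1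
    linarith
  -- the vertical crossing event
  have hV : Pr p {ω | VCross ω 0 n 0 n} ≤ ∑ S ∈ good, Pr p (E S) := by
    refine (Pr_mono ?_).trans (Pr_biUnion_le good E)
    intro ω hω
    have hg := rkGood_of_vcross hn hω
    have hcoe : (↑(DF.filter (fun φ => φ ∈ rkZ n ω)) : Set Vert) = rkZ n ω := by
      ext φ
      simp only [Finset.coe_filter, Set.mem_ofPred_eq, hDF, Finset.mem_product, Finset.mem_Icc]
      constructor
      · exact fun h => h.2
      · intro h
        have := rkZ_subset n ω h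
        rw [mem_rkD] at this
        exact ⟨⟨⟨this.1, this.2.1⟩, this.2.2.1, this.2.2.2⟩, h⟩
    rw [Set.mem_iUnion₂]
    refine ⟨DF.filter (fun φ => φ ∈ rkZ n ω), ?_, ?_⟩
    · rw [hgood, Finset.mem_filter, Finset.mem_powerset, hcoe]
      exact ⟨Finset.filter_subset _ _, hg⟩
    · simp only [hE, Set.mem_ofPred_eq, hcoe]
  -- the union is contained in the event `X`
  have hX : (⋃ S ∈ good, E S ∩ Y S) ⊆ XEvent m n := by
    intro ω hω
    rw [Set.mem_iUnion₂] at hω
    obtain ⟨S, hS, hωE, hωY⟩ := hω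
    have hZ : RkGood n (↑S : Set Vert) := (Finset.mem_filter.1 hS).2
    obtain ⟨w, t, hw, ht, hc⟩ := hωY
    obtain ⟨u, hu, hu0⟩ := hZ.bottom hn
    obtain ⟨v, hv, hvn⟩ := hZ.top hn
    refine ⟨u, v, w, hu0, hvn, hw, hZ.conn_T hωE hu hv, ?_⟩
    have h1 := hZ.conn_T hωE hu ht
    have h2 : Conn ω (rect 0 m 0 (2 * n)) u t := by
      refine h1.mono_set ?_
      intro x hx
      simp only [rect, Set.mem_ofPred_eq] at hx ⊢
      omega
    exact h2.trans (hc.symm.mono le_rfl fun e he => mask_le he)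
  have hsum : Pr p (⋃ S ∈ good, E S ∩ Y S) = ∑ S ∈ good, Pr p (E S ∩ Y S) := by
    unfold Pr
    refine measureReal_biUnion_finset ?_ ?_ (fun _ _ => measure_ne_top _ _)
    · intro S _ S' _ hne
      rw [Function.onFun, Set.disjoint_left]
      rintro ω ⟨h1, -⟩ ⟨h2, -⟩
      simp only [hE, Set.mem_ofPred_eq] at h1 h2
      exact hne (Finset.coe_injective (h1.symm.trans h2))
    · intro S _
      exact (hlE S).measurableSet.inter (hlY S).measurableSet
  calc 1 / 2 * Pr p {ω | VCross ω 0 n 0 n} * Pr p {ω | HCross ω 0 m 0 (2 * n)}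
      = Pr p {ω | VCross ω 0 n 0 n} * (1 / 2 * Pr p {ω | HCross ω 0 m 0 (2 * n)}) := by ring
    _ ≤ (∑ S ∈ good, Pr p (E S)) * (1 / 2 * Pr p {ω | HCross ω 0 m 0 (2 * n)}) :=
        mul_le_mul_of_nonneg_right hV (mul_nonneg (by norm_num) Pr_nonneg)
    _ = ∑ S ∈ good, Pr p (E S) * (1 / 2 * Pr p {ω | HCross ω 0 m 0 (2 * n)}) := by
        rw [Finset.sum_mul]
    _ ≤ ∑ S ∈ good, Pr p (E S ∩ Y S) := by
        refine Finset.sum_le_sum fun S hS => ?_
        rw [hind S]
        exact mul_le_mul_of_nonneg_left (hYlow S hS) Pr_nonneg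
    _ = Pr p (⋃ S ∈ good, E S ∩ Y S) := hsum.symm
    _ ≤ Pr p (XEvent m n) := Pr_mono hX

end Pool.Agent.H89.Perc
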