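import Pool.Agent.H89.Perc.TorusDefs

/-!
# Queried edges have a primal arm and a dual arm
-/

open MeasureTheory ProbabilityTheory unitInterval

namespace Pool.Agent.H89.Perc

private lemma expl_succ' (R : Rule) (ω : Config) (n : ℕ) :
    expl R ω (n + 1) = explStep R ω (expl R ω n) := by
  simp only [expl, Function.iterate_succ_apply']

private lemma expl_inv (R : Rule) (ω : Config) (n : ℕ) :
    (∀ e ∈ (expl R ω n).1, ω e = true) ∧ (∀ e ∈ (expl R ω n).2, ω e = false) := by
  induction n with
  | zero => simp [expl]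
  | succ n ih =>
    rw [expl_succ']
    unfold explStep
    cases h : R (expl R ω n).1 (expl R ω n).2 with
    | none => simpa using ih
    | some e =>
      by_cases hω : ω e = true
      · simp only [hω, if_true, Finset.mem_insert]
        exact ⟨fun e' he' => he'.elim (fun h => h ▸ hω) (ih.1 e'), ih.2⟩
      · simp only [if_neg hω, Finset.mem_insert]
        exact ⟨ih.1, fun e' he' => he'.elim (fun h => h ▸ by simpa using hω) (ih.2 e')⟩

private lemma exists_step_of_queried (R : Rule) (ω : Config) (n : ℕ) {e : Edge}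
    (he : e ∈ queried R ω n) :
    ∃ m, R (expl R ω m).1 (expl R ω m).2 = some e := by
  induction n with
  | zero => simp [queried, expl] at he
  | succ n ih =>
    by_cases h : e ∈ queried R ω n
    · exact ih h
    refine ⟨n, ?_⟩
    rw [queried, expl_succ'] at he
    unfold explStep at he
    rw [queried] at h
    cases h' : R (expl R ω n).1 (expl R ω n).2 with
    | none => simp only [h'] at he; exact absurd he h
    | some e' =>
      simp only [h'] at he
      by_cases hω : ω e' = true
      · simp only [hω, if_true, Finset.mem_union, Finset.mem_insert] at he h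
        have : e = e' := by tauto
        rw [this]
      · simp only [if_neg hω, Finset.mem_union, Finset.mem_insert] at he h
        have : e = e' := by tauto
        rw [this]

/-- Probability that an edge is queried. -/
theorem torus_reveal {N : ℕ} (hN : 2 ≤ N) (q : I) {e : Edge} (he : e ∈ tEdges N) {k : ℕ}
    (hk : (k : ℤ) + 1 = rho N e.1 e.2.1) :
    Pr q {ω | e ∈ queried (torusRule N) ω (tEdges N).card} ≤ 4 * (arm q k * arm (σ q) k) := by
  -- the second face
  set φ' : Vert := if e.2.2 then (e.1 - 1, e.2.1) else (e.1, e.2.1 - 1) with hφ'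
  have hr := hk
  unfold rho at hr
  have h1 : (k : ℤ) + 1 ≤ e.1 := by omega
  have h2 : (k : ℤ) + 1 ≤ N - 1 - e.1 := by omega
  have h3 : (k : ℤ) + 1 ≤ e.2.1 := by omega
  have h4 : (k : ℤ) + 1 ≤ N - 1 - e.2.1 := by omega
  have hev : ∀ u φ : Vert, Pr q (Arm u k ∩ {ω | dual ω ∈ Arm φ k}) ≤
      arm q k * arm (σ q) k := by
    intro u φ
    refine (fkg_mixed (localOn_arm u k) (localOn_arm φ k).dual' (incr_arm u k)
      (incr_arm φ k).dual_compl).trans ?_
    rw [Pr_arm, Pr_dual_arm]
  have hsub : {ω | e ∈ queried (torusRule N) ω (tEdges N).card} ⊆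
      ((Arm (src e) k ∩ {ω | dual ω ∈ Arm (src e) k}) ∪
        (Arm (src e) k ∩ {ω | dual ω ∈ Arm φ' k})) ∪
      ((Arm (tgt e) k ∩ {ω | dual ω ∈ Arm (src e) k}) ∪
        (Arm (tgt e) k ∩ {ω | dual ω ∈ Arm φ' k})) := by
    intro ω hω
    obtain ⟨m, hm⟩ := exists_step_of_queried _ _ _ hω
    obtain ⟨_, _, _, hc⟩ := torusRule_spec hm
    obtain ⟨hO, hC⟩ := expl_inv (torusRule N) ω m
    have hnb : ¬ IsBd e := by
      rintro (⟨_, h⟩ | ⟨_, h⟩) <;> omega
    obtain ⟨hV, φ, hφ, hφr⟩ := hc.resolve_left hnb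
    have hArm : ∀ u : Vert, u ∈ reachV N (expl (torusRule N) ω m).1 →
        (k : ℤ) ≤ u.1 → (k : ℤ) ≤ N - u.1 → (k : ℤ) ≤ u.2 → (k : ℤ) ≤ N - u.2 →
        ω ∈ Arm u k := by
      rintro u ⟨w, hw, hc⟩ a1 a2 a3 a4
      have hc' : Conn ω (rect 0 N 0 N) u w :=
        (hc.mono le_rfl fun e' he' => hO e' (by simpa using he')).symm
      refine hc'.mem_arm ?_
      obtain ⟨_, hw⟩ := hw
      rcases hw with h | h | h | h <;> [left; left; right; right] <;> rw [h] <;>
        rcases abs_cases ((0 : ℤ) - u.1) with h5 | h5 <;>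
        rcases abs_cases ((N : ℤ) - u.1) with h6 | h6 <;>
        rcases abs_cases ((0 : ℤ) - u.2) with h7 | h7 <;>
        rcases abs_cases ((N : ℤ) - u.2) with h8 | h8 <;> omega
    have hDual : ∀ φ : Vert, φ ∈ reachF N (expl (torusRule N) ω m).2 →
        (k : ℤ) ≤ φ.1 → (k : ℤ) ≤ N - 1 - φ.1 → (k : ℤ) ≤ φ.2 → (k : ℤ) ≤ N - 1 - φ.2 →
        dual ω ∈ Arm φ k := by
      rintro u ⟨w, hw, hc⟩ a1 a2 a3 a4
      have hc' : Conn (dual ω) (rect 0 (N - 1) 0 (N - 1)) u w :=
        (hc.mono le_rfl fun e' he' => by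
          simp only [decide_eq_true_eq] at he'
          simp [dual, hC _ he']).symm
      refine hc'.mem_arm ?_
      obtain ⟨_, hw⟩ := hw
      rcases hw with h | h | h | h <;> [left; left; right; right] <;> rw [h] <;>
        rcases abs_cases ((0 : ℤ) - u.1) with h5 | h5 <;>
        rcases abs_cases ((N : ℤ) - 1 - u.1) with h6 | h6 <;>
        rcases abs_cases ((0 : ℤ) - u.2) with h7 | h7 <;>
        rcases abs_cases ((N : ℤ) - 1 - u.2) with h8 | h8 <;> omega
    have hsrcA : src e ∈ reachV N (expl (torusRule N) ω m).1 → ω ∈ Arm (src e) k := fun h =>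
      hArm _ h (by simp only [src]; omega) (by simp only [src]; omega)
        (by simp only [src]; omega) (by simp only [src]; omega)
    have htgtA : tgt e ∈ reachV N (expl (torusRule N) ω m).1 → ω ∈ Arm (tgt e) k := fun h => by
      apply hArm _ h <;> unfold tgt <;> split_ifs <;> simp only <;> omega
    have hD1 : src e ∈ reachF N (expl (torusRule N) ω m).2 → dual ω ∈ Arm (src e) k := fun h =>
      hDual _ h (by simp only [src]; omega) (by simp only [src]; omega)
        (by simp only [src]; omega) (by simp only [src]; omega)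
    have hD2 : φ' ∈ reachF N (expl (torusRule N) ω m).2 → dual ω ∈ Arm φ' k := fun h => by
      apply hDual _ h <;> rw [hφ'] <;> split_ifs <;> simp only <;> omega
    rcases hφ with hφ | hφ
    · subst hφ
      rcases hV with hV | hV
      · exact Or.inl (Or.inl ⟨hsrcA hV, hD1 hφr⟩)
      · exact Or.inr (Or.inl ⟨htgtA hV, hD1 hφr⟩)
    · rw [← hφ'] at hφ
      subst hφ
      rcases hV with hV | hV
      · exact Or.inl (Or.inr ⟨hsrcA hV, hD2 hφr⟩)
      · exact Or.inr (Or.inr ⟨htgtA hV, hD2 hφr⟩)
  refine (Pr_mono hsub).trans ?_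
  refine (Pr_union_le).trans ?_
  have ha := hev (src e) (src e)
  have hb := hev (src e) φ'
  have hc := hev (tgt e) (src e)
  have hd := hev (tgt e) φ'
  have hl := Pr_union_le (p := q) (A := Arm (src e) k ∩ {ω | dual ω ∈ Arm (src e) k})
    (B := Arm (src e) k ∩ {ω | dual ω ∈ Arm φ' k})
  have hl' := Pr_union_le (p := q) (A := Arm (tgt e) k ∩ {ω | dual ω ∈ Arm (src e) k})
    (B := Arm (tgt e) k ∩ {ω | dual ω ∈ Arm φ' k})
  linarith

end Pool.Agent.H89.Perc
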