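import Pool.Agent.H89.Perc.TorusSym
import Pool.Agent.H89.Perc.WindExcl

/-!
# Lower and upper bounds for the probability of the winding event
-/

open MeasureTheory ProbabilityTheory unitInterval

namespace Pool.Agent.H89.Perc

/-- The event that `u` and `v` are joined inside a rectangle. -/
private def wbE (a b c d : ℤ) (u v : Vert) : Set Config := {ω | Conn ω (rect a b c d) u v}

private lemma wbE_local (a b c d : ℤ) (u v : Vert) : LocalOn (eRect a b c d) (wbE a b c d u v) :=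
  localOn_conn u v

private lemma wbE_incr (a b c d : ℤ) (u v : Vert) : Incr (wbE a b c d u v) :=
  incr_conn _ u v

private lemma wb_reflX_inj (z : ℤ) : Function.Injective (reflX z) := by
  rintro ⟨x, y, b⟩ ⟨x', y', b'⟩ h
  cases b <;> cases b' <;> simp [reflX] at h ⊢ <;> omega

private lemma wb_reflY_inj (z : ℤ) : Function.Injective (reflY z) := by
  rintro ⟨x, y, b⟩ ⟨x', y', b'⟩ h
  cases b <;> cases b' <;> simp [reflY] at h ⊢ <;> omega

private lemma wb_swap_inj : Function.Injective swapE := by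
  rintro ⟨x, y, b⟩ ⟨x', y', b'⟩ h
  cases b <;> cases b' <;> simp [swapE] at h ⊢ <;> omega

private lemma wb_shift_inj (z : Vert) : Function.Injective (shiftE z) := by
  rintro ⟨x, y, b⟩ ⟨x', y', b'⟩ h
  cases b <;> cases b' <;> simp [shiftE] at h ⊢ <;> omega

private lemma wb_reflX (q : I) (z a b c d x1 y1 x2 y2 : ℤ) :
    Pr q (wbE (z - b) (z - a) c d (z - x1, y1) (z - x2, y2)) =
      Pr q (wbE a b c d (x1, y1) (x2, y2)) := by
  rw [← Pr_comp (wbE_local a b c d (x1, y1) (x2, y2)) (wb_reflX_inj z).injOn]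
  congr 1
  ext ω
  change _ ↔ Conn (fun e => ω (reflX z e)) (rect a b c d) (x1, y1) (x2, y2)
  rw [conn_reflX]
  have : {w : Vert | (z - w.1, w.2) ∈ rect a b c d} = rect (z - b) (z - a) c d := by
    ext w
    simp only [rect, Set.mem_ofPred_eq]
    omega
  rw [this]
  rfl

private lemma wb_reflY (q : I) (z a b c d x1 y1 x2 y2 : ℤ) :
    Pr q (wbE a b (z - d) (z - c) (x1, z - y1) (x2, z - y2)) =
      Pr q (wbE a b c d (x1, y1) (x2, y2)) := by
  rw [← Pr_comp (wbE_local a b c d (x1, y1) (x2, y2)) (wb_reflY_inj z).injOn]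
  congr 1
  ext ω
  change _ ↔ Conn (fun e => ω (reflY z e)) (rect a b c d) (x1, y1) (x2, y2)
  rw [conn_reflY]
  have : {w : Vert | (w.1, z - w.2) ∈ rect a b c d} = rect a b (z - d) (z - c) := by
    ext w
    simp only [rect, Set.mem_ofPred_eq]
    omega
  rw [this]
  rfl

private lemma wb_swap (q : I) (a b c d x1 y1 x2 y2 : ℤ) :
    Pr q (wbE c d a b (y1, x1) (y2, x2)) = Pr q (wbE a b c d (x1, y1) (x2, y2)) := by
  rw [← Pr_comp (wbE_local a b c d (x1, y1) (x2, y2)) wb_swap_inj.injOn]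
  congr 1
  ext ω
  change _ ↔ Conn (fun e => ω (swapE e)) (rect a b c d) (x1, y1) (x2, y2)
  rw [conn_swap]
  have : {w : Vert | (w.2, w.1) ∈ rect a b c d} = rect c d a b := by
    ext w
    simp only [rect, Set.mem_ofPred_eq]
    omega
  rw [this]
  rfl

private lemma wb_shift (q : I) (z1 z2 a b c d x1 y1 x2 y2 : ℤ) :
    Pr q (wbE (a + z1) (b + z1) (c + z2) (d + z2) (x1 + z1, y1 + z2) (x2 + z1, y2 + z2)) =
      Pr q (wbE a b c d (x1, y1) (x2, y2)) := by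
  rw [← Pr_comp (wbE_local a b c d (x1, y1) (x2, y2)) (wb_shift_inj (z1, z2)).injOn]
  congr 1
  ext ω
  change _ ↔ Conn (fun e => ω (shiftE (z1, z2) e)) (rect a b c d) (x1, y1) (x2, y2)
  rw [conn_shift]
  have : {w : Vert | (w.1 - ((z1, z2) : Vert).1, w.2 - ((z1, z2) : Vert).2) ∈ rect a b c d} =
      rect (a + z1) (b + z1) (c + z2) (d + z2) := by
    ext w
    simp only [rect, Set.mem_ofPred_eq]
    omega
  rw [this]
  rfl

/-- Probability that the origin is joined to `(r, y)` in the ball. -/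
private noncomputable def wbg (q : I) (r : ℕ) (y : ℤ) : ℝ :=
  Pr q (wbE (-r) r (-r) r (0, 0) (r, y))

private lemma wbg_left (q : I) (r : ℕ) (y : ℤ) :
    Pr q (wbE (-r) r (-r) r (0, 0) (-r, y)) = wbg q r y := by
  have := wb_reflX q 0 (-r) r (-r) r 0 0 r y
  simpa [wbg] using this

private lemma wbg_top (q : I) (r : ℕ) (y : ℤ) :
    Pr q (wbE (-r) r (-r) r (0, 0) (y, r)) = wbg q r y := by
  have := wb_swap q (-r) r (-r) r 0 0 r y
  simpa [wbg] using this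

private lemma wbg_bottom (q : I) (r : ℕ) (y : ℤ) :
    Pr q (wbE (-r) r (-r) r (0, 0) (y, -r)) = wbg q r y := by
  have := wb_reflY q 0 (-r) r (-r) r 0 0 y r
  rw [wbg_top] at this
  simpa [wbg] using this

private def wbv (r : ℕ) (i : Fin 4 × ℤ) : Vert :=
  if i.1 = 0 then ((r : ℤ), i.2) else if i.1 = 1 then (-(r : ℤ), -i.2) else
    if i.1 = 2 then (-i.2, (r : ℤ)) else (i.2, -(r : ℤ))

private lemma wbv_zero (r : ℕ) (t : ℤ) : wbv r (0, t) = ((r : ℤ), t) := rfl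
private lemma wbv_one (r : ℕ) (t : ℤ) : wbv r (1, t) = (-(r : ℤ), -t) := rfl
private lemma wbv_two (r : ℕ) (t : ℤ) : wbv r (2, t) = (-t, (r : ℤ)) := rfl
private lemma wbv_three (r : ℕ) (t : ℤ) : wbv r (3, t) = (t, -(r : ℤ)) := rfl

private lemma wb_arm_incl {r : ℕ} (hr : 1 ≤ r) {ω : Config} (hω : ω ∈ Arm 0 r) :
    ∃ i ∈ (Finset.univ : Finset (Fin 4)) ×ˢ Finset.Icc (-(r : ℤ)) (r - 1),
      ω ∈ wbE (-r) r (-r) r (0, 0) (wbv r i) := by
  obtain ⟨⟨x, y⟩, ⟨hb, hs⟩, hc⟩ := hω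
  have hball : ball 0 r = rect (-r) r (-r) r := by
    ext w
    have h0 : ((0 : Vert).1) = 0 := rfl
    have h1 : ((0 : Vert).2) = 0 := rfl
    simp only [mem_ball, rect, Set.mem_ofPred_eq, h0, h1]
    omega
  rw [hball] at hc
  have h0 : ((0 : Vert).1) = 0 := rfl
  have h1 : ((0 : Vert).2) = 0 := rfl
  simp only [mem_ball, h0, h1] at hb hs
  have hcase : (x = r ∧ y < r) ∨ (x = -r ∧ -r < y) ∨ (y = r ∧ -r < x) ∨ (y = -r ∧ x < r) := by
    omega
  rcases hcase with ⟨hx, hy⟩ | ⟨hx, hy⟩ | ⟨hy, hx⟩ | ⟨hy, hx⟩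
  · refine ⟨(0, y), ?_, ?_⟩
    · simp only [Finset.mem_product, Finset.mem_univ, true_and, Finset.mem_Icc]; omega
    · have e : wbv r (0, y) = (x, y) := by rw [wbv_zero, hx]
      rw [e]; exact hc
  · refine ⟨(1, -y), ?_, ?_⟩
    · simp only [Finset.mem_product, Finset.mem_univ, true_and, Finset.mem_Icc]; omega
    · have e : wbv r (1, -y) = (x, y) := by rw [wbv_one, hx, neg_neg]
      rw [e]; exact hc
  · refine ⟨(2, -x), ?_, ?_⟩
    · simp only [Finset.mem_product, Finset.mem_univ, true_and, Finset.mem_Icc]; omega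
    · have e : wbv r (2, -x) = (x, y) := by rw [wbv_two, hy, neg_neg]
      rw [e]; exact hc
  · refine ⟨(3, x), ?_, ?_⟩
    · simp only [Finset.mem_product, Finset.mem_univ, true_and, Finset.mem_Icc]; omega
    · have e : wbv r (3, x) = (x, y) := by rw [wbv_three, hy]
      rw [e]; exact hc

private lemma wb_choose (q : I) {r : ℕ} (hr : 1 ≤ r) :
    ∃ y : ℤ, -r ≤ y ∧ y ≤ r ∧ arm q r / (8 * r) ≤ wbg q r y := by
  by_contra hcon
  push Not at hcon
  set F : Finset (Fin 4 × ℤ) := (Finset.univ : Finset (Fin 4)) ×ˢ Finset.Icc (-(r : ℤ)) (r - 1)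
    with hF
  have hcard : (F.card : ℝ) = 8 * r := by
    rw [hF, Finset.card_product, Int.card_Icc]
    have : ((r : ℤ) - 1 + 1 - -(r : ℤ)).toNat = 2 * r := by omega
    rw [this]
    simp
    ring
  have hrpos : (0 : ℝ) < 8 * r := by
    have : (1 : ℝ) ≤ r := by exact_mod_cast hr
    linarith
  have hne : F.Nonempty := by
    rw [← Finset.card_pos]
    have : (0 : ℝ) < F.card := by rw [hcard]; exact hrpos
    exact_mod_cast this
  have h1 : arm q r ≤ ∑ i ∈ F, Pr q (wbE (-r) r (-r) r (0, 0) (wbv r i)) := by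
    calc arm q r = Pr q (Arm 0 r) := rfl
      _ ≤ Pr q (⋃ i ∈ F, wbE (-r) r (-r) r (0, 0) (wbv r i)) := by
          refine Pr_mono ?_
          intro ω hω
          obtain ⟨i, hi, h1⟩ := wb_arm_incl hr hω
          simp only [Set.mem_iUnion]
          exact ⟨i, hi, h1⟩
      _ ≤ _ := Pr_biUnion_le F _
  have h2 : ∑ i ∈ F, Pr q (wbE (-r) r (-r) r (0, 0) (wbv r i)) < ∑ _i ∈ F, arm q r / (8 * r) := by
    apply Finset.sum_lt_sum_of_nonempty hne
    rintro ⟨j, t⟩ hi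
    rw [hF, Finset.mem_product, Finset.mem_Icc] at hi
    simp only at hi
    fin_cases j
    · change Pr q (wbE (-r) r (-r) r (0, 0) (r, t)) < _
      exact hcon t (by omega) (by omega)
    · change Pr q (wbE (-r) r (-r) r (0, 0) (-r, -t)) < _
      rw [wbg_left]
      exact hcon (-t) (by omega) (by omega)
    · change Pr q (wbE (-r) r (-r) r (0, 0) (-t, r)) < _
      rw [wbg_top]
      exact hcon (-t) (by omega) (by omega)
    · change Pr q (wbE (-r) r (-r) r (0, 0) (t, -r)) < _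
      rw [wbg_bottom]
      exact hcon t (by omega) (by omega)
  rw [Finset.sum_const, nsmul_eq_mul, hcard, mul_div_cancel₀ _ hrpos.ne'] at h2
  linarith

/-! ### The torus -/

/-- Reduction modulo `N`. -/
private def wbφ (N : ℕ) (e : Edge) : Edge := (e.1 % N, e.2.1 % N, e.2.2)

private lemma wb_mod {N : ℕ} {x y a b : ℤ} (hab : b - a < N) (hx : a ≤ x ∧ x ≤ b)
    (hy : a ≤ y ∧ y ≤ b) (h : x % N = y % N) : x = y := by
  have hd : (N : ℤ) ∣ x - y := Int.ModEq.dvd (Int.ModEq.symm h)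
  have : x - y = 0 := by
    apply Int.eq_zero_of_abs_lt_dvd hd
    rw [abs_lt]
    omega
  omega

private lemma wbφ_injOn {N : ℕ} {a b c d : ℤ} (hab : b - a < N) (hcd : d - c < N) :
    Set.InjOn (wbφ N) (eRect a b c d : Set Edge) := by
  rintro ⟨x, y, t⟩ h1 ⟨x', y', t'⟩ h2 h
  rw [Finset.mem_coe, mem_eRect] at h1 h2
  simp only [src, rect, Set.mem_ofPred_eq] at h1 h2
  simp only [wbφ, Prod.mk.injEq] at h
  obtain ⟨h3, h4, h5⟩ := h
  rw [wb_mod hab ⟨h1.1, h1.2.1⟩ ⟨h2.1, h2.2.1⟩ h3,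
    wb_mod hcd ⟨h1.2.2.1, h1.2.2.2⟩ ⟨h2.2.2.1, h2.2.2.2⟩ h4, h5]

private lemma wbφc_injOn {N : ℕ} {a b c d : ℤ} (hab : b - a < N) (hcd : d - c < N) :
    Set.InjOn (fun e => wbφ N (crossed e)) (eRect a b c d : Set Edge) := by
  rintro ⟨x, y, t⟩ h1 ⟨x', y', t'⟩ h2 h
  rw [Finset.mem_coe, mem_eRect] at h1 h2
  simp only [src, rect, Set.mem_ofPred_eq] at h1 h2
  cases t <;> cases t'
  · simp only [wbφ, crossed, Prod.mk.injEq, Bool.false_eq_true, if_false] at h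
    have e1 := wb_mod (a := a + 1) (b := b + 1) (by omega) (by omega) (by omega) h.1
    have e2 := wb_mod hcd ⟨h1.2.2.1, h1.2.2.2⟩ ⟨h2.2.2.1, h2.2.2.2⟩ h.2.1
    simp only [Prod.mk.injEq, and_true]
    omega
  · simp [wbφ, crossed] at h
  · simp [wbφ, crossed] at h
  · simp only [wbφ, crossed, Prod.mk.injEq, if_true] at h
    have e1 := wb_mod hab ⟨h1.1, h1.2.1⟩ ⟨h2.1, h2.2.1⟩ h.1
    have e2 := wb_mod (a := c + 1) (b := d + 1) (by omega) (by omega) (by omega) h.2.1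
    simp only [Prod.mk.injEq, and_true]
    omega

private lemma wb_per_Pr (q : I) {N : ℕ} {a b c d : ℤ} (hab : b - a < N) (hcd : d - c < N)
    (u v : Vert) :
    Pr q {ω | per N ω ∈ wbE a b c d u v} = Pr q (wbE a b c d u v) :=
  Pr_comp (wbE_local a b c d u v) (wbφ_injOn hab hcd)

private lemma wb_per_local (N : ℕ) (a b c d : ℤ) (u v : Vert) :
    LocalOn ((eRect a b c d).image (wbφ N)) {ω | per N ω ∈ wbE a b c d u v} := by
  intro ω ω' h hA
  refine wbE_local a b c d u v _ _ (fun e he => ?_) hA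
  exact h _ (Finset.mem_image_of_mem _ he)

private lemma wb_per_incr (N : ℕ) (a b c d : ℤ) (u v : Vert) :
    Incr {ω | per N ω ∈ wbE a b c d u v} := by
  intro ω ω' h hA
  exact wbE_incr a b c d u v _ _ (fun e he => h _ he) hA

private lemma wb_dual_Pr (q : I) {N : ℕ} {a b c d : ℤ} (hab : b - a < N) (hcd : d - c < N)
    (u v : Vert) :
    Pr q {ω | dual (per N ω) ∈ wbE a b c d u v} = Pr (σ q) (wbE a b c d u v) :=
  Pr_comp_not (wbE_local a b c d u v) (wbφc_injOn hab hcd)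

private lemma wb_dual_local (N : ℕ) (a b c d : ℤ) (u v : Vert) :
    LocalOn ((eRect a b c d).image (fun e => wbφ N (crossed e)))
      {ω | dual (per N ω) ∈ wbE a b c d u v} := by
  intro ω ω' h hA
  refine wbE_local a b c d u v _ _ (fun e he => ?_) hA
  have := h _ (Finset.mem_image_of_mem (fun e => wbφ N (crossed e)) he)
  change (!ω (wbφ N (crossed e))) = (!ω' (wbφ N (crossed e)))
  rw [this]

private lemma wb_dual_decr (N : ℕ) (a b c d : ℤ) (u v : Vert) :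
    Incr {ω | dual (per N ω) ∈ wbE a b c d u v}ᶜ := by
  intro ω ω' h hA hA'
  apply hA
  refine wbE_incr a b c d u v _ _ (fun e he => ?_) hA'
  change (!ω' (wbφ N (crossed e))) = true at he
  change (!ω (wbφ N (crossed e))) = true
  rw [Bool.not_eq_true'] at he ⊢
  by_contra hc
  rw [Bool.not_eq_false] at hc
  rw [h _ hc] at he
  exact absurd he (by decide)

private lemma wb_pow4 {x a b c d : ℝ} (hx : 0 ≤ x) (ha : x ≤ a) (hb : x ≤ b) (hc : x ≤ c)
    (hd : x ≤ d) : x ^ 4 ≤ (a * b) * (c * d) := by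
  have h1 : x * x ≤ a * b := mul_le_mul ha hb hx (hx.trans ha)
  have h2 : x * x ≤ c * d := mul_le_mul hc hd hx (hx.trans hc)
  calc x ^ 4 = (x * x) * (x * x) := by ring
    _ ≤ (a * b) * (c * d) := mul_le_mul h1 h2 (mul_nonneg hx hx) ((mul_nonneg hx hx).trans h1)

private lemma wb_fkg4 {q : I} {s1 s2 s3 s4 : Finset Edge} {A B C D : Set Config}
    (lA : LocalOn s1 A) (lB : LocalOn s2 B) (lC : LocalOn s3 C) (lD : LocalOn s4 D)
    (iA : Incr A) (iB : Incr B) (iC : Incr C) (iD : Incr D) :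
    (Pr q A * Pr q B) * (Pr q C * Pr q D) ≤ Pr q ((A ∩ B) ∩ (C ∩ D)) := by
  classical
  have h1 := fkg (p := q) lA lB iA iB
  have h2 := fkg (p := q) lC lD iC iD
  have h3 := fkg (p := q) (lA.inter' lB) (lC.inter' lD) (iA.inter iB) (iC.inter iD)
  calc (Pr q A * Pr q B) * (Pr q C * Pr q D)
      ≤ Pr q (A ∩ B) * Pr q (C ∩ D) :=
        mul_le_mul h1 h2 (mul_nonneg Pr_nonneg Pr_nonneg) Pr_nonneg
    _ ≤ _ := h3

private lemma wb_decr_inter {A B : Set Config} (iA : Incr Aᶜ) (iB : Incr Bᶜ) :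
    Incr (A ∩ B)ᶜ := by
  rw [Set.compl_inter]
  exact iA.union iB

private lemma wb_fkg4_decr {q : I} {s1 s2 s3 s4 : Finset Edge} {A B C D : Set Config}
    (lA : LocalOn s1 A) (lB : LocalOn s2 B) (lC : LocalOn s3 C) (lD : LocalOn s4 D)
    (iA : Incr Aᶜ) (iB : Incr Bᶜ) (iC : Incr Cᶜ) (iD : Incr Dᶜ) :
    (Pr q A * Pr q B) * (Pr q C * Pr q D) ≤ Pr q ((A ∩ B) ∩ (C ∩ D)) := by
  classical
  have h1 := fkg_decr (p := q) lA lB iA iB
  have h2 := fkg_decr (p := q) lC lD iC iD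
  have h3 := fkg_decr (p := q) (lA.inter' lB) (lC.inter' lD) (wb_decr_inter iA iB)
    (wb_decr_inter iC iD)
  calc (Pr q A * Pr q B) * (Pr q C * Pr q D)
      ≤ Pr q (A ∩ B) * Pr q (C ∩ D) :=
        mul_le_mul h1 h2 (mul_nonneg Pr_nonneg Pr_nonneg) Pr_nonneg
    _ ≤ _ := h3

/-- Winding is at least polynomially likely. -/
theorem wind_lower {r : ℕ} (hr : 1 ≤ r) (q : I) :
    (arm q r / (8 * r)) ^ 4 ≤ Pr q (Wind (4 * r)) := by
  obtain ⟨y, hy1, hy2, hy⟩ := wb_choose q hr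
  have hN : ((4 * r : ℕ) : ℤ) = 4 * r := by push_cast; ring
  have hr' : (1 : ℤ) ≤ r := by exact_mod_cast hr
  have hx0 : 0 ≤ arm q r / (8 * r) := div_nonneg arm_nonneg (by positivity)
  -- the four events
  have p1 : Pr q {ω | per (4 * r) ω ∈ wbE (-r) r (-r) r (0, 0) (r, y)} = wbg q r y := by
    rw [wb_per_Pr q (by omega) (by omega)]
    rfl
  have p2 : Pr q {ω | per (4 * r) ω ∈ wbE (2 * r - r) (2 * r - -r) (-r) r (2 * r - 0, 0)
      (2 * r - r, y)} = wbg q r y := by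
    rw [wb_per_Pr q (by omega) (by omega), wb_reflX q (2 * r) (-r) r (-r) r 0 0 r y]
    rfl
  have p3 : Pr q {ω | per (4 * r) ω ∈ wbE (-r + 2 * r) (r + 2 * r) (-r + 0) (r + 0)
      (0 + 2 * r, 0 + 0) (r + 2 * r, y + 0)} = wbg q r y := by
    rw [wb_per_Pr q (by omega) (by omega), wb_shift q (2 * r) 0 (-r) r (-r) r 0 0 r y]
    rfl
  have p4 : Pr q {ω | per (4 * r) ω ∈ wbE (4 * r - r) (4 * r - -r) (-r) r (4 * r - 0, 0)
      (4 * r - r, y)} = wbg q r y := by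
    rw [wb_per_Pr q (by omega) (by omega), wb_reflX q (4 * r) (-r) r (-r) r 0 0 r y]
    rfl
  have key := wb_fkg4 (q := q)
    (wb_per_local (4 * r) (-r) r (-r) r (0, 0) (r, y))
    (wb_per_local (4 * r) (2 * r - r) (2 * r - -r) (-r) r (2 * r - 0, 0) (2 * r - r, y))
    (wb_per_local (4 * r) (-r + 2 * r) (r + 2 * r) (-r + 0) (r + 0) (0 + 2 * r, 0 + 0)
      (r + 2 * r, y + 0))
    (wb_per_local (4 * r) (4 * r - r) (4 * r - -r) (-r) r (4 * r - 0, 0) (4 * r - r, y))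
    (wb_per_incr _ _ _ _ _ _ _) (wb_per_incr _ _ _ _ _ _ _) (wb_per_incr _ _ _ _ _ _ _)
    (wb_per_incr _ _ _ _ _ _ _)
  rw [p1, p2, p3, p4] at key
  refine (wb_pow4 hx0 hy hy hy hy).trans (key.trans (Pr_mono ?_))
  rintro ω ⟨⟨h1, h2⟩, ⟨h3, h4⟩⟩
  have h1' : Conn (per (4 * r) ω) Set.univ (0, 0) (r, y) :=
    Conn.mono_set (Set.subset_univ _) h1
  have h2' : Conn (per (4 * r) ω) Set.univ (2 * r - 0, 0) (2 * r - r, y) :=
    Conn.mono_set (Set.subset_univ _) h2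
  have h3' : Conn (per (4 * r) ω) Set.univ (0 + 2 * r, 0 + 0) (r + 2 * r, y + 0) :=
    Conn.mono_set (Set.subset_univ _) h3
  have h4' : Conn (per (4 * r) ω) Set.univ (4 * r - 0, 0) (4 * r - r, y) :=
    Conn.mono_set (Set.subset_univ _) h4
  have e2 : (2 * (r : ℤ) - r, y) = ((r : ℤ), y) := by congr 1; ring
  have e3 : ((0 : ℤ) + 2 * r, (0 : ℤ) + 0) = (2 * (r : ℤ) - 0, (0 : ℤ)) := by
    rw [Prod.mk.injEq]; constructor <;> ring
  have e4 : ((r : ℤ) + 2 * r, y + 0) = (4 * (r : ℤ) - r, y) := by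
    rw [Prod.mk.injEq]; constructor <;> ring
  rw [e2] at h2'
  rw [e3, e4] at h3'
  have hall := ((h1'.trans h2'.symm).trans h3').trans h4'.symm
  refine ⟨(0, 0), 1, 0, one_ne_zero, ?_⟩
  have e5 : (((0, 0) : Vert).1 + 1 * ((4 * r : ℕ) : ℤ), ((0, 0) : Vert).2 + 0 * ((4 * r : ℕ) : ℤ))
      = (4 * (r : ℤ) - 0, (0 : ℤ)) := by
    rw [Prod.mk.injEq, hN]; constructor <;> ring
  rw [e5]
  exact hall

theorem wind_upper {r : ℕ} (hr : 1 ≤ r) (q : I) :
    (arm (σ q) r / (8 * r)) ^ 4 ≤ 1 - Pr q (Wind (4 * r)) := by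
  obtain ⟨y, hy1, hy2, hy⟩ := wb_choose (σ q) hr
  have hN : ((4 * r : ℕ) : ℤ) = 4 * r := by push_cast; ring
  have hr' : (1 : ℤ) ≤ r := by exact_mod_cast hr
  have hx0 : 0 ≤ arm (σ q) r / (8 * r) := div_nonneg arm_nonneg (by positivity)
  have p1 : Pr q {ω | dual (per (4 * r) ω) ∈ wbE (-r) r (-r) r (0, 0) (y, r)} =
      wbg (σ q) r y := by
    rw [wb_dual_Pr q (by omega) (by omega), wbg_top]
  have p2 : Pr q {ω | dual (per (4 * r) ω) ∈ wbE (-r) r (2 * r - r) (2 * r - -r) (0, 2 * r - 0)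
      (y, 2 * r - r)} = wbg (σ q) r y := by
    rw [wb_dual_Pr q (by omega) (by omega), wb_reflY (σ q) (2 * r) (-r) r (-r) r 0 0 y r,
      wbg_top]
  have p3 : Pr q {ω | dual (per (4 * r) ω) ∈ wbE (-r + 0) (r + 0) (-r + 2 * r) (r + 2 * r)
      (0 + 0, 0 + 2 * r) (y + 0, r + 2 * r)} = wbg (σ q) r y := by
    rw [wb_dual_Pr q (by omega) (by omega), wb_shift (σ q) 0 (2 * r) (-r) r (-r) r 0 0 y r,
      wbg_top]
  have p4 : Pr q {ω | dual (per (4 * r) ω) ∈ wbE (-r) r (4 * r - r) (4 * r - -r) (0, 4 * r - 0)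
      (y, 4 * r - r)} = wbg (σ q) r y := by
    rw [wb_dual_Pr q (by omega) (by omega), wb_reflY (σ q) (4 * r) (-r) r (-r) r 0 0 y r,
      wbg_top]
  have key := wb_fkg4_decr (q := q)
    (wb_dual_local (4 * r) (-r) r (-r) r (0, 0) (y, r))
    (wb_dual_local (4 * r) (-r) r (2 * r - r) (2 * r - -r) (0, 2 * r - 0) (y, 2 * r - r))
    (wb_dual_local (4 * r) (-r + 0) (r + 0) (-r + 2 * r) (r + 2 * r) (0 + 0, 0 + 2 * r)
      (y + 0, r + 2 * r))
    (wb_dual_local (4 * r) (-r) r (4 * r - r) (4 * r - -r) (0, 4 * r - 0) (y, 4 * r - r))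
    (wb_dual_decr _ _ _ _ _ _ _) (wb_dual_decr _ _ _ _ _ _ _) (wb_dual_decr _ _ _ _ _ _ _)
    (wb_dual_decr _ _ _ _ _ _ _)
  rw [p1, p2, p3, p4] at key
  rw [← Pr_compl (localOn_wind (N := 4 * r) (by omega))]
  refine (wb_pow4 hx0 hy hy hy hy).trans (key.trans (Pr_mono ?_))
  rintro ω ⟨⟨h1, h2⟩, ⟨h3, h4⟩⟩ hW
  have h1' : Conn (dual (per (4 * r) ω)) Set.univ (0, 0) (y, r) :=
    Conn.mono_set (Set.subset_univ _) h1
  have h2' : Conn (dual (per (4 * r) ω)) Set.univ (0, 2 * r - 0) (y, 2 * r - r) :=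
    Conn.mono_set (Set.subset_univ _) h2
  have h3' : Conn (dual (per (4 * r) ω)) Set.univ (0 + 0, 0 + 2 * r) (y + 0, r + 2 * r) :=
    Conn.mono_set (Set.subset_univ _) h3
  have h4' : Conn (dual (per (4 * r) ω)) Set.univ (0, 4 * r - 0) (y, 4 * r - r) :=
    Conn.mono_set (Set.subset_univ _) h4
  have e2 : (y, 2 * (r : ℤ) - r) = (y, (r : ℤ)) := by congr 1; ring
  have e3 : ((0 : ℤ) + 0, (0 : ℤ) + 2 * r) = ((0 : ℤ), 2 * (r : ℤ) - 0) := by
    rw [Prod.mk.injEq]; constructor <;> ring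
  have e4 : (y + 0, (r : ℤ) + 2 * r) = (y, 4 * (r : ℤ) - r) := by
    rw [Prod.mk.injEq]; constructor <;> ring
  rw [e2] at h2'
  rw [e3, e4] at h3'
  have hall := ((h1'.trans h2'.symm).trans h3').trans h4'.symm
  refine wind_exclusion (N := 4 * r) (by omega) hW (0, 0) ?_
  have e5 : (((0, 0) : Vert).1, ((0, 0) : Vert).2 + ((4 * r : ℕ) : ℤ))
      = ((0 : ℤ), 4 * (r : ℤ) - 0) := by
    rw [Prod.mk.injEq, hN]; constructor <;> ring
  rw [e5]
  exact hall

end Pool.Agent.H89.Perc
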