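import Pool.Agent.H89.Perc.TorusVar
import Pool.Agent.H89.Perc.WindBounds
import Pool.Agent.H89.Perc.Russo

/-!
# Consequence of the threshold inequality
-/

open MeasureTheory ProbabilityTheory unitInterval

namespace Pool.Agent.H89.Perc

/-- Consequence of the threshold inequality. -/
theorem torus_threshold {r : ℕ} (hr : 1 ≤ r) {p : I} (hp : half ≤ p) (hp1 : (p : ℝ) < 1) :
    (arm half r / (8 * r)) ^ 4 * (arm (σ p) r / (8 * r)) ^ 4 ≤
      Real.exp (-2 * ((p : ℝ) - 1 / 2) * r /
        (5 * ∑ k ∈ Finset.range (4 * r), arm p k * arm half k)) := by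
  set S : ℝ := ∑ k ∈ Finset.range (4 * r), arm p k * arm half k with hS
  have hr0 : (0 : ℝ) < r := by exact_mod_cast hr
  have hSpos : 0 < S := by
    have h0 : (0 : ℕ) ∈ Finset.range (4 * r) := Finset.mem_range.2 (by omega)
    have h1 : arm p 0 * arm half 0 ≤ S :=
      Finset.single_le_sum (f := fun k => arm p k * arm half k)
        (fun k _ => mul_nonneg arm_nonneg arm_nonneg) h0
    rw [arm_zero, arm_zero] at h1
    linarith
  have hhalf : ((half : I) : ℝ) = 1 / 2 := rfl
  have hcast : ((4 * r : ℕ) : ℝ) = 4 * r := by push_cast; ring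
  -- the variance inequality
  have hvar : ∀ q : I, half ≤ q → q ≤ p →
      Pr q (Wind (4 * r)) * (1 - Pr q (Wind (4 * r))) ≤
        (5 * S / r) / 2 * ∑ e ∈ tEdges (4 * r), pivot q (Wind (4 * r)) e := by
    intro q hq hqp
    refine (torus_var (N := 4 * r) (by omega) q).trans ?_
    have hσ : σ q ≤ half := by
      rw [← Subtype.coe_le_coe, coe_symm_eq, hhalf]
      have : ((half : I) : ℝ) ≤ q := hq
      rw [hhalf] at this
      linarith
    have hsum : ∑ k ∈ Finset.range (4 * r), arm q k * arm (σ q) k ≤ S :=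
      Finset.sum_le_sum fun k _ => mul_le_mul (arm_mono_param k hqp) (arm_mono_param k hσ)
        arm_nonneg arm_nonneg
    have hpiv : 0 ≤ ∑ e ∈ tEdges (4 * r), pivot q (Wind (4 * r)) e := by
      refine Finset.sum_nonneg fun e _ => ?_
      refine sub_nonneg.2 (Pr_mono fun ω hω => ?_)
      refine incr_wind (4 * r) _ _ (fun e' h' => ?_) hω
      by_cases he : e' = e
      · subst he; simp
      · rw [Function.update_of_ne he] at h' ⊢; exact h'
    refine mul_le_mul_of_nonneg_right ?_ hpiv
    rw [hcast]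
    calc 10 / (4 * (r : ℝ)) * ∑ k ∈ Finset.range (4 * r), arm q k * arm (σ q) k
        ≤ 10 / (4 * (r : ℝ)) * S := mul_le_mul_of_nonneg_left hsum (by positivity)
      _ = (5 * S / r) / 2 := by field_simp; norm_num
  have key := threshold (localOn_wind (N := 4 * r) (by omega)) (incr_wind (4 * r)) (p₀ := half)
    (p₁ := p) (by rw [hhalf]; norm_num) hp hp1 (δ := 5 * S / r) (by positivity) hvar
  have hl := wind_lower hr half
  have hu := wind_upper hr p
  have hprod : (arm half r / (8 * r)) ^ 4 * (arm (σ p) r / (8 * r)) ^ 4 ≤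
      Pr half (Wind (4 * r)) * (1 - Pr p (Wind (4 * r))) :=
    mul_le_mul hl hu (by positivity) Pr_nonneg
  refine (hprod.trans key).trans (le_of_eq ?_)
  congr 1
  rw [hhalf]
  field_simp

end Pool.Agent.H89.Perc
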