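import Pool.Agent.H89.Perc.TorusSym
import Pool.Agent.H89.Perc.TorusDet
import Pool.Agent.H89.Perc.TorusReveal

/-!
# The OSSS inequality for the winding event
-/

open MeasureTheory ProbabilityTheory unitInterval

namespace Pool.Agent.H89.Perc

private theorem pivot_wind_nonneg {N : ℕ} (q : I) (e : Edge) : 0 ≤ pivot q (Wind N) e := by
  unfold pivot
  rw [sub_nonneg]
  refine Pr_mono ?_
  intro ω hω
  refine incr_wind N _ _ (fun f hf => ?_) hω
  by_cases hfe : f = e
  · subst hfe; simp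
  · rw [Function.update_of_ne hfe] at hf ⊢; exact hf

/-- The weight of a coordinate at distance `n` from the boundary. -/
private noncomputable def gW (q : I) : ℕ → ℝ
  | 0 => 1
  | n + 1 => 4 * (arm q n * arm (σ q) n)

private theorem gW_nonneg (q : I) (n : ℕ) : 0 ≤ gW q n := by
  cases n with
  | zero => simp [gW]
  | succ n =>
    simp only [gW]
    have h1 : 0 ≤ arm q n := arm_nonneg
    have h2 : 0 ≤ arm (σ q) n := arm_nonneg
    positivity

private theorem sum_gW {N : ℕ} (hN : 2 ≤ N) (q : I) :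
    ∑ n ∈ Finset.range N, gW q n ≤ 5 * ∑ k ∈ Finset.range N, arm q k * arm (σ q) k := by
  obtain ⟨M, rfl⟩ : ∃ M, N = M + 1 := ⟨N - 1, by omega⟩
  rw [Finset.sum_range_succ' (gW q)]
  have h0 : gW q 0 = 1 := rfl
  have h1 : ∀ k ∈ Finset.range M, gW q (k + 1) = 4 * (arm q k * arm (σ q) k) := fun k _ => rfl
  rw [Finset.sum_congr rfl h1, ← Finset.mul_sum, h0]
  have ha : ∀ k, 0 ≤ arm q k * arm (σ q) k := fun k => mul_nonneg arm_nonneg arm_nonneg
  have h2 : ∑ k ∈ Finset.range M, arm q k * arm (σ q) k ≤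
      ∑ k ∈ Finset.range (M + 1), arm q k * arm (σ q) k := by
    rw [Finset.sum_range_succ]
    linarith [ha M]
  have h3 : (1 : ℝ) ≤ ∑ k ∈ Finset.range (M + 1), arm q k * arm (σ q) k := by
    rw [Finset.sum_range_succ' (fun k => arm q k * arm (σ q) k), arm_zero, arm_zero]
    have := Finset.sum_nonneg fun (k : ℕ) (_ : k ∈ Finset.range M) => ha (k + 1)
    linarith
  linarith

private theorem sum_Ico_toNat (N : ℕ) (f : ℕ → ℝ) :
    ∑ x ∈ Finset.Ico (0 : ℤ) N, f x.toNat = ∑ n ∈ Finset.range N, f n := by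
  refine Finset.sum_bij (fun x _ => x.toNat) ?_ ?_ ?_ ?_
  · intro x hx
    rw [Finset.mem_Ico] at hx
    rw [Finset.mem_range]; omega
  · intro x hx y hy h
    rw [Finset.mem_Ico] at hx hy
    omega
  · intro n hn
    rw [Finset.mem_range] at hn
    exact ⟨n, by rw [Finset.mem_Ico]; omega, by simp⟩
  · intro x _; rfl

private theorem sum_Ico_toNat' (N : ℕ) (f : ℕ → ℝ) :
    ∑ x ∈ Finset.Ico (0 : ℤ) N, f (N - 1 - x).toNat = ∑ n ∈ Finset.range N, f n := by
  refine Finset.sum_bij (fun x _ => (N - 1 - x).toNat) ?_ ?_ ?_ ?_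
  · intro x hx
    rw [Finset.mem_Ico] at hx
    rw [Finset.mem_range]; omega
  · intro x hx y hy h
    rw [Finset.mem_Ico] at hx hy
    omega
  · intro n hn
    rw [Finset.mem_range] at hn
    exact ⟨N - 1 - n, by rw [Finset.mem_Ico]; omega, by simp⟩
  · intro x _; rfl

/-- The OSSS inequality for the winding event. -/
theorem torus_var {N : ℕ} (hN : 2 ≤ N) (q : I) :
    Pr q (Wind N) * (1 - Pr q (Wind N)) ≤
      10 / N * (∑ k ∈ Finset.range N, arm q k * arm (σ q) k) *
        ∑ e ∈ tEdges N, pivot q (Wind N) e := by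
  have hN1 : 1 ≤ N := by omega
  set δ : Edge → ℝ := fun e => Pr q {ω | e ∈ queried (torusRule N) ω (tEdges N).card} with hδ
  set G : ℤ → ℤ → ℝ := fun x y => gW q x.toNat + gW q (N - 1 - x).toNat + gW q y.toNat +
    gW q (N - 1 - y).toNat with hG
  set Q : Finset ℤ := Finset.Ico (0 : ℤ) N with hQ
  have hcardQ : (Q.card : ℝ) = N := by rw [hQ]; simp
  -- the revealment
  have hδG : ∀ e ∈ tEdges N, δ e ≤ G e.1 e.2.1 := by
    intro e he
    have he' := he
    simp only [tEdges, Finset.mem_product, Finset.mem_Ico, Finset.mem_univ, and_true] at he'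
    have n1 := gW_nonneg q e.1.toNat
    have n2 := gW_nonneg q (N - 1 - e.1).toNat
    have n3 := gW_nonneg q e.2.1.toNat
    have n4 := gW_nonneg q (N - 1 - e.2.1).toNat
    have hρ : δ e ≤ gW q (rho N e.1 e.2.1).toNat := by
      by_cases h0 : rho N e.1 e.2.1 = 0
      · rw [h0]
        exact Pr_le_one
      · have hpos : 0 < rho N e.1 e.2.1 := by
          unfold rho at h0 ⊢
          omega
        obtain ⟨k, hk⟩ : ∃ k : ℕ, (k : ℤ) + 1 = rho N e.1 e.2.1 :=
          ⟨(rho N e.1 e.2.1 - 1).toNat, by omega⟩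
        have h2 : (rho N e.1 e.2.1).toNat = k + 1 := by omega
        rw [h2]
        exact torus_reveal hN q he hk
    have h4 : rho N e.1 e.2.1 = e.1 ∨ rho N e.1 e.2.1 = N - 1 - e.1 ∨ rho N e.1 e.2.1 = e.2.1 ∨
        rho N e.1 e.2.1 = N - 1 - e.2.1 := by
      unfold rho; omega
    rcases h4 with h4 | h4 | h4 | h4 <;> rw [h4] at hρ <;> simp only [hG] <;> linarith
  have hsumG : ∑ x ∈ Q, ∑ y ∈ Q, G x y ≤
      20 * N * ∑ k ∈ Finset.range N, arm q k * arm (σ q) k := by
    have h1 : ∑ x ∈ Q, ∑ y ∈ Q, G x y = 4 * N * ∑ n ∈ Finset.range N, gW q n := by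
      simp only [hG, Finset.sum_add_distrib, Finset.sum_const, nsmul_eq_mul, ← Finset.mul_sum]
      rw [hQ, sum_Ico_toNat N (gW q), sum_Ico_toNat' N (gW q), ← hQ, hcardQ]
      ring
    rw [h1]
    have h2 := sum_gW hN q
    have h3 : (0 : ℝ) ≤ 4 * N := by positivity
    nlinarith [mul_le_mul_of_nonneg_left h2 h3]
  -- the influences
  have h00 : ∀ d : Bool, ((0 : ℤ), (0 : ℤ), d) ∈ tEdges N := by
    intro d
    simp only [tEdges, Finset.mem_product, Finset.mem_Ico, Finset.mem_univ, and_true]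
    omega
  set c : Bool → ℝ := fun d => pivot q (Wind N) ((0 : ℤ), (0 : ℤ), d) with hc
  have hc0 : ∀ d, 0 ≤ c d := fun d => pivot_wind_nonneg q _
  have hpc : ∀ e ∈ tEdges N, pivot q (Wind N) e = c e.2.2 := fun e he =>
    pivot_wind hN1 q he (h00 _) rfl
  have hsum : ∀ F : Edge → ℝ, ∑ e ∈ tEdges N, F e = ∑ x ∈ Q, ∑ y ∈ Q, ∑ d : Bool, F (x, y, d) := by
    intro F
    unfold tEdges
    rw [Finset.sum_product]
    refine Finset.sum_congr rfl fun x _ => ?_
    rw [Finset.sum_product]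
  have hpiv : ∑ e ∈ tEdges N, pivot q (Wind N) e = N ^ 2 * (c true + c false) := by
    rw [Finset.sum_congr rfl hpc, hsum]
    simp only [Fintype.sum_bool, Finset.sum_const, nsmul_eq_mul, hcardQ]
    ring
  have hos := osss (p := q) (localOn_wind hN1) (incr_wind N) (torusRule N)
    (fun O C e h => ⟨(torusRule_spec h).1, (torusRule_spec h).2.1, (torusRule_spec h).2.2.1⟩)
    (fun ω ω' h hω => torus_det hN ω ω' h hω)
  have hmain : ∑ e ∈ tEdges N, δ e * pivot q (Wind N) e ≤
      (c true + c false) * (20 * N * ∑ k ∈ Finset.range N, arm q k * arm (σ q) k) := by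
    calc ∑ e ∈ tEdges N, δ e * pivot q (Wind N) e
        ≤ ∑ e ∈ tEdges N, G e.1 e.2.1 * c e.2.2 := by
          refine Finset.sum_le_sum fun e he => ?_
          rw [hpc e he]
          exact mul_le_mul_of_nonneg_right (hδG e he) (hc0 _)
      _ = (c true + c false) * ∑ x ∈ Q, ∑ y ∈ Q, G x y := by
          rw [hsum, Finset.mul_sum]
          refine Finset.sum_congr rfl fun x _ => ?_
          rw [Finset.mul_sum]
          refine Finset.sum_congr rfl fun y _ => ?_
          rw [Fintype.sum_bool]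
          ring
      _ ≤ _ := mul_le_mul_of_nonneg_left hsumG (add_nonneg (hc0 _) (hc0 _))
  refine hos.trans ?_
  rw [hpiv]
  have hNpos : (0 : ℝ) < N := by
    have : 0 < N := by omega
    exact_mod_cast this
  calc 1 / 2 * ∑ e ∈ tEdges N, Pr q {ω | e ∈ queried (torusRule N) ω (tEdges N).card} *
        pivot q (Wind N) e
      ≤ 1 / 2 * ((c true + c false) *
        (20 * N * ∑ k ∈ Finset.range N, arm q k * arm (σ q) k)) :=
        mul_le_mul_of_nonneg_left hmain (by norm_num)
    _ = 10 / N * (∑ k ∈ Finset.range N, arm q k * arm (σ q) k) *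
        (N ^ 2 * (c true + c false)) := by
        field_simp
        ring

end Pool.Agent.H89.Perc
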